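import Pool.Agent.Run7.h620.PD.Pair

set_option autoImplicit false

/-! The sieve products without the primes dividing a modulus. -/

namespace Pool.Agent.Run7.h620.PD

open Finset Filter

/-- the class `0` for the primes not dividing `q` -/
def Zq (q : ℕ) (p : ℕ) : Finset ℕ := if p ∣ q then ∅ else {0}

lemma Zq_card (q p : ℕ) : (Zq q p).card = if p ∣ q then 0 else 1 := by
  unfold Zq
  split_ifs <;> simp

lemma Zq_le (q p : ℕ) : (Zq q p).card ≤ 1 := by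
  rw [Zq_card]
  split_ifs <;> omega

lemma Zq_sub (q p : ℕ) (hp : p.Prime) : Zq q p ⊆ range p := by
  unfold Zq
  split_ifs
  · exact empty_subset _
  · intro z hz
    rw [mem_singleton] at hz
    rw [hz, mem_range]
    exact hp.pos

lemma sum_Zq (q N J : ℕ) : ∑ p ∈ PP N J, ((Zq q p).card : ℝ) / p = ∑ p ∈ PP N J, (1 : ℝ) / p - TJ q N J := by
  unfold TJ
  rw [sum_filter, ← sum_sub_distrib]
  refine sum_congr rfl fun p _ => ?_
  rw [Zq_card]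
  by_cases h : p ∣ q
  · rw [if_pos h, if_pos (by exact_mod_cast h)]
    simp
  · rw [if_neg h, if_neg (by exact_mod_cast h)]
    simp

lemma Wq_low (N : ℕ) (hN : 3 ≤ N) : ∃ c₁ : ℝ, 0 < c₁ ∧ ∀ J K q : ℕ, 1 ≤ K → N ≤ 2 ^ 2 ^ J → K ≤ 2 ^ 2 ^ J →
    0 < q → q ≤ 2 ^ K → c₁ * sing q / 2 ^ J ≤ ∏ p ∈ PP N J, (1 - ((Zq q p).card : ℝ) / (p : ℝ)) := by
  obtain ⟨c₀, hc₀, hlow⟩ := W_low2 1 1
  obtain ⟨CN, hCN, hm⟩ := mert_PP N hN
  refine ⟨c₀ * (Real.exp (-CN) * Real.exp (-(N + 1 : ℝ))), by positivity, fun J K q hK hNJ hKJ hq hqK => ?_⟩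
  have h1 := (abs_le.1 (hm J hNJ)).2
  have h2 := hlow (CN - TJ q N J) (fun p => (Zq q p).card) N J (by omega) (fun p _ => Zq_le q p) (by
    rw [sum_Zq]
    push_cast
    push_cast at h1
    linarith)
  refine le_trans ?_ h2
  have h3 := TJ_low q (by exact_mod_cast hq.ne') N J K 1 hK hKJ (by
    rw [Int.natAbs_natCast, one_mul]
    exact hqK)
  push_cast at h3
  have h4 : Real.exp (-(CN - TJ q N J)) = Real.exp (-CN) * Real.exp (TJ q N J) := by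
    rw [← Real.exp_add]
    congr 1
    ring
  rw [h4, pow_one]
  calc c₀ * (Real.exp (-CN) * Real.exp (-(N + 1 : ℝ))) * sing q / 2 ^ J =
        c₀ * (Real.exp (-CN) * (Real.exp (-(N + 1 : ℝ)) * sing q)) / 2 ^ J := by ring
    _ ≤ c₀ * (Real.exp (-CN) * Real.exp (TJ q N J)) / 2 ^ J := by gcongr

lemma Wq_up (N : ℕ) (hN : 3 ≤ N) : ∃ c₂ : ℝ, 0 < c₂ ∧ ∀ J q : ℕ, N ≤ 2 ^ 2 ^ J → 0 < q →
    ∏ p ∈ PP N J, (1 - ((Zq q p).card : ℝ) / (p : ℝ)) ≤ c₂ * sing q / 2 ^ J := by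
  obtain ⟨c₀, hc₀, hup⟩ := W_up2 1
  obtain ⟨CN, hCN, hm⟩ := mert_PP N hN
  obtain ⟨S, hS⟩ : ∃ S : ℝ, S = Real.exp (∑' n : ℕ, 1 / (n : ℝ) ^ 2) := ⟨_, rfl⟩
  have hS0 : 0 < S := by rw [hS]; exact Real.exp_pos _
  refine ⟨c₀ * Real.exp CN * S, by positivity, fun J q hNJ hq => ?_⟩
  have h1 := (abs_le.1 (hm J hNJ)).1
  have h2 := hup (CN + TJ q N J) (fun p => (Zq q p).card) N J (fun p hp => by
    have h3 := ((mem_PP _ _ _).1 hp).1.pos
    have h4 := Zq_le q p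
    omega) (by
    rw [sum_Zq]
    push_cast
    push_cast at h1
    linarith)
  refine h2.trans ?_
  obtain ⟨S', hS', h3⟩ := TJ_up q (by exact_mod_cast hq.ne')
  rw [← hS] at hS'
  rw [hS'] at h3
  have h4 : Real.exp (CN + TJ q N J) ≤ Real.exp CN * (S * sing q) := by
    rw [Real.exp_add]
    apply mul_le_mul_of_nonneg_left (h3 N J) (Real.exp_pos _).le
  rw [pow_one]
  calc c₀ * Real.exp (CN + TJ q N J) / 2 ^ J ≤ c₀ * (Real.exp CN * (S * sing q)) / 2 ^ J := by gcongr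
    _ = _ := by ring

lemma sq_prod (m : ℕ) : ∏ n ∈ Icc 2 (m + 1), (1 - 1 / (n : ℝ) ^ 2) = ((m : ℝ) + 2) / (2 * ((m : ℝ) + 1)) := by
  induction m with
  | zero => norm_num
  | succ m ih =>
    rw [prod_Icc_succ_top (by omega), ih]
    push_cast
    have h1 : (m : ℝ) + 1 + 1 ≠ 0 := by positivity
    have h2 : (m : ℝ) + 1 ≠ 0 := by positivity
    field_simp
    ring

lemma prod_sq_low (S : Finset ℕ) (hS : ∀ p ∈ S, 2 ≤ p) : 1 / 2 ≤ ∏ p ∈ S, (1 - 1 / (p : ℝ) ^ 2) := by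
  obtain ⟨m, hm⟩ : ∃ m : ℕ, ∀ p ∈ S, p ≤ m + 1 := by
    refine ⟨∑ p ∈ S, p, fun p hp => ?_⟩
    have : p ≤ ∑ p ∈ S, p := single_le_sum (f := fun p : ℕ => p) (fun _ _ => Nat.zero_le _) hp
    omega
  have hsub : S ⊆ Icc 2 (m + 1) := fun p hp => mem_Icc.2 ⟨hS p hp, hm p hp⟩
  have hf : ∀ n : ℕ, 2 ≤ n → 0 ≤ 1 - 1 / (n : ℝ) ^ 2 ∧ 1 - 1 / (n : ℝ) ^ 2 ≤ 1 := by
    intro n hn
    have h1 : (2 : ℝ) ≤ n := by exact_mod_cast hn
    have h2 : 1 / (n : ℝ) ^ 2 ≤ 1 := by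
      rw [div_le_one (by positivity)]
      nlinarith
    have h3 : 0 ≤ 1 / (n : ℝ) ^ 2 := by positivity
    exact ⟨by linarith, by linarith⟩
  have h1 := sq_prod m
  rw [← prod_sdiff hsub] at h1
  have h2 : ∏ n ∈ Icc 2 (m + 1) \ S, (1 - 1 / (n : ℝ) ^ 2) ≤ 1 :=
    prod_le_one (fun n hn => (hf n (mem_Icc.1 (Finset.mem_sdiff.1 hn).1).1).1)
      (fun n hn => (hf n (mem_Icc.1 (Finset.mem_sdiff.1 hn).1).1).2)
  have h3 : 0 ≤ ∏ p ∈ S, (1 - 1 / (p : ℝ) ^ 2) := prod_nonneg fun p hp => (hf p (hS p hp)).1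
  have h4 : (1 : ℝ) / 2 ≤ ((m : ℝ) + 2) / (2 * ((m : ℝ) + 1)) := by
    rw [div_le_div_iff₀ (by norm_num) (by positivity)]
    linarith
  calc (1 : ℝ) / 2 ≤ ((m : ℝ) + 2) / (2 * ((m : ℝ) + 1)) := h4
    _ = (∏ n ∈ Icc 2 (m + 1) \ S, (1 - 1 / (n : ℝ) ^ 2)) * ∏ p ∈ S, (1 - 1 / (p : ℝ) ^ 2) := h1.symm
    _ ≤ 1 * ∏ p ∈ S, (1 - 1 / (p : ℝ) ^ 2) := mul_le_mul_of_nonneg_right h2 h3
    _ = _ := one_mul _

lemma sing_tot (q : ℕ) : sing q * Nat.totient q ≤ q ∧ (q : ℝ) ≤ 2 * (sing q * Nat.totient q) := by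
  have h1 : (Nat.totient q : ℝ) = q * ∏ p ∈ q.primeFactors, (1 - 1 / (p : ℝ)) := by
    have := Nat.totient_eq_mul_prod_factors q
    have h2 := congrArg (fun x : ℚ => (x : ℝ)) this
    push_cast at h2
    rw [h2]
    simp only [one_div]
  have h2 : sing q * Nat.totient q = q * ∏ p ∈ q.primeFactors, (1 - 1 / (p : ℝ) ^ 2) := by
    rw [h1]
    unfold sing
    rw [Int.natAbs_natCast, mul_left_comm, ← prod_mul_distrib]
    congr 1
    refine prod_congr rfl fun p _ => ?_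
    ring
  have h3 := prod_sq_low q.primeFactors (fun p hp => (Nat.prime_of_mem_primeFactors hp).two_le)
  have h4 : ∏ p ∈ q.primeFactors, (1 - 1 / (p : ℝ) ^ 2) ≤ 1 := by
    apply prod_le_one
    · intro p hp
      have h5 : (2 : ℝ) ≤ p := by exact_mod_cast (Nat.prime_of_mem_primeFactors hp).two_le
      have h2 : 1 / (p : ℝ) ^ 2 ≤ 1 := by
        rw [div_le_one (by positivity)]
        nlinarith
      linarith
    · intro p _
      have h3 : 0 ≤ 1 / (p : ℝ) ^ 2 := by positivity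
      linarith
  have hq : (0 : ℝ) ≤ q := Nat.cast_nonneg _
  rw [h2]
  constructor
  · calc (q : ℝ) * ∏ p ∈ q.primeFactors, (1 - 1 / (p : ℝ) ^ 2) ≤ q * 1 := mul_le_mul_of_nonneg_left h4 hq
      _ = q := mul_one _
  · have := mul_le_mul_of_nonneg_left h3 hq
    linarith

end Pool.Agent.Run7.h620.PD
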