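import Pool.Agent.Run7.h620.PD.Alm
import Pool.Agent.H474R2.GE.FA

set_option autoImplicit false

/-! Mertens theorem for products of irreducible polynomials, and the sieve products. -/

namespace Pool.Agent.Run7.h620.PD

open Finset Polynomial Filter
open Pool.Agent.H474R2.PG (rho Sg PR)

/-- `F` has on average `k` roots modulo `p` -/
def MertF (F : ℤ[X]) (k : ℕ) : Prop :=
  ∃ C : ℝ, 0 ≤ C ∧ ∀ w : ℝ, 3 ≤ w → |Sg (rho F) w - k * Real.log (Real.log w)| ≤ C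

lemma rho_eq (F : ℤ[X]) (p : ℕ) : rho F p = (Zr F p).card := rfl

lemma MertF_irr (F : ℤ[X]) (hF : Irreducible F) (hd : 0 < F.natDegree) : MertF F 1 := by
  obtain ⟨C, hC, h⟩ := Pool.Agent.H474R2.GE.mertens_rho F hF hd
  refine ⟨C, hC, fun w hw => ?_⟩
  rw [Nat.cast_one, one_mul]
  exact h w hw

lemma Zr_card_le (F : ℤ[X]) (p : ℕ) : (Zr F p).card ≤ p := by
  have := card_filter_le (range p) (fun a => (p : ℤ) ∣ F.eval (a : ℤ))
  rwa [card_range] at this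

lemma Zr_mul (F G : ℤ[X]) (p : ℕ) (hp : p.Prime) : Zr (F * G) p = Zr F p ∪ Zr G p := by
  ext a
  unfold Zr
  rw [mem_union, mem_filter, mem_filter, mem_filter, eval_mul, (Nat.prime_iff_prime_int.1 hp).dvd_mul]
  tauto

lemma MertF_mul (F G A B : ℤ[X]) (k l : ℕ) (d : ℤ) (hd : d ≠ 0) (h : A * F + B * G = C d)
    (hF : MertF F k) (hG : MertF G l) : MertF (F * G) (k + l) := by
  obtain ⟨C₁, hC₁, h1⟩ := hF
  obtain ⟨C₂, hC₂, h2⟩ := hG
  refine ⟨C₁ + C₂ + d.natAbs, by positivity, fun w hw => ?_⟩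
  have h3 : |Sg (rho (F * G)) w - Sg (rho F) w - Sg (rho G) w| ≤ d.natAbs := by
    unfold Sg
    rw [← sum_sub_distrib, ← sum_sub_distrib]
    refine (abs_sum_le_sum_abs _ _).trans ?_
    have h4 : ∀ p ∈ PR w, |(rho (F * G) p : ℝ) / p - (rho F p : ℝ) / p - (rho G p : ℝ) / p| ≤
        if p ∣ d.natAbs then (1 : ℝ) else 0 := by
      intro p hp
      have hp1 : p.Prime := (mem_filter.1 hp).2
      have hp0 : (0 : ℝ) < p := by exact_mod_cast hp1.pos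
      rw [rho_eq, rho_eq, rho_eq, Zr_mul F G p hp1]
      have h5 : ((Zr F p ∪ Zr G p).card : ℝ) + ((Zr F p ∩ Zr G p).card : ℝ) = (Zr F p).card + (Zr G p).card := by
        exact_mod_cast card_union_add_card_inter _ _
      have h6 : ((Zr F p ∪ Zr G p).card : ℝ) / p - ((Zr F p).card : ℝ) / p - ((Zr G p).card : ℝ) / p =
          -(((Zr F p ∩ Zr G p).card : ℝ) / p) := by
        rw [← sub_div, ← sub_div, ← neg_div]
        congr 1
        linarith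
      rw [h6, abs_neg, abs_of_nonneg (by positivity)]
      split_ifs with hpd
      · rw [div_le_one hp0]
        exact_mod_cast (card_le_card inter_subset_left).trans (Zr_card_le F p)
      · have h7 : Zr F p ∩ Zr G p = ∅ := by
          rw [Finset.eq_empty_iff_forall_notMem]
          intro a ha
          rw [mem_inter] at ha
          apply hpd
          have g1 := (mem_filter.1 ha.1).2
          have g2 := (mem_filter.1 ha.2).2
          have g3 : (p : ℤ) ∣ d := by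
            have := congrArg (fun P : ℤ[X] => P.eval (a : ℤ)) h
            simp only [eval_add, eval_mul, eval_C] at this
            rw [← this]
            exact dvd_add (dvd_mul_of_dvd_right g1 _) (dvd_mul_of_dvd_right g2 _)
          exact Int.natCast_dvd.1 g3
        rw [h7, card_empty, Nat.cast_zero, zero_div]
    refine (sum_le_sum h4).trans ?_
    rw [← sum_filter, sum_const, nsmul_eq_mul, mul_one]
    have h8 : (PR w).filter (fun p => p ∣ d.natAbs) ⊆ Icc 1 d.natAbs := by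
      intro p hp
      rw [mem_filter] at hp
      have hp1 : p.Prime := (mem_filter.1 hp.1).2
      rw [mem_Icc]
      exact ⟨hp1.one_lt.le, Nat.le_of_dvd (Int.natAbs_pos.2 hd) hp.2⟩
    have h9 := card_le_card h8
    rw [Nat.card_Icc, Nat.add_sub_cancel] at h9
    exact_mod_cast h9
  have h4 := h1 w hw
  have h5 := h2 w hw
  have h6 : Sg (rho (F * G)) w - ((k + l : ℕ) : ℝ) * Real.log (Real.log w) =
      (Sg (rho (F * G)) w - Sg (rho F) w - Sg (rho G) w) + (Sg (rho F) w - k * Real.log (Real.log w)) +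
        (Sg (rho G) w - l * Real.log (Real.log w)) := by
    push_cast
    ring
  rw [h6]
  refine (abs_add_three _ _ _).trans ?_
  linarith

/-- sieve products from below -/
lemma W_low (κ k : ℕ) (C : ℝ) : ∃ c₁ : ℝ, 0 < c₁ ∧ ∀ (ρ : ℕ → ℕ) (Ny Js : ℕ), 2 * κ ≤ Ny →
    (∀ p ∈ PP Ny Js, ρ p ≤ κ) →
    ∑ p ∈ PP Ny Js, (ρ p : ℝ) / p ≤ k * Real.log (Real.log ((2 ^ 2 ^ Js : ℕ) : ℝ)) + C →
    c₁ / (2 ^ Js) ^ k ≤ ∏ p ∈ PP Ny Js, (1 - (ρ p : ℝ) / (p : ℝ)) := by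
  have hl2 : 0 < Real.log 2 := Real.log_pos (by norm_num)
  set S₂ : ℝ := ∑' n : ℕ, 1 / (n : ℝ) ^ 2 with hS₂
  have hsum : Summable (fun n : ℕ => 1 / (n : ℝ) ^ 2) := Real.summable_one_div_nat_pow.2 (by norm_num)
  refine ⟨Real.exp (-C - 2 * κ ^ 2 * S₂), Real.exp_pos _, ?_⟩
  intro ρ Ny Js hκN hρ hC
  have hlz : Real.log ((2 ^ 2 ^ Js : ℕ) : ℝ) = 2 ^ Js * Real.log 2 := by
    push_cast
    rw [Real.log_pow]
    push_cast
    ring
  have hlz0 : 0 < Real.log ((2 ^ 2 ^ Js : ℕ) : ℝ) := by rw [hlz]; positivity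
  have hlz1 : Real.log ((2 ^ 2 ^ Js : ℕ) : ℝ) ≤ 2 ^ Js := by
    rw [hlz]
    have : (0 : ℝ) < 2 ^ Js := by positivity
    have hl21 : Real.log 2 ≤ 1 := by have := Real.log_two_lt_d9; linarith
    nlinarith
  have h4 : ∑ p ∈ PP Ny Js, (1 : ℝ) / (p : ℝ) ^ 2 ≤ S₂ := hsum.sum_le_tsum _ (fun _ _ => by positivity)
  have h5 : Real.exp (∑ p ∈ PP Ny Js, (-((ρ p : ℝ) / p) - 2 * ((ρ p : ℝ) / p) ^ 2)) ≤
      ∏ p ∈ PP Ny Js, (1 - (ρ p : ℝ) / (p : ℝ)) := by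
    rw [Real.exp_sum]
    apply Finset.prod_le_prod
    · intro _ _
      exact (Real.exp_pos _).le
    · intro p hp
      have h := hρ p hp
      rw [mem_PP] at hp
      have hp0 : (0 : ℝ) < p := by exact_mod_cast hp.1.pos
      apply log_one_sub
      · positivity
      · rw [div_le_iff₀ hp0]
        have : 2 * ρ p ≤ p := by omega
        have : (2 * ρ p : ℝ) ≤ p := by exact_mod_cast this
        linarith
  refine le_trans ?_ h5
  have h8 : ∑ p ∈ PP Ny Js, 2 * ((ρ p : ℝ) / p) ^ 2 ≤ 2 * κ ^ 2 * S₂ := by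
    calc ∑ p ∈ PP Ny Js, 2 * ((ρ p : ℝ) / p) ^ 2 ≤ ∑ p ∈ PP Ny Js, 2 * κ ^ 2 * (1 / (p : ℝ) ^ 2) := by
          refine sum_le_sum fun p hp => ?_
          have h : (ρ p : ℝ) ≤ κ := by exact_mod_cast hρ p hp
          rw [div_pow, mul_assoc, mul_one_div]
          gcongr
      _ = 2 * κ ^ 2 * ∑ p ∈ PP Ny Js, (1 : ℝ) / (p : ℝ) ^ 2 := by rw [mul_sum]
      _ ≤ _ := by gcongr
  have h6 : -C - 2 * κ ^ 2 * S₂ - k * Real.log (Real.log ((2 ^ 2 ^ Js : ℕ) : ℝ)) ≤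
      ∑ p ∈ PP Ny Js, (-((ρ p : ℝ) / p) - 2 * ((ρ p : ℝ) / p) ^ 2) := by
    rw [sum_sub_distrib, sum_neg_distrib]
    linarith
  calc Real.exp (-C - 2 * κ ^ 2 * S₂) / (2 ^ Js) ^ k ≤
        Real.exp (-C - 2 * κ ^ 2 * S₂) / (Real.log ((2 ^ 2 ^ Js : ℕ) : ℝ)) ^ k := by
        gcongr
    _ = Real.exp (-C - 2 * κ ^ 2 * S₂ - k * Real.log (Real.log ((2 ^ 2 ^ Js : ℕ) : ℝ))) := by
        rw [Real.exp_sub (-C - 2 * κ ^ 2 * S₂), Real.exp_nat_mul, Real.exp_log hlz0]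
    _ ≤ _ := Real.exp_le_exp.2 h6

/-- sieve products from above -/
lemma W_up (k : ℕ) (C : ℝ) : ∃ c₂ : ℝ, 0 < c₂ ∧ ∀ (ρ : ℕ → ℕ) (Ny Js : ℕ),
    (∀ p ∈ PP Ny Js, ρ p ≤ p) →
    k * Real.log (Real.log ((2 ^ 2 ^ Js : ℕ) : ℝ)) - C ≤ ∑ p ∈ PP Ny Js, (ρ p : ℝ) / p →
    ∏ p ∈ PP Ny Js, (1 - (ρ p : ℝ) / (p : ℝ)) ≤ c₂ / (2 ^ Js) ^ k := by
  have hl2 : 0 < Real.log 2 := Real.log_pos (by norm_num)
  refine ⟨Real.exp C / Real.log 2 ^ k, by positivity, ?_⟩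
  intro ρ Ny Js hρ hC
  have hlz : Real.log ((2 ^ 2 ^ Js : ℕ) : ℝ) = 2 ^ Js * Real.log 2 := by
    push_cast
    rw [Real.log_pow]
    push_cast
    ring
  have hlz0 : 0 < Real.log ((2 ^ 2 ^ Js : ℕ) : ℝ) := by rw [hlz]; positivity
  have h5 : ∏ p ∈ PP Ny Js, (1 - (ρ p : ℝ) / (p : ℝ)) ≤ Real.exp (∑ p ∈ PP Ny Js, (-((ρ p : ℝ) / p))) := by
    rw [Real.exp_sum]
    apply Finset.prod_le_prod
    · intro p hp
      have h := hρ p hp
      rw [mem_PP] at hp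
      have hp0 : (0 : ℝ) < p := by exact_mod_cast hp.1.pos
      have : (ρ p : ℝ) / p ≤ 1 := by
        rw [div_le_one hp0]
        exact_mod_cast h
      linarith
    · intro p _
      have := Real.add_one_le_exp (-((ρ p : ℝ) / p))
      linarith
  refine h5.trans ?_
  calc Real.exp (∑ p ∈ PP Ny Js, (-((ρ p : ℝ) / p))) ≤
        Real.exp (C - k * Real.log (Real.log ((2 ^ 2 ^ Js : ℕ) : ℝ))) := by
        apply Real.exp_le_exp.2
        rw [sum_neg_distrib]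
        linarith
    _ = Real.exp C / (Real.log ((2 ^ 2 ^ Js : ℕ) : ℝ)) ^ k := by
        rw [Real.exp_sub, Real.exp_nat_mul, Real.exp_log hlz0]
    _ = _ := by
        rw [hlz, mul_pow]
        field_simp

lemma PP_PR (Ny Js : ℕ) (hN : Ny ≤ 2 ^ 2 ^ Js) :
    PR ((2 ^ 2 ^ Js : ℕ) : ℝ) = ((Icc 1 Ny).filter Nat.Prime) ∪ PP Ny Js ∧
      Disjoint ((Icc 1 Ny).filter Nat.Prime) (PP Ny Js) := by
  constructor
  · ext p
    unfold PR
    rw [Nat.floor_natCast, mem_union, mem_filter, mem_filter, mem_Icc, mem_Icc, mem_PP]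
    constructor
    · rintro ⟨⟨h1, h2⟩, h3⟩
      by_cases h4 : p ≤ Ny
      · exact Or.inl ⟨⟨h1, h4⟩, h3⟩
      · exact Or.inr ⟨h3, by omega, h2⟩
    · rintro (⟨⟨h1, h2⟩, h3⟩ | ⟨h1, h2, h3⟩)
      · exact ⟨⟨h1, h2.trans hN⟩, h3⟩
      · exact ⟨⟨h1.one_lt.le, h3⟩, h1⟩
  · rw [disjoint_left]
    intro p h1 h2
    rw [mem_filter, mem_Icc] at h1
    rw [mem_PP] at h2
    omega

lemma MertF.low {F : ℤ[X]} {k : ℕ} (h : MertF F k) : ∃ c₁ : ℝ, 0 < c₁ ∧ ∀ Ny Js : ℕ, 3 ≤ Ny →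
    2 * F.natDegree ≤ Ny → F.leadingCoeff.natAbs ≤ Ny → F ≠ 0 → Ny ≤ 2 ^ 2 ^ Js →
    c₁ / (2 ^ Js) ^ k ≤ ∏ p ∈ PP Ny Js, (1 - ((Zr F p).card : ℝ) / (p : ℝ)) := by
  obtain ⟨C, hC, h⟩ := h
  obtain ⟨c₁, hc₁, h1⟩ := W_low F.natDegree k C
  refine ⟨c₁, hc₁, fun Ny Js h3 h2d hlc hF0 hNJ => ?_⟩
  apply h1 (fun p => (Zr F p).card) Ny Js h2d
  · intro p hp
    rw [mem_PP] at hp
    apply Zr_card F p hp.1
    intro hdvd
    have h1 : p ∣ F.leadingCoeff.natAbs := Int.natCast_dvd.1 hdvd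
    have := Nat.le_of_dvd (Int.natAbs_pos.2 (leadingCoeff_ne_zero.2 hF0)) h1
    omega
  · have h4 := (abs_le.1 (h ((2 ^ 2 ^ Js : ℕ) : ℝ) (by
      have : 3 ≤ 2 ^ 2 ^ Js := h3.trans hNJ
      exact_mod_cast this))).2
    obtain ⟨h5, h6⟩ := PP_PR Ny Js hNJ
    have h7 : Sg (rho F) ((2 ^ 2 ^ Js : ℕ) : ℝ) = ∑ p ∈ (Icc 1 Ny).filter Nat.Prime, ((Zr F p).card : ℝ) / p +
        ∑ p ∈ PP Ny Js, ((Zr F p).card : ℝ) / p := by
      unfold Sg
      rw [h5, sum_union h6]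
      rfl
    have h8 : (0 : ℝ) ≤ ∑ p ∈ (Icc 1 Ny).filter Nat.Prime, ((Zr F p).card : ℝ) / p :=
      sum_nonneg fun _ _ => by positivity
    linarith

lemma MertF.up {F : ℤ[X]} {k : ℕ} (h : MertF F k) (Ny : ℕ) (h3 : 3 ≤ Ny) : ∃ c₂ : ℝ, 0 < c₂ ∧ ∀ Js : ℕ,
    Ny ≤ 2 ^ 2 ^ Js → ∏ p ∈ PP Ny Js, (1 - ((Zr F p).card : ℝ) / (p : ℝ)) ≤ c₂ / (2 ^ Js) ^ k := by
  obtain ⟨C, hC, h⟩ := h
  obtain ⟨c₂, hc₂, h1⟩ := W_up k (C + Ny)
  refine ⟨c₂, hc₂, fun Js hNJ => ?_⟩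
  apply h1 (fun p => (Zr F p).card) Ny Js
  · intro p _
    exact Zr_card_le F p
  · have h4 := (abs_le.1 (h ((2 ^ 2 ^ Js : ℕ) : ℝ) (by
      have : 3 ≤ 2 ^ 2 ^ Js := h3.trans hNJ
      exact_mod_cast this))).1
    obtain ⟨h5, h6⟩ := PP_PR Ny Js hNJ
    have h7 : Sg (rho F) ((2 ^ 2 ^ Js : ℕ) : ℝ) = ∑ p ∈ (Icc 1 Ny).filter Nat.Prime, ((Zr F p).card : ℝ) / p +
        ∑ p ∈ PP Ny Js, ((Zr F p).card : ℝ) / p := by
      unfold Sg
      rw [h5, sum_union h6]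
      rfl
    have h8 : ∑ p ∈ (Icc 1 Ny).filter Nat.Prime, ((Zr F p).card : ℝ) / p ≤ Ny := by
      calc ∑ p ∈ (Icc 1 Ny).filter Nat.Prime, ((Zr F p).card : ℝ) / p ≤ ∑ _p ∈ (Icc 1 Ny).filter Nat.Prime, (1 : ℝ) := by
            refine sum_le_sum fun p hp => ?_
            have hp0 : (0 : ℝ) < p := by exact_mod_cast (mem_filter.1 hp).2.pos
            rw [div_le_one hp0]
            exact_mod_cast Zr_card_le F p
        _ = (((Icc 1 Ny).filter Nat.Prime).card : ℝ) := by rw [sum_const, nsmul_eq_mul, mul_one]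
        _ ≤ ((Icc 1 Ny).card : ℝ) := by exact_mod_cast card_filter_le _ _
        _ = Ny := by rw [Nat.card_Icc, Nat.add_sub_cancel]
    linarith

end Pool.Agent.Run7.h620.PD
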