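import Pool.Agent.Run7.h620.PD.Ac

set_option autoImplicit false

/-! A residue class in which the values of a polynomial have bounded valuations at the small primes. -/

namespace Pool.Agent.Run7.h620.PD

open Finset Polynomial Filter

lemma ac (b : ℕ) (hb : 2 ≤ b) (D : ℤ) (hD : D ≠ 0) (p : ℕ) (hp : p.Prime) (δ : ℝ) (hδ : 0 < δ) :
    ∃ m : ℕ, ∀ᶠ K : ℕ in atTop, ∀ n₀ r : ℤ,
      cnt (Icc 1 ((K - 2) / 2)).powerset (vv b K n₀ D) (p ^ m) r ≤ δ * 2 ^ ((K - 2) / 2) := by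
  by_cases hpb : p ∣ b
  · obtain ⟨i₀, hi₀⟩ := exists_pow_lt_of_lt_one hδ (show (1 / 2 : ℝ) < 1 by norm_num)
    refine ⟨D.natAbs * b ^ i₀, ?_⟩
    filter_upwards [eventually_ge_atTop (2 * i₀ + 4)] with K hK n₀ r
    have h1 := ac_dvd b K ((K - 2) / 2) n₀ D p (D.natAbs * b ^ i₀) i₀ hb hp hpb hD
      (Nat.lt_pow_self hp.one_lt) (by omega) (by omega) r
    refine h1.trans ?_
    have h2 : (K - 2) / 2 = ((K - 2) / 2 - i₀) + i₀ := by omega
    calc (2 : ℝ) ^ ((K - 2) / 2 - i₀) = (1 / 2 : ℝ) ^ i₀ * (2 ^ ((K - 2) / 2 - i₀) * 2 ^ i₀) := by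
          rw [one_div, inv_pow]
          field_simp
      _ = (1 / 2 : ℝ) ^ i₀ * 2 ^ ((K - 2) / 2) := by
          rw [← pow_add, ← h2]
      _ ≤ _ := by gcongr
  · have hU0 : ((b : ℤ) ^ 2 - 1) * D ≠ 0 := by
      apply mul_ne_zero _ hD
      have : (2 : ℤ) ≤ b := by exact_mod_cast hb
      nlinarith
    have hU1 : 0 < (((b : ℤ) ^ 2 - 1) * D).natAbs := Int.natAbs_pos.2 hU0
    set u : ℝ := ((((b : ℤ) ^ 2 - 1) * D).natAbs : ℝ) with hu
    have hu1 : 0 < u := by rw [hu]; exact_mod_cast hU1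
    have hy0 : 0 < yy b 1 := yy_pos b 1 (by omega) le_rfl
    have hy1 : yy b 1 < 1 := yy_lt b 1 (by omega) le_rfl
    obtain ⟨m, hm⟩ := exists_pow_lt_of_lt_one (show 0 < δ / (2 * u) by positivity) (show (1 / 2 : ℝ) < 1 by norm_num)
    obtain ⟨C, hC⟩ := exists_pow_lt_of_lt_one (show 0 < δ / 2 by positivity) hy1
    refine ⟨m, ?_⟩
    filter_upwards [eventually_ge_atTop (2 * (p ^ m * C) + 10)] with K hK n₀ r
    have h1 := ac_cop b K ((K - 2) / 2) (p ^ m) (p ^ m) C n₀ D hb hD (Nat.pow_pos hp.pos)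
      (Nat.Coprime.pow_left _ ((Nat.Prime.coprime_iff_not_dvd hp).2 hpb))
      ((Nat.lt_two_pow_self).le.trans (Nat.pow_le_pow_left hb _)) (by omega) (by omega) (by omega) r
    refine h1.trans ?_
    rw [mul_comm]
    apply mul_le_mul_of_nonneg_right _ (by positivity)
    have h2 : u / ((p ^ m : ℕ) : ℝ) ≤ δ / 2 := by
      have h3 : (2 : ℝ) ^ m ≤ ((p ^ m : ℕ) : ℝ) := by
        exact_mod_cast Nat.pow_le_pow_left hp.two_le m
      have h4 : u / ((p ^ m : ℕ) : ℝ) ≤ u / 2 ^ m := by gcongr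
      have h5 : u / 2 ^ m = u * (1 / 2) ^ m := by
        rw [one_div, inv_pow]
        rfl
      have h6 : u * (1 / 2 : ℝ) ^ m ≤ u * (δ / (2 * u)) := by gcongr
      have h7 : u * (δ / (2 * u)) = δ / 2 := by field_simp
      linarith
    linarith

open Classical in
theorem good_class (b : ℕ) (hb : 2 ≤ b) (D : ℤ) (hD : D ≠ 0) (F : ℤ[X]) (hF : F ≠ 0) (N : ℕ) :
    ∃ M V : ℕ, 0 < M ∧ (∀ p : ℕ, p.Prime → p ∣ M → p ≤ N) ∧ (∀ p : ℕ, p.Prime → p ≤ N → p ^ V ∣ M) ∧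
      ∀ᶠ K : ℕ in atTop, ∀ n₀ : ℤ, ∃ s₀ : ℤ,
        (2 : ℝ) ^ ((K - 2) / 2) / (2 * M) ≤ cnt (Icc 1 ((K - 2) / 2)).powerset (vv b K n₀ D) M s₀ ∧
        ∀ p : ℕ, p.Prime → p ≤ N → ¬ ((p ^ V : ℕ) : ℤ) ∣ F.eval s₀ := by
  set Ps := (Icc 1 N).filter Nat.Prime with hPs
  set d := F.natDegree with hd
  set δ : ℝ := 1 / (2 * (N + 1) * (d + 1)) with hδ
  have hδ0 : 0 < δ := by positivity
  have h1 : ∀ p : ℕ, ∃ m : ℕ, p.Prime → ∀ᶠ K : ℕ in atTop, ∀ n₀ r : ℤ,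
      cnt (Icc 1 ((K - 2) / 2)).powerset (vv b K n₀ D) (p ^ m) r ≤ δ * 2 ^ ((K - 2) / 2) := by
    intro p
    by_cases hp : p.Prime
    · obtain ⟨m, hm⟩ := ac b hb D hD p hp δ hδ0
      exact ⟨m, fun _ => hm⟩
    · exact ⟨0, fun h => absurd h hp⟩
  choose m hm using h1
  have h2 : ∀ p : ℕ, ∃ V₀ : ℕ, p.Prime → ∀ V : ℕ, V₀ ≤ V → ∀ {ι : Type} (s : Finset ι) (v : ι → ℤ) (B : ℝ), 0 ≤ B →
      (∀ r : ℤ, cnt s v (p ^ m p) r ≤ B) →
      ((s.filter (fun i => ((p ^ V : ℕ) : ℤ) ∣ F.eval (v i))).card : ℝ) ≤ F.natDegree * B := by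
    intro p
    by_cases hp : p.Prime
    · obtain ⟨V₀, hV⟩ := bad_count p hp (m p) F hF
      exact ⟨V₀, fun _ => hV⟩
    · exact ⟨0, fun h => absurd h hp⟩
  choose V₀ hV₀ using h2
  set V : ℕ := ∑ p ∈ Ps, V₀ p with hV
  have hVle : ∀ p ∈ Ps, V₀ p ≤ V := fun p hp => single_le_sum (fun _ _ => Nat.zero_le _) hp
  set M : ℕ := ∏ p ∈ Ps, p ^ V with hM
  have hM0 : 0 < M := prod_pos fun p hp => Nat.pow_pos (mem_filter.1 hp).2.pos
  have hMr : (0 : ℝ) < M := by exact_mod_cast hM0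
  have hmem : ∀ p : ℕ, p.Prime → p ≤ N → p ∈ Ps := by
    intro p hp hpN
    rw [hPs, mem_filter, mem_Icc]
    exact ⟨⟨hp.one_lt.le, hpN⟩, hp⟩
  refine ⟨M, V, hM0, ?_, ?_, ?_⟩
  · intro p hp hpM
    rw [hM, Prime.dvd_finsetProd_iff hp.prime] at hpM
    obtain ⟨q, hq, hpq⟩ := hpM
    have hq' := mem_filter.1 hq
    have := (Nat.prime_dvd_prime_iff_eq hp hq'.2).1 (hp.dvd_of_dvd_pow hpq)
    rw [this]
    exact (mem_Icc.1 hq'.1).2
  · intro p hp hpN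
    exact Finset.dvd_prod_of_mem (fun p => p ^ V) (hmem p hp hpN)
  · have h3 : ∀ᶠ K : ℕ in atTop, ∀ p ∈ Ps, ∀ n₀ r : ℤ,
        cnt (Icc 1 ((K - 2) / 2)).powerset (vv b K n₀ D) (p ^ m p) r ≤ δ * 2 ^ ((K - 2) / 2) :=
      (eventually_all_finset Ps).2 fun p hp => hm p (mem_filter.1 hp).2
    filter_upwards [h3] with K h3 n₀
    set H := (K - 2) / 2 with hH
    set v := vv b K n₀ D with hv
    set 𝒮 := (Icc 1 H).powerset with h𝒮
    have hcard : (𝒮.card : ℝ) = 2 ^ H := by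
      rw [h𝒮, card_powerset, Nat.card_Icc]
      push_cast
      congr 1
    set bad : ℕ → Finset (Finset ℕ) := fun p => 𝒮.filter (fun S => ((p ^ V : ℕ) : ℤ) ∣ F.eval (v S)) with hbad
    have hbadc : ∀ p ∈ Ps, ((bad p).card : ℝ) ≤ d * (δ * 2 ^ H) := by
      intro p hp
      exact hV₀ p (mem_filter.1 hp).2 V (hVle p hp) 𝒮 v (δ * 2 ^ H) (by positivity) (fun r => h3 p hp n₀ r)
    set Gd : Finset (Finset ℕ) := 𝒮 \ Ps.biUnion bad with hGd
    have h4 : (𝒮.card : ℝ) ≤ Gd.card + (Ps.biUnion bad).card := by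
      have : 𝒮.card ≤ Gd.card + (Ps.biUnion bad).card := card_le_card_sdiff_add_card
      exact_mod_cast this
    have h5 : (((Ps.biUnion bad).card : ℕ) : ℝ) ≤ 2 ^ H / 2 := by
      calc (((Ps.biUnion bad).card : ℕ) : ℝ) ≤ ∑ p ∈ Ps, ((bad p).card : ℝ) := by exact_mod_cast card_biUnion_le
        _ ≤ ∑ _p ∈ Ps, (d * (δ * 2 ^ H) : ℝ) := sum_le_sum hbadc
        _ = Ps.card * (d * (δ * 2 ^ H)) := by rw [sum_const, nsmul_eq_mul]
        _ ≤ N * (d * (δ * 2 ^ H)) := by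
            have : Ps.card ≤ N := by
              calc Ps.card ≤ (Icc 1 N).card := card_filter_le _ _
                _ = N := by rw [Nat.card_Icc]; omega
            have : (Ps.card : ℝ) ≤ N := by exact_mod_cast this
            gcongr
        _ = (N * d / ((N + 1) * (d + 1))) * (2 ^ H / 2) := by
            rw [hδ]
            field_simp
        _ ≤ 1 * (2 ^ H / 2) := by
            apply mul_le_mul_of_nonneg_right _ (by positivity)
            rw [div_le_one (by positivity)]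
            have hN0 : (0 : ℝ) ≤ N := Nat.cast_nonneg _
            have hd0 : (0 : ℝ) ≤ d := Nat.cast_nonneg _
            nlinarith
        _ = 2 ^ H / 2 := one_mul _
    have h6 : (2 : ℝ) ^ H / 2 ≤ Gd.card := by
      rw [hcard] at h4
      linarith
    obtain ⟨r, hr⟩ := exists_class Gd v M hM0
    have h7 : (2 : ℝ) ^ H / (2 * M) ≤ cnt Gd v M r := by
      refine le_trans ?_ hr
      rw [← div_div]
      gcongr
    have h8 : cnt Gd v M r ≤ cnt 𝒮 v M r := by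
      unfold cnt
      have : (Gd.filter (fun i => (M : ℤ) ∣ v i - r)) ⊆ (𝒮.filter (fun i => (M : ℤ) ∣ v i - r)) :=
        filter_subset_filter _ sdiff_subset
      exact_mod_cast card_le_card this
    refine ⟨r, h7.trans h8, ?_⟩
    intro p hp hpN hcon
    have h9 : 0 < cnt Gd v M r := lt_of_lt_of_le (by positivity) h7
    unfold cnt at h9
    have h10 : 0 < (Gd.filter (fun i => (M : ℤ) ∣ v i - r)).card := by exact_mod_cast h9
    obtain ⟨S, hS⟩ := card_pos.1 h10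
    rw [mem_filter, hGd, Finset.mem_sdiff, mem_biUnion] at hS
    apply hS.1.2
    refine ⟨p, hmem p hp hpN, mem_filter.2 ⟨hS.1.1, ?_⟩⟩
    have h11 : ((p ^ V : ℕ) : ℤ) ∣ v S - r := by
      refine dvd_trans ?_ hS.2
      have : p ^ V ∣ M := Finset.dvd_prod_of_mem (fun p => p ^ V) (hmem p hp hpN)
      exact_mod_cast this
    have h12 : v S - r ∣ F.eval (v S) - F.eval r := sub_dvd_eval_sub _ _ _
    have h13 := dvd_add (h11.trans h12) hcon
    rwa [sub_add_cancel] at h13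

end Pool.Agent.Run7.h620.PD
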