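import Pool.Agent.Run7.h620.PD.Sv

set_option autoImplicit false

/-! Two-digit palindromes near which every number has a small prime factor: the construction with
explicit parameters. -/

namespace Pool.Agent.Run7.h620.PD

open Finset

/-- the product of the primes up to `N` not dividing `R` -/
noncomputable def PN (R N : ℕ) : ℕ := ∏ p ∈ (Icc 1 N).filter (fun p => p.Prime ∧ ¬ p ∣ R), p

lemma PN_pos (R N : ℕ) : 0 < PN R N := prod_pos fun _ hp => (mem_filter.1 hp).2.1.pos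

lemma PN_le (R N : ℕ) : PN R N ≤ 4 ^ N := by
  refine le_trans ?_ (primorial_le_four_pow N)
  unfold PN primorial
  refine Finset.prod_le_prod_of_subset_of_one_le' ?_ ?_
  · intro p hp
    rw [mem_filter, mem_Icc] at hp
    rw [mem_filter, mem_range]
    exact ⟨by omega, hp.2.1⟩
  · intro p hp _
    rw [mem_filter] at hp
    exact hp.2.one_lt.le

lemma PN_coprime (R N : ℕ) : Nat.Coprime (PN R N) R := by
  unfold PN
  apply Nat.Coprime.prod_left
  intro p hp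
  rw [mem_filter] at hp
  exact (Nat.Prime.coprime_iff_not_dvd hp.2.1).2 hp.2.2

lemma PN_dvd (R N p : ℕ) (hp : p.Prime) (h : p ∣ PN R N) : p ≤ N := by
  unfold PN at h
  rw [Prime.dvd_finsetProd_iff hp.prime] at h
  obtain ⟨q, hq, hpq⟩ := h
  rw [mem_filter, mem_Icc] at hq
  exact (Nat.le_of_dvd (by omega) hpq).trans hq.1.2

/-- a class with its share -/
lemma exists_class {ι : Type*} (s : Finset ι) (v : ι → ℤ) (R : ℕ) (hR : 1 ≤ R) :
    ∃ r : ℤ, (s.card : ℝ) / R ≤ cnt s v R r := by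
  classical
  by_contra hcon
  push Not at hcon
  have hRr : (0 : ℝ) < R := by exact_mod_cast hR
  have h1 : s.card = ∑ r ∈ range R, (s.filter (fun i => (v i % R).toNat = r)).card := by
    apply card_eq_sum_card_fiberwise
    intro i _
    rw [coe_range, Set.mem_Iio]
    have h2 := Int.emod_nonneg (v i) (b := (R : ℤ)) (by omega)
    have h3 := Int.emod_lt_of_pos (v i) (b := (R : ℤ)) (by omega)
    show (v i % R).toNat < R
    omega
  have h2 : ∀ r ∈ range R, ((s.filter (fun i => (v i % R).toNat = r)).card : ℝ) < s.card / R := by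
    intro r _
    refine lt_of_le_of_lt ?_ (hcon r)
    unfold cnt
    have h4 : s.filter (fun i => (v i % R).toNat = r) ⊆ s.filter (fun i => (R : ℤ) ∣ v i - r) := by
      intro i hi
      rw [mem_filter] at hi ⊢
      refine ⟨hi.1, ?_⟩
      have h3 := Int.emod_nonneg (v i) (b := (R : ℤ)) (by omega)
      have h5 : (r : ℤ) = v i % R := by omega
      rw [h5]
      exact Int.dvd_self_sub_emod
    exact_mod_cast card_le_card h4
  have h3 : (s.card : ℝ) < ∑ r ∈ range R, (s.card : ℝ) / R := by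
    calc (s.card : ℝ) = ∑ r ∈ range R, ((s.filter (fun i => (v i % R).toNat = r)).card : ℝ) := by
          exact_mod_cast h1
      _ < _ := sum_lt_sum_of_nonempty (nonempty_range_iff.2 (by omega)) h2
  rw [sum_const, card_range, nsmul_eq_mul, mul_div_cancel₀ _ hRr.ne'] at h3
  exact lt_irrefl _ h3

/-- Chinese remainders for a set of primes -/
lemma crt_primes (Q : Finset ℕ) (hQ : ∀ p ∈ Q, p.Prime) (a : ℕ → ℤ) :
    ∃ m : ℕ, m < ∏ p ∈ Q, p ∧ ∀ p ∈ Q, (p : ℤ) ∣ (m : ℤ) - a p := by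
  have hs : ∀ p ∈ Q, (id p : ℕ) ≠ 0 := fun p hp => (hQ p hp).ne_zero
  have pp : Set.Pairwise (Q : Set ℕ) (Function.onFun Nat.Coprime (id : ℕ → ℕ)) := by
    intro p hp q hq hpq
    exact (Nat.coprime_primes (hQ p hp) (hQ q hq)).2 hpq
  refine ⟨Nat.chineseRemainderOfFinset (fun p => (a p % p).toNat) id Q hs pp,
    Nat.chineseRemainderOfFinset_lt_prod (fun p => (a p % p).toNat) id hs pp, ?_⟩
  intro p hp
  have h1 := (Nat.chineseRemainderOfFinset (fun p => (a p % p).toNat) id Q hs pp).2 p hp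
  have h2 := (Nat.modEq_iff_dvd.1 h1.symm)
  have hp0 : (0 : ℤ) < p := by exact_mod_cast (hQ p hp).pos
  have h3 : (((a p % p).toNat : ℕ) : ℤ) = a p % p := Int.toNat_of_nonneg (Int.emod_nonneg _ hp0.ne')
  rw [h3] at h2
  have h4 : (p : ℤ) ∣ a p - a p % p := Int.dvd_self_sub_emod
  have h5 := dvd_sub h2 h4
  have h6 : ∀ x : ℤ, (x - a p % p) - (a p - a p % p) = x - a p := fun x => by ring
  simp only [id] at h5
  rw [h6] at h5
  exact h5

lemma primes_dvd_le (R : ℕ) (hR : 1 ≤ R) (Q : Finset ℕ) (hQ : ∀ p ∈ Q, p.Prime ∧ p ∣ R) :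
    ∏ p ∈ Q, p ≤ R := by
  have h : ((∏ p ∈ Q, p : ℕ) : ℤ) ∣ (R : ℤ) := by
    rw [← prod_dvd_iff Q (fun p hp => (hQ p hp).1)]
    intro p hp
    exact_mod_cast (hQ p hp).2
  exact Nat.le_of_dvd (by omega) (by exact_mod_cast h)

/-- the primes of the second sieve -/
noncomputable def PP (Ny Js : ℕ) : Finset ℕ := (Icc 1 (2 ^ 2 ^ Js)).filter (fun p => p.Prime ∧ Ny < p)

lemma mem_PP (Ny Js p : ℕ) : p ∈ PP Ny Js ↔ p.Prime ∧ Ny < p ∧ p ≤ 2 ^ 2 ^ Js := by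
  unfold PP
  rw [mem_filter, mem_Icc]
  constructor
  · rintro ⟨⟨_, h2⟩, h3, h4⟩
    exact ⟨h3, h4, h2⟩
  · rintro ⟨h1, h2, h3⟩
    exact ⟨⟨h1.one_lt.le, h3⟩, h1, h2⟩

/-- the harmonic sum up to the level -/
noncomputable def HS (C Js : ℕ) : ℝ := ∑ t ∈ Icc (1 : ℕ) (2 ^ (2 * C ^ 2 * 2 ^ Js)), (1 : ℝ) / (t : ℝ)

/-- the factor of the sieve product -/
noncomputable def Q1 (Ny Js : ℕ) : ℝ := 2 * ∏ p ∈ PP Ny Js, (1 - 1 / (p : ℝ))

/-- the factor of the sieve error -/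
noncomputable def Q2 (b R Ny Js C C₀ V : ℕ) : ℝ :=
  2 * R * (((Js : ℝ) + 2) * (HS C Js * (1 * ((V : ℝ) * (12 * b * (yy b R) ^ C₀ + 6 * (5 / 6) ^ (2 * Ny + 1))))))

lemma Q1_nonneg (Ny Js : ℕ) : 0 ≤ Q1 Ny Js := by
  unfold Q1
  apply mul_nonneg (by norm_num)
  apply prod_nonneg
  intro p hp
  have h2 : (2 : ℝ) ≤ p := by exact_mod_cast ((mem_PP Ny Js p).1 hp).1.two_le
  have : 1 / (p : ℝ) ≤ 1 := by rw [div_le_one (by linarith)]; linarith
  linarith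

lemma HS_nonneg (C Js : ℕ) : 0 ≤ HS C Js := sum_nonneg fun _ _ => by positivity

lemma Q2_nonneg (b R Ny Js C C₀ V : ℕ) (hb : 1 ≤ b) (hR : 1 ≤ R) : 0 ≤ Q2 b R Ny Js C C₀ V := by
  unfold Q2
  have h1 := HS_nonneg C Js
  have h2 := yy_pos b R hb hR
  positivity

open Classical in
theorem core_param : ∃ C : ℕ, 1 ≤ C ∧ ∀ (b K H R Ny Js C₀ C₁ L : ℕ) (n₀ D : ℤ) (bb : ℕ → ℕ) (T : ℝ),
    2 ≤ b → D ≠ 0 → R = b * (((b : ℤ) ^ 2 - 1) * D).natAbs → 1 ≤ H → H + 1 ≤ K → 2 * C ≤ Ny → R ≤ Ny →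
    1 ≤ C₀ → 1 ≤ C₁ → C₀ * (5 * (2 * Ny + 1)) ≤ H - 1 → C₁ * (5 * (2 * C ^ 2 * 2 ^ Js + 1)) ≤ H - 1 →
    2 * b * (yy b R) ^ C₀ * (5 * ((2 * Ny + 1 : ℕ) : ℝ)) ≤ 1 → 2 * b * (yy b R) ^ C₁ * 5 ≤ 1 / 5 →
    4 * b * (yy b R) ^ C₀ * ((H : ℝ)) ≤ 1 / (2 * R) →
    (((Icc 1 L).filter (fun k => ∀ p : ℕ, p.Prime → p ≤ Ny → ¬ k ≡ bb p [MOD p])).card : ℝ) ≤ T →
    T * Q1 Ny Js ≤ 1 / 4 → T * Q2 b R Ny Js C C₀ (H - 1) ≤ 1 / 4 → Ny ≤ 2 ^ 2 ^ Js →
    (∀ S ∈ (Icc 1 H).powerset, 0 ≤ vv b K n₀ D S) →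
    ∃ h' : ℕ, L / 2 ≤ h' ∧ h' < L / 2 + R ∧ ∃ G ⊆ (Icc 1 H).powerset,
      (2 : ℝ) ^ H / (4 * R * 4 ^ Ny) ≤ G.card ∧
      ∀ S ∈ G, ∀ k ∈ Icc 1 L, ∃ p : ℕ, p.Prime ∧ p ≤ 2 ^ 2 ^ Js ∧ (p : ℤ) ∣ vv b K n₀ D S + (k - h') := by
  obtain ⟨C, hC, hsieve⟩ := sieve_up
  refine ⟨C, hC, ?_⟩
  intro b K H R Ny Js C₀ C₁ L n₀ D bb T hb hD hRdef hH hK hCN hRN hC₀ hC₁ hV0 hV1 hy2 hy3 hy4 hT hT1 hT2 hNJ hpos
  set U : ℤ := ((b : ℤ) ^ 2 - 1) * D with hU
  have hU0 : U ≠ 0 := by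
    rw [hU]
    apply mul_ne_zero _ hD
    have : (2 : ℤ) ≤ b := by exact_mod_cast hb
    nlinarith
  have hR1 : 1 ≤ R := by
    rw [hRdef]
    have := Int.natAbs_pos.2 hU0
    exact Nat.mul_pos (by omega) this
  have hRr : (0 : ℝ) < R := by exact_mod_cast hR1
  have hbU : ((b : ℤ) * U).natAbs = R := by rw [Int.natAbs_mul, hRdef]; rfl
  have hcopR : ∀ f : ℕ, Nat.Coprime f R → IsCoprime (f : ℤ) ((b : ℤ) * U) := by
    intro f hf
    rw [Int.isCoprime_iff_gcd_eq_one, Int.gcd, hbU]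
    exact hf
  set y : ℝ := yy b R with hy
  have hy0 : 0 < y := yy_pos b R (by omega) hR1
  have hy1 : y < 1 := yy_lt b R (by omega) hR1
  set P : ℕ := PN R Ny with hP
  have hP0 : 0 < P := PN_pos R Ny
  have hPr : (0 : ℝ) < P := by exact_mod_cast hP0
  have hPcop : Nat.Coprime P R := PN_coprime R Ny
  have hbw : P < b ^ (2 * Ny + 1) := by
    calc P ≤ 4 ^ Ny := PN_le R Ny
      _ = 2 ^ (2 * Ny) := by rw [pow_mul]; norm_num
      _ < 2 ^ (2 * Ny + 1) := by apply Nat.pow_lt_pow_right <;> omega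
      _ ≤ b ^ (2 * Ny + 1) := Nat.pow_le_pow_left hb _
  -- the class modulo R
  obtain ⟨v, hv⟩ := exists_class (Icc 1 H).powerset (vv b K n₀ D) R hR1
  rw [card_powerset, Nat.card_Icc] at hv
  have hHH : H + 1 - 1 = H := by omega
  rw [hHH] at hv
  push_cast at hv
  -- the shift
  obtain ⟨t₀, ht₀, ht₀'⟩ := crt_primes (R.primeFactors) (fun p hp => Nat.prime_of_mem_primeFactors hp)
    (fun p => v + bb p - ((L / 2 : ℕ) : ℤ))
  have ht₀R : t₀ < R := lt_of_lt_of_le ht₀ (primes_dvd_le R hR1 _ (fun p hp =>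
    ⟨Nat.prime_of_mem_primeFactors hp, Nat.dvd_of_mem_primeFactors hp⟩))
  set h' : ℕ := L / 2 + t₀ with hh'
  -- the class modulo P
  obtain ⟨m, _, hm⟩ := crt_primes ((Icc 1 Ny).filter (fun p => p.Prime ∧ ¬ p ∣ R))
    (fun p hp => (mem_filter.1 hp).2.1) (fun p => (h' : ℤ) - bb p)
  obtain ⟨s₀, hs₀⟩ := crt_int R P (Nat.isCoprime_iff_coprime.2 hPcop.symm) v m
  -- the number of elements of the class
  set A : ℝ := cnt (Icc 1 H).powerset (vv b K n₀ D) (R * P) s₀ with hA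
  have hcntR : cnt (Icc 1 H).powerset (vv b K n₀ D) R s₀ = cnt (Icc 1 H).powerset (vv b K n₀ D) R v := by
    have h3 : (R : ℤ) ∣ s₀ - v := ((hs₀ s₀).2 (by simp)).1
    unfold cnt
    congr 2
    apply filter_congr
    intro S _
    constructor
    · intro h5
      have : vv b K n₀ D S - v = (vv b K n₀ D S - s₀) + (s₀ - v) := by ring
      rw [this]
      exact dvd_add h5 h3
    · intro h5
      have : vv b K n₀ D S - s₀ = (vv b K n₀ D S - v) - (s₀ - v) := by ring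
      rw [this]
      exact dvd_sub h5 h3
  have hAlow : (2 : ℝ) ^ H / (2 * R * P) ≤ A := by
    have h1 := cnt_pal b K H R 1 P n₀ D s₀ (by omega) hR1 hH hK (by omega) hP0
    rw [mul_one, one_mul] at h1
    have h2 := GG_one b (by omega) y hy0.le hy1.le U (K - 1 - H) (H - 1) P (2 * Ny + 1) C₀ hC₀
      (by
        have : C₀ * (5 * (2 * Ny + 1)) = 5 * ((2 * Ny + 1) * C₀) := by ring
        omega) hP0 hbw (hcopR P hPcop)
    have h3 : (1 + 2 * b * y ^ C₀) ^ (2 * Ny + 1) - 1 ≤ 2 * (2 * b * y ^ C₀ * ((2 * Ny + 1 : ℕ) : ℝ)) := by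
      apply pow_sub_one_le
      · positivity
      · exact le_rfl
      · have : 0 ≤ 2 * b * y ^ C₀ * ((2 * Ny + 1 : ℕ) : ℝ) := by positivity
        linarith
    have h4 : (C₀ : ℝ) * ((2 * Ny + 1 : ℕ) : ℝ) ≤ H := by
      have : C₀ * (2 * Ny + 1) ≤ H := by
        have : C₀ * (5 * (2 * Ny + 1)) = 5 * (C₀ * (2 * Ny + 1)) := by ring
        omega
      exact_mod_cast this
    have h5 : GG b y U (K - 1 - H) (H - 1) 1 P ≤ 1 / (2 * R) := by
      refine h2.trans (le_trans ?_ hy4)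
      calc (C₀ : ℝ) * ((1 + 2 * b * y ^ C₀) ^ (2 * Ny + 1) - 1) ≤
            C₀ * (2 * (2 * b * y ^ C₀ * ((2 * Ny + 1 : ℕ) : ℝ))) := by gcongr
        _ = 4 * b * y ^ C₀ * (C₀ * ((2 * Ny + 1 : ℕ) : ℝ)) := by ring
        _ ≤ 4 * b * y ^ C₀ * (H : ℝ) := by gcongr
    have h6 : (2 : ℝ) ^ H / P * GG b y U (K - 1 - H) (H - 1) 1 P ≤ 2 ^ H / P * (1 / (2 * R)) := by gcongr
    have h7 := (abs_le.1 (h1.trans h6)).1
    rw [hcntR] at h7
    have h8 : (2 : ℝ) ^ H / R / P ≤ cnt (Icc 1 H).powerset (vv b K n₀ D) R v / P := by gcongr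
    have h9 : (2 : ℝ) ^ H / R / P = 2 ^ H / P * (1 / (2 * R)) + 2 ^ H / (2 * R * P) := by
      field_simp
      ring
    rw [hA]
    linarith
  have hA0 : 0 ≤ A := cnt_nonneg _ _ _ _
  -- the sieve
  set 𝒜 : Finset (Finset ℕ) := (Icc 1 H).powerset.filter (fun S => ((R * P : ℕ) : ℤ) ∣ vv b K n₀ D S - s₀) with h𝒜
  set Surv : Finset ℕ := (Icc 1 L).filter (fun k => ∀ p : ℕ, p.Prime → p ≤ Ny → ¬ k ≡ bb p [MOD p]) with hSurv
  have hbad : ∀ k : ℕ, (((𝒜.filter (fun S => ∀ p ∈ PP Ny Js, ¬ (p : ℤ) ∣ vv b K n₀ D S + (k - h'))).card : ℝ)) ≤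
      Q1 Ny Js * A + Q2 b R Ny Js C C₀ (H - 1) * (2 ^ H / (2 * R * P)) := by
    intro k
    have h1 := hsieve b K H R P Js Ny n₀ D (PP Ny Js) hb hR1 hH hK hP0 hCN
      (fun p hp => (mem_PP Ny Js p).1 hp) (by
        intro p hp hpd
        obtain ⟨hp1, hp2, hp3⟩ := (mem_PP Ny Js p).1 hp
        rcases (Nat.Prime.dvd_mul hp1).1 hpd with h2 | h2
        · have := Nat.le_of_dvd (by omega) h2
          omega
        · have := PN_dvd R Ny p hp1 h2
          omega) hpos s₀ (k - h')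
    have h2 := total b hb y hy0 hy1.le U (K - 1 - H) (H - 1) P (2 * Ny + 1) (2 * C ^ 2 * 2 ^ Js + 1) C₀ C₁
      (2 ^ (2 * C ^ 2 * 2 ^ Js)) (by omega) hC₀ hC₁ hV0 hV1 hy2 hy3 hP0 hbw (by
        apply Nat.pow_lt_pow_right <;> omega) (fun _ => 1) (fun _ => by norm_num) (fun _ _ => by norm_num)
      1 (by norm_num) (fun d _ => by
        rw [one_mul]
        exact one_le_pow₀ (by norm_num))
      (((PP Ny Js).powerset.image (fun T => ∏ p ∈ T, p)).filter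
        (fun f => f ≤ (2 ^ 2 ^ Js) ^ (C * (2 * C)))) (by
        intro f hf
        rw [mem_filter, mem_image] at hf
        obtain ⟨⟨T', hT', rfl⟩, hf2⟩ := hf
        rw [mem_powerset] at hT'
        refine ⟨prod_pos fun p hp => ((mem_PP Ny Js p).1 (hT' hp)).1.pos, ?_, ?_⟩
        · refine hf2.trans (le_of_eq ?_)
          rw [← pow_mul]
          congr 1
          ring
        · apply hcopR
          apply Nat.Coprime.prod_left
          intro p hp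
          obtain ⟨hp1, hp2, hp3⟩ := (mem_PP Ny Js p).1 (hT' hp)
          rw [Nat.Prime.coprime_iff_not_dvd hp1]
          intro h3
          have := Nat.le_of_dvd (by omega) h3
          omega) (hcopR P hPcop)
    refine h1.trans ?_
    have h4 : ∀ X : ℝ, (2 * R * (((Js : ℝ) + 2) * X)) * (2 ^ H / (2 * R * P)) = ((Js : ℝ) + 2) * (2 ^ H / P * X) := by
      intro X
      field_simp
    unfold Q1 Q2
    rw [h4, ← hA, ← hU, ← hy]
    have h3 : 2 * (A * ∏ p ∈ PP Ny Js, (1 - 1 / (p : ℝ))) = (2 * ∏ p ∈ PP Ny Js, (1 - 1 / (p : ℝ))) * A := by ring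
    rw [h3]
    have h5 : (0 : ℝ) ≤ 2 ^ H / P := by positivity
    have h6 : (0 : ℝ) ≤ (Js : ℝ) + 2 := by positivity
    have h7 := mul_le_mul_of_nonneg_left (mul_le_mul_of_nonneg_left h2 h5) h6
    exact add_le_add le_rfl h7
  -- the good sets
  set G : Finset (Finset ℕ) := 𝒜 \ Surv.biUnion (fun k => 𝒜.filter (fun S => ∀ p ∈ PP Ny Js,
    ¬ (p : ℤ) ∣ vv b K n₀ D S + (k - h'))) with hG
  have hcardA : (𝒜.card : ℝ) = A := by
    rw [hA, h𝒜]
    rfl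
  refine ⟨h', by omega, by omega, G, ?_, ?_, ?_⟩
  · exact sdiff_subset.trans (filter_subset _ _)
  · have h1 : (𝒜.card : ℝ) ≤ G.card + (Surv.biUnion (fun k => 𝒜.filter (fun S => ∀ p ∈ PP Ny Js,
        ¬ (p : ℤ) ∣ vv b K n₀ D S + (k - h')))).card := by
      have h2 : 𝒜.card ≤ G.card + (Surv.biUnion (fun k => 𝒜.filter (fun S => ∀ p ∈ PP Ny Js,
        ¬ (p : ℤ) ∣ vv b K n₀ D S + ((k : ℤ) - (h' : ℤ))))).card := by
        rw [hG]
        exact card_le_card_sdiff_add_card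
      exact_mod_cast h2
    have h2 : (((Surv.biUnion (fun k => 𝒜.filter (fun S => ∀ p ∈ PP Ny Js,
        ¬ (p : ℤ) ∣ vv b K n₀ D S + (k - h')))).card : ℕ) : ℝ) ≤ Surv.card * (Q1 Ny Js * A + Q2 b R Ny Js C C₀ (H - 1) * (2 ^ H / (2 * R * P))) := by
      calc (((Surv.biUnion (fun k => 𝒜.filter (fun S => ∀ p ∈ PP Ny Js,
            ¬ (p : ℤ) ∣ vv b K n₀ D S + (k - h')))).card : ℕ) : ℝ) ≤
            ∑ k ∈ Surv, ((𝒜.filter (fun S => ∀ p ∈ PP Ny Js,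
              ¬ (p : ℤ) ∣ vv b K n₀ D S + (k - h'))).card : ℝ) := by exact_mod_cast card_biUnion_le
        _ ≤ ∑ k ∈ Surv, _ := sum_le_sum fun k _ => hbad k
        _ = _ := by rw [sum_const, nsmul_eq_mul]
    have hQ1' : 0 ≤ Q1 Ny Js := Q1_nonneg Ny Js
    have hQ2' : 0 ≤ Q2 b R Ny Js C C₀ (H - 1) := Q2_nonneg b R Ny Js C C₀ (H - 1) (by omega) hR1
    have hB0 : (0 : ℝ) ≤ 2 ^ H / (2 * R * P) := by positivity
    have h3 : (Surv.card : ℝ) * (Q1 Ny Js * A + Q2 b R Ny Js C C₀ (H - 1) * (2 ^ H / (2 * R * P))) ≤ A / 2 := by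
      have h5 : (Surv.card : ℝ) * (Q1 Ny Js * A + Q2 b R Ny Js C C₀ (H - 1) * (2 ^ H / (2 * R * P))) =
        (Surv.card * Q1 Ny Js) * A + (Surv.card * Q2 b R Ny Js C C₀ (H - 1)) * (2 ^ H / (2 * R * P)) := by ring
      rw [h5]
      have h6 : (Surv.card : ℝ) * Q1 Ny Js ≤ 1 / 4 := (mul_le_mul_of_nonneg_right hT hQ1').trans hT1
      have h7 : (Surv.card : ℝ) * Q2 b R Ny Js C C₀ (H - 1) ≤ 1 / 4 :=
        (mul_le_mul_of_nonneg_right hT hQ2').trans hT2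
      have h8 := mul_le_mul_of_nonneg_right h6 hA0
      have h9 := mul_le_mul_of_nonneg_right h7 hB0
      linarith
    have h4 : (2 : ℝ) ^ H / (4 * R * 4 ^ Ny) ≤ 2 ^ H / (2 * R * P) / 2 := by
      have h5 : (P : ℝ) ≤ 4 ^ Ny := by exact_mod_cast PN_le R Ny
      have h6 : (2 : ℝ) ^ H / (2 * R * P) / 2 = 2 ^ H / (4 * R * P) := by
        field_simp
        norm_num
      rw [h6]
      gcongr
    rw [hcardA] at h1
    linarith
  · intro S hS k hk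
    rw [hG, mem_sdiff, mem_biUnion] at hS
    obtain ⟨hS1, hS2⟩ := hS
    by_cases hks : k ∈ Surv
    · by_contra hcon
      apply hS2
      refine ⟨k, hks, ?_⟩
      rw [mem_filter]
      refine ⟨hS1, ?_⟩
      intro p hp hpd
      obtain ⟨hp1, hp2, hp3⟩ := (mem_PP Ny Js p).1 hp
      exact hcon ⟨p, hp1, hp3, hpd⟩
    · rw [hSurv, mem_filter] at hks
      push Not at hks
      obtain ⟨p, hp1, hp2, hp3⟩ := hks hk
      refine ⟨p, hp1, hp2.trans hNJ, ?_⟩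
      · rw [h𝒜, mem_filter] at hS1
        obtain ⟨h1, h2⟩ := (hs₀ _).2 hS1.2
        have h3 : (p : ℤ) ∣ (bb p : ℤ) - k := Nat.modEq_iff_dvd.1 hp3
        by_cases hpR : p ∣ R
        · have h4 := ht₀' p (Nat.mem_primeFactors.2 ⟨hp1, hpR, by omega⟩)
          have h5 : (p : ℤ) ∣ vv b K n₀ D S - v := dvd_trans (by exact_mod_cast hpR) h1
          have h6 : vv b K n₀ D S + (k - h') = (vv b K n₀ D S - v) - ((t₀ : ℤ) - (v + bb p - ((L / 2 : ℕ) : ℤ))) -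
            ((bb p : ℤ) - k) := by
            rw [hh']
            push_cast
            ring
          rw [h6]
          exact dvd_sub (dvd_sub h5 h4) h3
        · have h4 : p ∈ (Icc 1 Ny).filter (fun p => p.Prime ∧ ¬ p ∣ R) := by
            rw [mem_filter, mem_Icc]
            exact ⟨⟨hp1.one_lt.le, hp2⟩, hp1, hpR⟩
          have h5 : (p : ℤ) ∣ vv b K n₀ D S - m := by
            refine dvd_trans ?_ h2
            exact Int.natCast_dvd_natCast.2 (Finset.dvd_prod_of_mem _ h4)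
          have h7 := hm p h4
          have h6 : vv b K n₀ D S + (k - h') = (vv b K n₀ D S - m) + ((m : ℤ) - ((h' : ℤ) - bb p)) -
            ((bb p : ℤ) - k) := by ring
          rw [h6]
          exact dvd_sub (dvd_add h5 h7) h3

end Pool.Agent.Run7.h620.PD
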