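import Pool.Agent.Run7.h620.PD.Rt
import Pool.Agent.Run7.h620.PD.Core

set_option autoImplicit false

/-! No residue class modulo a high prime power contains many of the numbers. -/

namespace Pool.Agent.Run7.h620.PD

open Finset Polynomial
open Pool.Agent.H469R2.NK (e)

lemma sum_ind (H : ℕ) (g : ℕ → ℤ) (S : Finset ℕ) (hS : S ⊆ Icc 1 H) :
    ∑ i ∈ S, g i = ∑ i ∈ Icc 1 H, if i ∈ S then g i else 0 := by
  rw [← sum_filter]
  congr 1
  ext i
  rw [mem_filter]
  exact ⟨fun h => ⟨hS h, h⟩, fun h => h.2⟩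

/-- primes dividing the base: the last digits are seen -/
lemma low_inj (b K H : ℕ) (n₀ D : ℤ) (p m i₀ : ℕ) (hb : 2 ≤ b) (hp : p.Prime) (hpb : p ∣ b)
    (hD : D ≠ 0) (hm : D.natAbs * b ^ i₀ < p ^ m) (hK : 2 * H + 2 ≤ K) (S S' : Finset ℕ) (hS : S ⊆ Icc 1 H)
    (hS' : S' ⊆ Icc 1 H) (hd : ((p ^ m : ℕ) : ℤ) ∣ vv b K n₀ D S - vv b K n₀ D S')
    (hhigh : ∀ i, i₀ < i → (i ∈ S ↔ i ∈ S')) : S = S' := by
  by_contra hne
  have hex : ∃ j, ¬ (j ∈ S ↔ j ∈ S') := by
    by_contra hcon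
    push Not at hcon
    exact hne (Finset.ext hcon)
  classical
  set j := Nat.find hex with hj
  have hj1 : ¬ (j ∈ S ↔ j ∈ S') := Nat.find_spec hex
  have hj2 : ∀ i, i < j → (i ∈ S ↔ i ∈ S') := by
    intro i hi
    have := Nat.find_min hex hi
    push Not at this
    exact this
  have hji : j ≤ i₀ := by
    by_contra hcon
    exact hj1 (hhigh j (by omega))
  have hjH : j ∈ Icc 1 H := by
    by_contra hcon
    apply hj1
    constructor
    · intro h; exact absurd (hS h) hcon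
    · intro h; exact absurd (hS' h) hcon
  have hjH' := mem_Icc.1 hjH
  set δ : ℕ → ℤ := fun i => (if i ∈ S then 1 else 0) - (if i ∈ S' then 1 else 0) with hδ
  have hδj : δ j = 1 ∨ δ j = -1 := by
    simp only [hδ]
    by_cases h1 : j ∈ S
    · have h2 : j ∉ S' := fun h2 => hj1 ⟨fun _ => h2, fun _ => h1⟩
      rw [if_pos h1, if_neg h2]
      left; norm_num
    · have h2 : j ∈ S' := by
        by_contra h2
        exact hj1 ⟨fun h => absurd h h1, fun h => absurd h h2⟩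
      rw [if_neg h1, if_pos h2]
      right; norm_num
  have hsum : vv b K n₀ D S - vv b K n₀ D S' = D * ∑ i ∈ Icc 1 H, δ i * (gg b K i : ℤ) := by
    unfold vv
    rw [sum_ind H (fun i => (gg b K i : ℤ)) S hS, sum_ind H (fun i => (gg b K i : ℤ)) S' hS']
    rw [add_sub_add_left_eq_sub, ← mul_sub, ← sum_sub_distrib]
    congr 1
    refine sum_congr rfl fun i _ => ?_
    simp only [hδ]
    split_ifs <;> ring
  have hrest : ∃ X : ℤ, ∑ i ∈ Icc 1 H, δ i * (gg b K i : ℤ) = (b : ℤ) ^ j * (δ j + b * X) := by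
    rw [← add_sum_erase _ _ hjH]
    have h1 : ∀ i ∈ (Icc 1 H).erase j, ((b : ℤ) ^ (j + 1)) ∣ δ i * (gg b K i : ℤ) := by
      intro i hi
      rw [mem_erase, mem_Icc] at hi
      rcases lt_trichotomy i j with h2 | h2 | h2
      · have h3 : δ i = 0 := by
          simp only [hδ]
          have h4 := hj2 i h2
          by_cases h5 : i ∈ S
          · rw [if_pos h5, if_pos (h4.1 h5)]; norm_num
          · rw [if_neg h5, if_neg (fun h => h5 (h4.2 h))]; norm_num
        rw [h3, zero_mul]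
        exact dvd_zero _
      · exact absurd h2 hi.1
      · apply Dvd.dvd.mul_left
        unfold gg
        push_cast
        exact dvd_add (pow_dvd_pow _ (by omega)) (pow_dvd_pow _ (by omega))
    obtain ⟨X, hX⟩ := dvd_sum h1
    refine ⟨X + δ j * (b : ℤ) ^ (K - 1 - j - (j + 1)), ?_⟩
    rw [hX]
    have h2 : (gg b K j : ℤ) = (b : ℤ) ^ j + (b : ℤ) ^ (j + 1) * (b : ℤ) ^ (K - 1 - j - (j + 1)) := by
      unfold gg
      push_cast
      rw [← pow_add]
      congr 2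
      omega
    rw [h2]
    ring
  obtain ⟨X, hX⟩ := hrest
  rw [hsum, hX] at hd
  have hpi : Prime (p : ℤ) := Nat.prime_iff_prime_int.1 hp
  have hcop : IsCoprime (((p ^ m : ℕ) : ℤ)) (δ j + b * X) := by
    push_cast
    apply IsCoprime.pow_left
    rw [Prime.coprime_iff_not_dvd hpi]
    intro h3
    have h4 : (p : ℤ) ∣ (b : ℤ) * X := Dvd.dvd.mul_right (by exact_mod_cast hpb) X
    have h5 : (p : ℤ) ∣ δ j := by
      have := dvd_sub h3 h4
      have h6 : δ j + b * X - b * X = δ j := by ring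
      rwa [h6] at this
    have h7 : (p : ℤ) ∣ 1 := by
      rcases hδj with h8 | h8
      · rwa [h8] at h5
      · rw [h8] at h5
        exact (dvd_neg.1 h5)
    exact hpi.not_dvd_one h7
  have h3 : ((p ^ m : ℕ) : ℤ) ∣ D * (b : ℤ) ^ j := by
    have h4 : D * ((b : ℤ) ^ j * (δ j + b * X)) = (D * (b : ℤ) ^ j) * (δ j + b * X) := by ring
    rw [h4] at hd
    exact hcop.dvd_of_dvd_mul_right hd
  have h4 : p ^ m ∣ (D * (b : ℤ) ^ j).natAbs := Int.natCast_dvd.1 h3
  rw [Int.natAbs_mul, Int.natAbs_pow, Int.natAbs_natCast] at h4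
  have h5 : 0 < D.natAbs * b ^ j := Nat.mul_pos (Int.natAbs_pos.2 hD) (Nat.pow_pos (by omega))
  have h6 := Nat.le_of_dvd h5 h4
  have h7 : D.natAbs * b ^ j ≤ D.natAbs * b ^ i₀ := Nat.mul_le_mul_left _ (Nat.pow_le_pow_right (by omega) hji)
  omega

lemma ac_dvd (b K H : ℕ) (n₀ D : ℤ) (p m i₀ : ℕ) (hb : 2 ≤ b) (hp : p.Prime) (hpb : p ∣ b)
    (hD : D ≠ 0) (hm : D.natAbs * b ^ i₀ < p ^ m) (hi : i₀ ≤ H) (hK : 2 * H + 2 ≤ K) (r : ℤ) :
    cnt (Icc 1 H).powerset (vv b K n₀ D) (p ^ m) r ≤ 2 ^ (H - i₀) := by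
  unfold cnt
  have h1 : ((Icc 1 H).powerset.filter (fun S => ((p ^ m : ℕ) : ℤ) ∣ vv b K n₀ D S - r)).card ≤
      ((Icc (i₀ + 1) H).powerset).card := by
    apply card_le_card_of_injOn (fun S => S.filter (fun i => i₀ < i))
    · intro S hS
      rw [mem_coe, mem_filter, mem_powerset] at hS
      rw [mem_coe, mem_powerset]
      intro i hi
      rw [mem_filter] at hi
      have := mem_Icc.1 (hS.1 hi.1)
      rw [mem_Icc]
      omega
    · intro S hS S' hS' h
      rw [mem_coe, mem_filter, mem_powerset] at hS hS'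
      refine low_inj b K H n₀ D p m i₀ hb hp hpb hD hm hK S S' hS.1 hS'.1 ?_ ?_
      · have := dvd_sub hS.2 hS'.2
        have h2 : vv b K n₀ D S - r - (vv b K n₀ D S' - r) = vv b K n₀ D S - vv b K n₀ D S' := by ring
        rwa [h2] at this
      · intro i hi
        have h2 : i ∈ S.filter (fun i => i₀ < i) ↔ i ∈ S'.filter (fun i => i₀ < i) := by
          simp only at h
          rw [h]
        rw [mem_filter, mem_filter] at h2
        constructor
        · intro h3; exact (h2.1 ⟨h3, hi⟩).1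
        · intro h3; exact (h2.2 ⟨h3, hi⟩).1
  rw [card_powerset, Nat.card_Icc] at h1
  have h2 : H + 1 - (i₀ + 1) = H - i₀ := by omega
  rw [h2] at h1
  exact_mod_cast h1

lemma bet_one (b q : ℕ) (a : ℤ) (hq : 0 < q) (hcop : Nat.Coprime q b)
    (hqa : ¬ (q : ℤ) ∣ a) (W : ℕ) (hW : q ≤ b ^ W) (j : ℕ) : 1 ≤ bet b ((a : ℝ) / q) j W := by
  by_contra hcon
  have h0 : bet b ((a : ℝ) / q) j W = 0 := by omega
  unfold bet at h0
  rw [sum_eq_zero_iff] at h0
  have hdig : ∀ t < W, dig b ((a : ℝ) / q) (j + t) = 0 := by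
    intro t ht
    have := h0 t (mem_range.2 ht)
    by_contra hne
    rw [if_neg hne] at this
    exact one_ne_zero this
  have hd0 : ∀ i, dig b 0 i = 0 := by
    intro i
    unfold dig
    simp
  have h1 := sd_diff b ((a : ℝ) / q) 0 j W (fun t ht => by rw [hdig t ht, hd0])
  have hs0 : ∀ i, sd b 0 i = 0 := by
    intro i
    unfold sd
    simp
  rw [hs0, hs0, sub_zero, sub_zero] at h1
  have hqr : (0 : ℝ) < q := by exact_mod_cast hq
  have h2 : 1 / (q : ℝ) ≤ |sd b ((a : ℝ) / q) j| := by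
    unfold sd
    set n := round ((b : ℝ) ^ j * ((a : ℝ) / q)) with hn
    have h3 : (b : ℝ) ^ j * ((a : ℝ) / q) - n = (((b : ℤ) ^ j * a - n * q : ℤ) : ℝ) / q := by
      push_cast
      field_simp
    rw [h3, abs_div, abs_of_pos hqr]
    apply div_le_div_of_nonneg_right _ hqr.le
    have h4 : (b : ℤ) ^ j * a - n * q ≠ 0 := by
      intro h5
      apply hqa
      have h6 : (q : ℤ) ∣ (b : ℤ) ^ j * a := ⟨n, by linarith⟩
      have h7 : IsCoprime (q : ℤ) ((b : ℤ) ^ j) := (Nat.isCoprime_iff_coprime.2 hcop).pow_right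
      exact h7.dvd_of_dvd_mul_left h6
    have h8 := Int.one_le_abs h4
    exact_mod_cast h8
  have h3 := abs_sd_le b ((a : ℝ) / q) (j + W)
  rw [h1, abs_mul] at h3
  have hWr : (q : ℝ) ≤ |(b : ℝ) ^ W| := by
    rw [abs_of_nonneg (by positivity)]
    exact_mod_cast hW
  have h4 : (1 : ℝ) ≤ |(b : ℝ) ^ W| * |sd b ((a : ℝ) / q) j| := by
    calc (1 : ℝ) = q * (1 / q) := by field_simp
      _ ≤ _ := mul_le_mul hWr h2 (by positivity) (abs_nonneg _)
  linarith

lemma bet_low (b q : ℕ) (a : ℤ) (hq : 0 < q) (hcop : Nat.Coprime q b)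
    (hqa : ¬ (q : ℤ) ∣ a) (W : ℕ) (hW : q ≤ b ^ W) (j V C : ℕ) (hV : W * C ≤ V) :
    C ≤ bet b ((a : ℝ) / q) j V := by
  refine le_trans ?_ (bet_mono b _ j _ _ hV)
  rw [bet_mul]
  calc C = ∑ _w ∈ range C, 1 := by simp
    _ ≤ _ := sum_le_sum fun w _ => bet_one b q a hq hcop hqa W hW (j + W * w)

lemma ac_cop (b K H q W C : ℕ) (n₀ D : ℤ) (hb : 2 ≤ b) (hD : D ≠ 0) (hq : 0 < q) (hcop : Nat.Coprime q b)
    (hW : q ≤ b ^ W) (hV : W * C ≤ H - 1) (hH : 1 ≤ H) (hK : H + 1 ≤ K) (r : ℤ) :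
    cnt (Icc 1 H).powerset (vv b K n₀ D) q r ≤
      2 ^ H * (((((b : ℤ) ^ 2 - 1) * D).natAbs : ℝ) / q + (yy b 1) ^ C) := by
  set U : ℤ := ((b : ℤ) ^ 2 - 1) * D with hU
  have hU0 : U ≠ 0 := by
    rw [hU]
    apply mul_ne_zero _ hD
    have : (2 : ℤ) ≤ b := by exact_mod_cast hb
    nlinarith
  have hU1 : 0 < U.natAbs := Int.natAbs_pos.2 hU0
  have hqr : (0 : ℝ) < q := by exact_mod_cast hq
  have hy0 : 0 < yy b 1 := yy_pos b 1 (by omega) le_rfl
  have hy1 : yy b 1 < 1 := yy_lt b 1 (by omega) le_rfl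
  set y := yy b 1 with hy
  have h1 := cnt_exp (Icc 1 H).powerset (vv b K n₀ D) q hq r
  have h2 : (q : ℝ) * cnt (Icc 1 H).powerset (vv b K n₀ D) q r ≤
      ∑ h ∈ range q, ‖∑ S ∈ (Icc 1 H).powerset, e ((h : ℝ) / q * (vv b K n₀ D S : ℝ))‖ := by
    have h3 : ‖(((q : ℝ) * cnt (Icc 1 H).powerset (vv b K n₀ D) q r : ℝ) : ℂ)‖ =
        (q : ℝ) * cnt (Icc 1 H).powerset (vv b K n₀ D) q r := by
      rw [Complex.norm_real, Real.norm_eq_abs, abs_of_nonneg]
      exact mul_nonneg hqr.le (cnt_nonneg _ _ _ _)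
    rw [← h3, h1]
    refine (norm_sum_le _ _).trans (le_of_eq ?_)
    refine sum_congr rfl fun h _ => ?_
    rw [norm_term]
  have h3 : ∀ h ∈ range q, ‖∑ S ∈ (Icc 1 H).powerset, e ((h : ℝ) / q * (vv b K n₀ D S : ℝ))‖ ≤
      2 ^ H * ((if (q : ℤ) ∣ U * h then 1 else 0) + y ^ C) := by
    intro h _
    have h4 := four_le b K H 1 n₀ D (by omega) le_rfl hH hK ((h : ℝ) / q)
    refine h4.trans ?_
    apply mul_le_mul_of_nonneg_left _ (by positivity)
    have hyC : 0 ≤ y ^ C := by positivity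
    by_cases h5 : (q : ℤ) ∣ U * h
    · rw [if_pos h5]
      have : y ^ (bet b (((1 : ℕ) : ℝ) * (((b : ℝ) ^ 2 - 1) * D) * ((h : ℝ) / q)) (K - 1 - H) (H - 1)) ≤ 1 :=
        pow_le_one₀ hy0.le hy1.le
      linarith
    · rw [if_neg h5, zero_add]
      have h6 : ((1 : ℕ) : ℝ) * (((b : ℝ) ^ 2 - 1) * D) * ((h : ℝ) / q) = ((U * h : ℤ) : ℝ) / q := by
        rw [hU]
        push_cast
        ring
      rw [h6]
      exact pow_le_pow_of_le_one hy0.le hy1.le (bet_low b q (U * h) hq hcop h5 W hW (K - 1 - H) (H - 1) C hV)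
  have h4 := h2.trans (sum_le_sum h3)
  rw [← mul_sum, sum_add_distrib, sum_const, card_range, nsmul_eq_mul] at h4
  have h5 : ∑ h ∈ range q, (if (q : ℤ) ∣ U * h then (1 : ℝ) else 0) ≤ U.natAbs := by
    rw [← sum_filter, sum_const, nsmul_eq_mul, mul_one]
    have h6 : ((range q).filter (fun h : ℕ => (q : ℤ) ∣ U * h)).card ≤ (range U.natAbs).card := by
      apply card_le_card_of_injOn (fun h => U.natAbs * h / q)
      · intro h hh
        rw [mem_coe, mem_filter, mem_range] at hh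
        rw [mem_coe, mem_range]
        rw [Nat.div_lt_iff_lt_mul hq]
        exact Nat.mul_lt_mul_of_pos_left hh.1 hU1
      · intro h hh h' hh' heq
        rw [mem_coe, mem_filter, mem_range] at hh hh'
        have g1 : q ∣ U.natAbs * h := by
          have := Int.natCast_dvd.1 hh.2
          rwa [Int.natAbs_mul, Int.natAbs_natCast] at this
        have g2 : q ∣ U.natAbs * h' := by
          have := Int.natCast_dvd.1 hh'.2
          rwa [Int.natAbs_mul, Int.natAbs_natCast] at this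
        simp only at heq
        have g3 : U.natAbs * h = U.natAbs * h' := by
          rw [← Nat.div_mul_cancel g1, ← Nat.div_mul_cancel g2, heq]
        exact Nat.eq_of_mul_eq_mul_left hU1 g3
    rw [card_range] at h6
    exact_mod_cast h6
  have h6 : (q : ℝ) * cnt (Icc 1 H).powerset (vv b K n₀ D) q r ≤ q * (2 ^ H * ((U.natAbs : ℝ) / q + y ^ C)) := by
    calc _ ≤ _ := h4
      _ ≤ 2 ^ H * ((U.natAbs : ℝ) + q * y ^ C) := by gcongr
      _ = _ := by field_simp
  exact le_of_mul_le_mul_left h6 hqr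

end Pool.Agent.Run7.h620.PD
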