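import Pool.Agent.Run7.h620.PD.Par2
import Pool.Agent.Run7.h620.PD.Gc

set_option autoImplicit false

/-! Almost primes: values of polynomials without small prime factors. -/

namespace Pool.Agent.Run7.h620.PD

open Finset Polynomial Filter

/-- the residues modulo `p` at which `F` vanishes -/
def Zr (F : ℤ[X]) (p : ℕ) : Finset ℕ := (range p).filter (fun a => (p : ℤ) ∣ F.eval (a : ℤ))

lemma Zr_of_dvd (F : ℤ[X]) (p : ℕ) (hp : 0 < p) (n : ℤ) (h : (p : ℤ) ∣ F.eval n) :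
    ∃ z ∈ Zr F p, (p : ℤ) ∣ n - z := by
  have h1 := Int.emod_nonneg n (b := (p : ℤ)) (by omega)
  have h2 := Int.emod_lt_of_pos n (b := (p : ℤ)) (by omega)
  have h3 : (p : ℤ) ∣ n - n % p := Int.dvd_self_sub_emod
  refine ⟨(n % p).toNat, ?_, ?_⟩
  · unfold Zr
    rw [mem_filter, mem_range]
    refine ⟨by omega, ?_⟩
    rw [Int.toNat_of_nonneg h1]
    have h4 : n - n % p ∣ F.eval n - F.eval (n % p) := sub_dvd_eval_sub _ _ _
    have h5 := dvd_sub h (h3.trans h4)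
    rwa [sub_sub_cancel] at h5
  · rw [Int.toNat_of_nonneg h1]
    exact h3

lemma Zr_dvd (F : ℤ[X]) (p : ℕ) (n : ℤ) (h : ∃ z ∈ Zr F p, (p : ℤ) ∣ n - z) : (p : ℤ) ∣ F.eval n := by
  obtain ⟨z, hz, hnz⟩ := h
  have h1 := (mem_filter.1 hz).2
  have h4 : n - z ∣ F.eval n - F.eval (z : ℤ) := sub_dvd_eval_sub _ _ _
  have h5 := dvd_add (hnz.trans h4) h1
  rwa [sub_add_cancel] at h5

lemma Zr_card (F : ℤ[X]) (p : ℕ) (hp : p.Prime) (h : ¬ (p : ℤ) ∣ F.leadingCoeff) : (Zr F p).card ≤ F.natDegree := by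
  have : Fact p.Prime := ⟨hp⟩
  set Fp : (ZMod p)[X] := F.map (Int.castRingHom (ZMod p)) with hFp
  have hlc : (Int.castRingHom (ZMod p)) F.leadingCoeff ≠ 0 := by
    rw [eq_intCast, Ne, ZMod.intCast_zmod_eq_zero_iff_dvd]
    exact h
  have hFp0 : Fp ≠ 0 := by
    intro h0
    have h1 : Fp.coeff F.natDegree = 0 := by rw [h0, coeff_zero]
    rw [hFp, coeff_map] at h1
    exact hlc h1
  have hdeg : Fp.natDegree ≤ F.natDegree := natDegree_map_le
  have h1 : (Zr F p).card ≤ Fp.roots.toFinset.card := by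
    apply card_le_card_of_injOn (fun a : ℕ => (a : ZMod p))
    · intro a ha
      have ha2 := (mem_filter.1 (mem_coe.1 ha)).2
      rw [mem_coe, Multiset.mem_toFinset, mem_roots hFp0, IsRoot.def, hFp, eval_natCast_map, eq_intCast,
        ZMod.intCast_zmod_eq_zero_iff_dvd]
      exact ha2
    · intro a ha c hc hac
      have ha2 := mem_range.1 (mem_filter.1 (mem_coe.1 ha)).1
      have hc2 := mem_range.1 (mem_filter.1 (mem_coe.1 hc)).1
      simp only at hac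
      rw [ZMod.natCast_eq_natCast_iff] at hac
      exact Nat.ModEq.eq_of_lt_of_lt hac ha2 hc2
  exact h1.trans ((Multiset.toFinset_card_le _).trans ((card_roots' Fp).trans hdeg))

/-- the harmonic sum -/
noncomputable def hs (X : ℕ) : ℝ := ∑ t ∈ Icc (1 : ℕ) X, (1 : ℝ) / (t : ℝ)

lemma hs_nonneg (X : ℕ) : 0 ≤ hs X := sum_nonneg fun _ _ => by positivity

lemma hs_le (n : ℕ) : hs (2 ^ n) ≤ 1 + n := by
  have h1 := harmonic_le_one_add_log (2 ^ n)
  have h2 : hs (2 ^ n) = (harmonic (2 ^ n) : ℝ) := by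
    unfold hs
    rw [harmonic_eq_sum_Icc, Rat.cast_sum]
    refine sum_congr rfl fun t _ => ?_
    rw [Rat.cast_inv, Rat.cast_natCast, one_div]
  rw [h2]
  refine h1.trans ?_
  push_cast
  rw [Real.log_pow]
  have h6 : Real.log 2 ≤ 1 := by have := Real.log_two_lt_d9; linarith
  have h7 : (n : ℝ) * Real.log 2 ≤ n * 1 := mul_le_mul_of_nonneg_left h6 (Nat.cast_nonneg _)
  linarith

/-- many values without small prime factors -/
theorem almost (b : ℕ) (hb : 2 ≤ b) (D : ℤ) (hD : D ≠ 0) (F : ℤ[X]) (hF : 1 ≤ F.natDegree) :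
    ∃ c : ℝ, 0 < c ∧ ∃ N V M' : ℕ, 2 ≤ N ∧ 1 ≤ M' ∧ ∀ᶠ K : ℕ in atTop, ∀ n₀ : ℤ,
      (∀ S ∈ (Icc 1 ((K - 2) / 2)).powerset, 0 ≤ vv b K n₀ D S) →
      ∃ G ⊆ (Icc 1 ((K - 2) / 2)).powerset, c * 2 ^ ((K - 2) / 2) / (K : ℝ) ^ F.natDegree ≤ G.card ∧
        ∀ S ∈ G, ∀ p : ℕ, p.Prime → (p ≤ N → ¬ ((p ^ V : ℕ) : ℤ) ∣ F.eval (vv b K n₀ D S)) ∧
          (N < p → p ^ M' ≤ 2 ^ K → ¬ (p : ℤ) ∣ F.eval (vv b K n₀ D S)) := by
  classical
  obtain ⟨C, hC, hsieve⟩ := sieve_gen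
  set κ : ℕ := F.natDegree with hκ
  have hF0 : F ≠ 0 := by
    rintro rfl
    rw [hκ, natDegree_zero] at hF
    omega
  have hlc0 : F.leadingCoeff ≠ 0 := leadingCoeff_ne_zero.2 hF0
  obtain ⟨c₁, hc₁, hml⟩ := mert_low κ
  obtain ⟨A₀, hA₀, hwk⟩ := wk_log κ hF
  have hbr : (2 : ℝ) ≤ b := by exact_mod_cast hb
  obtain ⟨U, hU⟩ : ∃ U : ℤ, U = ((b : ℤ) ^ 2 - 1) * D := ⟨_, rfl⟩
  have hU0 : U ≠ 0 := by
    rw [hU]
    apply mul_ne_zero _ hD
    have : (2 : ℤ) ≤ b := by exact_mod_cast hb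
    nlinarith
  obtain ⟨N, hN⟩ : ∃ N : ℕ, N = b * U.natAbs + C * (κ + 1) + 2 * κ + F.leadingCoeff.natAbs + 3 := ⟨_, rfl⟩
  obtain ⟨M, V, hM0, hMp, hMV, hgood⟩ := good_class b hb D hD F hF0 N
  have hMr : (1 : ℝ) ≤ M := by exact_mod_cast hM0
  have hbU0 : 0 < b * U.natAbs := Nat.mul_pos (by omega) (Int.natAbs_pos.2 hU0)
  have hbU : ((b : ℤ) * U).natAbs = b * U.natAbs := by rw [Int.natAbs_mul]; rfl
  set y : ℝ := yy b M with hy
  have hy0 : 0 < y := yy_pos b M (by omega) hM0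
  have hy1 : y < 1 := yy_lt b M (by omega) hM0
  have hly : Real.log y < 0 := Real.log_neg hy0 hy1
  obtain ⟨E, hE⟩ : ∃ E : ℕ, E = 2 * κ + 3 := ⟨_, rfl⟩
  set q : ℝ := E / (-Real.log y) with hq
  have hq0 : 0 < q := by
    rw [hq]
    apply div_pos _ (by linarith)
    rw [hE]
    positivity
  set η : ℝ := 1 / (60 * (q + 1)) with hη
  have hη0 : 0 < η := by rw [hη]; positivity
  obtain ⟨n₁, hn₁⟩ := exists_pow_lt_of_lt_one (show (0 : ℝ) < 1 / (50 * b) by positivity) hy1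
  obtain ⟨C₁, hC₁⟩ : ∃ C₁ : ℕ, C₁ = n₁ + 1 := ⟨_, rfl⟩
  have hy3 : 2 * b * y ^ C₁ * 5 ≤ 1 / 5 := by
    have h1 : y ^ C₁ ≤ 1 / (50 * b) := by
      rw [hC₁, pow_succ]
      calc y ^ n₁ * y ≤ y ^ n₁ * 1 := mul_le_mul_of_nonneg_left hy1.le (pow_pos hy0 n₁).le
        _ ≤ 1 / (50 * b) := by rw [mul_one]; exact hn₁.le
    calc 2 * b * y ^ C₁ * 5 ≤ 2 * b * (1 / (50 * b)) * 5 := by gcongr
      _ = 1 / 5 := by field_simp; norm_num
  obtain ⟨M₁, hM₁⟩ : ∃ M₁ : ℕ, M₁ = 40 * C₁ * (C * (C * (κ + 1))) := ⟨_, rfl⟩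
  have hCC : 1 ≤ C * (C * (κ + 1)) := Nat.mul_pos hC (Nat.mul_pos hC (by omega))
  have hM2C : C * (C * (κ + 1)) ≤ M₁ := by
    rw [hM₁]
    exact Nat.le_mul_of_pos_left _ (by omega)
  have hM2 : 2 ≤ M₁ := by
    rw [hM₁]
    calc 2 ≤ 40 * C₁ * 1 := by omega
      _ ≤ 40 * C₁ * (C * (C * (κ + 1))) := Nat.mul_le_mul_left _ hCC
  have hM1 : 1 ≤ M₁ := by omega
  obtain ⟨T₀, hT₀⟩ : ∃ T₀ : ℝ, T₀ = 2 ^ κ * A₀ * (12 * b + 6) := ⟨_, rfl⟩
  have hT₀0 : 0 ≤ T₀ := by rw [hT₀]; positivity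
  obtain ⟨B, hB⟩ : ∃ B : ℝ, B = 100 + 40 * C₁ + 2 * b + N + T₀ * (8 * M / c₁) := ⟨_, rfl⟩
  refine ⟨c₁ / (8 * M), by positivity, N, V, 2 * M₁, by omega, by omega, ?_⟩
  filter_upwards [par2 E y hy0 hy1 q η (by omega) hq hη M₁ hM1 B, hgood] with K hK hgK n₀ hpos
  obtain ⟨s₀, hs₀, hs₀'⟩ := hgK n₀
  obtain ⟨k1, k2, k3, k4, k5, k6, k7, k8, k9⟩ := hK
  set z : ℝ := η * K / Real.log K with hz
  set Ny : ℕ := ⌊z⌋₊ with hNy
  set Js : ℕ := Nat.log 2 (K / M₁) with hJs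
  set C₀ : ℕ := ⌈q * Real.log K⌉₊ with hC₀
  have e1 : (0 : ℝ) ≤ 40 * C₁ := by positivity
  have e2 : (0 : ℝ) ≤ 2 * b := by positivity
  have e3 : (0 : ℝ) ≤ N := by positivity
  have e4 : (0 : ℝ) ≤ T₀ * (8 * M / c₁) := by positivity
  have hKr : (100 : ℝ) ≤ K := by linarith
  have hK100 : 100 ≤ K := by exact_mod_cast hKr
  have hK0 : (0 : ℝ) < K := by linarith
  have hlK0 : 0 < Real.log K := by linarith
  have hC₀1 : 1 ≤ C₀ := by
    rw [hC₀]
    exact Nat.one_le_ceil_iff.2 (by positivity)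
  have hV1 : C₁ * (5 * (C * (C * (κ + 1)) * 2 ^ Js + 1)) ≤ (K - 2) / 2 - 1 := by
    have h1 : 40 * C₁ * (C * (C * (κ + 1))) * 2 ^ Js ≤ K := by rw [← hM₁]; exact k8
    have h2 : 40 * C₁ ≤ K := by
      have : (40 * C₁ : ℝ) ≤ K := by linarith
      exact_mod_cast this
    have h3 : 8 * (C₁ * (5 * (C * (C * (κ + 1)) * 2 ^ Js + 1))) =
        40 * C₁ * (C * (C * (κ + 1))) * 2 ^ Js + 40 * C₁ := by ring
    omega
  have hNJ : N ≤ 2 ^ 2 ^ Js := by
    have h1 : (N : ℝ) ≤ K := by linarith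
    have h2 : N ≤ K := by exact_mod_cast h1
    exact h2.trans k9
  have hHr' : ((((K - 2) / 2 - 1 : ℕ)) : ℝ) ≤ K := by
    have : (K - 2) / 2 - 1 ≤ K := by omega
    exact_mod_cast this
  have hy2 : 2 * b * y ^ C₀ * (5 * ((2 * Ny + 1 : ℕ) : ℝ)) ≤ 1 := by
    have h1 : (5 * ((2 * Ny + 1 : ℕ) : ℝ)) ≤ K := by
      have h2 : 5 * (2 * Ny + 1) ≤ K := by
        have h3 : 1 * (5 * (2 * Ny + 1)) ≤ C₀ * (5 * (2 * Ny + 1)) := Nat.mul_le_mul_right _ hC₀1
        omega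
      exact_mod_cast h2
    have h5 : (K : ℝ) ^ 2 ≤ (K : ℝ) ^ E := pow_le_pow_right₀ (by linarith) (by omega)
    calc 2 * b * y ^ C₀ * (5 * ((2 * Ny + 1 : ℕ) : ℝ)) ≤ 2 * b * (1 / (K : ℝ) ^ E) * K := by gcongr
      _ ≤ 2 * b * (1 / (K : ℝ) ^ 2) * K := by gcongr
      _ = 2 * b / (K : ℝ) := by field_simp
      _ ≤ 1 := by
          rw [div_le_one (by positivity)]
          linarith
  have hJsK : (Js : ℝ) + 2 ≤ K := by
    have h1 : Js < 2 ^ Js := Nat.lt_two_pow_self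
    have h2 : 2 * 2 ^ Js ≤ K := by
      refine le_trans ?_ k8
      exact Nat.mul_le_mul_right _ hM2
    have : Js + 2 ≤ K := by omega
    exact_mod_cast this
  have h2JsK : (2 : ℝ) ^ Js ≤ K := by
    have h2 : 1 * 2 ^ Js ≤ K := le_trans (Nat.mul_le_mul_right _ hM1) k8
    rw [one_mul] at h2
    exact_mod_cast h2
  have hHSK : hs (2 ^ (C * (C * (κ + 1)) * 2 ^ Js)) ≤ 2 * K := by
    refine (hs_le _).trans ?_
    have h3 : C * (C * (κ + 1)) * 2 ^ Js ≤ K := le_trans (Nat.mul_le_mul_right _ hM2C) k8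
    have h4 : ((C * (C * (κ + 1)) * 2 ^ Js : ℕ) : ℝ) ≤ K := by exact_mod_cast h3
    linarith
  have hcopR : ∀ f : ℕ, Nat.Coprime f (b * U.natAbs) → IsCoprime (f : ℤ) ((b : ℤ) * U) := by
    intro f hf
    rw [Int.isCoprime_iff_gcd_eq_one, Int.gcd, hbU]
    exact hf
  have hmain := hsieve κ b K ((K - 2) / 2) M 1 Js N n₀ D (PP N Js) (Zr F) hb hM0 (by omega) (by omega) one_pos
    (by omega) (fun p hp => (mem_PP N Js p).1 hp) (by
      intro p hp hpd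
      obtain ⟨hp1, hp2, hp3⟩ := (mem_PP N Js p).1 hp
      rw [mul_one] at hpd
      have := hMp p hp1 hpd
      omega) (by
      intro p hp
      obtain ⟨hp1, hp2, hp3⟩ := (mem_PP N Js p).1 hp
      refine ⟨filter_subset _ _, Zr_card F p hp1 ?_⟩
      intro hdvd
      have h1 : p ∣ F.leadingCoeff.natAbs := Int.natCast_dvd.1 hdvd
      have := Nat.le_of_dvd (Int.natAbs_pos.2 hlc0) h1
      omega) hpos s₀
  rw [mul_one] at hmain
  have htot := total b hb y hy0 hy1.le U (K - 1 - (K - 2) / 2) ((K - 2) / 2 - 1) 1 (2 * Ny + 1)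
    (C * (C * (κ + 1)) * 2 ^ Js + 1) C₀ C₁ (2 ^ (C * (C * (κ + 1)) * 2 ^ Js)) (by omega) hC₀1 (by omega) k6 hV1 hy2 hy3
    one_pos (Nat.one_lt_pow (by omega) (by omega)) (by apply Nat.pow_lt_pow_right <;> omega) (wk κ) (wk_nonneg κ)
    (wk_mul κ hF) A₀ hA₀ hwk
    (((PP N Js).powerset.image (fun T => ∏ p ∈ T, p)).filter
        (fun f => f ≤ (2 ^ 2 ^ Js) ^ (C * (C * (κ + 1))))) (by
        intro f hf
        rw [mem_filter, mem_image] at hf
        obtain ⟨⟨T', hT', rfl⟩, hf2⟩ := hf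
        rw [mem_powerset] at hT'
        refine ⟨prod_pos fun p hp => ((mem_PP N Js p).1 (hT' hp)).1.pos, ?_, ?_⟩
        · refine hf2.trans (le_of_eq ?_)
          rw [← pow_mul, mul_comm]
        · apply hcopR
          apply Nat.Coprime.prod_left
          intro p hp
          obtain ⟨hp1, hp2, hp3⟩ := (mem_PP N Js p).1 (hT' hp)
          rw [Nat.Prime.coprime_iff_not_dvd hp1]
          intro h3
          have := Nat.le_of_dvd hbU0 h3
          omega) (by push_cast; exact isCoprime_one_left)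
  set A : ℝ := cnt (Icc 1 ((K - 2) / 2)).powerset (vv b K n₀ D) M s₀ with hA
  have hA0 : 0 ≤ A := cnt_nonneg _ _ _ _
  set G := (((Icc 1 ((K - 2) / 2)).powerset.filter (fun S => ((M : ℕ) : ℤ) ∣ vv b K n₀ D S - s₀)).filter
      (fun S => ∀ p ∈ PP N Js, ¬ ∃ z ∈ Zr F p, (p : ℤ) ∣ vv b K n₀ D S - z)) with hG
  refine ⟨G, (filter_subset _ _).trans (filter_subset _ _), ?_, ?_⟩
  · -- the size
    have hW : c₁ / (K : ℝ) ^ κ ≤ ∏ p ∈ PP N Js, (1 - ((Zr F p).card : ℝ) / (p : ℝ)) := by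
      calc c₁ / (K : ℝ) ^ κ ≤ c₁ / (2 ^ Js) ^ κ := by gcongr
        _ ≤ ∏ p ∈ PP N Js, (1 - (κ : ℝ) / (p : ℝ)) := hml N Js (by omega) (by omega) hNJ
        _ ≤ _ := by
            apply Finset.prod_le_prod
            · intro p hp
              obtain ⟨hp1, hp2, hp3⟩ := (mem_PP N Js p).1 hp
              have hp0 : (0 : ℝ) < p := by exact_mod_cast hp1.pos
              have h1 : κ ≤ p := by omega
              have h2 : (κ : ℝ) / p ≤ 1 := by
                rw [div_le_one hp0]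
                exact_mod_cast h1
              linarith
            · intro p hp
              obtain ⟨hp1, hp2, hp3⟩ := (mem_PP N Js p).1 hp
              have h1 : ((Zr F p).card : ℝ) ≤ κ := by
                have := Zr_card F p hp1 (by
                  intro hdvd
                  have h1 : p ∣ F.leadingCoeff.natAbs := Int.natCast_dvd.1 hdvd
                  have := Nat.le_of_dvd (Int.natAbs_pos.2 hlc0) h1
                  omega)
                exact_mod_cast this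
              have hp0 : (0 : ℝ) < p := by exact_mod_cast hp1.pos
              have h2 : ((Zr F p).card : ℝ) / p ≤ κ / p := by gcongr
              linarith
    set W : ℝ := ∏ p ∈ PP N Js, (1 - ((Zr F p).card : ℝ) / (p : ℝ)) with hW'
    have hAW : (2 : ℝ) ^ ((K - 2) / 2) / (2 * M) * (c₁ / (K : ℝ) ^ κ) ≤ A * W := by
      apply mul_le_mul hs₀ hW (by positivity) hA0
    set Er : ℝ := ((Js : ℝ) + 2) * (2 ^ ((K - 2) / 2) / ((1 : ℕ) : ℝ) * ∑ f ∈ (((PP N Js).powerset.image (fun T => ∏ p ∈ T, p)).filter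
        (fun f => f ≤ (2 ^ 2 ^ Js) ^ (C * (C * (κ + 1))))), wk κ f / f *
          GG b y (((b : ℤ) ^ 2 - 1) * D) (K - 1 - (K - 2) / 2) ((K - 2) / 2 - 1) 1 f) with hEr
    have hErle : Er ≤ (2 : ℝ) ^ ((K - 2) / 2) / (8 * M) * (c₁ / (K : ℝ) ^ κ) := by
      have h1 : Er ≤ K * (2 ^ ((K - 2) / 2) * ((2 * K) ^ κ * (A₀ * (K * (12 * b * (1 / (K : ℝ) ^ E) + 6 * (1 / (K : ℝ) ^ E)))))) := by
        rw [hEr, Nat.cast_one, div_one, ← hU]
        have h2 : ∑ t ∈ Icc 1 (2 ^ (C * (C * (κ + 1)) * 2 ^ Js)), wk κ t / t ≤ (2 * K) ^ κ := by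
          refine (wk_sum κ _).trans ?_
          exact pow_le_pow_left₀ (hs_nonneg _) hHSK κ
        have h3 : (0 : ℝ) ≤ ∑ t ∈ Icc 1 (2 ^ (C * (C * (κ + 1)) * 2 ^ Js)), wk κ t / t :=
          sum_nonneg fun t _ => div_nonneg (wk_nonneg κ t) (Nat.cast_nonneg _)
        have h4 : (((((K - 2) / 2 - 1 : ℕ)) : ℝ)) * (12 * b * y ^ C₀ + 6 * (5 / 6) ^ (2 * Ny + 1)) ≤
            K * (12 * b * (1 / (K : ℝ) ^ E) + 6 * (1 / (K : ℝ) ^ E)) := by gcongr
        have h5 : (0 : ℝ) ≤ (((((K - 2) / 2 - 1 : ℕ)) : ℝ)) * (12 * b * y ^ C₀ + 6 * (5 / 6) ^ (2 * Ny + 1)) := by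
          positivity
        apply mul_le_mul hJsK _ _ hK0.le
        · apply mul_le_mul_of_nonneg_left _ (by positivity)
          refine htot.trans ?_
          apply mul_le_mul h2 _ _ (by positivity)
          · exact mul_le_mul_of_nonneg_left h4 hA₀
          · exact mul_nonneg hA₀ h5
        · apply mul_nonneg (by positivity)
          exact sum_nonneg fun f _ => mul_nonneg (div_nonneg (wk_nonneg κ f) (Nat.cast_nonneg _))
            (GG_nonneg _ _ hy0.le _ _ _ _ _)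
      refine h1.trans ?_
      have h6 : K * (2 ^ ((K - 2) / 2) * ((2 * K) ^ κ * (A₀ * (K * (12 * b * (1 / (K : ℝ) ^ E) + 6 * (1 / (K : ℝ) ^ E)))))) =
          2 ^ ((K - 2) / 2) * (T₀ / (K : ℝ) ^ (κ + 1)) := by
        rw [hT₀, hE, mul_pow]
        field_simp
        ring
      rw [h6]
      have h7 : (2 : ℝ) ^ ((K - 2) / 2) / (8 * M) * (c₁ / (K : ℝ) ^ κ) =
          2 ^ ((K - 2) / 2) * (c₁ / (8 * M) / (K : ℝ) ^ κ) := by
        field_simp
      rw [h7]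
      apply mul_le_mul_of_nonneg_left _ (by positivity)
      rw [pow_succ, div_le_div_iff₀ (by positivity) (by positivity)]
      have h8 : T₀ ≤ c₁ / (8 * M) * K := by
        have h9 : T₀ * (8 * M / c₁) ≤ K := by linarith
        calc T₀ = c₁ / (8 * M) * (T₀ * (8 * M / c₁)) := by field_simp
          _ ≤ _ := by gcongr
      calc T₀ * (K : ℝ) ^ κ ≤ (c₁ / (8 * M) * K) * (K : ℝ) ^ κ := by gcongr
        _ = _ := by ring
    have h1 := (abs_le.1 hmain).1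
    have h2 : (2 : ℝ) ^ ((K - 2) / 2) / (8 * M) * (c₁ / (K : ℝ) ^ κ) =
        (2 : ℝ) ^ ((K - 2) / 2) / (2 * M) * (c₁ / (K : ℝ) ^ κ) / 4 := by
      field_simp
      norm_num
    have h3 : c₁ / (8 * M) * 2 ^ ((K - 2) / 2) / (K : ℝ) ^ κ = (2 : ℝ) ^ ((K - 2) / 2) / (8 * M) * (c₁ / (K : ℝ) ^ κ) := by
      field_simp
    rw [h3]
    have h5 : A * W / 2 - Er ≤ (((((Icc 1 ((K - 2) / 2)).powerset.filter (fun S => ((M : ℕ) : ℤ) ∣ vv b K n₀ D S - s₀)).filter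
      (fun S => ∀ p ∈ PP N Js, ¬ ∃ z ∈ Zr F p, (p : ℤ) ∣ vv b K n₀ D S - z))).card : ℝ) := by
      have h6 : -(1 / 2 * (A * W) + Er) + A * W = A * W / 2 - Er := by ring
      rw [← h6]
      have h7 := h1
      rw [le_sub_iff_add_le] at h7
      refine h7.trans (le_of_eq ?_)
      congr!
    rw [← hG] at h5
    linarith
  · intro S hS p hp
    rw [hG, mem_filter, mem_filter] at hS
    obtain ⟨⟨hS1, hS2⟩, hS3⟩ := hS
    constructor
    · intro hpN hdvd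
      apply hs₀' p hp hpN
      have h1 : ((p ^ V : ℕ) : ℤ) ∣ vv b K n₀ D S - s₀ := by
        refine dvd_trans ?_ hS2
        exact_mod_cast hMV p hp hpN
      have h2 : vv b K n₀ D S - s₀ ∣ F.eval (vv b K n₀ D S) - F.eval s₀ := sub_dvd_eval_sub _ _ _
      have h3 := dvd_sub hdvd (h1.trans h2)
      rwa [sub_sub_cancel] at h3
    · intro hpN hpK hdvd
      have h1 : p ∈ PP N Js := by
        rw [mem_PP]
        refine ⟨hp, hpN, ?_⟩
        by_contra hcon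
        push Not at hcon
        have h2 : K ≤ 2 ^ Js * (2 * M₁) := by
          rw [pow_succ] at k7
          nlinarith
        have h3 : 2 ^ K ≤ (2 ^ 2 ^ Js) ^ (2 * M₁) := by
          rw [← pow_mul]
          exact Nat.pow_le_pow_right (by norm_num) h2
        have h4 : (2 ^ 2 ^ Js) ^ (2 * M₁) < p ^ (2 * M₁) := Nat.pow_lt_pow_left hcon (by omega)
        omega
      exact hS3 p h1 (Zr_of_dvd F p hp.pos _ hdvd)

end Pool.Agent.Run7.h620.PD
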