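import Pool.Agent.Run7.h620.PD.Break
import Pool.Agent.TH915.PW.Disc

set_option autoImplicit false

/-! Exponential sums over palindromes with two digits. -/

namespace Pool.Agent.Run7.h620.PD

open Finset
open Pool.Agent.H469R2.NK (e norm_e e_add e_zero)
open Pool.Agent.TH915.PW (e_int sum_char)

lemma norm_one_add_e (x : ℝ) : ‖1 + e x‖ = 2 * |Real.cos (Real.pi * x)| := by
  have h1 : 1 + e x = e (x / 2) * ((2 * Real.cos (Real.pi * x) : ℝ) : ℂ) := by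
    have e1 : e (x / 2) * e (x / 2) = e x := by rw [← e_add]; congr 1; ring
    have e2 : e (x / 2) * e (-(x / 2)) = 1 := by rw [← e_add, add_neg_cancel, e_zero]
    have e3 : ((2 * Real.cos (Real.pi * x) : ℝ) : ℂ) = e (x / 2) + e (-(x / 2)) := by
      unfold e
      push_cast
      rw [Complex.cos]
      have a1 : (2 : ℂ) * Real.pi * (x / 2) * Complex.I = Real.pi * x * Complex.I := by ring
      have a2 : (2 : ℂ) * Real.pi * (-(x / 2)) * Complex.I = -(Real.pi * x) * Complex.I := by ring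
      rw [a1, a2]
      ring
    rw [e3, mul_add, e1, e2, add_comm]
  rw [h1, norm_mul, norm_e, one_mul, Complex.norm_real, Real.norm_eq_abs, abs_mul,
    abs_of_pos (by norm_num : (0 : ℝ) < 2)]

lemma e_add_int (x : ℝ) (n : ℤ) : e (x + n) = e x := by rw [e_add, e_int, mul_one]

lemma cos_dist (θ δ : ℝ) (hδ : 0 ≤ δ) (h : ∀ n : ℤ, δ ≤ |θ - n|) : ‖1 + e θ‖ ≤ 2 - 4 * δ ^ 2 := by
  obtain ⟨x, hx⟩ : ∃ x, x = θ - round θ := ⟨_, rfl⟩
  have h1 : e θ = e x := by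
    obtain ⟨N, hN⟩ : ∃ N : ℤ, N = round θ := ⟨_, rfl⟩
    have : θ = x + (N : ℝ) := by rw [hx, hN]; ring
    rw [this, e_add_int]
  have h2 : |x| ≤ 1 / 2 := by rw [hx]; exact abs_sub_round θ
  have h3 : δ ≤ |x| := by rw [hx]; exact h _
  rw [h1, norm_one_add_e]
  have hπ : 0 < Real.pi := Real.pi_pos
  have h4 : |Real.pi * x| ≤ Real.pi / 2 := by
    rw [abs_mul, abs_of_pos hπ]; nlinarith
  have h5 : 0 ≤ Real.cos (Real.pi * x) :=
    Real.cos_nonneg_of_mem_Icc ⟨by linarith [(abs_le.1 h4).1], (abs_le.1 h4).2⟩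
  rw [abs_of_nonneg h5]
  have h6 := Real.cos_le_one_sub_mul_cos_sq (x := Real.pi * x) (by linarith)
  have h7 : 2 / Real.pi ^ 2 * (Real.pi * x) ^ 2 = 2 * x ^ 2 := by field_simp
  rw [h7] at h6
  have h8 : δ ^ 2 ≤ x ^ 2 := by
    rw [← sq_abs x]
    exact pow_le_pow_left₀ hδ h3 2
  linarith

lemma norm_le_two (θ : ℝ) : ‖1 + e θ‖ ≤ 2 := by
  calc ‖1 + e θ‖ ≤ ‖(1 : ℂ)‖ + ‖e θ‖ := norm_add_le _ _
    _ = 2 := by rw [norm_one, norm_e]; norm_num

/-- weight of the pair of the places `i` and `K - 1 - i` -/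
def gg (b K i : ℕ) : ℕ := b ^ i + b ^ (K - 1 - i)

lemma gg_rel (b K i : ℕ) (hi : i + 2 ≤ K) :
    (b : ℝ) * (gg b K i : ℝ) - (gg b K (i + 1) : ℝ) = ((b : ℝ) ^ 2 - 1) * (b : ℝ) ^ (K - 2 - i) := by
  unfold gg
  have h1 : K - 1 - i = K - 2 - i + 1 := by omega
  have h2 : K - 1 - (i + 1) = K - 2 - i := by omega
  rw [h1, h2]
  push_cast
  ring

/-- the decay of a break -/
noncomputable def del (b R : ℕ) : ℝ := 1 / (2 * b * ((b + 1) * R))

/-- the factor of a break -/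
noncomputable def yy (b R : ℕ) : ℝ := 1 - (del b R) ^ 2

lemma del_pos (b R : ℕ) (hb : 1 ≤ b) (hR : 1 ≤ R) : 0 < del b R := by
  unfold del
  have : (1 : ℝ) ≤ b := by exact_mod_cast hb
  have : (1 : ℝ) ≤ R := by exact_mod_cast hR
  positivity

lemma del_le (b R : ℕ) (hb : 1 ≤ b) (hR : 1 ≤ R) : del b R ≤ 1 / 2 := by
  unfold del
  have h1 : (1 : ℝ) ≤ b := by exact_mod_cast hb
  have h2 : (1 : ℝ) ≤ R := by exact_mod_cast hR
  apply one_div_le_one_div_of_le (by norm_num)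
  have h3 : (1 : ℝ) ≤ b * ((b + 1) * R) := by
    have : (1 : ℝ) ≤ (b + 1) * R := by nlinarith
    nlinarith
  linarith

lemma yy_pos (b R : ℕ) (hb : 1 ≤ b) (hR : 1 ≤ R) : 0 < yy b R := by
  unfold yy
  have h1 := del_pos b R hb hR
  have h2 := del_le b R hb hR
  nlinarith

lemma yy_lt (b R : ℕ) (hb : 1 ≤ b) (hR : 1 ≤ R) : yy b R < 1 := by
  unfold yy
  have h1 := del_pos b R hb hR
  nlinarith

lemma pair_bound (b K i R : ℕ) (D : ℤ) (hb : 1 ≤ b) (hR : 1 ≤ R) (hi : i + 2 ≤ K) (θ : ℝ)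
    (hd : dig b ((R : ℝ) * (((b : ℝ) ^ 2 - 1) * D) * θ) (K - 2 - i) ≠ 0) :
    (‖1 + e (θ * ((D : ℝ) * (gg b K i : ℝ)))‖ / 2) * (‖1 + e (θ * ((D : ℝ) * (gg b K (i + 1) : ℝ)))‖ / 2) ≤
      1 - 2 * (del b R) ^ 2 := by
  have hδ := del_pos b R hb hR
  have hδ1 := del_le b R hb hR
  have hbr : (1 : ℝ) ≤ b := by exact_mod_cast hb
  have hRr : (1 : ℝ) ≤ R := by exact_mod_cast hR
  set x₁ : ℝ := θ * ((D : ℝ) * (gg b K i : ℝ)) with hx₁
  set x₂ : ℝ := θ * ((D : ℝ) * (gg b K (i + 1) : ℝ)) with hx₂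
  have hn1 := norm_le_two x₁
  have hn2 := norm_le_two x₂
  have hp1 := norm_nonneg (1 + e x₁)
  have hp2 := norm_nonneg (1 + e x₂)
  by_cases h1 : ∀ n : ℤ, del b R ≤ |x₁ - n|
  · have := cos_dist x₁ (del b R) hδ.le h1
    nlinarith
  by_cases h2 : ∀ n : ℤ, del b R ≤ |x₂ - n|
  · have := cos_dist x₂ (del b R) hδ.le h2
    nlinarith
  exfalso
  push Not at h1 h2
  obtain ⟨n₁, h1⟩ := h1
  obtain ⟨n₂, h2⟩ := h2
  have h3 := sd_of_dig_ne b hb _ _ hd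
  have h4 := sd_le_dist b ((R : ℝ) * (((b : ℝ) ^ 2 - 1) * D) * θ) (K - 2 - i) ((R : ℤ) * (b * n₁ - n₂))
  have h5 : (b : ℝ) ^ (K - 2 - i) * ((R : ℝ) * (((b : ℝ) ^ 2 - 1) * D) * θ) -
      (((R : ℤ) * (b * n₁ - n₂) : ℤ) : ℝ) = R * (b * (x₁ - n₁) - (x₂ - n₂)) := by
    have h6 := gg_rel b K i hi
    rw [hx₁, hx₂]
    push_cast
    linear_combination (-(R : ℝ) * D * θ) * h6
  rw [h5] at h4
  have h6 : |(R : ℝ) * (b * (x₁ - n₁) - (x₂ - n₂))| ≤ R * (b * |x₁ - n₁| + |x₂ - n₂|) := by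
    rw [abs_mul, abs_of_nonneg (by linarith : (0 : ℝ) ≤ R)]
    apply mul_le_mul_of_nonneg_left _ (by linarith)
    calc |(b : ℝ) * (x₁ - n₁) - (x₂ - n₂)| ≤ |(b : ℝ) * (x₁ - n₁)| + |x₂ - n₂| := abs_sub _ _
      _ = b * |x₁ - n₁| + |x₂ - n₂| := by rw [abs_mul, abs_of_nonneg (by linarith : (0 : ℝ) ≤ b)]
  have h7 : (R : ℝ) * (b * |x₁ - n₁| + |x₂ - n₂|) < R * (b * del b R + del b R) := by
    apply mul_lt_mul_of_pos_left _ (by linarith)
    have : (b : ℝ) * |x₁ - n₁| ≤ b * del b R := mul_le_mul_of_nonneg_left h1.le (by linarith)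
    linarith
  have h8 : (R : ℝ) * (b * del b R + del b R) = 1 / (2 * (b : ℝ)) := by
    unfold del
    field_simp
  linarith

lemma prod_bound (b K H R : ℕ) (D : ℤ) (hb : 1 ≤ b) (hR : 1 ≤ R) (hH : 1 ≤ H) (hK : H + 1 ≤ K) (θ : ℝ) :
    ∏ t ∈ range H, (‖1 + e (θ * ((D : ℝ) * (gg b K (t + 1) : ℝ)))‖ / 2) ≤
      (yy b R) ^ (bet b ((R : ℝ) * (((b : ℝ) ^ 2 - 1) * D) * θ) (K - 1 - H) (H - 1)) := by
  obtain ⟨H, rfl⟩ : ∃ H', H = H' + 1 := ⟨H - 1, by omega⟩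
  set ϑ : ℝ := (R : ℝ) * (((b : ℝ) ^ 2 - 1) * D) * θ with hϑ
  set c : ℕ → ℝ := fun i => ‖1 + e (θ * ((D : ℝ) * (gg b K i : ℝ)))‖ / 2 with hc
  have hc0 : ∀ i, 0 ≤ c i := fun i => by simp only [hc]; positivity
  have hc1 : ∀ i, c i ≤ 1 := fun i => by
    simp only [hc]
    have := norm_le_two (θ * ((D : ℝ) * (gg b K i : ℝ)))
    linarith
  have hy := yy_pos b R hb hR
  have hy1 := yy_lt b R hb hR
  have e1 : ∏ t ∈ range (H + 1), c (t + 1) ≤ ∏ t ∈ range H, c (t + 1) := by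
    rw [prod_range_succ]
    exact mul_le_of_le_one_right (prod_nonneg fun t _ => hc0 _) (hc1 _)
  have e2 : ∏ t ∈ range (H + 1), c (t + 1) ≤ ∏ t ∈ range H, c (t + 2) := by
    rw [prod_range_succ']
    exact mul_le_of_le_one_right (prod_nonneg fun t _ => hc0 _) (hc1 _)
  have h0 : 0 ≤ ∏ t ∈ range (H + 1), c (t + 1) := prod_nonneg fun t _ => hc0 _
  set ρ : ℝ := 1 - 2 * (del b R) ^ 2 with hρ
  have hδ := del_pos b R hb hR
  have hδ1 := del_le b R hb hR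
  have hρ0 : 0 ≤ ρ := by rw [hρ]; nlinarith
  have e3 : (∏ t ∈ range (H + 1), c (t + 1)) ^ 2 ≤ ∏ t ∈ range H, (c (t + 1) * c (t + 2)) := by
    rw [prod_mul_distrib, sq]
    exact mul_le_mul e1 e2 h0 (prod_nonneg fun t _ => hc0 _)
  have e4 : ∏ t ∈ range H, (c (t + 1) * c (t + 2)) ≤
      ∏ t ∈ range H, (if dig b ϑ (K - 3 - t) = 0 then (1 : ℝ) else ρ) := by
    refine prod_le_prod (fun t _ => mul_nonneg (hc0 _) (hc0 _)) fun t ht => ?_
    rw [mem_range] at ht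
    split_ifs with h
    · exact mul_le_one₀ (hc1 _) (hc0 _) (hc1 _)
    · have := pair_bound b K (t + 1) R D hb hR (by omega) θ (by
        have : K - 2 - (t + 1) = K - 3 - t := by omega
        rw [this]
        exact h)
      exact this
  have e5 : ∏ t ∈ range H, (if dig b ϑ (K - 3 - t) = 0 then (1 : ℝ) else ρ) =
      ρ ^ (bet b ϑ (K - 1 - (H + 1)) (H + 1 - 1)) := by
    unfold bet
    rw [← prod_pow_eq_pow_sum, ← prod_range_reflect, Nat.add_sub_cancel]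
    refine prod_congr rfl fun t ht => ?_
    rw [mem_range] at ht
    have : K - 3 - (H - 1 - t) = K - 1 - (H + 1) + t := by omega
    rw [this]
    split_ifs <;> simp
  have e6 : ρ ≤ (yy b R) ^ 2 := by
    unfold yy
    rw [hρ]
    nlinarith [sq_nonneg ((del b R) ^ 2)]
  have e7 : (∏ t ∈ range (H + 1), c (t + 1)) ^ 2 ≤
      ((yy b R) ^ (bet b ϑ (K - 1 - (H + 1)) (H + 1 - 1))) ^ 2 := by
    calc _ ≤ _ := e3
      _ ≤ _ := e4
      _ = _ := e5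
      _ ≤ ((yy b R) ^ 2) ^ (bet b ϑ (K - 1 - (H + 1)) (H + 1 - 1)) := pow_le_pow_left₀ hρ0 e6 _
      _ = _ := by rw [← pow_mul, ← pow_mul, mul_comm]
  exact (pow_le_pow_iff_left₀ h0 (by positivity) (by norm_num)).1 e7

lemma e_sum {ι : Type*} (s : Finset ι) (f : ι → ℝ) : e (∑ i ∈ s, f i) = ∏ i ∈ s, e (f i) := by
  classical
  induction s using Finset.induction_on with
  | empty => simp [e_zero]
  | insert a s ha ih => rw [sum_insert ha, prod_insert ha, e_add, ih]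

/-- the value of a subset of the pairs of places -/
def vv (b K : ℕ) (n₀ D : ℤ) (S : Finset ℕ) : ℤ := n₀ + D * ∑ i ∈ S, (gg b K i : ℤ)

lemma four_le (b K H R : ℕ) (n₀ D : ℤ) (hb : 1 ≤ b) (hR : 1 ≤ R) (hH : 1 ≤ H) (hK : H + 1 ≤ K) (θ : ℝ) :
    ‖∑ S ∈ (Icc 1 H).powerset, e (θ * (vv b K n₀ D S : ℝ))‖ ≤
      2 ^ H * (yy b R) ^ (bet b ((R : ℝ) * (((b : ℝ) ^ 2 - 1) * D) * θ) (K - 1 - H) (H - 1)) := by
  have h1 : ∑ S ∈ (Icc 1 H).powerset, e (θ * (vv b K n₀ D S : ℝ)) =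
      e (θ * n₀) * ∏ i ∈ Icc 1 H, (1 + e (θ * ((D : ℝ) * (gg b K i : ℝ)))) := by
    rw [prod_one_add, mul_sum]
    refine sum_congr rfl fun S _ => ?_
    rw [← e_sum, ← e_add]
    congr 1
    unfold vv
    push_cast
    rw [mul_add, mul_sum, mul_sum]
  rw [h1, norm_mul, norm_e, one_mul, norm_prod]
  have h2 : ∏ i ∈ Icc 1 H, ‖1 + e (θ * ((D : ℝ) * (gg b K i : ℝ)))‖ =
      2 ^ H * ∏ t ∈ range H, (‖1 + e (θ * ((D : ℝ) * (gg b K (t + 1) : ℝ)))‖ / 2) := by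
    rw [prod_div_distrib, prod_const, card_range]
    have : ∏ i ∈ Icc 1 H, ‖1 + e (θ * ((D : ℝ) * (gg b K i : ℝ)))‖ =
        ∏ t ∈ range H, ‖1 + e (θ * ((D : ℝ) * (gg b K (t + 1) : ℝ)))‖ := by
      have hI : Icc 1 H = (range H).image (fun t => t + 1) := by
        ext i
        rw [mem_Icc, mem_image]
        constructor
        · intro h
          exact ⟨i - 1, by rw [mem_range]; omega, by omega⟩
        · rintro ⟨t, ht, rfl⟩
          rw [mem_range] at ht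
          omega
      rw [hI, prod_image (fun a _ b _ h => by omega)]
    rw [this]
    field_simp
  rw [h2]
  exact mul_le_mul_of_nonneg_left (prod_bound b K H R D hb hR hH hK θ) (by positivity)

end Pool.Agent.Run7.h620.PD
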