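import Mathlib
import Pool.Agent.Run7.h620.PD.Four

set_option autoImplicit false

/-! Digits of the numbers `vv`. -/

namespace Pool.Agent.Run7.h620.PD

open Finset

/-- the digit at the place `j` -/
def dgt (K e f : ℕ) (S : Finset ℕ) (j : ℕ) : ℕ := if j ∈ S ∨ K - 1 - j ∈ S then f else e

/-- the list of the digits -/
def dl (K e f : ℕ) (S : Finset ℕ) : List ℕ := (List.range K).map (dgt K e f S)

/-- the number -/
def nn (b K e f : ℕ) (S : Finset ℕ) : ℕ := Nat.ofDigits b (dl K e f S)

lemma dl_length (K e f : ℕ) (S : Finset ℕ) : (dl K e f S).length = K := by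
  simp [dl]

lemma dl_get (K e f : ℕ) (S : Finset ℕ) (j : ℕ) (hj : j < (dl K e f S).length) :
    (dl K e f S)[j] = dgt K e f S j := by
  simp [dl]

lemma dl_mem (K e f : ℕ) (S : Finset ℕ) (x : ℕ) (hx : x ∈ dl K e f S) : x = e ∨ x = f := by
  unfold dl at hx
  rw [List.mem_map] at hx
  obtain ⟨j, _, rfl⟩ := hx
  unfold dgt
  split_ifs
  · exact Or.inr rfl
  · exact Or.inl rfl

lemma dl_reverse (K e f : ℕ) (S : Finset ℕ) : (dl K e f S).reverse = dl K e f S := by
  apply List.ext_getElem
  · simp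
  · intro j h1 h2
    rw [List.getElem_reverse, dl_get, dl_get]
    rw [dl_length] at *
    unfold dgt
    have h3 : K - 1 - (K - 1 - j) = j := by omega
    rw [h3]
    simp only [or_comm]

lemma digits_nn (b K e f : ℕ) (hb : 2 ≤ b) (he : e < b) (hf : f < b) (he0 : e ≠ 0) (H : ℕ) (hK : 2 * H + 2 ≤ K)
    (S : Finset ℕ) (hS : S ⊆ Icc 1 H) : Nat.digits b (nn b K e f S) = dl K e f S := by
  unfold nn
  apply Nat.digits_ofDigits b (by omega)
  · intro l hl
    rcases dl_mem K e f S l hl with rfl | rfl <;> assumption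
  · intro h
    rw [List.getLast_eq_getElem, dl_get, dl_length]
    unfold dgt
    rw [if_neg]
    · exact he0
    · rintro (h1 | h1)
      · have := mem_Icc.1 (hS h1)
        omega
      · have := mem_Icc.1 (hS h1)
        omega

lemma ofDigits_map (b K : ℕ) (g : ℕ → ℕ) : Nat.ofDigits b ((List.range K).map g) = ∑ j ∈ range K, g j * b ^ j := by
  induction K with
  | zero => simp
  | succ K ih =>
    rw [List.range_succ, List.map_append, Nat.ofDigits_append, ih, sum_range_succ]
    simp [mul_comm]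

/-- the value of the number -/
lemma nn_eq (b K e f : ℕ) (H : ℕ) (hK : 2 * H + 2 ≤ K) (S : Finset ℕ) (hS : S ⊆ Icc 1 H) :
    ((nn b K e f S : ℕ) : ℤ) = vv b K ((e : ℤ) * ∑ j ∈ range K, (b : ℤ) ^ j) ((f : ℤ) - e) S := by
  unfold nn dl vv
  rw [ofDigits_map]
  push_cast
  have h1 : ∀ j ∈ range K, ((dgt K e f S j : ℕ) : ℤ) * (b : ℤ) ^ j = (e : ℤ) * (b : ℤ) ^ j +
      ((f : ℤ) - e) * ((if j ∈ S then (b : ℤ) ^ j else 0) + (if K - 1 - j ∈ S then (b : ℤ) ^ j else 0)) := by
    intro j hj
    rw [mem_range] at hj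
    unfold dgt
    by_cases h2 : j ∈ S
    · have h3 : K - 1 - j ∉ S := by
        intro h3
        have h4 := mem_Icc.1 (hS h2)
        have h5 := mem_Icc.1 (hS h3)
        omega
      rw [if_pos (Or.inl h2), if_pos h2, if_neg h3]
      ring
    · by_cases h3 : K - 1 - j ∈ S
      · rw [if_pos (Or.inr h3), if_neg h2, if_pos h3]
        ring
      · rw [if_neg (by tauto), if_neg h2, if_neg h3]
        ring
  rw [sum_congr rfl h1, sum_add_distrib, ← mul_sum, ← mul_sum, sum_add_distrib]
  congr 2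
  unfold gg
  push_cast
  rw [sum_add_distrib]
  congr 1
  · rw [← sum_filter]
    refine sum_congr ?_ fun _ _ => rfl
    ext j
    rw [mem_filter, mem_range]
    constructor
    · exact fun h => h.2
    · intro h
      have := mem_Icc.1 (hS h)
      exact ⟨by omega, h⟩
  · rw [← sum_filter]
    refine sum_nbij' (fun j => K - 1 - j) (fun j => K - 1 - j) ?_ ?_ ?_ ?_ ?_
    · intro j hj
      exact (mem_filter.1 hj).2
    · intro j hj
      have h2 := mem_Icc.1 (hS hj)
      rw [mem_filter, mem_range]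
      have h3 : K - 1 - (K - 1 - j) = j := by omega
      rw [h3]
      exact ⟨by omega, hj⟩
    · intro j hj
      have := mem_range.1 (mem_filter.1 hj).1
      omega
    · intro j hj
      have h2 := mem_Icc.1 (hS hj)
      omega
    · intro j hj
      have := mem_range.1 (mem_filter.1 hj).1
      congr 1
      omega

/-- different sets give different numbers -/
lemma nn_inj (b K e f : ℕ) (hb : 2 ≤ b) (he : e < b) (hf : f < b) (he0 : e ≠ 0) (hef : f ≠ e) (H : ℕ)
    (hK : 2 * H + 2 ≤ K) (S S' : Finset ℕ) (hS : S ⊆ Icc 1 H) (hS' : S' ⊆ Icc 1 H)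
    (h : nn b K e f S = nn b K e f S') : S = S' := by
  have h1 : dl K e f S = dl K e f S' := by
    rw [← digits_nn b K e f hb he hf he0 H hK S hS, h, digits_nn b K e f hb he hf he0 H hK S' hS']
  have key : ∀ T T' : Finset ℕ, T ⊆ Icc 1 H → T' ⊆ Icc 1 H → dl K e f T = dl K e f T' → T ⊆ T' := by
    intro T T' hT hT' hTT j hj
    have h2 := mem_Icc.1 (hT hj)
    have h3 : (dl K e f T)[j]'(by rw [dl_length]; omega) = (dl K e f T')[j]'(by rw [dl_length]; omega) := by
      simp only [hTT]
    rw [dl_get, dl_get] at h3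
    unfold dgt at h3
    rw [if_pos (Or.inl hj)] at h3
    by_contra hcon
    rw [if_neg] at h3
    · exact hef h3
    · rintro (h4 | h4)
      · exact hcon h4
      · have := mem_Icc.1 (hT' h4)
        omega
  exact Subset.antisymm (key S S' hS hS' h1) (key S' S hS' hS h1.symm)

end Pool.Agent.Run7.h620.PD
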