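import Mathlib

set_option autoImplicit false

/-! The number of prime factors of a number without small prime factors. -/

namespace Pool.Agent.Run7.h620.PD

open Finset Polynomial

lemma omega_bound (m N V M' K L : ℕ) (hm : m ≠ 0)
    (h1 : ∀ p : ℕ, p.Prime → p ≤ N → ¬ p ^ V ∣ m) (h2 : ∀ p : ℕ, p.Prime → N < p → p ^ M' ≤ 2 ^ K → ¬ p ∣ m)
    (hK : 1 ≤ K) (hmL : m ≤ 2 ^ (K * L)) :
    ArithmeticFunction.cardFactors m ≤ N * V + L * M' := by
  rw [ArithmeticFunction.cardFactors_eq_sum_factorization, Finsupp.sum]
  have hsupp : m.factorization.support = m.primeFactors := Nat.support_factorization m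
  rw [hsupp, ← sum_filter_add_sum_filter_not m.primeFactors (fun p => p ≤ N)]
  apply add_le_add
  · have h3 : ∀ p ∈ m.primeFactors.filter (fun p => p ≤ N), m.factorization p ≤ V := by
      intro p hp
      rw [mem_filter] at hp
      have hpp := Nat.prime_of_mem_primeFactors hp.1
      by_contra hcon
      push Not at hcon
      apply h1 p hpp hp.2
      exact (hpp.pow_dvd_iff_le_factorization hm).2 hcon.le
    calc ∑ p ∈ m.primeFactors.filter (fun p => p ≤ N), m.factorization p ≤
          ∑ _p ∈ m.primeFactors.filter (fun p => p ≤ N), V := sum_le_sum h3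
      _ = (m.primeFactors.filter (fun p => p ≤ N)).card * V := by rw [sum_const, smul_eq_mul]
      _ ≤ N * V := by
          apply Nat.mul_le_mul_right
          calc (m.primeFactors.filter (fun p => p ≤ N)).card ≤ (Icc 1 N).card := by
                apply card_le_card
                intro p hp
                rw [mem_filter] at hp
                rw [mem_Icc]
                exact ⟨(Nat.prime_of_mem_primeFactors hp.1).one_lt.le, hp.2⟩
            _ = N := by rw [Nat.card_Icc]; omega
  · set Q := m.primeFactors.filter (fun p => ¬ p ≤ N) with hQ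
    set s := ∑ p ∈ Q, m.factorization p with hs
    have h3 : ∏ p ∈ Q, p ^ m.factorization p ≤ m := by
      apply Nat.le_of_dvd (Nat.pos_of_ne_zero hm)
      have h4 : ∏ p ∈ m.primeFactors, p ^ m.factorization p = m := by
        have := Nat.prod_factorization_pow_eq_self hm
        rw [Finsupp.prod, hsupp] at this
        exact this
      have h5 : ∏ p ∈ Q, p ^ m.factorization p ∣ ∏ p ∈ m.primeFactors, p ^ m.factorization p :=
        Finset.prod_dvd_prod_of_subset _ _ _ (filter_subset _ _)
      rwa [h4] at h5
    have h4 : ∀ p ∈ Q, 2 ^ K ≤ p ^ M' := by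
      intro p hp
      rw [hQ, mem_filter] at hp
      by_contra hcon
      push Not at hcon
      exact h2 p (Nat.prime_of_mem_primeFactors hp.1) (by omega) hcon.le (Nat.dvd_of_mem_primeFactors hp.1)
    have h5 : 2 ^ (K * s) ≤ 2 ^ (K * (L * M')) := by
      calc 2 ^ (K * s) = ∏ p ∈ Q, (2 ^ K) ^ m.factorization p := by
            rw [prod_pow_eq_pow_sum, pow_mul]
        _ ≤ ∏ p ∈ Q, (p ^ M') ^ m.factorization p := by
            apply Finset.prod_le_prod
            · intro _ _; positivity
            · intro p hp
              exact Nat.pow_le_pow_left (h4 p hp) _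
        _ = (∏ p ∈ Q, p ^ m.factorization p) ^ M' := by
            rw [← Finset.prod_pow]
            refine prod_congr rfl fun p _ => ?_
            rw [← pow_mul, ← pow_mul, mul_comm]
        _ ≤ m ^ M' := Nat.pow_le_pow_left h3 _
        _ ≤ (2 ^ (K * L)) ^ M' := Nat.pow_le_pow_left hmL _
        _ = 2 ^ (K * (L * M')) := by rw [← pow_mul, mul_assoc]
    have h6 := (Nat.pow_le_pow_iff_right (by norm_num)).1 h5
    exact Nat.le_of_mul_le_mul_left h6 hK

lemma eval_bound (F : ℤ[X]) (n : ℤ) (hn : 1 ≤ n) :
    |F.eval n| ≤ (∑ i ∈ range (F.natDegree + 1), |F.coeff i|) * n ^ F.natDegree := by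
  rw [eval_eq_sum_range, sum_mul]
  refine (abs_sum_le_sum_abs _ _).trans (sum_le_sum fun i hi => ?_)
  rw [abs_mul, abs_pow, abs_of_pos (by omega : (0 : ℤ) < n)]
  apply mul_le_mul_of_nonneg_left _ (abs_nonneg _)
  exact pow_le_pow_right₀ hn (by rw [mem_range] at hi; omega)

end Pool.Agent.Run7.h620.PD
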