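import Pool.Agent.Run7.h620.PD.Alm
import Pool.Agent.Run7.h620.PD.Om
import Pool.Agent.Run7.h620.PD.Digits

set_option autoImplicit false

/-! Polynomials at palindromes with two digits take many values with few prime factors. -/

namespace Pool.Agent.Run7.h620.PD

open Finset Polynomial Filter

lemma nn_props (b K e f : ℕ) (hb : 2 ≤ b) (he : e < b) (hf : f < b) (he0 : e ≠ 0) (hK : 4 ≤ K)
    (S : Finset ℕ) (hS : S ⊆ Icc 1 ((K - 2) / 2)) :
    nn b K e f S < b ^ K ∧ 1 ≤ nn b K e f S ∧ (Nat.digits b (nn b K e f S)).length = K ∧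
      (Nat.digits b (nn b K e f S)).reverse = Nat.digits b (nn b K e f S) ∧
      ∀ d ∈ Nat.digits b (nn b K e f S), d = e ∨ d = f := by
  have hd := digits_nn b K e f hb he hf he0 ((K - 2) / 2) (by omega) S hS
  have hlt : nn b K e f S < b ^ K := by
    have := Nat.lt_base_pow_length_digits (b := b) (m := nn b K e f S) (by omega)
    rw [hd, dl_length] at this
    exact this
  have hn0 : nn b K e f S ≠ 0 := by
    intro h0
    rw [h0, Nat.digits_zero] at hd
    have := dl_length K e f S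
    rw [← hd, List.length_nil] at this
    omega
  refine ⟨hlt, by omega, ?_, ?_, ?_⟩
  · rw [hd, dl_length]
  · rw [hd, dl_reverse]
  · rw [hd]
    exact dl_mem K e f S

open Classical in
theorem almost_primes : ∀ b : ℕ, 2 ≤ b → ∀ e f : ℕ, e < b → f < b → e ≠ 0 → f ≠ e →
    ∀ F : ℤ[X], 1 ≤ F.natDegree → ∃ c : ℝ, 0 < c ∧ ∃ r : ℕ, ∀ᶠ K : ℕ in atTop,
      c * (2 : ℝ) ^ ((K : ℝ) / 2) / (K : ℝ) ^ F.natDegree ≤
        (((Finset.range (b ^ K)).filter (fun n : ℕ =>
          (Nat.digits b n).length = K ∧ (Nat.digits b n).reverse = Nat.digits b n ∧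
          (∀ d ∈ Nat.digits b n, d = e ∨ d = f) ∧
          F.eval (n : ℤ) ≠ 0 ∧ ArithmeticFunction.cardFactors (F.eval (n : ℤ)).natAbs ≤ r)).card : ℝ) := by
  intro b hb e f he hf he0 hef F hF
  have hD : ((f : ℤ) - e) ≠ 0 := by omega
  obtain ⟨c, hc, N, V, M', hN2, hM', hev⟩ := almost b hb ((f : ℤ) - e) hD F hF
  set κ := F.natDegree with hκ
  set Bf : ℕ := (∑ i ∈ range (F.natDegree + 1), |F.coeff i|).natAbs with hBf
  have hF0 : F ≠ 0 := by
    rintro rfl
    rw [hκ, natDegree_zero] at hF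
    omega
  refine ⟨c / 4, by positivity, N * V + (b * (κ + 1)) * M', ?_⟩
  filter_upwards [hev, eventually_ge_atTop (Bf + 12)] with K hK hKB
  have hHK : 2 * ((K - 2) / 2) + 2 ≤ K := by omega
  have hnneq : ∀ S ∈ (Icc 1 ((K - 2) / 2)).powerset, ((nn b K e f S : ℕ) : ℤ) =
      vv b K ((e : ℤ) * ∑ j ∈ range K, (b : ℤ) ^ j) ((f : ℤ) - e) S :=
    fun S hS => nn_eq b K e f ((K - 2) / 2) hHK S (mem_powerset.1 hS)
  obtain ⟨G, hG1, hG2, hG3⟩ := hK ((e : ℤ) * ∑ j ∈ range K, (b : ℤ) ^ j) (by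
    intro S hS
    rw [← hnneq S hS]
    exact Int.natCast_nonneg _)
  have hsize : c / 4 * (2 : ℝ) ^ ((K : ℝ) / 2) / (K : ℝ) ^ κ ≤ c * 2 ^ ((K - 2) / 2) / (K : ℝ) ^ κ := by
    have h1 : (2 : ℝ) ^ ((K : ℝ) / 2) ≤ 4 * 2 ^ ((K - 2) / 2) := by
      have h2 : (4 : ℝ) * 2 ^ ((K - 2) / 2) = 2 ^ ((K - 2) / 2 + 2) := by rw [pow_add]; ring
      rw [h2, ← Real.rpow_natCast]
      apply Real.rpow_le_rpow_of_exponent_le (by norm_num)
      have : K ≤ 2 * ((K - 2) / 2 + 2) := by omega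
      have : (K : ℝ) ≤ 2 * (((K - 2) / 2 + 2 : ℕ) : ℝ) := by exact_mod_cast this
      linarith
    apply div_le_div_of_nonneg_right _ (by positivity)
    calc c / 4 * (2 : ℝ) ^ ((K : ℝ) / 2) ≤ c / 4 * (4 * 2 ^ ((K - 2) / 2)) := by gcongr
      _ = _ := by ring
  refine hsize.trans (hG2.trans ?_)
  have hle : G.card ≤ ((Finset.range (b ^ K)).filter (fun n : ℕ =>
          (Nat.digits b n).length = K ∧ (Nat.digits b n).reverse = Nat.digits b n ∧
          (∀ d ∈ Nat.digits b n, d = e ∨ d = f) ∧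
          F.eval (n : ℤ) ≠ 0 ∧ ArithmeticFunction.cardFactors (F.eval (n : ℤ)).natAbs ≤
            N * V + (b * (κ + 1)) * M')).card := by
    apply card_le_card_of_injOn (fun S => nn b K e f S)
    · intro S hS
      have hS' : S ⊆ Icc 1 ((K - 2) / 2) := mem_powerset.1 (hG1 hS)
      obtain ⟨h1, h2, h3, h4, h5⟩ := nn_props b K e f hb he hf he0 (by omega) S hS'
      rw [mem_coe, mem_filter, mem_range]
      have h6 : ∀ p : ℕ, p.Prime → p ≤ N → ¬ p ^ V ∣ (F.eval ((nn b K e f S : ℕ) : ℤ)).natAbs := by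
        intro p hp hpN hdvd
        apply (hG3 S hS p hp).1 hpN
        rw [← hnneq S (hG1 hS)]
        exact Int.natCast_dvd.2 hdvd
      have h7 : ∀ p : ℕ, p.Prime → N < p → p ^ M' ≤ 2 ^ K → ¬ p ∣ (F.eval ((nn b K e f S : ℕ) : ℤ)).natAbs := by
        intro p hp hpN hpK hdvd
        apply (hG3 S hS p hp).2 hpN hpK
        rw [← hnneq S (hG1 hS)]
        exact Int.natCast_dvd.2 hdvd
      have h8 : F.eval ((nn b K e f S : ℕ) : ℤ) ≠ 0 := by
        intro h0
        apply h6 2 Nat.prime_two hN2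
        rw [h0]
        simp
      refine ⟨h1, h3, h4, h5, h8, ?_⟩
      apply omega_bound _ N V M' K (b * (κ + 1)) (Int.natAbs_ne_zero.2 h8) h6 h7 (by omega)
      have h10 := eval_bound F ((nn b K e f S : ℕ) : ℤ) (by exact_mod_cast h2)
      have h11 : (F.eval ((nn b K e f S : ℕ) : ℤ)).natAbs ≤ Bf * (nn b K e f S) ^ κ := by
        zify
        refine h10.trans ?_
        rw [hBf, Int.natCast_natAbs]
        apply mul_le_mul_of_nonneg_right (le_abs_self _) (by positivity)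
      calc (F.eval ((nn b K e f S : ℕ) : ℤ)).natAbs ≤ Bf * (nn b K e f S) ^ κ := h11
        _ ≤ b ^ K * (b ^ K) ^ κ := by
            apply Nat.mul_le_mul
            · calc Bf ≤ K := by omega
                _ ≤ 2 ^ K := (Nat.lt_two_pow_self).le
                _ ≤ b ^ K := Nat.pow_le_pow_left hb K
            · exact Nat.pow_le_pow_left h1.le _
        _ = b ^ (K * (κ + 1)) := by
            rw [← pow_succ', ← pow_mul]
        _ ≤ (2 ^ b) ^ (K * (κ + 1)) := Nat.pow_le_pow_left (Nat.lt_two_pow_self).le _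
        _ = 2 ^ (K * (b * (κ + 1))) := by
            rw [← pow_mul]
            congr 1
            ring
    · intro S hS S' hS' h
      exact nn_inj b K e f hb he hf he0 hef ((K - 2) / 2) hHK S S' (mem_powerset.1 (hG1 hS))
        (mem_powerset.1 (hG1 hS')) h
  exact_mod_cast hle

end Pool.Agent.Run7.h620.PD
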