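import Pool.Agent.Run7.h620.PD.Core
import Pool.Agent.H256R2.SC.R
import Pool.Agent.Helper256.KM.Mertens

set_option autoImplicit false

/-! Sizes: the parameters of the construction. -/

namespace Pool.Agent.Run7.h620.PD

open Finset Filter

lemma ev_logpow (A : ℝ) (n : ℕ) : ∀ᶠ x : ℝ in atTop, A * (Real.log x) ^ n ≤ x := by
  have h := (Real.isLittleO_pow_log_id_atTop (n := n)).bound (c := 1 / (|A| + 1)) (by positivity)
  filter_upwards [h, eventually_ge_atTop 1] with x hx h1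
  have hl : 0 ≤ (Real.log x) ^ n := pow_nonneg (Real.log_nonneg h1) n
  simp only [Real.norm_eq_abs, id, abs_of_nonneg hl, abs_of_nonneg (by linarith : (0 : ℝ) ≤ x)] at hx
  have h2 : (|A| + 1) * (Real.log x) ^ n ≤ x := by
    calc _ ≤ (|A| + 1) * (1 / (|A| + 1) * x) := by gcongr
      _ = x := by field_simp
  have h3 : A ≤ |A| + 1 := by linarith [le_abs_self A]
  exact (mul_le_mul_of_nonneg_right h3 hl).trans h2

/-- the size function -/
noncomputable def Gz (z : ℝ) : ℝ :=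
  z * (Real.log z) ^ 2 * Real.log (Real.log (Real.log z)) / (Real.log (Real.log z)) ^ 2

lemma ev_L (c : ℝ) (hc : 0 < c) : ∀ᶠ z : ℝ in atTop, z + 1 ≤ c * Gz z ∧ c * Gz z ≤ z * (Real.log z) ^ 2 ∧
    1 ≤ z ∧ 1 ≤ Real.log (Real.log (Real.log z)) ∧ 1 ≤ Real.log (Real.log z) ∧ 1 ≤ Real.log z := by
  have t1 := Real.tendsto_log_atTop
  have t2 := t1.comp t1
  have t3 := t1.comp t2
  filter_upwards [eventually_ge_atTop 1, t1.eventually_ge_atTop (max 1 (2 / c)),
    t2.eventually_ge_atTop (max 1 c), t3.eventually_ge_atTop 1, t1.eventually (ev_logpow 1 2)] with z hz hu hv hw huv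
  simp only [Function.comp] at hv hw
  rw [max_le_iff] at hu hv
  set u := Real.log z with hu'
  set v := Real.log u with hv'
  set w := Real.log v with hw'
  have hv0 : 0 < v := by linarith [hv.1]
  have hwv : w ≤ v := by
    have := Real.log_le_sub_one_of_pos hv0
    linarith
  rw [one_mul] at huv
  have hG : c * Gz z = c * (z * u ^ 2 * w / v ^ 2) := rfl
  refine ⟨?_, ?_, hz, hw, hv.1, hu.1⟩
  · rw [hG, mul_div_assoc', le_div_iff₀ (by positivity)]
    have h1 : 2 ≤ c * u := by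
      have := hu.2
      rw [div_le_iff₀ hc] at this
      linarith
    calc (z + 1) * v ^ 2 ≤ (2 * z) * u := by
          apply mul_le_mul (by linarith) huv (by positivity) (by linarith)
      _ ≤ (c * u) * z * u := by
          have : 2 * z ≤ (c * u) * z := mul_le_mul_of_nonneg_right h1 (by linarith)
          exact mul_le_mul_of_nonneg_right this (by linarith [hu.1])
      _ = c * (z * u ^ 2 * 1) := by ring
      _ ≤ c * (z * u ^ 2 * w) := by gcongr
  · rw [hG, mul_div_assoc', div_le_iff₀ (by positivity)]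
    have h1 : c * w ≤ v ^ 2 := by
      calc c * w ≤ v * v := mul_le_mul hv.2 hwv (by linarith) hv0.le
        _ = v ^ 2 := by ring
    calc c * (z * u ^ 2 * w) = z * u ^ 2 * (c * w) := by ring
      _ ≤ z * u ^ 2 * v ^ 2 := by
          apply mul_le_mul_of_nonneg_left h1
          positivity

open Classical in
theorem surv' : ∃ C₃ : ℝ, 0 < C₃ ∧ ∀ c : ℝ, 0 < c → ∀ᶠ z : ℝ in atTop, ∃ bb : ℕ → ℕ,
    (((Icc 1 ⌊c * Gz z⌋₊).filter (fun k => ∀ p : ℕ, p.Prime → p ≤ ⌊z⌋₊ → ¬ k ≡ bb p [MOD p])).card : ℝ) ≤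
      C₃ * c * z := by
  obtain ⟨C, hC, y₀, h⟩ := Pool.Agent.H256R2.SC.survivors
  refine ⟨C, hC, fun c hc => ?_⟩
  filter_upwards [ev_L c hc, eventually_ge_atTop y₀] with z ⟨h1, h2, h3, h4, h5, h6⟩ hy
  have hG0 : 0 ≤ c * Gz z := by linarith
  obtain ⟨bb, _, hbb⟩ := h z hy ⌊c * Gz z⌋₊ (by
    have := Nat.lt_floor_add_one (c * Gz z)
    linarith) ((Nat.floor_le hG0).trans h2)
  refine ⟨bb, ?_⟩
  have h7 : (Icc 1 ⌊c * Gz z⌋₊).filter (fun k => ∀ p : ℕ, p.Prime → p ≤ ⌊z⌋₊ → ¬ k ≡ bb p [MOD p]) =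
      (Icc 1 ⌊c * Gz z⌋₊).filter (fun k => ∀ p : ℕ, p.Prime → (p : ℝ) ≤ z → ¬ k ≡ bb p [MOD p]) := by
    apply filter_congr
    intro k _
    refine forall_congr' fun p => forall_congr' fun _ => ?_
    rw [Nat.le_floor_iff (by linarith)]
  rw [h7]
  refine le_trans (le_of_eq ?_) (hbb.trans ?_)
  · congr!
  have hw0 : 0 < Real.log (Real.log (Real.log z)) := by linarith
  have hv0 : 0 < Real.log (Real.log z) := by linarith
  have hu0 : 0 < Real.log z := by linarith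
  rw [div_le_iff₀ (by positivity)]
  calc C * ⌊c * Gz z⌋₊ * Real.log (Real.log z) ^ 2 ≤ C * (c * Gz z) * Real.log (Real.log z) ^ 2 := by
        have := Nat.floor_le hG0
        gcongr
    _ = C * c * z * (Real.log z ^ 2 * Real.log (Real.log (Real.log z))) := by
        unfold Gz
        field_simp

theorem mert : ∃ CM : ℝ, 0 < CM ∧ ∀ Ny Js : ℕ, 3 ≤ Ny → Ny ≤ 2 ^ 2 ^ Js →
    Q1 Ny Js ≤ CM * Real.log Ny / 2 ^ Js := by
  obtain ⟨C, hC⟩ := Pool.Agent.Helper256.KM.mertens_inv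
  have hl2 : 0 < Real.log 2 := Real.log_pos (by norm_num)
  refine ⟨2 * Real.exp (2 * C) / Real.log 2, by positivity, ?_⟩
  intro Ny Js hN hNJ
  have h1 := (abs_le.1 (hC Ny hN)).2
  have h2 := (abs_le.1 (hC (2 ^ 2 ^ Js) (hN.trans hNJ))).1
  have h3 : ∑ p ∈ (Icc 1 (2 ^ 2 ^ Js)).filter Nat.Prime, (1 : ℝ) / p =
      ∑ p ∈ (Icc 1 Ny).filter Nat.Prime, (1 : ℝ) / p + ∑ p ∈ PP Ny Js, (1 : ℝ) / p := by
    rw [← sum_union]
    · congr 1
      ext p
      rw [mem_union, mem_filter, mem_filter, mem_Icc, mem_Icc, mem_PP]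
      constructor
      · rintro ⟨⟨h3, h4⟩, h5⟩
        by_cases h6 : p ≤ Ny
        · exact Or.inl ⟨⟨h3, h6⟩, h5⟩
        · exact Or.inr ⟨h5, by omega, h4⟩
      · rintro (⟨⟨h3, h4⟩, h5⟩ | ⟨h3, h4, h5⟩)
        · exact ⟨⟨h3, h4.trans hNJ⟩, h5⟩
        · exact ⟨⟨h3.one_lt.le, h5⟩, h3⟩
    · rw [disjoint_left]
      intro p hp hp'
      rw [mem_filter, mem_Icc] at hp
      rw [mem_PP] at hp'
      omega
  have hNr : (3 : ℝ) ≤ Ny := by exact_mod_cast hN
  have hlN : 0 < Real.log Ny := Real.log_pos (by linarith)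
  have hlz : Real.log ((2 ^ 2 ^ Js : ℕ) : ℝ) = 2 ^ Js * Real.log 2 := by
    push_cast
    rw [Real.log_pow]
    push_cast
    ring
  have hlz0 : 0 < Real.log ((2 ^ 2 ^ Js : ℕ) : ℝ) := by rw [hlz]; positivity
  have h4 : ∏ p ∈ PP Ny Js, (1 - 1 / (p : ℝ)) ≤ Real.exp (-∑ p ∈ PP Ny Js, (1 : ℝ) / p) := by
    rw [← sum_neg_distrib, Real.exp_sum]
    apply Finset.prod_le_prod
    · intro p hp
      have h2 : (2 : ℝ) ≤ p := by exact_mod_cast ((mem_PP Ny Js p).1 hp).1.two_le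
      have : 1 / (p : ℝ) ≤ 1 := by rw [div_le_one (by linarith)]; linarith
      linarith
    · intro p _
      have := Real.add_one_le_exp (-(1 / (p : ℝ)))
      linarith
  have h5 : Real.exp (-∑ p ∈ PP Ny Js, (1 : ℝ) / p) ≤
      Real.exp (2 * C) * Real.log Ny / Real.log ((2 ^ 2 ^ Js : ℕ) : ℝ) := by
    have h6 : -∑ p ∈ PP Ny Js, (1 : ℝ) / p ≤
        2 * C + Real.log (Real.log Ny) - Real.log (Real.log ((2 ^ 2 ^ Js : ℕ) : ℝ)) := by linarith
    calc _ ≤ Real.exp (2 * C + Real.log (Real.log Ny) - Real.log (Real.log ((2 ^ 2 ^ Js : ℕ) : ℝ))) :=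
          Real.exp_le_exp.2 h6
      _ = _ := by
          rw [Real.exp_sub, Real.exp_add, Real.exp_log hlN, Real.exp_log hlz0]
  unfold Q1
  calc 2 * ∏ p ∈ PP Ny Js, (1 - 1 / (p : ℝ)) ≤
        2 * (Real.exp (2 * C) * Real.log Ny / Real.log ((2 ^ 2 ^ Js : ℕ) : ℝ)) := by
        have := h4.trans h5
        linarith
    _ = _ := by
        rw [hlz]
        field_simp

lemma HS_le (C Js : ℕ) : HS C Js ≤ 1 + 2 * C ^ 2 * 2 ^ Js := by
  have h1 := harmonic_le_one_add_log (2 ^ (2 * C ^ 2 * 2 ^ Js))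
  have h2 : HS C Js = (harmonic (2 ^ (2 * C ^ 2 * 2 ^ Js)) : ℝ) := by
    unfold HS
    rw [harmonic_eq_sum_Icc, Rat.cast_sum]
    refine sum_congr rfl fun t _ => ?_
    rw [Rat.cast_inv, Rat.cast_natCast, one_div]
  rw [h2]
  refine h1.trans ?_
  push_cast
  rw [Real.log_pow]
  push_cast
  have : Real.log 2 ≤ 1 := by have := Real.log_two_lt_d9; linarith
  have h3 : (0 : ℝ) ≤ 2 * C ^ 2 * 2 ^ Js := by positivity
  nlinarith

end Pool.Agent.Run7.h620.PD
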