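import Mathlib

set_option autoImplicit false

/-!
Balanced digits of real numbers in a base, and sums over well spaced points which become small with the
number of the nonzero digits.
-/

namespace Pool.Agent.Run7.h620.PD

open Finset

/-- the balanced digit of `x` between the places `j` and `j + 1` -/
noncomputable def dig (b : ℕ) (x : ℝ) (j : ℕ) : ℤ :=
  round ((b : ℝ) ^ (j + 1) * x) - b * round ((b : ℝ) ^ j * x)

/-- the signed distance of `b ^ j * x` to the nearest integer -/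
noncomputable def sd (b : ℕ) (x : ℝ) (j : ℕ) : ℝ := (b : ℝ) ^ j * x - round ((b : ℝ) ^ j * x)

lemma sd_succ (b : ℕ) (x : ℝ) (j : ℕ) : sd b x (j + 1) = b * sd b x j - dig b x j := by
  unfold sd dig
  push_cast
  ring

lemma abs_sd_le (b : ℕ) (x : ℝ) (j : ℕ) : |sd b x j| ≤ 1 / 2 := abs_sub_round _

lemma abs_dig_le (b : ℕ) (hb : 1 ≤ b) (x : ℝ) (j : ℕ) : |dig b x j| ≤ b := by
  have h1 : (dig b x j : ℝ) = b * sd b x j - sd b x (j + 1) := by rw [sd_succ]; ring
  have h2 := abs_sd_le b x j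
  have h3 := abs_sd_le b x (j + 1)
  have hbr : (1 : ℝ) ≤ b := by exact_mod_cast hb
  have h4 : |(dig b x j : ℝ)| ≤ b := by
    rw [h1]
    calc |(b : ℝ) * sd b x j - sd b x (j + 1)| ≤ |(b : ℝ) * sd b x j| + |sd b x (j + 1)| := abs_sub _ _
      _ = b * |sd b x j| + |sd b x (j + 1)| := by rw [abs_mul, abs_of_nonneg (by linarith : (0 : ℝ) ≤ b)]
      _ ≤ b * (1 / 2) + 1 / 2 := by gcongr
      _ ≤ b := by linarith
  exact_mod_cast h4

lemma sd_of_dig_ne (b : ℕ) (hb : 1 ≤ b) (x : ℝ) (j : ℕ) (h : dig b x j ≠ 0) :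
    1 / (2 * (b : ℝ)) ≤ |sd b x j| := by
  have hbr : (1 : ℝ) ≤ b := by exact_mod_cast hb
  have h1 : (dig b x j : ℝ) = b * sd b x j - sd b x (j + 1) := by rw [sd_succ]; ring
  have h3 := abs_sd_le b x (j + 1)
  have h4 : (1 : ℝ) ≤ |(dig b x j : ℝ)| := by exact_mod_cast Int.one_le_abs h
  have h5 : |(dig b x j : ℝ)| ≤ b * |sd b x j| + |sd b x (j + 1)| := by
    rw [h1]
    calc |(b : ℝ) * sd b x j - sd b x (j + 1)| ≤ |(b : ℝ) * sd b x j| + |sd b x (j + 1)| := abs_sub _ _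
      _ = b * |sd b x j| + |sd b x (j + 1)| := by rw [abs_mul, abs_of_nonneg (by linarith : (0 : ℝ) ≤ b)]
  rw [div_le_iff₀ (by linarith)]
  linarith

lemma sd_le_dist (b : ℕ) (x : ℝ) (j : ℕ) (n : ℤ) : |sd b x j| ≤ |(b : ℝ) ^ j * x - n| := by
  unfold sd
  exact round_le _ n

lemma dig_add_int (b : ℕ) (x : ℝ) (N : ℤ) (j : ℕ) : dig b (x + N) j = dig b x j := by
  unfold dig
  have h : ∀ i : ℕ, round ((b : ℝ) ^ i * (x + N)) = round ((b : ℝ) ^ i * x) + (b : ℤ) ^ i * N := by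
    intro i
    have : (b : ℝ) ^ i * (x + N) = (b : ℝ) ^ i * x + (((b : ℤ) ^ i * N : ℤ) : ℝ) := by
      push_cast; ring
    rw [this, round_add_intCast]
  rw [h, h, pow_succ]
  ring

/-- number of the nonzero digits in a window -/
noncomputable def bet (b : ℕ) (x : ℝ) (j W : ℕ) : ℕ := ∑ t ∈ range W, if dig b x (j + t) = 0 then 0 else 1

lemma bet_add_int (b : ℕ) (x : ℝ) (N : ℤ) (j W : ℕ) : bet b (x + N) j W = bet b x j W := by
  unfold bet
  refine sum_congr rfl fun t _ => ?_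
  rw [dig_add_int]

lemma bet_add (b : ℕ) (x : ℝ) (j W V : ℕ) : bet b x j (W + V) = bet b x j W + bet b x (j + W) V := by
  unfold bet
  rw [sum_range_add]
  congr 1
  refine sum_congr rfl fun t _ => ?_
  rw [add_assoc]

lemma bet_mono (b : ℕ) (x : ℝ) (j W V : ℕ) (h : W ≤ V) : bet b x j W ≤ bet b x j V := by
  obtain ⟨U, rfl⟩ := Nat.exists_eq_add_of_le h
  rw [bet_add]
  omega

lemma bet_mul (b : ℕ) (x : ℝ) (j W C : ℕ) :
    bet b x j (W * C) = ∑ w ∈ range C, bet b x (j + W * w) W := by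
  induction C with
  | zero => simp [bet]
  | succ C ih => rw [mul_add, mul_one, bet_add, ih, sum_range_succ]

/-- equal digits -/
lemma sd_diff (b : ℕ) (x x' : ℝ) (j W : ℕ) (h : ∀ t < W, dig b x (j + t) = dig b x' (j + t)) :
    sd b x (j + W) - sd b x' (j + W) = (b : ℝ) ^ W * (sd b x j - sd b x' j) := by
  induction W with
  | zero => simp
  | succ W ih =>
    have h1 := ih (fun t ht => h t (by omega))
    rw [← add_assoc, sd_succ, sd_succ, h W (by omega), pow_succ]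
    linear_combination (b : ℝ) * h1

lemma window_sum (b : ℕ) (hb : 1 ≤ b) (Y : ℝ) (hY0 : 0 ≤ Y) (j W : ℕ) {ι : Type*} (s : Finset ι)
    (x : ι → ℝ)
    (hsep : ∀ i ∈ s, ∀ i' ∈ s, i ≠ i' → ∀ N : ℤ, 1 / (b : ℝ) ^ W < |(b : ℝ) ^ j * (x i - x i') - N|)
    (h0 : ∀ i ∈ s, ∀ N : ℤ, 1 / (b : ℝ) ^ W < |(b : ℝ) ^ j * x i - N|) :
    ∑ i ∈ s, Y ^ (bet b (x i) j W) ≤ (1 + 2 * b * Y) ^ W - 1 := by
  classical
  have hbr : (1 : ℝ) ≤ b := by exact_mod_cast hb
  have hbW : (0 : ℝ) < (b : ℝ) ^ W := by positivity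
  set φ : ι → (Fin W → ℤ) := fun i t => dig b (x i) (j + t) with hφ
  set G : (Fin W → ℤ) → ℝ := fun κ => ∏ t, (if κ t = 0 then (1 : ℝ) else Y) with hG
  set B : Finset ℤ := Icc (-(b : ℤ)) b with hB
  set T : Finset (Fin W → ℤ) := Fintype.piFinset (fun _ => B) with hT
  have hGφ : ∀ i, Y ^ (bet b (x i) j W) = G (φ i) := by
    intro i
    simp only [hG, hφ, bet]
    rw [← prod_pow_eq_pow_sum, ← Fin.prod_univ_eq_prod_range
      (fun t => Y ^ (if dig b (x i) (j + t) = 0 then 0 else 1)) W]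
    refine prod_congr rfl fun t _ => ?_
    split_ifs <;> simp
  have hinj : ∀ i ∈ s, ∀ i' ∈ s, φ i = φ i' → i = i' := by
    intro i hi i' hi' h
    by_contra hne
    have h1 := sd_diff b (x i) (x i') j W (fun t ht => congrFun h ⟨t, ht⟩)
    have h2 : |sd b (x i) (j + W) - sd b (x i') (j + W)| ≤ 1 := by
      have e1 := abs_sd_le b (x i) (j + W)
      have e2 := abs_sd_le b (x i') (j + W)
      calc _ ≤ |sd b (x i) (j + W)| + |sd b (x i') (j + W)| := abs_sub _ _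
        _ ≤ _ := by linarith
    rw [h1, abs_mul, abs_of_pos hbW] at h2
    have h3 := hsep i hi i' hi' hne (round ((b : ℝ) ^ j * x i) - round ((b : ℝ) ^ j * x i'))
    have h4 : (b : ℝ) ^ j * (x i - x i') - ((round ((b : ℝ) ^ j * x i) - round ((b : ℝ) ^ j * x i') : ℤ) : ℝ) =
        sd b (x i) j - sd b (x i') j := by
      unfold sd
      push_cast
      ring
    rw [h4, div_lt_iff₀ hbW] at h3
    linarith
  have hne0 : ∀ i ∈ s, φ i ≠ 0 := by
    intro i hi h
    have h1 : ∀ t < W, sd b (x i) (j + t) = (b : ℝ) ^ t * sd b (x i) j := by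
      intro t
      induction t with
      | zero => intro _; simp
      | succ t ih =>
        intro ht
        have h2 := ih (by omega)
        have h3 : dig b (x i) (j + t) = 0 := congrFun h ⟨t, by omega⟩
        rw [← add_assoc, sd_succ, h2, h3, pow_succ]
        push_cast
        ring
    have h1' : sd b (x i) (j + W) = (b : ℝ) ^ W * sd b (x i) j := by
      rcases Nat.eq_zero_or_pos W with hW | hW
      · subst hW; simp
      · obtain ⟨V, rfl⟩ : ∃ V, W = V + 1 := ⟨W - 1, by omega⟩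
        have h2 := h1 V (by omega)
        have h3 : dig b (x i) (j + V) = 0 := congrFun h ⟨V, by omega⟩
        rw [← add_assoc, sd_succ, h2, h3, pow_succ]
        push_cast
        ring
    have h2 := abs_sd_le b (x i) (j + W)
    rw [h1', abs_mul, abs_of_pos hbW] at h2
    have h3 := h0 i hi (round ((b : ℝ) ^ j * x i))
    have h4 : (b : ℝ) ^ j * x i - ((round ((b : ℝ) ^ j * x i) : ℤ) : ℝ) = sd b (x i) j := rfl
    rw [h4, div_lt_iff₀ hbW] at h3
    linarith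
  have hmem : ∀ i ∈ s, φ i ∈ T.erase 0 := by
    intro i hi
    rw [mem_erase]
    refine ⟨hne0 i hi, ?_⟩
    rw [hT, Fintype.mem_piFinset]
    intro t
    rw [hB, mem_Icc]
    exact abs_le.1 (abs_dig_le b hb (x i) (j + t))
  have hG0 : ∀ κ, 0 ≤ G κ := fun κ => prod_nonneg fun t _ => by split_ifs <;> linarith
  have h0T : (0 : Fin W → ℤ) ∈ T := by
    rw [hT, Fintype.mem_piFinset]
    intro t
    rw [hB, mem_Icc]
    simp
  have hGz : G 0 = 1 := by simp [hG]
  have hsumB : ∑ a ∈ B, (if a = 0 then (1 : ℝ) else Y) = 1 + 2 * b * Y := by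
    have e1 : ∀ a ∈ B, (if a = 0 then (1 : ℝ) else Y) = (if a = 0 then (1 - Y : ℝ) else 0) + Y := by
      intro a _
      split_ifs <;> ring
    rw [sum_congr rfl e1, sum_add_distrib, sum_ite_eq' B 0, sum_const]
    have e2 : (0 : ℤ) ∈ B := by rw [hB, mem_Icc]; omega
    rw [if_pos e2, nsmul_eq_mul, hB, Int.card_Icc]
    have e3 : ((b : ℤ) + 1 - -(b : ℤ)).toNat = 2 * b + 1 := by omega
    rw [e3]
    push_cast
    ring
  have htot : ∑ κ ∈ T, G κ = (1 + 2 * b * Y) ^ W := by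
    rw [hT, hG]
    rw [← Finset.prod_univ_sum (fun _ => B) (fun _ a => if a = 0 then (1 : ℝ) else Y)]
    rw [prod_const, hsumB, card_univ, Fintype.card_fin]
  calc ∑ i ∈ s, Y ^ (bet b (x i) j W) = ∑ i ∈ s, G (φ i) := sum_congr rfl fun i _ => hGφ i
    _ = ∑ κ ∈ s.image φ, G κ := by
        rw [sum_image (fun a ha a' ha' h => hinj a ha a' ha' h)]
    _ ≤ ∑ κ ∈ T.erase 0, G κ := by
        refine sum_le_sum_of_subset_of_nonneg ?_ fun κ _ _ => hG0 κ
        intro κ hκ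
        rw [mem_image] at hκ
        obtain ⟨i, hi, rfl⟩ := hκ
        exact hmem i hi
    _ = (1 + 2 * b * Y) ^ W - 1 := by
        rw [← htot, ← sum_erase_add T G h0T, hGz]
        ring

/-- several windows -/
lemma multi (b : ℕ) (x : ℝ) (j W C V : ℕ) (y : ℝ) (hy0 : 0 ≤ y) (hy1 : y ≤ 1) (hC : 1 ≤ C)
    (hV : W * C ≤ V) :
    y ^ (bet b x j V) ≤ ∑ w ∈ range C, (y ^ C) ^ (bet b x (j + W * w) W) := by
  have hne : (range C).Nonempty := nonempty_range_iff.2 (by omega)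
  obtain ⟨w₀, hw₀, hmin⟩ := exists_min_image (range C) (fun w => bet b x (j + W * w) W) hne
  have h1 : C * bet b x (j + W * w₀) W ≤ bet b x j (W * C) := by
    rw [bet_mul]
    calc C * bet b x (j + W * w₀) W = ∑ w ∈ range C, bet b x (j + W * w₀) W := by
          rw [sum_const, card_range, smul_eq_mul]
      _ ≤ _ := sum_le_sum fun w hw => hmin w hw
  have h2 : C * bet b x (j + W * w₀) W ≤ bet b x j V := h1.trans (bet_mono b x j _ _ hV)
  calc y ^ (bet b x j V) ≤ y ^ (C * bet b x (j + W * w₀) W) := pow_le_pow_of_le_one hy0 hy1 h2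
    _ = (y ^ C) ^ (bet b x (j + W * w₀) W) := by rw [pow_mul]
    _ ≤ _ := single_le_sum (f := fun w => (y ^ C) ^ (bet b x (j + W * w) W))
        (fun w _ => by positivity) hw₀

/-- the sum over well spaced points -/
lemma multi_sum (b : ℕ) (hb : 1 ≤ b) (y : ℝ) (hy0 : 0 ≤ y) (hy1 : y ≤ 1) (j W C V : ℕ) (hC : 1 ≤ C)
    (hV : W * C ≤ V) {ι : Type*} (s : Finset ι) (x : ι → ℝ)
    (hsep : ∀ i ∈ s, ∀ i' ∈ s, i ≠ i' → ∀ j : ℕ, ∀ N : ℤ,
      1 / (b : ℝ) ^ W < |(b : ℝ) ^ j * (x i - x i') - N|)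
    (h0 : ∀ i ∈ s, ∀ j : ℕ, ∀ N : ℤ, 1 / (b : ℝ) ^ W < |(b : ℝ) ^ j * x i - N|) :
    ∑ i ∈ s, y ^ (bet b (x i) j V) ≤ C * ((1 + 2 * b * y ^ C) ^ W - 1) := by
  calc ∑ i ∈ s, y ^ (bet b (x i) j V)
      ≤ ∑ i ∈ s, ∑ w ∈ range C, (y ^ C) ^ (bet b (x i) (j + W * w) W) :=
        sum_le_sum fun i _ => multi b (x i) j W C V y hy0 hy1 hC hV
    _ = ∑ w ∈ range C, ∑ i ∈ s, (y ^ C) ^ (bet b (x i) (j + W * w) W) := sum_comm
    _ ≤ ∑ w ∈ range C, ((1 + 2 * b * y ^ C) ^ W - 1) := by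
        refine sum_le_sum fun w _ => ?_
        exact window_sum b hb (y ^ C) (by positivity) (j + W * w) W s x
          (fun i hi i' hi' h N => hsep i hi i' hi' h _ N) (fun i hi N => h0 i hi _ N)
    _ = _ := by rw [sum_const, card_range, nsmul_eq_mul]

end Pool.Agent.Run7.h620.PD
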