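import Pool.Agent.Run7.h620.PD.Gc

set_option autoImplicit false

/-! A residue class to a fixed modulus which avoids a few given classes modulo powers of the small primes. -/

namespace Pool.Agent.Run7.h620.PD

open Finset Filter

open Classical in
theorem good_class2 (b : ℕ) (hb : 2 ≤ b) (D : ℤ) (hD : D ≠ 0) (N d : ℕ) :
    ∃ M m : ℕ, 0 < M ∧ (∀ p : ℕ, p.Prime → p ∣ M → p ≤ N) ∧ (∀ p : ℕ, p.Prime → p ≤ N → p ^ m ∣ M) ∧
      ∀ᶠ K : ℕ in atTop, ∀ (n₀ : ℤ) (R : ℕ → Finset ℤ), (∀ p, (R p).card ≤ d) → ∃ s₀ : ℤ,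
        (2 : ℝ) ^ ((K - 2) / 2) / (2 * M) ≤ cnt (Icc 1 ((K - 2) / 2)).powerset (vv b K n₀ D) M s₀ ∧
        ∀ p : ℕ, p.Prime → p ≤ N → ∀ r ∈ R p, ¬ ((p ^ m : ℕ) : ℤ) ∣ s₀ - r := by
  set Ps := (Icc 1 N).filter Nat.Prime with hPs
  set δ : ℝ := 1 / (2 * (N + 1) * (d + 1)) with hδ
  have hδ0 : 0 < δ := by positivity
  have h1 : ∀ p : ℕ, ∃ m : ℕ, p.Prime → ∀ᶠ K : ℕ in atTop, ∀ n₀ r : ℤ,
      cnt (Icc 1 ((K - 2) / 2)).powerset (vv b K n₀ D) (p ^ m) r ≤ δ * 2 ^ ((K - 2) / 2) := by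
    intro p
    by_cases hp : p.Prime
    · obtain ⟨m, hm⟩ := ac b hb D hD p hp δ hδ0
      exact ⟨m, fun _ => hm⟩
    · exact ⟨0, fun h => absurd h hp⟩
  choose m₀ hm using h1
  set V : ℕ := ∑ p ∈ Ps, m₀ p with hV
  have hVle : ∀ p ∈ Ps, m₀ p ≤ V := fun p hp => single_le_sum (fun _ _ => Nat.zero_le _) hp
  set M : ℕ := ∏ p ∈ Ps, p ^ V with hM
  have hM0 : 0 < M := prod_pos fun p hp => Nat.pow_pos (mem_filter.1 hp).2.pos
  have hMr : (0 : ℝ) < M := by exact_mod_cast hM0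
  have hmem : ∀ p : ℕ, p.Prime → p ≤ N → p ∈ Ps := by
    intro p hp hpN
    rw [hPs, mem_filter, mem_Icc]
    exact ⟨⟨hp.one_lt.le, hpN⟩, hp⟩
  refine ⟨M, V, hM0, ?_, ?_, ?_⟩
  · intro p hp hpM
    rw [hM, Prime.dvd_finsetProd_iff hp.prime] at hpM
    obtain ⟨q, hq, hpq⟩ := hpM
    have hq' := mem_filter.1 hq
    have := (Nat.prime_dvd_prime_iff_eq hp hq'.2).1 (hp.dvd_of_dvd_pow hpq)
    rw [this]
    exact (mem_Icc.1 hq'.1).2
  · intro p hp hpN
    exact Finset.dvd_prod_of_mem (fun p => p ^ V) (hmem p hp hpN)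
  · have h3 : ∀ᶠ K : ℕ in atTop, ∀ p ∈ Ps, ∀ n₀ r : ℤ,
        cnt (Icc 1 ((K - 2) / 2)).powerset (vv b K n₀ D) (p ^ m₀ p) r ≤ δ * 2 ^ ((K - 2) / 2) :=
      (eventually_all_finset Ps).2 fun p hp => hm p (mem_filter.1 hp).2
    filter_upwards [h3] with K h3 n₀ R hR
    set H := (K - 2) / 2 with hH
    set v := vv b K n₀ D with hv
    set 𝒮 := (Icc 1 H).powerset with h𝒮
    have hcard : (𝒮.card : ℝ) = 2 ^ H := by
      rw [h𝒮, card_powerset, Nat.card_Icc]
      push_cast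
      congr 1
    set bad : ℕ → Finset (Finset ℕ) := fun p => 𝒮.filter (fun S => ∃ r ∈ R p, ((p ^ V : ℕ) : ℤ) ∣ v S - r) with hbad
    have hbadc : ∀ p ∈ Ps, ((bad p).card : ℝ) ≤ d * (δ * 2 ^ H) := by
      intro p hp
      have g1 : bad p ⊆ (R p).biUnion (fun r => 𝒮.filter (fun S => ((p ^ m₀ p : ℕ) : ℤ) ∣ v S - r)) := by
        intro S hS
        rw [hbad, mem_filter] at hS
        obtain ⟨hS1, r, hr, hS2⟩ := hS
        rw [mem_biUnion]
        refine ⟨r, hr, mem_filter.2 ⟨hS1, dvd_trans ?_ hS2⟩⟩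
        exact_mod_cast pow_dvd_pow p (hVle p hp)
      have g2 : ((bad p).card : ℝ) ≤ ∑ r ∈ R p, ((𝒮.filter (fun S => ((p ^ m₀ p : ℕ) : ℤ) ∣ v S - r)).card : ℝ) := by
        exact_mod_cast (card_le_card g1).trans card_biUnion_le
      refine g2.trans ?_
      calc ∑ r ∈ R p, ((𝒮.filter (fun S => ((p ^ m₀ p : ℕ) : ℤ) ∣ v S - r)).card : ℝ)
          ≤ ∑ _r ∈ R p, (δ * 2 ^ H) := by
            refine sum_le_sum fun r _ => ?_
            have := h3 p hp n₀ r
            unfold cnt at this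
            exact this
        _ = (R p).card * (δ * 2 ^ H) := by rw [sum_const, nsmul_eq_mul]
        _ ≤ d * (δ * 2 ^ H) := by
            have : ((R p).card : ℝ) ≤ d := by exact_mod_cast hR p
            gcongr
    set Gd : Finset (Finset ℕ) := 𝒮 \ Ps.biUnion bad with hGd
    have h4 : (𝒮.card : ℝ) ≤ Gd.card + (Ps.biUnion bad).card := by
      have : 𝒮.card ≤ Gd.card + (Ps.biUnion bad).card := card_le_card_sdiff_add_card
      exact_mod_cast this
    have h5 : (((Ps.biUnion bad).card : ℕ) : ℝ) ≤ 2 ^ H / 2 := by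
      calc (((Ps.biUnion bad).card : ℕ) : ℝ) ≤ ∑ p ∈ Ps, ((bad p).card : ℝ) := by exact_mod_cast card_biUnion_le
        _ ≤ ∑ _p ∈ Ps, (d * (δ * 2 ^ H) : ℝ) := sum_le_sum hbadc
        _ = Ps.card * (d * (δ * 2 ^ H)) := by rw [sum_const, nsmul_eq_mul]
        _ ≤ N * (d * (δ * 2 ^ H)) := by
            have : Ps.card ≤ N := by
              calc Ps.card ≤ (Icc 1 N).card := card_filter_le _ _
                _ = N := by rw [Nat.card_Icc]; omega
            have : (Ps.card : ℝ) ≤ N := by exact_mod_cast this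
            gcongr
        _ = (N * d / ((N + 1) * (d + 1))) * (2 ^ H / 2) := by
            rw [hδ]
            field_simp
        _ ≤ 1 * (2 ^ H / 2) := by
            apply mul_le_mul_of_nonneg_right _ (by positivity)
            rw [div_le_one (by positivity)]
            have hN0 : (0 : ℝ) ≤ N := Nat.cast_nonneg _
            have hd0 : (0 : ℝ) ≤ d := Nat.cast_nonneg _
            nlinarith
        _ = 2 ^ H / 2 := one_mul _
    have h6 : (2 : ℝ) ^ H / 2 ≤ Gd.card := by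
      rw [hcard] at h4
      linarith
    obtain ⟨r, hr⟩ := exists_class Gd v M hM0
    have h7 : (2 : ℝ) ^ H / (2 * M) ≤ cnt Gd v M r := by
      refine le_trans ?_ hr
      rw [← div_div]
      gcongr
    have h8 : cnt Gd v M r ≤ cnt 𝒮 v M r := by
      unfold cnt
      have : (Gd.filter (fun i => (M : ℤ) ∣ v i - r)) ⊆ (𝒮.filter (fun i => (M : ℤ) ∣ v i - r)) :=
        filter_subset_filter _ sdiff_subset
      exact_mod_cast card_le_card this
    refine ⟨r, h7.trans h8, ?_⟩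
    intro p hp hpN x hx hcon
    have h9 : 0 < cnt Gd v M r := lt_of_lt_of_le (by positivity) h7
    unfold cnt at h9
    have h10 : 0 < (Gd.filter (fun i => (M : ℤ) ∣ v i - r)).card := by exact_mod_cast h9
    obtain ⟨S, hS⟩ := card_pos.1 h10
    rw [mem_filter, hGd, Finset.mem_sdiff, mem_biUnion] at hS
    apply hS.1.2
    refine ⟨p, hmem p hp hpN, mem_filter.2 ⟨hS.1.1, x, hx, ?_⟩⟩
    have h11 : ((p ^ V : ℕ) : ℤ) ∣ v S - r := by
      refine dvd_trans ?_ hS.2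
      have : p ^ V ∣ M := Finset.dvd_prod_of_mem (fun p => p ^ V) (hmem p hp hpN)
      exact_mod_cast this
    have h13 := dvd_add h11 hcon
    rwa [sub_add_sub_cancel] at h13

end Pool.Agent.Run7.h620.PD
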