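import Pool.Agent.Run7.h620.PD.Poly
import Pool.Agent.Run7.h620.PD.Digits

set_option autoImplicit false

/-! All palindromes with two digits as members of a few families. -/

namespace Pool.Agent.Run7.h620.PD

open Finset Filter

/-- the places which are not moved freely -/
def Mid (K : ℕ) : Finset ℕ := (range K).filter (fun j => ¬ (1 ≤ j ∧ j ≤ (K - 2) / 2) ∧
  ¬ (1 ≤ K - 1 - j ∧ K - 1 - j ≤ (K - 2) / 2))

lemma Mid_card (K : ℕ) (hK : 4 ≤ K) : (Mid K).card ≤ 3 := by
  have h : Mid K ⊆ {0, K - 1, (K - 1) / 2} := by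
    intro j hj
    unfold Mid at hj
    rw [mem_filter, mem_range] at hj
    rw [mem_insert, mem_insert, mem_singleton]
    omega
  exact (card_le_card h).trans card_le_three

/-- the constant term -/
def cT (b K e f : ℕ) (T₀ : Finset ℕ) : ℤ :=
  (e : ℤ) * ∑ j ∈ range K, (b : ℤ) ^ j + ((f : ℤ) - e) * ∑ j ∈ T₀, (b : ℤ) ^ j

lemma cT_eq (b K e f : ℕ) (T : Finset ℕ) (hT : T ⊆ range K) :
    cT b K e f T = ∑ j ∈ range K, (if j ∈ T then (f : ℤ) else e) * (b : ℤ) ^ j := by
  unfold cT
  have h1 : ∑ j ∈ T, (b : ℤ) ^ j = ∑ j ∈ range K, if j ∈ T then (b : ℤ) ^ j else 0 := by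
    rw [← sum_filter]
    congr 1
    ext j
    rw [mem_filter]
    exact ⟨fun h => ⟨hT h, h⟩, fun h => h.2⟩
  rw [h1, mul_sum, mul_sum, ← sum_add_distrib]
  refine sum_congr rfl fun j _ => ?_
  split_ifs <;> ring

lemma cT_nonneg (b K e f : ℕ) (T : Finset ℕ) (hT : T ⊆ range K) : 0 ≤ cT b K e f T := by
  rw [cT_eq b K e f T hT]
  apply sum_nonneg
  intro j _
  apply mul_nonneg _ (by positivity)
  split_ifs <;> positivity

lemma vv_cT (b K e f : ℕ) (T₀ S : Finset ℕ) (hT₀ : T₀ ⊆ Mid K) (hS : S ⊆ Icc 1 ((K - 2) / 2)) :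
    vv b K (cT b K e f T₀) ((f : ℤ) - e) S = cT b K e f (T₀ ∪ (S ∪ S.image (fun i => K - 1 - i))) := by
  unfold vv
  have hinj : ∀ i ∈ S, ∀ i' ∈ S, K - 1 - i = K - 1 - i' → i = i' := by
    intro i hi i' hi' h
    have := mem_Icc.1 (hS hi)
    have := mem_Icc.1 (hS hi')
    omega
  have h1 : ∑ i ∈ S, (gg b K i : ℤ) = ∑ j ∈ S ∪ S.image (fun i => K - 1 - i), (b : ℤ) ^ j := by
    rw [sum_union, sum_image (fun i hi i' hi' h => hinj i hi i' hi' h), ← sum_add_distrib]
    · refine sum_congr rfl fun i _ => ?_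
      unfold gg
      push_cast
      ring
    · rw [disjoint_left]
      intro j hj hj'
      rw [mem_image] at hj'
      obtain ⟨i, hi, hij⟩ := hj'
      have := mem_Icc.1 (hS hj)
      have := mem_Icc.1 (hS hi)
      omega
  have h2 : ∑ j ∈ T₀ ∪ (S ∪ S.image (fun i => K - 1 - i)), (b : ℤ) ^ j =
      ∑ j ∈ T₀, (b : ℤ) ^ j + ∑ j ∈ S ∪ S.image (fun i => K - 1 - i), (b : ℤ) ^ j := by
    rw [sum_union]
    rw [disjoint_left]
    intro j hj hj'
    have h3 := hT₀ hj
    unfold Mid at h3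
    rw [mem_filter, mem_range] at h3
    rw [mem_union, mem_image] at hj'
    rcases hj' with h4 | ⟨i, hi, hij⟩
    · have := mem_Icc.1 (hS h4)
      omega
    · have := mem_Icc.1 (hS hi)
      omega
  unfold cT
  rw [h1, h2]
  ring

lemma union_sub (K : ℕ) (T₀ S : Finset ℕ) (hT₀ : T₀ ⊆ Mid K) (hS : S ⊆ Icc 1 ((K - 2) / 2)) :
    T₀ ∪ (S ∪ S.image (fun i => K - 1 - i)) ⊆ range K := by
  intro j hj
  rw [mem_union, mem_union, mem_image] at hj
  rw [mem_range]
  rcases hj with h | h | ⟨i, hi, hij⟩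
  · have := hT₀ h
    unfold Mid at this
    rw [mem_filter, mem_range] at this
    exact this.1
  · have := mem_Icc.1 (hS h)
    omega
  · have := mem_Icc.1 (hS hi)
    omega

lemma exists_S (b K e f n : ℕ) (h1 : (Nat.digits b n).length = K)
    (h2 : (Nat.digits b n).reverse = Nat.digits b n) (h3 : ∀ d ∈ Nat.digits b n, d = e ∨ d = f) :
    ∃ T₀ ∈ (Mid K).powerset, ∃ S ∈ (Icc 1 ((K - 2) / 2)).powerset,
      (n : ℤ) = vv b K (cT b K e f T₀) ((f : ℤ) - e) S := by
  classical
  set dg : ℕ → ℕ := fun j => (Nat.digits b n).getD j 0 with hdg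
  have hlist : Nat.digits b n = (List.range K).map dg := by
    apply List.ext_getElem
    · simp [h1]
    · intro j hj hj'
      rw [List.getElem_map, List.getElem_range]
      simp only [hdg]
      rw [List.getD_eq_getElem _ _ hj]
  have hn : n = ∑ j ∈ range K, dg j * b ^ j := by
    rw [← ofDigits_map, ← hlist, Nat.ofDigits_digits]
  have hdge : ∀ j < K, dg j = e ∨ dg j = f := by
    intro j hj
    apply h3
    simp only [hdg]
    rw [List.getD_eq_getElem _ _ (by omega)]
    exact List.getElem_mem _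
  have hsym : ∀ j < K, dg (K - 1 - j) = dg j := by
    intro j hj
    simp only [hdg]
    rw [List.getD_eq_getElem _ _ (by omega), List.getD_eq_getElem _ _ (by omega)]
    have h4 : (Nat.digits b n)[j]'(by omega) = ((Nat.digits b n).reverse)[j]'(by rw [List.length_reverse]; omega) := by
      simp only [h2]
    rw [h4, List.getElem_reverse]
    congr 1
    omega
  set T : Finset ℕ := (range K).filter (fun j => dg j = f) with hT
  refine ⟨(Mid K).filter (fun j => dg j = f), by rw [mem_powerset]; exact filter_subset _ _,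
    (Icc 1 ((K - 2) / 2)).filter (fun j => dg j = f), by rw [mem_powerset]; exact filter_subset _ _, ?_⟩
  rw [vv_cT b K e f _ _ (filter_subset _ _) (filter_subset _ _)]
  have hTT : (Mid K).filter (fun j => dg j = f) ∪ ((Icc 1 ((K - 2) / 2)).filter (fun j => dg j = f) ∪
      ((Icc 1 ((K - 2) / 2)).filter (fun j => dg j = f)).image (fun i => K - 1 - i)) = T := by
    ext j
    rw [mem_union, mem_union, mem_image, mem_filter, mem_filter, mem_Icc, hT, mem_filter, mem_range]
    constructor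
    · rintro (⟨h4, h5⟩ | ⟨h4, h5⟩ | ⟨i, hi, hij⟩)
      · unfold Mid at h4
        rw [mem_filter, mem_range] at h4
        exact ⟨h4.1, h5⟩
      · exact ⟨by omega, h5⟩
      · rw [mem_filter, mem_Icc] at hi
        rw [← hij]
        refine ⟨by omega, ?_⟩
        rw [hsym i (by omega)]
        exact hi.2
    · rintro ⟨h4, h5⟩
      by_cases h6 : 1 ≤ j ∧ j ≤ (K - 2) / 2
      · exact Or.inr (Or.inl ⟨h6, h5⟩)
      · by_cases h7 : 1 ≤ K - 1 - j ∧ K - 1 - j ≤ (K - 2) / 2
        · refine Or.inr (Or.inr ⟨K - 1 - j, ?_, by omega⟩)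
          rw [mem_filter, mem_Icc]
          refine ⟨h7, ?_⟩
          rw [hsym j h4]
          exact h5
        · left
          refine ⟨?_, h5⟩
          unfold Mid
          rw [mem_filter, mem_range]
          exact ⟨h4, h6, h7⟩
  rw [hTT, cT_eq b K e f T (filter_subset _ _)]
  conv_lhs => rw [hn]
  push_cast
  refine sum_congr rfl fun j hj => ?_
  rw [mem_range] at hj
  congr 1
  by_cases h4 : j ∈ T
  · rw [if_pos h4]
    rw [hT, mem_filter] at h4
    rw [h4.2]
  · rw [if_neg h4]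
    rcases hdge j hj with h5 | h5
    · rw [h5]
    · exfalso
      apply h4
      rw [hT, mem_filter, mem_range]
      exact ⟨hj, h5⟩

end Pool.Agent.Run7.h620.PD
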