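import Pool.Agent.Run7.h620.PD.Mf

set_option autoImplicit false

/-! Upper bounds by the sieve, uniformly in the residue classes which are removed. -/

namespace Pool.Agent.Run7.h620.PD

open Finset Polynomial Filter

/-- few values outside given residue classes; uniform in the classes -/
theorem upper2 (b : ℕ) (hb : 2 ≤ b) (D : ℤ) (hD : D ≠ 0) (κ k : ℕ) (hF : 1 ≤ κ) (hkκ : k ≤ κ) :
    ∃ N₀ : ℕ, 3 ≤ N₀ ∧ ∀ N : ℕ, N₀ ≤ N → ∀ c₂ : ℝ, 0 < c₂ → ∃ c : ℝ, 0 < c ∧ ∃ M' : ℕ, 3 ≤ M' ∧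
      ∀ᶠ K : ℕ in atTop, ∀ (X : ℝ) (n₀ : ℤ) (Z : ℕ → Finset ℕ), 1 ≤ X →
      (∀ p : ℕ, p.Prime → N < p → Z p ⊆ range p ∧ (Z p).card ≤ κ) →
      (∀ J : ℕ, N ≤ 2 ^ 2 ^ J → K ≤ 2 ^ 2 ^ J → ∏ p ∈ PP N J, (1 - ((Z p).card : ℝ) / (p : ℝ)) ≤ c₂ * X / (2 ^ J) ^ k) →
      (∀ S ∈ (Icc 1 ((K - 2) / 2)).powerset, 0 ≤ vv b K n₀ D S) →
      ∀ G ⊆ (Icc 1 ((K - 2) / 2)).powerset,
        (∀ S ∈ G, ∀ p : ℕ, p.Prime → N < p → p ^ M' ≤ 2 ^ K → ¬ ∃ z ∈ Z p, (p : ℤ) ∣ vv b K n₀ D S - z) →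
        (G.card : ℝ) ≤ c * X * 2 ^ ((K - 2) / 2) / (K : ℝ) ^ k := by
  classical
  obtain ⟨C, hC, hsieve⟩ := sieve_gen
  obtain ⟨A₀, hA₀, hwk⟩ := wk_log κ hF
  have hbr : (2 : ℝ) ≤ b := by exact_mod_cast hb
  obtain ⟨U, hU⟩ : ∃ U : ℤ, U = ((b : ℤ) ^ 2 - 1) * D := ⟨_, rfl⟩
  have hU0 : U ≠ 0 := by
    rw [hU]
    apply mul_ne_zero _ hD
    have : (2 : ℤ) ≤ b := by exact_mod_cast hb
    nlinarith
  refine ⟨b * U.natAbs + C * (κ + 1) + 2 * κ + 3, by omega, ?_⟩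
  intro N hN c₂ hc₂
  obtain ⟨M, hM⟩ : ∃ M : ℕ, M = 1 := ⟨_, rfl⟩
  have hM0 : 0 < M := by omega
  have hMr : (1 : ℝ) ≤ M := by exact_mod_cast hM0
  have hbU0 : 0 < b * U.natAbs := Nat.mul_pos (by omega) (Int.natAbs_pos.2 hU0)
  have hbU : ((b : ℤ) * U).natAbs = b * U.natAbs := by rw [Int.natAbs_mul]; rfl
  set y : ℝ := yy b M with hy
  have hy0 : 0 < y := yy_pos b M (by omega) hM0
  have hy1 : y < 1 := yy_lt b M (by omega) hM0
  have hly : Real.log y < 0 := Real.log_neg hy0 hy1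
  obtain ⟨E, hE⟩ : ∃ E : ℕ, E = 2 * κ + 3 := ⟨_, rfl⟩
  set q : ℝ := E / (-Real.log y) with hq
  have hq0 : 0 < q := by
    rw [hq]
    apply div_pos _ (by linarith)
    rw [hE]
    positivity
  set η : ℝ := 1 / (60 * (q + 1)) with hη
  have hη0 : 0 < η := by rw [hη]; positivity
  obtain ⟨n₁, hn₁⟩ := exists_pow_lt_of_lt_one (show (0 : ℝ) < 1 / (50 * b) by positivity) hy1
  obtain ⟨C₁, hC₁⟩ : ∃ C₁ : ℕ, C₁ = n₁ + 1 := ⟨_, rfl⟩
  have hy3 : 2 * b * y ^ C₁ * 5 ≤ 1 / 5 := by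
    have h1 : y ^ C₁ ≤ 1 / (50 * b) := by
      rw [hC₁, pow_succ]
      calc y ^ n₁ * y ≤ y ^ n₁ * 1 := mul_le_mul_of_nonneg_left hy1.le (pow_pos hy0 n₁).le
        _ ≤ 1 / (50 * b) := by rw [mul_one]; exact hn₁.le
    calc 2 * b * y ^ C₁ * 5 ≤ 2 * b * (1 / (50 * b)) * 5 := by gcongr
      _ = 1 / 5 := by field_simp; norm_num
  obtain ⟨M₁, hM₁⟩ : ∃ M₁ : ℕ, M₁ = 40 * C₁ * (C * (C * (κ + 1))) := ⟨_, rfl⟩
  have hCC : 1 ≤ C * (C * (κ + 1)) := Nat.mul_pos hC (Nat.mul_pos hC (by omega))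
  have hM2C : C * (C * (κ + 1)) ≤ M₁ := by
    rw [hM₁]
    exact Nat.le_mul_of_pos_left _ (by omega)
  have hM2 : 3 ≤ M₁ := by
    rw [hM₁]
    calc 3 ≤ 40 * C₁ * 1 := by omega
      _ ≤ 40 * C₁ * (C * (C * (κ + 1))) := Nat.mul_le_mul_left _ hCC
  have hM1 : 1 ≤ M₁ := by omega
  obtain ⟨T₀, hT₀⟩ : ∃ T₀ : ℝ, T₀ = 2 ^ κ * A₀ * (12 * b + 6) := ⟨_, rfl⟩
  have hT₀0 : 0 ≤ T₀ := by rw [hT₀]; positivity
  obtain ⟨B, hB⟩ : ∃ B : ℝ, B = 100 + 40 * C₁ + 2 * b + N := ⟨_, rfl⟩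
  refine ⟨2 * c₂ * (2 * M₁) ^ k + T₀ + 1, by positivity, M₁, hM2, ?_⟩
  filter_upwards [par2 E y hy0 hy1 q η (by omega) hq hη M₁ hM1 B] with K hK X n₀ Z hX hZ hW hpos G hG hGp
  obtain ⟨s₀, hs₀⟩ : ∃ s₀ : ℤ, s₀ = 0 := ⟨_, rfl⟩
  obtain ⟨k1, k2, k3, k4, k5, k6, k7, k8, k9⟩ := hK
  set z : ℝ := η * K / Real.log K with hz
  set Ny : ℕ := ⌊z⌋₊ with hNy
  set Js : ℕ := Nat.log 2 (K / M₁) with hJs
  set C₀ : ℕ := ⌈q * Real.log K⌉₊ with hC₀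
  have e1 : (0 : ℝ) ≤ 40 * C₁ := by positivity
  have e2 : (0 : ℝ) ≤ 2 * b := by positivity
  have e3 : (0 : ℝ) ≤ N := by positivity
  have hKr : (100 : ℝ) ≤ K := by linarith
  have hK100 : 100 ≤ K := by exact_mod_cast hKr
  have hK0 : (0 : ℝ) < K := by linarith
  have hlK0 : 0 < Real.log K := by linarith
  have hC₀1 : 1 ≤ C₀ := by
    rw [hC₀]
    exact Nat.one_le_ceil_iff.2 (by positivity)
  have hV1 : C₁ * (5 * (C * (C * (κ + 1)) * 2 ^ Js + 1)) ≤ (K - 2) / 2 - 1 := by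
    have h1 : 40 * C₁ * (C * (C * (κ + 1))) * 2 ^ Js ≤ K := by rw [← hM₁]; exact k8
    have h2 : 40 * C₁ ≤ K := by
      have : (40 * C₁ : ℝ) ≤ K := by linarith
      exact_mod_cast this
    have h3 : 8 * (C₁ * (5 * (C * (C * (κ + 1)) * 2 ^ Js + 1))) =
        40 * C₁ * (C * (C * (κ + 1))) * 2 ^ Js + 40 * C₁ := by ring
    omega
  have hNJ : N ≤ 2 ^ 2 ^ Js := by
    have h1 : (N : ℝ) ≤ K := by linarith
    have h2 : N ≤ K := by exact_mod_cast h1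
    exact h2.trans k9
  have hHr' : ((((K - 2) / 2 - 1 : ℕ)) : ℝ) ≤ K := by
    have : (K - 2) / 2 - 1 ≤ K := by omega
    exact_mod_cast this
  have hy2 : 2 * b * y ^ C₀ * (5 * ((2 * Ny + 1 : ℕ) : ℝ)) ≤ 1 := by
    have h1 : (5 * ((2 * Ny + 1 : ℕ) : ℝ)) ≤ K := by
      have h2 : 5 * (2 * Ny + 1) ≤ K := by
        have h3 : 1 * (5 * (2 * Ny + 1)) ≤ C₀ * (5 * (2 * Ny + 1)) := Nat.mul_le_mul_right _ hC₀1
        omega
      exact_mod_cast h2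
    have h5 : (K : ℝ) ^ 2 ≤ (K : ℝ) ^ E := pow_le_pow_right₀ (by linarith) (by omega)
    calc 2 * b * y ^ C₀ * (5 * ((2 * Ny + 1 : ℕ) : ℝ)) ≤ 2 * b * (1 / (K : ℝ) ^ E) * K := by gcongr
      _ ≤ 2 * b * (1 / (K : ℝ) ^ 2) * K := by gcongr
      _ = 2 * b / (K : ℝ) := by field_simp
      _ ≤ 1 := by
          rw [div_le_one (by positivity)]
          linarith
  have hJsK : (Js : ℝ) + 2 ≤ K := by
    have h1 : Js < 2 ^ Js := Nat.lt_two_pow_self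
    have h2 : 2 * 2 ^ Js ≤ K := by
      refine le_trans ?_ k8
      exact Nat.mul_le_mul_right _ (by omega : 2 ≤ M₁)
    have : Js + 2 ≤ K := by omega
    exact_mod_cast this
  have h2JsK : (2 : ℝ) ^ Js ≤ K := by
    have h2 : 1 * 2 ^ Js ≤ K := le_trans (Nat.mul_le_mul_right _ hM1) k8
    rw [one_mul] at h2
    exact_mod_cast h2
  have hHSK : hs (2 ^ (C * (C * (κ + 1)) * 2 ^ Js)) ≤ 2 * K := by
    refine (hs_le _).trans ?_
    have h3 : C * (C * (κ + 1)) * 2 ^ Js ≤ K := le_trans (Nat.mul_le_mul_right _ hM2C) k8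
    have h4 : ((C * (C * (κ + 1)) * 2 ^ Js : ℕ) : ℝ) ≤ K := by exact_mod_cast h3
    linarith
  have hcopR : ∀ f : ℕ, Nat.Coprime f (b * U.natAbs) → IsCoprime (f : ℤ) ((b : ℤ) * U) := by
    intro f hf
    rw [Int.isCoprime_iff_gcd_eq_one, Int.gcd, hbU]
    exact hf
  have hmain := hsieve κ b K ((K - 2) / 2) M 1 Js N n₀ D (PP N Js) Z hb hM0 (by omega) (by omega) one_pos
    (by omega) (fun p hp => (mem_PP N Js p).1 hp) (by
      intro p hp hpd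
      obtain ⟨hp1, hp2, hp3⟩ := (mem_PP N Js p).1 hp
      rw [mul_one] at hpd
      rw [hM] at hpd
      have := Nat.le_of_dvd one_pos hpd
      have := hp1.two_le
      omega) (by
      intro p hp
      obtain ⟨hp1, hp2, hp3⟩ := (mem_PP N Js p).1 hp
      exact hZ p hp1 hp2) hpos s₀
  rw [mul_one] at hmain
  have htot := total b hb y hy0 hy1.le U (K - 1 - (K - 2) / 2) ((K - 2) / 2 - 1) 1 (2 * Ny + 1)
    (C * (C * (κ + 1)) * 2 ^ Js + 1) C₀ C₁ (2 ^ (C * (C * (κ + 1)) * 2 ^ Js)) (by omega) hC₀1 (by omega) k6 hV1 hy2 hy3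
    one_pos (Nat.one_lt_pow (by omega) (by omega)) (by apply Nat.pow_lt_pow_right <;> omega) (wk κ) (wk_nonneg κ)
    (wk_mul κ hF) A₀ hA₀ hwk
    (((PP N Js).powerset.image (fun T => ∏ p ∈ T, p)).filter
        (fun f => f ≤ (2 ^ 2 ^ Js) ^ (C * (C * (κ + 1))))) (by
        intro f hf
        rw [mem_filter, mem_image] at hf
        obtain ⟨⟨T', hT', rfl⟩, hf2⟩ := hf
        rw [mem_powerset] at hT'
        refine ⟨prod_pos fun p hp => ((mem_PP N Js p).1 (hT' hp)).1.pos, ?_, ?_⟩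
        · refine hf2.trans (le_of_eq ?_)
          rw [← pow_mul, mul_comm]
        · apply hcopR
          apply Nat.Coprime.prod_left
          intro p hp
          obtain ⟨hp1, hp2, hp3⟩ := (mem_PP N Js p).1 (hT' hp)
          rw [Nat.Prime.coprime_iff_not_dvd hp1]
          intro h3
          have := Nat.le_of_dvd hbU0 h3
          omega) (by push_cast; exact isCoprime_one_left)
  set A : ℝ := cnt (Icc 1 ((K - 2) / 2)).powerset (vv b K n₀ D) M s₀ with hA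
  have hA0 : 0 ≤ A := cnt_nonneg _ _ _ _
  have hAval : A = 2 ^ ((K - 2) / 2) := by
    rw [hA, hM]
    unfold cnt
    rw [filter_true_of_mem (fun S _ => by simp), card_powerset, Nat.card_Icc]
    push_cast
    congr 1
  set G' := (((Icc 1 ((K - 2) / 2)).powerset.filter (fun S => ((M : ℕ) : ℤ) ∣ vv b K n₀ D S - s₀)).filter
      (fun S => ∀ p ∈ PP N Js, ¬ ∃ z ∈ Z p, (p : ℤ) ∣ vv b K n₀ D S - z)) with hG'
  have hsub : G ⊆ G' := by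
    intro S hS
    rw [hG', mem_filter, mem_filter]
    refine ⟨⟨hG hS, by rw [hM]; simp⟩, ?_⟩
    intro p hp hz
    obtain ⟨hp1, hp2, hp3⟩ := (mem_PP N Js p).1 hp
    refine hGp S hS p hp1 hp2 ?_ hz
    calc p ^ M₁ ≤ (2 ^ 2 ^ Js) ^ M₁ := Nat.pow_le_pow_left hp3 _
      _ = 2 ^ (M₁ * 2 ^ Js) := by rw [← pow_mul, mul_comm]
      _ ≤ 2 ^ K := Nat.pow_le_pow_right (by norm_num) k8
  set W : ℝ := ∏ p ∈ PP N Js, (1 - ((Z p).card : ℝ) / (p : ℝ)) with hW'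
  have hX0 : (0 : ℝ) < X := by linarith
  have hWle : W ≤ c₂ * X * (2 * M₁) ^ k / (K : ℝ) ^ k := by
    have h1 := hW Js hNJ k9
    refine h1.trans ?_
    rw [div_le_div_iff₀ (by positivity) (by positivity)]
    have h4 : (K : ℝ) ≤ 2 * M₁ * 2 ^ Js := by
      have h5 : (K : ℝ) ≤ M₁ * (2 ^ Js * 2) := by
        rw [← pow_succ]
        exact_mod_cast k7.le
      linarith
    calc c₂ * X * (K : ℝ) ^ k ≤ c₂ * X * (2 * M₁ * 2 ^ Js) ^ k := by gcongr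
      _ = _ := by rw [mul_pow]; ring
  have hW0 : 0 ≤ W := by
    rw [hW']
    apply Finset.prod_nonneg
    intro p hp
    obtain ⟨hp1, hp2, hp3⟩ := (mem_PP N Js p).1 hp
    have hp0 : (0 : ℝ) < p := by exact_mod_cast hp1.pos
    have h3 : (Z p).card ≤ p := by
      have := card_le_card (hZ p hp1 hp2).1
      rwa [card_range] at this
    have h4 : ((Z p).card : ℝ) / p ≤ 1 := by
      rw [div_le_one hp0]
      exact_mod_cast h3
    linarith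
  set Er : ℝ := ((Js : ℝ) + 2) * (2 ^ ((K - 2) / 2) / ((1 : ℕ) : ℝ) * ∑ f ∈ (((PP N Js).powerset.image (fun T => ∏ p ∈ T, p)).filter
        (fun f => f ≤ (2 ^ 2 ^ Js) ^ (C * (C * (κ + 1))))), wk κ f / f *
          GG b y (((b : ℤ) ^ 2 - 1) * D) (K - 1 - (K - 2) / 2) ((K - 2) / 2 - 1) 1 f) with hEr
  have hErle : Er ≤ 2 ^ ((K - 2) / 2) * (T₀ / (K : ℝ) ^ (κ + 1)) := by
    have h1 : Er ≤ K * (2 ^ ((K - 2) / 2) * ((2 * K) ^ κ * (A₀ * (K * (12 * b * (1 / (K : ℝ) ^ E) + 6 * (1 / (K : ℝ) ^ E)))))) := by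
      rw [hEr, Nat.cast_one, div_one, ← hU]
      have h2 : ∑ t ∈ Icc 1 (2 ^ (C * (C * (κ + 1)) * 2 ^ Js)), wk κ t / t ≤ (2 * K) ^ κ := by
        refine (wk_sum κ _).trans ?_
        exact pow_le_pow_left₀ (hs_nonneg _) hHSK κ
      have h3 : (0 : ℝ) ≤ ∑ t ∈ Icc 1 (2 ^ (C * (C * (κ + 1)) * 2 ^ Js)), wk κ t / t :=
        sum_nonneg fun t _ => div_nonneg (wk_nonneg κ t) (Nat.cast_nonneg _)
      have h4 : (((((K - 2) / 2 - 1 : ℕ)) : ℝ)) * (12 * b * y ^ C₀ + 6 * (5 / 6) ^ (2 * Ny + 1)) ≤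
          K * (12 * b * (1 / (K : ℝ) ^ E) + 6 * (1 / (K : ℝ) ^ E)) := by gcongr
      have h5 : (0 : ℝ) ≤ (((((K - 2) / 2 - 1 : ℕ)) : ℝ)) * (12 * b * y ^ C₀ + 6 * (5 / 6) ^ (2 * Ny + 1)) := by
        positivity
      apply mul_le_mul hJsK _ _ hK0.le
      · apply mul_le_mul_of_nonneg_left _ (by positivity)
        refine htot.trans ?_
        apply mul_le_mul h2 _ _ (by positivity)
        · exact mul_le_mul_of_nonneg_left h4 hA₀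
        · exact mul_nonneg hA₀ h5
      · apply mul_nonneg (by positivity)
        exact sum_nonneg fun f _ => mul_nonneg (div_nonneg (wk_nonneg κ f) (Nat.cast_nonneg _))
          (GG_nonneg _ _ hy0.le _ _ _ _ _)
    refine h1.trans (le_of_eq ?_)
    rw [hT₀, hE, mul_pow]
    field_simp
    ring
  have h1 := (abs_le.1 hmain).2
  have h5 : ((((((Icc 1 ((K - 2) / 2)).powerset.filter (fun S => ((M : ℕ) : ℤ) ∣ vv b K n₀ D S - s₀)).filter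
      (fun S => ∀ p ∈ PP N Js, ¬ ∃ z ∈ Z p, (p : ℤ) ∣ vv b K n₀ D S - z))).card : ℝ)) ≤ 3 / 2 * (A * W) + Er := by
    have h6 : 3 / 2 * (A * W) + Er = 1 / 2 * (A * W) + Er + A * W := by ring
    rw [h6]
    have h7 := h1
    rw [sub_le_iff_le_add] at h7
    refine le_trans (le_of_eq ?_) h7
    congr!
  rw [← hG'] at h5
  have h6 : (G.card : ℝ) ≤ G'.card := by exact_mod_cast card_le_card hsub
  have h7 : 3 / 2 * (A * W) ≤ 2 ^ ((K - 2) / 2) * (2 * c₂ * (2 * M₁) ^ k * X / (K : ℝ) ^ k) := by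
    rw [hAval]
    calc 3 / 2 * ((2 : ℝ) ^ ((K - 2) / 2) * W) ≤ 2 * (2 ^ ((K - 2) / 2) * W) := by
          have : 0 ≤ (2 : ℝ) ^ ((K - 2) / 2) * W := by positivity
          linarith
      _ ≤ 2 * (2 ^ ((K - 2) / 2) * (c₂ * X * (2 * M₁) ^ k / (K : ℝ) ^ k)) := by gcongr
      _ = _ := by ring
  have h8 : (2 : ℝ) ^ ((K - 2) / 2) * (T₀ / (K : ℝ) ^ (κ + 1)) ≤ 2 ^ ((K - 2) / 2) * ((T₀ + 1) * X / (K : ℝ) ^ k) := by
    apply mul_le_mul_of_nonneg_left _ (by positivity)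
    apply div_le_div₀ (by positivity)
    · nlinarith
    · positivity
    · exact pow_le_pow_right₀ (by linarith) (by omega)
  calc (G.card : ℝ) ≤ 3 / 2 * (A * W) + Er := h6.trans h5
    _ ≤ 2 ^ ((K - 2) / 2) * (2 * c₂ * (2 * M₁) ^ k * X / (K : ℝ) ^ k) +
        2 ^ ((K - 2) / 2) * ((T₀ + 1) * X / (K : ℝ) ^ k) := add_le_add h7 (hErle.trans h8)
    _ = (2 * c₂ * (2 * M₁) ^ k + T₀ + 1) * X * 2 ^ ((K - 2) / 2) / (K : ℝ) ^ k := by ring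

end Pool.Agent.Run7.h620.PD
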