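import Pool.Agent.Run7.h620.PD.Alm2
import Pool.Agent.Run7.h620.PD.Up2
import Pool.Agent.Run7.h620.PD.Gc2
import Pool.Agent.Run7.h620.PD.AlmP
import Pool.Agent.Run7.h620.PD.Spl

set_option autoImplicit false

/-! Palindromes with two digits: sieve results, uniform in the removed classes. -/

namespace Pool.Agent.Run7.h620.PD

open Finset Polynomial Filter

/-- a palindrome with `K` digits, all of them `e` or `f` -/
def IsPal (b e f K n : ℕ) : Prop :=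
  (Nat.digits b n).length = K ∧ (Nat.digits b n).reverse = Nat.digits b n ∧ ∀ d ∈ Nat.digits b n, d = e ∨ d = f

/-- the constant term of the family with leading digit `e` -/
noncomputable def n0 (b K e : ℕ) : ℤ := (e : ℤ) * ∑ j ∈ range K, (b : ℤ) ^ j

theorem pal_low (b : ℕ) (hb : 2 ≤ b) (e f : ℕ) (he : e < b) (hf : f < b) (he0 : e ≠ 0) (hef : f ≠ e)
    (κ k : ℕ) (hκ : 1 ≤ κ) (hkκ : k ≤ κ) :
    ∃ N₀ : ℕ, 3 ≤ N₀ ∧ 2 * κ ≤ N₀ ∧ ∀ N : ℕ, N₀ ≤ N → ∀ M : ℕ, 0 < M → (∀ p : ℕ, p.Prime → p ∣ M → p ≤ N) →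
      ∀ c₁ : ℝ, 0 < c₁ → ∃ c : ℝ, 0 < c ∧ ∃ M' : ℕ, 2 ≤ M' ∧ ∀ᶠ K : ℕ in atTop, ∀ (X : ℝ) (Z : ℕ → Finset ℕ), 1 ≤ X →
      (∀ p : ℕ, p.Prime → N < p → Z p ⊆ range p ∧ (Z p).card ≤ κ) →
      (∀ J : ℕ, N ≤ 2 ^ 2 ^ J → K ≤ 2 ^ 2 ^ J → c₁ * X / (2 ^ J) ^ k ≤ ∏ p ∈ PP N J, (1 - ((Z p).card : ℝ) / (p : ℝ))) →
      ∀ s₀ : ℤ, (2 : ℝ) ^ ((K - 2) / 2) / (2 * M) ≤ cnt (Icc 1 ((K - 2) / 2)).powerset (vv b K (n0 b K e) ((f : ℤ) - e)) M s₀ →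
      ∃ P : Finset ℕ, c * X * (2 : ℝ) ^ ((K : ℝ) / 2) / (K : ℝ) ^ k ≤ P.card ∧
        ∀ n ∈ P, n < b ^ K ∧ 1 ≤ n ∧ IsPal b e f K n ∧ ((M : ℕ) : ℤ) ∣ (n : ℤ) - s₀ ∧
          ∀ p : ℕ, p.Prime → N < p → p ^ M' ≤ 2 ^ K → ¬ ∃ z ∈ Z p, (p : ℤ) ∣ (n : ℤ) - z := by
  classical
  have hD : ((f : ℤ) - e) ≠ 0 := by omega
  obtain ⟨N₀, hN₀, hN₀', h⟩ := almost2 b hb ((f : ℤ) - e) hD κ k hκ hkκ
  refine ⟨N₀, hN₀, hN₀', fun N hN M hM hMp c₁ hc₁ => ?_⟩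
  obtain ⟨c, hc, M', hM', hev⟩ := h N hN M hM hMp c₁ hc₁
  refine ⟨c / 4, by positivity, M', hM', ?_⟩
  filter_upwards [hev, eventually_ge_atTop 12] with K hK hKB X Z hX hZ hW s₀ hs₀
  have hHK : 2 * ((K - 2) / 2) + 2 ≤ K := by omega
  have hnneq : ∀ S ∈ (Icc 1 ((K - 2) / 2)).powerset, ((nn b K e f S : ℕ) : ℤ) =
      vv b K (n0 b K e) ((f : ℤ) - e) S :=
    fun S hS => nn_eq b K e f ((K - 2) / 2) hHK S (mem_powerset.1 hS)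
  obtain ⟨G, hG1, hG2, hG3⟩ := hK X (n0 b K e) Z hX hZ hW (by
    intro S hS
    rw [← hnneq S hS]
    exact Int.natCast_nonneg _) s₀ hs₀
  refine ⟨G.image (fun S => nn b K e f S), ?_, ?_⟩
  · rw [card_image_of_injOn]
    · refine le_trans ?_ hG2
      have h1 : (2 : ℝ) ^ ((K : ℝ) / 2) ≤ 4 * 2 ^ ((K - 2) / 2) := by
        have h2 : (4 : ℝ) * 2 ^ ((K - 2) / 2) = 2 ^ ((K - 2) / 2 + 2) := by rw [pow_add]; ring
        rw [h2, ← Real.rpow_natCast]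
        apply Real.rpow_le_rpow_of_exponent_le (by norm_num)
        have : K ≤ 2 * ((K - 2) / 2 + 2) := by omega
        have : (K : ℝ) ≤ 2 * (((K - 2) / 2 + 2 : ℕ) : ℝ) := by exact_mod_cast this
        linarith
      have hX0 : (0 : ℝ) < X := by linarith
      apply div_le_div_of_nonneg_right _ (by positivity)
      calc c / 4 * X * (2 : ℝ) ^ ((K : ℝ) / 2) ≤ c / 4 * X * (4 * 2 ^ ((K - 2) / 2)) := by gcongr
        _ = _ := by ring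
    · intro S hS S' hS' h
      exact nn_inj b K e f hb he hf he0 hef ((K - 2) / 2) hHK S S' (mem_powerset.1 (hG1 hS))
        (mem_powerset.1 (hG1 hS')) h
  · intro n hn
    rw [mem_image] at hn
    obtain ⟨S, hS, rfl⟩ := hn
    have hS' : S ⊆ Icc 1 ((K - 2) / 2) := mem_powerset.1 (hG1 hS)
    obtain ⟨h1, h2, h3, h4, h5⟩ := nn_props b K e f hb he hf he0 (by omega) S hS'
    obtain ⟨g1, g2⟩ := hG3 S hS
    rw [hnneq S (hG1 hS)]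
    exact ⟨h1, h2, ⟨h3, h4, h5⟩, g1, g2⟩

/-- values of polynomials from below: the right power of `K` -/
theorem poly_low (b : ℕ) (hb : 2 ≤ b) (e f : ℕ) (he : e < b) (hf : f < b) (he0 : e ≠ 0) (hef : f ≠ e)
    (F : ℤ[X]) (hF : 1 ≤ F.natDegree) (k : ℕ) (hk : k ≤ F.natDegree) (hM : MertF F k) :
    ∃ c : ℝ, 0 < c ∧ ∃ r : ℕ, ∀ᶠ K : ℕ in atTop, ∃ P : Finset ℕ,
      c * (2 : ℝ) ^ ((K : ℝ) / 2) / (K : ℝ) ^ k ≤ P.card ∧
        ∀ n ∈ P, n < b ^ K ∧ IsPal b e f K n ∧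
          F.eval (n : ℤ) ≠ 0 ∧ ArithmeticFunction.cardFactors (F.eval (n : ℤ)).natAbs ≤ r := by
  classical
  have hD : ((f : ℤ) - e) ≠ 0 := by omega
  have hF0 : F ≠ 0 := by
    rintro rfl
    rw [natDegree_zero] at hF
    omega
  have hlc0 : F.leadingCoeff ≠ 0 := leadingCoeff_ne_zero.2 hF0
  obtain ⟨N₀, hN₀, hN₀', h⟩ := pal_low b hb e f he hf he0 hef F.natDegree k hF hk
  obtain ⟨c₁, hc₁, hml⟩ := hM.low
  obtain ⟨N, hN⟩ : ∃ N : ℕ, N = N₀ + F.leadingCoeff.natAbs := ⟨_, rfl⟩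
  obtain ⟨M, V, hM0, hMp, hMV, hgood⟩ := good_class b hb ((f : ℤ) - e) hD F hF0 N
  obtain ⟨c, hc, M', hM', hev⟩ := h N (by omega) M hM0 hMp c₁ hc₁
  set Bf : ℕ := (∑ i ∈ range (F.natDegree + 1), |F.coeff i|).natAbs with hBf
  refine ⟨c, hc, N * V + (b * (F.natDegree + 1)) * M', ?_⟩
  filter_upwards [hev, hgood, eventually_ge_atTop (Bf + 12)] with K hK hgK hKB
  obtain ⟨s₀, hs₀, hs₀'⟩ := hgK (n0 b K e)
  have hlcp : ∀ p : ℕ, p.Prime → N < p → ¬ (p : ℤ) ∣ F.leadingCoeff := by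
    intro p hp hpN hdvd
    have h1 : p ∣ F.leadingCoeff.natAbs := Int.natCast_dvd.1 hdvd
    have := Nat.le_of_dvd (Int.natAbs_pos.2 hlc0) h1
    omega
  obtain ⟨P, hP1, hP2⟩ := hK 1 (Zr F) le_rfl (fun p hp hpN => ⟨filter_subset _ _, Zr_card F p hp (hlcp p hp hpN)⟩)
    (by
      intro J hJ _
      rw [mul_one]
      exact hml N J (by omega) (by omega) (by omega) hF0 hJ) s₀ hs₀
  rw [mul_one] at hP1
  refine ⟨P, hP1, fun n hn => ?_⟩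
  obtain ⟨h1, h2, h3, h4, h5⟩ := hP2 n hn
  have h6 : ∀ p : ℕ, p.Prime → p ≤ N → ¬ p ^ V ∣ (F.eval (n : ℤ)).natAbs := by
    intro p hp hpN hdvd
    apply hs₀' p hp hpN
    have g1 : ((p ^ V : ℕ) : ℤ) ∣ (n : ℤ) - s₀ := by
      refine dvd_trans ?_ h4
      exact_mod_cast hMV p hp hpN
    have g2 : (n : ℤ) - s₀ ∣ F.eval (n : ℤ) - F.eval s₀ := sub_dvd_eval_sub _ _ _
    have g3 := dvd_sub (Int.natCast_dvd.2 hdvd) (g1.trans g2)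
    rwa [sub_sub_cancel] at g3
  have h7 : ∀ p : ℕ, p.Prime → N < p → p ^ M' ≤ 2 ^ K → ¬ p ∣ (F.eval (n : ℤ)).natAbs := by
    intro p hp hpN hpK hdvd
    exact h5 p hp hpN hpK (Zr_of_dvd F p hp.pos _ (Int.natCast_dvd.2 hdvd))
  have h8 : F.eval (n : ℤ) ≠ 0 := by
    intro h0
    apply h6 2 Nat.prime_two (by omega)
    rw [h0]
    simp
  refine ⟨h1, h3, h8, ?_⟩
  apply omega_bound _ N V M' K (b * (F.natDegree + 1)) (Int.natAbs_ne_zero.2 h8) h6 h7 (by omega)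
  have h10 := eval_bound F (n : ℤ) (by exact_mod_cast h2)
  have h11 : (F.eval (n : ℤ)).natAbs ≤ Bf * n ^ F.natDegree := by
    zify
    refine h10.trans ?_
    rw [hBf, Int.natCast_natAbs]
    apply mul_le_mul_of_nonneg_right (le_abs_self _) (by positivity)
  calc (F.eval (n : ℤ)).natAbs ≤ Bf * n ^ F.natDegree := h11
    _ ≤ b ^ K * (b ^ K) ^ F.natDegree := by
        apply Nat.mul_le_mul
        · calc Bf ≤ K := by omega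
            _ ≤ 2 ^ K := (Nat.lt_two_pow_self).le
            _ ≤ b ^ K := Nat.pow_le_pow_left hb K
        · exact Nat.pow_le_pow_left h1.le _
    _ = b ^ (K * (F.natDegree + 1)) := by
        rw [← pow_succ', ← pow_mul]
    _ ≤ (2 ^ b) ^ (K * (F.natDegree + 1)) := Nat.pow_le_pow_left (Nat.lt_two_pow_self).le _
    _ = 2 ^ (K * (b * (F.natDegree + 1))) := by
        rw [← pow_mul]
        congr 1
        ring

open Classical in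
/-- upper bounds for palindromes with two digits, uniform in the removed classes -/
theorem pal_up (b : ℕ) (hb : 2 ≤ b) (e f : ℕ) (hef : f ≠ e) (κ k : ℕ) (hκ : 1 ≤ κ) (hkκ : k ≤ κ) :
    ∃ N₀ : ℕ, 3 ≤ N₀ ∧ ∀ N : ℕ, N₀ ≤ N → ∀ c₂ : ℝ, 0 < c₂ → ∃ c : ℝ, 0 < c ∧ ∃ M' : ℕ, 3 ≤ M' ∧
      ∀ᶠ K : ℕ in atTop, ∀ (X : ℝ) (Z : ℕ → Finset ℕ), 1 ≤ X →
      (∀ p : ℕ, p.Prime → N < p → Z p ⊆ range p ∧ (Z p).card ≤ κ) →
      (∀ J : ℕ, N ≤ 2 ^ 2 ^ J → K ≤ 2 ^ 2 ^ J → ∏ p ∈ PP N J, (1 - ((Z p).card : ℝ) / (p : ℝ)) ≤ c₂ * X / (2 ^ J) ^ k) →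
      ∀ P : Finset ℕ, (∀ n ∈ P, IsPal b e f K n ∧ ∀ p : ℕ, p.Prime → N < p → p ^ M' ≤ 2 ^ K →
        ¬ ∃ z ∈ Z p, (p : ℤ) ∣ (n : ℤ) - z) →
      (P.card : ℝ) ≤ c * X * (2 : ℝ) ^ ((K : ℝ) / 2) / (K : ℝ) ^ k := by
  have hD : ((f : ℤ) - e) ≠ 0 := by omega
  obtain ⟨N₀, hN₀, h⟩ := upper2 b hb ((f : ℤ) - e) hD κ k hκ hkκ
  refine ⟨N₀, hN₀, fun N hN c₂ hc₂ => ?_⟩
  obtain ⟨c, hc, M', hM', hev⟩ := h N hN c₂ hc₂
  refine ⟨8 * c, by positivity, M', hM', ?_⟩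
  filter_upwards [hev, eventually_ge_atTop 12] with K hK hK12 X Z hX hZ hW P hP
  set H := (K - 2) / 2 with hH
  set GT : Finset ℕ → Finset (Finset ℕ) := fun T₀ => (Icc 1 H).powerset.filter (fun S =>
    ∀ p : ℕ, p.Prime → N < p → p ^ M' ≤ 2 ^ K → ¬ ∃ z ∈ Z p, (p : ℤ) ∣ vv b K (cT b K e f T₀) ((f : ℤ) - e) S - z) with hGT
  have hX0 : (0 : ℝ) < X := by linarith
  have h1 : ∀ T₀ ∈ (Mid K).powerset, ((GT T₀).card : ℝ) ≤ c * X * 2 ^ H / (K : ℝ) ^ k := by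
    intro T₀ hT₀
    rw [mem_powerset] at hT₀
    apply hK X (cT b K e f T₀) Z hX hZ hW
    · intro S hS
      rw [mem_powerset] at hS
      rw [vv_cT b K e f T₀ S hT₀ hS]
      exact cT_nonneg b K e f _ (union_sub K T₀ S hT₀ hS)
    · exact filter_subset _ _
    · intro S hS
      exact (mem_filter.1 hS).2
  have h2 : P ⊆ (Mid K).powerset.biUnion (fun T₀ => (GT T₀).image (fun S => (vv b K (cT b K e f T₀) ((f : ℤ) - e) S).toNat)) := by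
    intro n hn
    obtain ⟨⟨g1, g2, g3⟩, g4⟩ := hP n hn
    obtain ⟨T₀, hT₀, S, hS, hnS⟩ := exists_S b K e f n g1 g2 g3
    rw [mem_biUnion]
    refine ⟨T₀, hT₀, ?_⟩
    rw [mem_image]
    refine ⟨S, ?_, ?_⟩
    · rw [hGT, mem_filter]
      refine ⟨hS, ?_⟩
      rw [← hnS]
      exact g4
    · rw [← hnS]
      rfl
  have h3 : (P.card : ℝ) ≤ ∑ T₀ ∈ (Mid K).powerset, ((GT T₀).card : ℝ) := by
    have h4 : P.card ≤ ∑ T₀ ∈ (Mid K).powerset, (GT T₀).card := by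
      refine (card_le_card h2).trans (card_biUnion_le.trans ?_)
      exact sum_le_sum fun T₀ _ => card_image_le
    exact_mod_cast h4
  have h5 : (((Mid K).powerset.card : ℕ) : ℝ) ≤ 8 := by
    rw [card_powerset]
    have : 2 ^ (Mid K).card ≤ 2 ^ 3 := Nat.pow_le_pow_right (by norm_num) (Mid_card K (by omega))
    exact_mod_cast this
  have h6 : (2 : ℝ) ^ H ≤ (2 : ℝ) ^ ((K : ℝ) / 2) := by
    rw [← Real.rpow_natCast]
    apply Real.rpow_le_rpow_of_exponent_le (by norm_num)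
    have : 2 * H ≤ K := by omega
    have : (2 * H : ℝ) ≤ K := by exact_mod_cast this
    linarith
  calc (P.card : ℝ) ≤ ∑ T₀ ∈ (Mid K).powerset, ((GT T₀).card : ℝ) := h3
    _ ≤ ∑ _T₀ ∈ (Mid K).powerset, (c * X * 2 ^ H / (K : ℝ) ^ k) := sum_le_sum h1
    _ = ((Mid K).powerset.card : ℝ) * (c * X * 2 ^ H / (K : ℝ) ^ k) := by rw [sum_const, nsmul_eq_mul]
    _ ≤ 8 * (c * X * (2 : ℝ) ^ ((K : ℝ) / 2) / (K : ℝ) ^ k) := by gcongr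
    _ = _ := by ring

/-- values of polynomials without small prime factors, from above -/
theorem poly_up (b : ℕ) (hb : 2 ≤ b) (e f : ℕ) (hef : f ≠ e)
    (F : ℤ[X]) (hF : 1 ≤ F.natDegree) (k : ℕ) (hk : k ≤ F.natDegree) (hM : MertF F k) :
    ∃ c : ℝ, 0 < c ∧ ∃ N M' : ℕ, 2 ≤ M' ∧ ∀ᶠ K : ℕ in atTop, ∀ P : Finset ℕ,
      (∀ n ∈ P, IsPal b e f K n ∧
        ∀ p : ℕ, p.Prime → N < p → p ^ M' ≤ 2 ^ K → ¬ (p : ℤ) ∣ F.eval (n : ℤ)) →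
      (P.card : ℝ) ≤ c * (2 : ℝ) ^ ((K : ℝ) / 2) / (K : ℝ) ^ k := by
  have hF0 : F ≠ 0 := by
    rintro rfl
    rw [natDegree_zero] at hF
    omega
  have hlc0 : F.leadingCoeff ≠ 0 := leadingCoeff_ne_zero.2 hF0
  obtain ⟨N₀, hN₀, h⟩ := pal_up b hb e f hef F.natDegree k hF hk
  obtain ⟨N, hN⟩ : ∃ N : ℕ, N = N₀ + F.leadingCoeff.natAbs := ⟨_, rfl⟩
  obtain ⟨c₂, hc₂, hml⟩ := hM.up N (by omega)
  obtain ⟨c, hc, M', hM', hev⟩ := h N (by omega) c₂ hc₂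
  have hlcp : ∀ p : ℕ, p.Prime → N < p → ¬ (p : ℤ) ∣ F.leadingCoeff := by
    intro p hp hpN hdvd
    have h1 : p ∣ F.leadingCoeff.natAbs := Int.natCast_dvd.1 hdvd
    have := Nat.le_of_dvd (Int.natAbs_pos.2 hlc0) h1
    omega
  refine ⟨c, hc, N, M', by omega, ?_⟩
  filter_upwards [hev] with K hK P hP
  have h1 := hK 1 (Zr F) le_rfl (fun p hp hpN => ⟨filter_subset _ _, Zr_card F p hp (hlcp p hp hpN)⟩)
    (by
      intro J hJ _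
      rw [mul_one]
      exact hml J hJ) P (fun n hn => ⟨(hP n hn).1, fun p hp hpN hpK hz => (hP n hn).2 p hp hpN hpK (Zr_dvd F p _ hz)⟩)
  rwa [mul_one] at h1

end Pool.Agent.Run7.h620.PD
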