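import Pool.Agent.Run7.h620.PD.Cm
import Pool.Agent.Run7.h620.PD.Zq
import Pool.Agent.Run7.h620.PD.Pal2

set_option autoImplicit false

/-! Palindromes with two digits in residue classes to large moduli: almost primes and primes. -/

namespace Pool.Agent.Run7.h620.PD

open Finset Polynomial Filter

lemma ev_pow (η : ℝ) : ∀ᶠ K : ℕ in atTop, Real.exp (η * K / Real.log K) ≤ 2 ^ K := by
  have hc := tendsto_natCast_atTop_atTop (R := ℝ)
  have hl := Real.tendsto_log_atTop.comp hc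
  have hl2 : 0 < Real.log 2 := Real.log_pos (by norm_num)
  filter_upwards [hl.eventually_ge_atTop (|η| / Real.log 2 + 1), eventually_ge_atTop 1] with K hK hK1
  simp only [Function.comp_apply] at hK
  have hKr : (0 : ℝ) < K := by exact_mod_cast hK1
  have h0 : 0 ≤ |η| / Real.log 2 := by positivity
  have hlK : 0 < Real.log K := by linarith
  have h1 : (2 : ℝ) ^ K = Real.exp (K * Real.log 2) := by
    rw [Real.exp_nat_mul, Real.exp_log (by norm_num)]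
  rw [h1]
  apply Real.exp_le_exp.2
  rw [div_le_iff₀ hlK]
  have h2 : |η| ≤ Real.log K * Real.log 2 := by
    have h3 : |η| / Real.log 2 ≤ Real.log K := by linarith
    rwa [div_le_iff₀ hl2] at h3
  calc η * K ≤ |η| * K := mul_le_mul_of_nonneg_right (le_abs_self η) hKr.le
    _ ≤ (Real.log K * Real.log 2) * K := mul_le_mul_of_nonneg_right h2 hKr.le
    _ = _ := by ring

lemma cnt_mono_dvd {ι : Type*} (s : Finset ι) (v : ι → ℤ) (q q' : ℕ) (h : q ∣ q') (r : ℤ) :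
    cnt s v q' r ≤ cnt s v q r := by
  classical
  unfold cnt
  have : (s.filter (fun i => (q' : ℤ) ∣ v i - r)) ⊆ (s.filter (fun i => (q : ℤ) ∣ v i - r)) := by
    intro i hi
    rw [mem_filter] at hi ⊢
    exact ⟨hi.1, dvd_trans (by exact_mod_cast h) hi.2⟩
  exact_mod_cast card_le_card this

/-- almost primes in residue classes to large moduli, from below -/
theorem class_low (b : ℕ) (hb : 2 ≤ b) (e f : ℕ) (he : e < b) (hf : f < b) (he0 : e ≠ 0) (hef : f ≠ e) :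
    ∃ c : ℝ, 0 < c ∧ ∃ η : ℝ, 0 < η ∧ ∃ r : ℕ, ∀ᶠ K : ℕ in atTop, ∀ (q : ℕ) (a : ℤ), 0 < q →
      (q : ℝ) ≤ Real.exp (η * K / Real.log K) →
      IsCoprime (q : ℤ) ((b : ℤ) * (((b : ℤ) ^ 2 - 1) * ((f : ℤ) - e))) → IsCoprime a (q : ℤ) →
      ∃ P : Finset ℕ, c * (2 : ℝ) ^ ((K : ℝ) / 2) / (Nat.totient q * K) ≤ P.card ∧
        ∀ n ∈ P, n < b ^ K ∧ IsPal b e f K n ∧ (q : ℤ) ∣ (n : ℤ) - a ∧ ArithmeticFunction.cardFactors n ≤ r := by
  classical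
  have hD : ((f : ℤ) - e) ≠ 0 := by omega
  obtain ⟨N, hN3, hN2, hcore⟩ := core3 b hb ((f : ℤ) - e) hD 1 le_rfl
  obtain ⟨Mf, m, hMf0, hMfp, hMfm, hgood⟩ := good_class2 b hb ((f : ℤ) - e) hD N 1
  have hMfr : (0 : ℝ) < Mf := by exact_mod_cast hMf0
  obtain ⟨c₁, hc₁, hWlow⟩ := Wq_low N hN3
  set Ps := (Icc 1 N).filter Nat.Prime with hPs
  set g : Finset ℕ → ℕ := fun Q => ∏ p ∈ Q, p ^ m with hg
  have hgp : ∀ Q ⊆ Ps, 0 < g Q := fun Q hQ => prod_pos fun p hp => Nat.pow_pos (mem_filter.1 (hQ hp)).2.pos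
  have hgN : ∀ Q ⊆ Ps, ∀ p : ℕ, p.Prime → p ∣ g Q → p ∈ Q := by
    intro Q hQ p hp hpM
    rw [hg, Prime.dvd_finsetProd_iff hp.prime] at hpM
    obtain ⟨q, hq, hpq⟩ := hpM
    have hq' := mem_filter.1 (hQ hq)
    have := (Nat.prime_dvd_prime_iff_eq hp hq'.2).1 (hp.dvd_of_dvd_pow hpq)
    rwa [this]
  have hgdvd : ∀ Q ⊆ Ps, g Q ∣ Mf := by
    intro Q hQ
    have h1 : ((∏ p ∈ Q, ((p ^ m : ℕ) : ℤ)) : ℤ) ∣ (Mf : ℤ) := by
      apply Finset.prod_dvd_of_coprime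
      · intro p hp p' hp' hpp
        have h1 := mem_filter.1 (hQ hp)
        have h2 := mem_filter.1 (hQ hp')
        rw [Function.onFun, Nat.isCoprime_iff_coprime]
        exact Nat.Coprime.pow _ _ ((Nat.coprime_primes h1.2 h2.2).2 hpp)
      · intro p hp
        have h1 := mem_filter.1 (hQ hp)
        exact_mod_cast hMfm p h1.2 (mem_Icc.1 h1.1).2
    rw [← Nat.cast_prod] at h1
    exact_mod_cast h1
  have hall : ∀ Q : Finset ℕ, ∃ T₀ : ℝ, ∃ η₀ : ℝ, ∃ M₁ : ℕ, 0 ≤ T₀ ∧ 0 < η₀ ∧ (Q ⊆ Ps → ∀ᶠ K : ℕ in atTop,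
      ∃ J : ℕ, N ≤ 2 ^ 2 ^ J ∧ K ≤ 2 ^ 2 ^ J ∧ 2 ^ J ≤ K ∧ K < M₁ * 2 ^ (J + 1) ∧
      ∀ (P : ℕ) (n₀ : ℤ) (Z : ℕ → Finset ℕ), 0 < P → (P : ℝ) ≤ Real.exp (η₀ * K / Real.log K) → Nat.Coprime P (g Q) →
      IsCoprime (P : ℤ) ((b : ℤ) * (((b : ℤ) ^ 2 - 1) * ((f : ℤ) - e))) →
      (∀ p : ℕ, p.Prime → N < p → Z p ⊆ range p ∧ (Z p).card ≤ 1) →
      (∀ p : ℕ, p.Prime → N < p → p ∣ P → Z p = ∅) →
      (∀ S ∈ (Icc 1 ((K - 2) / 2)).powerset, 0 ≤ vv b K n₀ ((f : ℤ) - e) S) →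
      ∀ s₀ : ℤ,
        |cnt (Icc 1 ((K - 2) / 2)).powerset (vv b K n₀ ((f : ℤ) - e)) (g Q * P) s₀ -
          cnt (Icc 1 ((K - 2) / 2)).powerset (vv b K n₀ ((f : ℤ) - e)) (g Q) s₀ / P| ≤ 2 ^ ((K - 2) / 2) / P * (T₀ / K) ∧
        |((((Icc 1 ((K - 2) / 2)).powerset.filter (fun S => ((g Q * P : ℕ) : ℤ) ∣ vv b K n₀ ((f : ℤ) - e) S - s₀)).filter
          (fun S => ∀ p ∈ PP N J, ¬ ∃ z ∈ Z p, (p : ℤ) ∣ vv b K n₀ ((f : ℤ) - e) S - z)).card : ℝ) -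
          cnt (Icc 1 ((K - 2) / 2)).powerset (vv b K n₀ ((f : ℤ) - e)) (g Q * P) s₀ * ∏ p ∈ PP N J, (1 - ((Z p).card : ℝ) / (p : ℝ))| ≤
          1 / 2 * (cnt (Icc 1 ((K - 2) / 2)).powerset (vv b K n₀ ((f : ℤ) - e)) (g Q * P) s₀ *
            ∏ p ∈ PP N J, (1 - ((Z p).card : ℝ) / (p : ℝ))) + 2 ^ ((K - 2) / 2) / P * (T₀ / (K : ℝ) ^ (1 + 1))) := by
    intro Q
    by_cases hQ : Q ⊆ Ps
    · obtain ⟨T₀, hT₀, η₀, hη₀, M₁, hM₁, hev⟩ := hcore N le_rfl (g Q) (hgp Q hQ) (by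
        intro p hp hpd
        exact (mem_Icc.1 (mem_filter.1 (hQ (hgN Q hQ p hp hpd))).1).2)
      refine ⟨T₀, η₀, M₁, hT₀, hη₀, fun _ => ?_⟩
      filter_upwards [hev] with K hK
      obtain ⟨J, h1, h2, h3, h4, h5⟩ := hK
      refine ⟨J, h1, h2, ?_, h4, ?_⟩
      · calc 2 ^ J ≤ M₁ * 2 ^ J := Nat.le_mul_of_pos_left _ (by omega)
          _ ≤ K := h3
      · intro P n₀ Z g1 g2 g3 g4 g5 g6 g7 s₀
        obtain ⟨h6, h7⟩ := h5 P n₀ Z g1 g2 g3 g4 g5 g6 g7 s₀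
        refine ⟨h6, ?_⟩
        refine le_trans (le_of_eq ?_) h7
        congr!
    · exact ⟨0, 1, 1, le_rfl, one_pos, fun h => absurd h hQ⟩
  choose T₀ η₀ M₁ hT₀ hη₀ hQev using hall
  obtain ⟨Q₁, hQ₁, hηmin⟩ := exists_min_image Ps.powerset η₀ ⟨∅, empty_mem_powerset _⟩
  set T : ℝ := ∑ Q ∈ Ps.powerset, T₀ Q with hT
  have hTle : ∀ Q ∈ Ps.powerset, T₀ Q ≤ T := fun Q hQ => single_le_sum (fun Q _ => hT₀ Q) hQ
  have hT0 : 0 ≤ T := sum_nonneg fun Q _ => hT₀ Q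
  set M' : ℕ := ∑ Q ∈ Ps.powerset, M₁ Q with hM'
  have hMle : ∀ Q ∈ Ps.powerset, M₁ Q ≤ M' := fun Q hQ => single_le_sum (fun Q _ => Nat.zero_le _) hQ
  obtain ⟨κ₀, hκ₀⟩ : ∃ κ₀ : ℝ, κ₀ = 1 / (2 * Mf) := ⟨_, rfl⟩
  have hκ₀0 : 0 < κ₀ := by rw [hκ₀]; positivity
  refine ⟨κ₀ * c₁ / 64, by positivity, η₀ Q₁, hη₀ Q₁, N * m + b * (2 * M'), ?_⟩
  have hallev : ∀ᶠ K : ℕ in atTop, ∀ Q ∈ Ps.powerset, ∃ J : ℕ, N ≤ 2 ^ 2 ^ J ∧ K ≤ 2 ^ 2 ^ J ∧ 2 ^ J ≤ K ∧ K < M₁ Q * 2 ^ (J + 1) ∧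
      ∀ (P : ℕ) (n₀ : ℤ) (Z : ℕ → Finset ℕ), 0 < P → (P : ℝ) ≤ Real.exp (η₀ Q * K / Real.log K) → Nat.Coprime P (g Q) →
      IsCoprime (P : ℤ) ((b : ℤ) * (((b : ℤ) ^ 2 - 1) * ((f : ℤ) - e))) →
      (∀ p : ℕ, p.Prime → N < p → Z p ⊆ range p ∧ (Z p).card ≤ 1) →
      (∀ p : ℕ, p.Prime → N < p → p ∣ P → Z p = ∅) →
      (∀ S ∈ (Icc 1 ((K - 2) / 2)).powerset, 0 ≤ vv b K n₀ ((f : ℤ) - e) S) →
      ∀ s₀ : ℤ,
        |cnt (Icc 1 ((K - 2) / 2)).powerset (vv b K n₀ ((f : ℤ) - e)) (g Q * P) s₀ -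
          cnt (Icc 1 ((K - 2) / 2)).powerset (vv b K n₀ ((f : ℤ) - e)) (g Q) s₀ / P| ≤ 2 ^ ((K - 2) / 2) / P * (T₀ Q / K) ∧
        |((((Icc 1 ((K - 2) / 2)).powerset.filter (fun S => ((g Q * P : ℕ) : ℤ) ∣ vv b K n₀ ((f : ℤ) - e) S - s₀)).filter
          (fun S => ∀ p ∈ PP N J, ¬ ∃ z ∈ Z p, (p : ℤ) ∣ vv b K n₀ ((f : ℤ) - e) S - z)).card : ℝ) -
          cnt (Icc 1 ((K - 2) / 2)).powerset (vv b K n₀ ((f : ℤ) - e)) (g Q * P) s₀ * ∏ p ∈ PP N J, (1 - ((Z p).card : ℝ) / (p : ℝ))| ≤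
          1 / 2 * (cnt (Icc 1 ((K - 2) / 2)).powerset (vv b K n₀ ((f : ℤ) - e)) (g Q * P) s₀ *
            ∏ p ∈ PP N J, (1 - ((Z p).card : ℝ) / (p : ℝ))) + 2 ^ ((K - 2) / 2) / P * (T₀ Q / (K : ℝ) ^ (1 + 1)) :=
    (eventually_all_finset Ps.powerset).2 fun Q hQ => hQev Q (mem_powerset.1 hQ)
  have hcast := tendsto_natCast_atTop_atTop (R := ℝ)
  filter_upwards [hallev, hgood, ev_pow (η₀ Q₁), hcast.eventually_ge_atTop (2 * T / κ₀),
    hcast.eventually_ge_atTop (8 * T / (κ₀ * c₁)), eventually_ge_atTop 12] with K hK hgK hpow hK2 hK8 hK12 q a hq0 hqle hqcop haq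
  have hK0 : (0 : ℝ) < K := by
    have : 0 < K := by omega
    exact_mod_cast this
  have hlog : 0 < Real.log K := Real.log_pos (by
    have : 1 < K := by omega
    exact_mod_cast this)
  have hqr : (0 : ℝ) < q := by exact_mod_cast hq0
  set Q := Ps.filter (fun p => ¬ p ∣ q) with hQdef
  have hQP : Q ∈ Ps.powerset := mem_powerset.2 (filter_subset _ _)
  have hQs : Q ⊆ Ps := mem_powerset.1 hQP
  obtain ⟨J, hNJ, hKJ, hJK, hKJ2, hmain⟩ := hK Q hQP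
  obtain ⟨s₀, hs₀, hs₀'⟩ := hgK (n0 b K e) (fun _ => {0}) (fun p => by simp)
  have hcopg : Nat.Coprime (g Q) q := by
    rw [hg]
    apply Nat.Coprime.prod_left
    intro p hp
    have h1 := mem_filter.1 hp
    apply Nat.Coprime.pow_left
    exact (Nat.Prime.coprime_iff_not_dvd (mem_filter.1 h1.1).2).2 h1.2
  obtain ⟨t, ht⟩ := crt_int (g Q) q (Nat.isCoprime_iff_coprime.2 hcopg) s₀ a
  have hts : ((g Q : ℕ) : ℤ) ∣ t - s₀ := ((ht t).2 (by simp)).1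
  have hHK : 2 * ((K - 2) / 2) + 2 ≤ K := by omega
  have hnneq : ∀ S ∈ (Icc 1 ((K - 2) / 2)).powerset, ((nn b K e f S : ℕ) : ℤ) =
      vv b K (n0 b K e) ((f : ℤ) - e) S :=
    fun S hS => nn_eq b K e f ((K - 2) / 2) hHK S (mem_powerset.1 hS)
  obtain ⟨hc1, hc2⟩ := hmain q (n0 b K e) (Zq q) hq0 (by
    refine hqle.trans ?_
    apply Real.exp_le_exp.2
    have := hηmin Q hQP
    gcongr) hcopg.symm hqcop (fun p hp _ => ⟨Zq_sub q p hp, Zq_le q p⟩) (by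
      intro p _ _ hpq
      unfold Zq
      rw [if_pos hpq]) (by
      intro S hS
      rw [← hnneq S hS]
      exact Int.natCast_nonneg _) t
  set A : ℝ := cnt (Icc 1 ((K - 2) / 2)).powerset (vv b K (n0 b K e) ((f : ℤ) - e)) (g Q * q) t with hA
  set W : ℝ := ∏ p ∈ PP N J, (1 - ((Zq q p).card : ℝ) / (p : ℝ)) with hW
  set G := (((Icc 1 ((K - 2) / 2)).powerset.filter (fun S => ((g Q * q : ℕ) : ℤ) ∣ vv b K (n0 b K e) ((f : ℤ) - e) S - t)).filter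
          (fun S => ∀ p ∈ PP N J, ¬ ∃ z ∈ Zq q p, (p : ℤ) ∣ vv b K (n0 b K e) ((f : ℤ) - e) S - z)) with hG
  have hcnt : κ₀ * 2 ^ ((K - 2) / 2) ≤ cnt (Icc 1 ((K - 2) / 2)).powerset (vv b K (n0 b K e) ((f : ℤ) - e)) (g Q) t := by
    rw [cnt_shift _ _ (g Q) s₀ t hts]
    refine le_trans ?_ (cnt_mono_dvd _ _ (g Q) Mf (hgdvd Q hQs) s₀)
    refine le_trans (le_of_eq ?_) hs₀
    rw [hκ₀]
    ring
  have hTK : T₀ Q / K ≤ κ₀ / 2 := by
    rw [div_le_iff₀ hK0]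
    rw [div_le_iff₀ hκ₀0] at hK2
    have := hTle Q hQP
    linarith
  have hTK2 : T₀ Q / K ≤ κ₀ * c₁ / 8 := by
    rw [div_le_iff₀ hK0]
    rw [div_le_iff₀ (by positivity)] at hK8
    have := hTle Q hQP
    linarith
  have hAlow : (2 : ℝ) ^ ((K - 2) / 2) / q * (κ₀ / 2) ≤ A := by
    have h1 := (abs_le.1 hc1).1
    have h2 : (2 : ℝ) ^ ((K - 2) / 2) / q * (T₀ Q / K) ≤ 2 ^ ((K - 2) / 2) / q * (κ₀ / 2) := by gcongr
    have h3 : κ₀ * 2 ^ ((K - 2) / 2) / q ≤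
        cnt (Icc 1 ((K - 2) / 2)).powerset (vv b K (n0 b K e) ((f : ℤ) - e)) (g Q) t / q := by gcongr
    have h4 : κ₀ * 2 ^ ((K - 2) / 2) / q = 2 ^ ((K - 2) / 2) / q * (κ₀ / 2) + 2 ^ ((K - 2) / 2) / q * (κ₀ / 2) := by ring
    linarith
  have hqK : q ≤ 2 ^ K := by
    have h1 : (q : ℝ) ≤ 2 ^ K := hqle.trans hpow
    exact_mod_cast h1
  have hs1 : 1 ≤ sing q := one_le_sing q
  have hWl : c₁ * sing q / K ≤ W := by
    refine le_trans ?_ (hWlow J K q (by omega) hNJ hKJ hq0 hqK)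
    have h1 : (2 : ℝ) ^ J ≤ K := by exact_mod_cast hJK
    have h2 : 0 ≤ c₁ * sing q := by positivity
    gcongr
  have hGlow : κ₀ * c₁ / 8 * (sing q / q) * 2 ^ ((K - 2) / 2) / K ≤ G.card := by
    have h1 := (abs_le.1 hc2).1
    have h2 : (2 : ℝ) ^ ((K - 2) / 2) / q * (κ₀ / 2) * (c₁ * sing q / K) ≤ A * W := by
      apply mul_le_mul hAlow hWl
      · positivity
      · exact le_trans (by positivity) hAlow
    have h3 : (2 : ℝ) ^ ((K - 2) / 2) / q * (T₀ Q / (K : ℝ) ^ (1 + 1)) ≤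
        κ₀ * c₁ / 8 * (sing q / q) * 2 ^ ((K - 2) / 2) / K := by
      calc (2 : ℝ) ^ ((K - 2) / 2) / q * (T₀ Q / (K : ℝ) ^ (1 + 1)) =
            2 ^ ((K - 2) / 2) / q * (T₀ Q / K) / K := by
            field_simp
        _ ≤ 2 ^ ((K - 2) / 2) / q * (κ₀ * c₁ / 8) / K := by gcongr
        _ = κ₀ * c₁ / 8 * (1 / q) * 2 ^ ((K - 2) / 2) / K := by ring
        _ ≤ _ := by gcongr
    have h4 : (2 : ℝ) ^ ((K - 2) / 2) / q * (κ₀ / 2) * (c₁ * sing q / K) =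
        4 * (κ₀ * c₁ / 8 * (sing q / q) * 2 ^ ((K - 2) / 2) / K) := by ring
    have h5 : ((G.card : ℕ) : ℝ) - A * W ≥ -(1 / 2 * (A * W) + 2 ^ ((K - 2) / 2) / q * (T₀ Q / (K : ℝ) ^ (1 + 1))) := h1
    linarith
  refine ⟨G.image (fun S => nn b K e f S), ?_, ?_⟩
  · rw [card_image_of_injOn]
    · refine le_trans ?_ hGlow
      have h1 : (2 : ℝ) ^ ((K : ℝ) / 2) ≤ 4 * 2 ^ ((K - 2) / 2) := by
        have h2 : (4 : ℝ) * 2 ^ ((K - 2) / 2) = 2 ^ ((K - 2) / 2 + 2) := by rw [pow_add]; ring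
        rw [h2, ← Real.rpow_natCast]
        apply Real.rpow_le_rpow_of_exponent_le (by norm_num)
        have : K ≤ 2 * ((K - 2) / 2 + 2) := by omega
        have : (K : ℝ) ≤ 2 * (((K - 2) / 2 + 2 : ℕ) : ℝ) := by exact_mod_cast this
        linarith
      have htot := (sing_tot q).2
      have htot0 : (0 : ℝ) < Nat.totient q := by exact_mod_cast Nat.totient_pos.2 hq0
      have h3 : 1 / (2 * (Nat.totient q : ℝ)) ≤ sing q / q := by
        rw [div_le_div_iff₀ (by positivity) hqr]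
        linarith
      calc κ₀ * c₁ / 64 * (2 : ℝ) ^ ((K : ℝ) / 2) / (Nat.totient q * K) ≤
            κ₀ * c₁ / 64 * (4 * 2 ^ ((K - 2) / 2)) / (Nat.totient q * K) := by gcongr
        _ = κ₀ * c₁ / 8 * (1 / (2 * (Nat.totient q : ℝ))) * 2 ^ ((K - 2) / 2) / K := by
            field_simp
            ring
        _ ≤ _ := by gcongr
    · intro S hS S' hS' h
      rw [mem_coe, hG, mem_filter, mem_filter, mem_powerset] at hS hS'
      exact nn_inj b K e f hb he hf he0 hef ((K - 2) / 2) hHK S S' hS.1.1 hS'.1.1 h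
  · intro n hn
    rw [mem_image] at hn
    obtain ⟨S, hS, rfl⟩ := hn
    rw [hG, mem_filter, mem_filter] at hS
    obtain ⟨⟨hS1, hS2⟩, hS3⟩ := hS
    obtain ⟨h1, h2, h3, h4, h5⟩ := nn_props b K e f hb he hf he0 (by omega) S (mem_powerset.1 hS1)
    rw [← hnneq S hS1] at hS2
    rw [← hnneq S hS1] at hS3
    set n := nn b K e f S with hn
    obtain ⟨g1, g2⟩ := (ht n).2 hS2
    refine ⟨h1, ⟨h3, h4, h5⟩, g2, ?_⟩
    have hpq : ∀ p : ℕ, p.Prime → p ∣ q → ¬ p ∣ n := by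
      intro p hp hpq hpn
      have h6 : (p : ℤ) ∣ a := by
        have h7 : (p : ℤ) ∣ (n : ℤ) - a := dvd_trans (by exact_mod_cast hpq) g2
        have h8 : (p : ℤ) ∣ (n : ℤ) := by exact_mod_cast hpn
        have h9 := dvd_sub h8 h7
        rwa [sub_sub_cancel] at h9
      have h7 := haq.isUnit_of_dvd' h6 (by exact_mod_cast hpq)
      exact (Nat.prime_iff_prime_int.1 hp).not_unit h7
    have hm1 : 1 ≤ m := by
      by_contra hcon
      have hm0 : m = 0 := by omega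
      apply hs₀' 2 Nat.prime_two (by omega) 0 (mem_singleton_self _)
      rw [hm0]
      simp
    have h6 : ∀ p : ℕ, p.Prime → p ≤ N → ¬ p ^ m ∣ n := by
      intro p hp hpN hdvd
      by_cases hpd : p ∣ q
      · exact hpq p hp hpd ((dvd_pow_self p (by omega)).trans hdvd)
      · have hpQ : p ∈ Q := by
          rw [hQdef, mem_filter, hPs, mem_filter, mem_Icc]
          exact ⟨⟨⟨hp.one_lt.le, hpN⟩, hp⟩, hpd⟩
        apply hs₀' p hp hpN 0 (mem_singleton_self _)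
        have h7 : p ^ m ∣ g Q := Finset.dvd_prod_of_mem (fun p => p ^ m) hpQ
        have h8 : ((p ^ m : ℕ) : ℤ) ∣ (n : ℤ) - s₀ := dvd_trans (by exact_mod_cast h7) g1
        have h9 := dvd_sub (Int.natCast_dvd_natCast.2 hdvd) h8
        rwa [sub_sub_cancel, ← sub_zero s₀] at h9
    apply omega_bound n N m (2 * M') K b (by omega) h6 _ (by omega)
    · calc n ≤ b ^ K := h1.le
        _ ≤ (2 ^ b) ^ K := Nat.pow_le_pow_left (Nat.lt_two_pow_self).le _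
        _ = 2 ^ (K * b) := by rw [← pow_mul, mul_comm]
    · intro p hp hpN hpK hpn
      by_cases hpd : p ∣ q
      · exact hpq p hp hpd hpn
      · have hpp : p ∈ PP N J := by
          rw [mem_PP]
          refine ⟨hp, hpN, ?_⟩
          by_contra hcon
          push Not at hcon
          have g3 : K ≤ 2 ^ J * (2 * M') := by
            have := hMle Q hQP
            calc K ≤ M₁ Q * 2 ^ (J + 1) := hKJ2.le
              _ ≤ M' * 2 ^ (J + 1) := Nat.mul_le_mul_right _ this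
              _ = 2 ^ J * (2 * M') := by rw [pow_succ]; ring
          have g4 : 2 ^ K ≤ (2 ^ 2 ^ J) ^ (2 * M') := by
            rw [← pow_mul]
            exact Nat.pow_le_pow_right (by norm_num) g3
          have g5 : (2 ^ 2 ^ J) ^ (2 * M') < p ^ (2 * M') := by
            apply Nat.pow_lt_pow_left hcon
            have := hMle Q hQP
            have g6 : M₁ Q ≠ 0 := by
              intro h0
              rw [h0, zero_mul] at hKJ2
              omega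
            omega
          omega
        apply hS3 p hpp
        refine ⟨0, ?_, ?_⟩
        · unfold Zq
          rw [if_neg hpd]
          exact mem_singleton_self _
        · rw [Nat.cast_zero, sub_zero]
          exact_mod_cast hpn

end Pool.Agent.Run7.h620.PD
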