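import Pool.Agent.Run7.h620.PD.Mf

set_option autoImplicit false

/-! The sieve, uniformly in a power of the base in the common difference. -/

namespace Pool.Agent.Run7.h620.PD

open Finset Polynomial Filter

open Classical in
/-- the sieve for palindromes with two digits, multiplied by a power of the base, in a class modulo `M P` -/
theorem core4 (b : ℕ) (hb : 2 ≤ b) (D : ℤ) (hD : D ≠ 0) (κ : ℕ) (hF : 1 ≤ κ) :
    ∃ N₀ : ℕ, 3 ≤ N₀ ∧ 2 * κ ≤ N₀ ∧ ∀ N : ℕ, N₀ ≤ N → ∀ M : ℕ, 0 < M → (∀ p : ℕ, p.Prime → p ∣ M → p ≤ N) →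
      ∃ T₀ : ℝ, 0 ≤ T₀ ∧ ∃ η₀ : ℝ, 0 < η₀ ∧ ∃ M₁ : ℕ, 3 ≤ M₁ ∧ ∀ᶠ K : ℕ in atTop,
      ∃ J : ℕ, N ≤ 2 ^ 2 ^ J ∧ K ≤ 2 ^ 2 ^ J ∧ M₁ * 2 ^ J ≤ K ∧ K < M₁ * 2 ^ (J + 1) ∧
      ∀ (T P : ℕ) (n₀ : ℤ) (Z : ℕ → Finset ℕ), 0 < P → (P : ℝ) ≤ Real.exp (η₀ * K / Real.log K) → Nat.Coprime P M →
      IsCoprime (P : ℤ) ((b : ℤ) * (((b : ℤ) ^ 2 - 1) * D)) →
      (∀ p : ℕ, p.Prime → N < p → Z p ⊆ range p ∧ (Z p).card ≤ κ) →
      (∀ p : ℕ, p.Prime → N < p → p ∣ P → Z p = ∅) →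
      (∀ S ∈ (Icc 1 ((K - 2) / 2)).powerset, 0 ≤ vv b K n₀ (D * (b : ℤ) ^ T) S) →
      ∀ s₀ : ℤ,
        |cnt (Icc 1 ((K - 2) / 2)).powerset (vv b K n₀ (D * (b : ℤ) ^ T)) (M * P) s₀ -
          cnt (Icc 1 ((K - 2) / 2)).powerset (vv b K n₀ (D * (b : ℤ) ^ T)) M s₀ / P| ≤ 2 ^ ((K - 2) / 2) / P * (T₀ / K) ∧
        |((((Icc 1 ((K - 2) / 2)).powerset.filter (fun S => ((M * P : ℕ) : ℤ) ∣ vv b K n₀ (D * (b : ℤ) ^ T) S - s₀)).filter
          (fun S => ∀ p ∈ PP N J, ¬ ∃ z ∈ Z p, (p : ℤ) ∣ vv b K n₀ (D * (b : ℤ) ^ T) S - z)).card : ℝ) -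
          cnt (Icc 1 ((K - 2) / 2)).powerset (vv b K n₀ (D * (b : ℤ) ^ T)) (M * P) s₀ * ∏ p ∈ PP N J, (1 - ((Z p).card : ℝ) / (p : ℝ))| ≤
          1 / 2 * (cnt (Icc 1 ((K - 2) / 2)).powerset (vv b K n₀ (D * (b : ℤ) ^ T)) (M * P) s₀ *
            ∏ p ∈ PP N J, (1 - ((Z p).card : ℝ) / (p : ℝ))) + 2 ^ ((K - 2) / 2) / P * (T₀ / (K : ℝ) ^ (κ + 1)) := by
  obtain ⟨C, hC, hsieve⟩ := sieve_gen
  obtain ⟨A₀, hA₀, hwk⟩ := wk_log κ hF
  have hbr : (2 : ℝ) ≤ b := by exact_mod_cast hb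
  obtain ⟨U, hU⟩ : ∃ U : ℤ, U = ((b : ℤ) ^ 2 - 1) * D := ⟨_, rfl⟩
  have hU0 : U ≠ 0 := by
    rw [hU]
    apply mul_ne_zero _ hD
    have : (2 : ℤ) ≤ b := by exact_mod_cast hb
    nlinarith
  refine ⟨b * U.natAbs + C * (κ + 1) + 2 * κ + 3, by omega, by omega, ?_⟩
  intro N hN M hM0 hMp
  have hMr : (1 : ℝ) ≤ M := by exact_mod_cast hM0
  have hbU0 : 0 < b * U.natAbs := Nat.mul_pos (by omega) (Int.natAbs_pos.2 hU0)
  have hbU : ((b : ℤ) * U).natAbs = b * U.natAbs := by rw [Int.natAbs_mul]; rfl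
  set y : ℝ := yy b M with hy
  have hy0 : 0 < y := yy_pos b M (by omega) hM0
  have hy1 : y < 1 := yy_lt b M (by omega) hM0
  have hly : Real.log y < 0 := Real.log_neg hy0 hy1
  obtain ⟨E, hE⟩ : ∃ E : ℕ, E = 2 * κ + 3 := ⟨_, rfl⟩
  set q : ℝ := E / (-Real.log y) with hq
  have hq0 : 0 < q := by
    rw [hq]
    apply div_pos _ (by linarith)
    rw [hE]
    positivity
  set η : ℝ := 1 / (60 * (q + 1)) with hη
  have hη0 : 0 < η := by rw [hη]; positivity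
  obtain ⟨n₁, hn₁⟩ := exists_pow_lt_of_lt_one (show (0 : ℝ) < 1 / (50 * b) by positivity) hy1
  obtain ⟨C₁, hC₁⟩ : ∃ C₁ : ℕ, C₁ = n₁ + 1 := ⟨_, rfl⟩
  have hy3 : 2 * b * y ^ C₁ * 5 ≤ 1 / 5 := by
    have h1 : y ^ C₁ ≤ 1 / (50 * b) := by
      rw [hC₁, pow_succ]
      calc y ^ n₁ * y ≤ y ^ n₁ * 1 := mul_le_mul_of_nonneg_left hy1.le (pow_pos hy0 n₁).le
        _ ≤ 1 / (50 * b) := by rw [mul_one]; exact hn₁.le
    calc 2 * b * y ^ C₁ * 5 ≤ 2 * b * (1 / (50 * b)) * 5 := by gcongr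
      _ = 1 / 5 := by field_simp; norm_num
  obtain ⟨M₁, hM₁⟩ : ∃ M₁ : ℕ, M₁ = 40 * C₁ * (C * (C * (κ + 1))) := ⟨_, rfl⟩
  have hCC : 1 ≤ C * (C * (κ + 1)) := Nat.mul_pos hC (Nat.mul_pos hC (by omega))
  have hM2C : C * (C * (κ + 1)) ≤ M₁ := by
    rw [hM₁]
    exact Nat.le_mul_of_pos_left _ (by omega)
  have hM2 : 3 ≤ M₁ := by
    rw [hM₁]
    calc 3 ≤ 40 * C₁ * 1 := by omega
      _ ≤ 40 * C₁ * (C * (C * (κ + 1))) := Nat.mul_le_mul_left _ hCC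
  have hM1 : 1 ≤ M₁ := by omega
  obtain ⟨T₁, hT₁⟩ : ∃ T₁ : ℝ, T₁ = 2 ^ κ * A₀ * (12 * b + 6) := ⟨_, rfl⟩
  have hT₁0 : 0 ≤ T₁ := by rw [hT₁]; positivity
  obtain ⟨T₀, hT₀⟩ : ∃ T₀ : ℝ, T₀ = T₁ + 4 * b := ⟨_, rfl⟩
  have hT₀0 : 0 ≤ T₀ := by rw [hT₀]; positivity
  obtain ⟨B, hB⟩ : ∃ B : ℝ, B = 100 + 40 * C₁ + 2 * b + N := ⟨_, rfl⟩
  have hl2 : 0 < Real.log 2 := Real.log_pos (by norm_num)
  refine ⟨T₀, hT₀0, η * Real.log 2, by positivity, M₁, hM2, ?_⟩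
  filter_upwards [par2 E y hy0 hy1 q η (by omega) hq hη M₁ hM1 B] with K hK
  obtain ⟨k1, k2, k3, k4, k5, k6, k7, k8, k9⟩ := hK
  set z : ℝ := η * K / Real.log K with hz
  set Ny : ℕ := ⌊z⌋₊ with hNy
  set Js : ℕ := Nat.log 2 (K / M₁) with hJs
  set C₀ : ℕ := ⌈q * Real.log K⌉₊ with hC₀
  have e1 : (0 : ℝ) ≤ 40 * C₁ := by positivity
  have e2 : (0 : ℝ) ≤ 2 * b := by positivity
  have e3 : (0 : ℝ) ≤ N := by positivity
  have hKr : (100 : ℝ) ≤ K := by linarith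
  have hK100 : 100 ≤ K := by exact_mod_cast hKr
  have hK0 : (0 : ℝ) < K := by linarith
  have hlK0 : 0 < Real.log K := by linarith
  have hC₀1 : 1 ≤ C₀ := by
    rw [hC₀]
    exact Nat.one_le_ceil_iff.2 (by positivity)
  have hV1 : C₁ * (5 * (C * (C * (κ + 1)) * 2 ^ Js + 1)) ≤ (K - 2) / 2 - 1 := by
    have h1 : 40 * C₁ * (C * (C * (κ + 1))) * 2 ^ Js ≤ K := by rw [← hM₁]; exact k8
    have h2 : 40 * C₁ ≤ K := by
      have : (40 * C₁ : ℝ) ≤ K := by linarith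
      exact_mod_cast this
    have h3 : 8 * (C₁ * (5 * (C * (C * (κ + 1)) * 2 ^ Js + 1))) =
        40 * C₁ * (C * (C * (κ + 1))) * 2 ^ Js + 40 * C₁ := by ring
    omega
  have hNJ : N ≤ 2 ^ 2 ^ Js := by
    have h1 : (N : ℝ) ≤ K := by linarith
    have h2 : N ≤ K := by exact_mod_cast h1
    exact h2.trans k9
  have hHr' : ((((K - 2) / 2 - 1 : ℕ)) : ℝ) ≤ K := by
    have : (K - 2) / 2 - 1 ≤ K := by omega
    exact_mod_cast this
  have hy2 : 2 * b * y ^ C₀ * (5 * ((2 * Ny + 1 : ℕ) : ℝ)) ≤ 1 := by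
    have h1 : (5 * ((2 * Ny + 1 : ℕ) : ℝ)) ≤ K := by
      have h2 : 5 * (2 * Ny + 1) ≤ K := by
        have h3 : 1 * (5 * (2 * Ny + 1)) ≤ C₀ * (5 * (2 * Ny + 1)) := Nat.mul_le_mul_right _ hC₀1
        omega
      exact_mod_cast h2
    have h5 : (K : ℝ) ^ 2 ≤ (K : ℝ) ^ E := pow_le_pow_right₀ (by linarith) (by omega)
    calc 2 * b * y ^ C₀ * (5 * ((2 * Ny + 1 : ℕ) : ℝ)) ≤ 2 * b * (1 / (K : ℝ) ^ E) * K := by gcongr
      _ ≤ 2 * b * (1 / (K : ℝ) ^ 2) * K := by gcongr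
      _ = 2 * b / (K : ℝ) := by field_simp
      _ ≤ 1 := by
          rw [div_le_one (by positivity)]
          linarith
  have hJsK : (Js : ℝ) + 2 ≤ K := by
    have h1 : Js < 2 ^ Js := Nat.lt_two_pow_self
    have h2 : 2 * 2 ^ Js ≤ K := by
      refine le_trans ?_ k8
      exact Nat.mul_le_mul_right _ (by omega)
    have : Js + 2 ≤ K := by omega
    exact_mod_cast this
  have hHSK : hs (2 ^ (C * (C * (κ + 1)) * 2 ^ Js)) ≤ 2 * K := by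
    refine (hs_le _).trans ?_
    have h3 : C * (C * (κ + 1)) * 2 ^ Js ≤ K := le_trans (Nat.mul_le_mul_right _ hM2C) k8
    have h4 : ((C * (C * (κ + 1)) * 2 ^ Js : ℕ) : ℝ) ≤ K := by exact_mod_cast h3
    linarith
  have hcopR : ∀ f : ℕ, Nat.Coprime f (b * U.natAbs) → IsCoprime (f : ℤ) ((b : ℤ) * U) := by
    intro f hf
    rw [Int.isCoprime_iff_gcd_eq_one, Int.gcd, hbU]
    exact hf
  have hcopT : ∀ (T f : ℕ), IsCoprime (f : ℤ) ((b : ℤ) * U) →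
      IsCoprime (f : ℤ) ((b : ℤ) * (((b : ℤ) ^ 2 - 1) * (D * (b : ℤ) ^ T))) := by
    intro T f hf
    have h1 : IsCoprime (f : ℤ) (b : ℤ) := hf.of_mul_right_left
    have h2 : (b : ℤ) * (((b : ℤ) ^ 2 - 1) * (D * (b : ℤ) ^ T)) = ((b : ℤ) * U) * (b : ℤ) ^ T := by
      rw [hU]
      ring
    rw [h2]
    exact hf.mul_right h1.pow_right
  refine ⟨Js, hNJ, k9, k8, k7, ?_⟩
  intro T P n₀ Z hP0 hPle hPM hPcop hZ hZP hpos s₀
  rw [← hU] at hPcop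
  have hPcop' := hcopT T P hPcop
  have hPr : (0 : ℝ) < P := by exact_mod_cast hP0
  have hbw : P < b ^ (2 * Ny + 1) := by
    have h1 : (P : ℝ) < (b : ℝ) ^ (2 * Ny + 1) := by
      refine lt_of_le_of_lt hPle ?_
      have h2 : η * Real.log 2 * K / Real.log K = Real.log 2 * z := by
        rw [hz]
        ring
      have h3 : z < (Ny : ℝ) + 1 := Nat.lt_floor_add_one z
      calc Real.exp (η * Real.log 2 * K / Real.log K) = Real.exp (Real.log 2 * z) := by rw [h2]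
        _ < Real.exp (Real.log 2 * ((Ny : ℝ) + 1)) := by
            apply Real.exp_lt_exp.2
            exact mul_lt_mul_of_pos_left h3 hl2
        _ = (2 : ℝ) ^ (Ny + 1) := by
            have h5 : (Ny : ℝ) + 1 = ((Ny + 1 : ℕ) : ℝ) := by push_cast; ring
            rw [mul_comm, h5, Real.exp_nat_mul, Real.exp_log (by norm_num)]
        _ ≤ (2 : ℝ) ^ (2 * Ny + 1) := pow_le_pow_right₀ (by norm_num) (by omega)
        _ ≤ _ := pow_le_pow_left₀ (by norm_num) hbr _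
    exact_mod_cast h1
  constructor
  · -- the class modulo `P`
    have h1 := cnt_pal b K ((K - 2) / 2) M 1 P n₀ (D * (b : ℤ) ^ T) s₀ (by omega) hM0 (by omega) (by omega) one_pos hP0
    rw [mul_one, one_mul] at h1
    have h2 := GG_one b (by omega) y hy0.le hy1.le (((b : ℤ) ^ 2 - 1) * (D * (b : ℤ) ^ T)) (K - 1 - (K - 2) / 2) ((K - 2) / 2 - 1) P (2 * Ny + 1) C₀ hC₀1
      (by
        have : C₀ * (5 * (2 * Ny + 1)) = 5 * ((2 * Ny + 1) * C₀) := by ring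
        omega) hP0 hbw hPcop'
    have h3 : (1 + 2 * b * y ^ C₀) ^ (2 * Ny + 1) - 1 ≤ 2 * (2 * b * y ^ C₀ * ((2 * Ny + 1 : ℕ) : ℝ)) := by
      apply pow_sub_one_le
      · positivity
      · exact le_rfl
      · have : 0 ≤ 2 * b * y ^ C₀ * ((2 * Ny + 1 : ℕ) : ℝ) := by positivity
        linarith
    have h4 : (C₀ : ℝ) * ((2 * Ny + 1 : ℕ) : ℝ) ≤ K := by
      have : C₀ * (2 * Ny + 1) ≤ K := by
        have : C₀ * (5 * (2 * Ny + 1)) = 5 * (C₀ * (2 * Ny + 1)) := by ring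
        omega
      exact_mod_cast this
    have h5 : GG b y (((b : ℤ) ^ 2 - 1) * (D * (b : ℤ) ^ T)) (K - 1 - (K - 2) / 2) ((K - 2) / 2 - 1) 1 P ≤ T₀ / K := by
      refine h2.trans ?_
      have h6 : (K : ℝ) ^ 2 ≤ (K : ℝ) ^ E := pow_le_pow_right₀ (by linarith) (by omega)
      calc (C₀ : ℝ) * ((1 + 2 * b * y ^ C₀) ^ (2 * Ny + 1) - 1) ≤
            C₀ * (2 * (2 * b * y ^ C₀ * ((2 * Ny + 1 : ℕ) : ℝ))) := by gcongr
        _ = 4 * b * y ^ C₀ * (C₀ * ((2 * Ny + 1 : ℕ) : ℝ)) := by ring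
        _ ≤ 4 * b * (1 / (K : ℝ) ^ E) * (K : ℝ) := by gcongr
        _ ≤ 4 * b * (1 / (K : ℝ) ^ 2) * (K : ℝ) := by gcongr
        _ = 4 * b / K := by field_simp
        _ ≤ T₀ / K := by
            apply div_le_div_of_nonneg_right _ hK0.le
            linarith
    refine h1.trans ?_
    gcongr
  · have hmain := hsieve κ b K ((K - 2) / 2) M P Js N n₀ (D * (b : ℤ) ^ T) ((PP N Js).filter (fun p => ¬ p ∣ P)) Z hb hM0
      (by omega) (by omega) hP0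
      (by omega) (fun p hp => (mem_PP N Js p).1 (mem_filter.1 hp).1) (by
        intro p hp hpd
        rw [mem_filter] at hp
        obtain ⟨hp1, hp2, hp3⟩ := (mem_PP N Js p).1 hp.1
        rcases (Nat.Prime.dvd_mul hp1).1 hpd with h | h
        · have := hMp p hp1 h
          omega
        · exact hp.2 h) (by
        intro p hp
        obtain ⟨hp1, hp2, hp3⟩ := (mem_PP N Js p).1 (mem_filter.1 hp).1
        exact hZ p hp1 hp2) hpos s₀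
    have htot := total b hb y hy0 hy1.le (((b : ℤ) ^ 2 - 1) * (D * (b : ℤ) ^ T)) (K - 1 - (K - 2) / 2) ((K - 2) / 2 - 1) P (2 * Ny + 1)
      (C * (C * (κ + 1)) * 2 ^ Js + 1) C₀ C₁ (2 ^ (C * (C * (κ + 1)) * 2 ^ Js)) (by omega) hC₀1 (by omega) k6 hV1 hy2 hy3
      hP0 hbw (by apply Nat.pow_lt_pow_right <;> omega) (wk κ) (wk_nonneg κ)
      (wk_mul κ hF) A₀ hA₀ hwk
      ((((PP N Js).filter (fun p => ¬ p ∣ P)).powerset.image (fun T => ∏ p ∈ T, p)).filter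
          (fun f => f ≤ (2 ^ 2 ^ Js) ^ (C * (C * (κ + 1))))) (by
          intro f hf
          rw [mem_filter, mem_image] at hf
          obtain ⟨⟨T', hT', rfl⟩, hf2⟩ := hf
          rw [mem_powerset] at hT'
          refine ⟨prod_pos fun p hp => ((mem_PP N Js p).1 (mem_filter.1 (hT' hp)).1).1.pos, ?_, ?_⟩
          · refine hf2.trans (le_of_eq ?_)
            rw [← pow_mul, mul_comm]
          · apply hcopT
            apply hcopR
            apply Nat.Coprime.prod_left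
            intro p hp
            obtain ⟨hp1, hp2, hp3⟩ := (mem_PP N Js p).1 (mem_filter.1 (hT' hp)).1
            rw [Nat.Prime.coprime_iff_not_dvd hp1]
            intro h3
            have := Nat.le_of_dvd hbU0 h3
            omega) hPcop'
    have hprod : ∏ p ∈ (PP N Js).filter (fun p => ¬ p ∣ P), (1 - ((Z p).card : ℝ) / (p : ℝ)) =
        ∏ p ∈ PP N Js, (1 - ((Z p).card : ℝ) / (p : ℝ)) := by
      apply Finset.prod_subset (filter_subset _ _)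
      intro p hp hp2
      rw [mem_filter, not_and, not_not] at hp2
      obtain ⟨hp1, hp3, hp4⟩ := (mem_PP N Js p).1 hp
      rw [hZP p hp1 hp3 (hp2 hp)]
      simp
    have hset : (((Icc 1 ((K - 2) / 2)).powerset.filter (fun S => ((M * P : ℕ) : ℤ) ∣ vv b K n₀ (D * (b : ℤ) ^ T) S - s₀)).filter
          (fun S => ∀ p ∈ (PP N Js).filter (fun p => ¬ p ∣ P), ¬ ∃ z ∈ Z p, (p : ℤ) ∣ vv b K n₀ (D * (b : ℤ) ^ T) S - z)) =
        (((Icc 1 ((K - 2) / 2)).powerset.filter (fun S => ((M * P : ℕ) : ℤ) ∣ vv b K n₀ (D * (b : ℤ) ^ T) S - s₀)).filter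
          (fun S => ∀ p ∈ PP N Js, ¬ ∃ z ∈ Z p, (p : ℤ) ∣ vv b K n₀ (D * (b : ℤ) ^ T) S - z)) := by
      apply filter_congr
      intro S _
      constructor
      · intro h p hp
        by_cases hpP : p ∣ P
        · obtain ⟨hp1, hp3, hp4⟩ := (mem_PP N Js p).1 hp
          rw [hZP p hp1 hp3 hpP]
          simp
        · exact h p (mem_filter.2 ⟨hp, hpP⟩)
      · intro h p hp
        exact h p (mem_filter.1 hp).1
    rw [hprod] at hmain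
    have hEr : ((Js : ℝ) + 2) * (2 ^ ((K - 2) / 2) / (P : ℝ) * ∑ f ∈ ((((PP N Js).filter (fun p => ¬ p ∣ P)).powerset.image
        (fun T => ∏ p ∈ T, p)).filter
          (fun f => f ≤ (2 ^ 2 ^ Js) ^ (C * (C * (κ + 1))))), wk κ f / f *
            GG b y (((b : ℤ) ^ 2 - 1) * (D * (b : ℤ) ^ T)) (K - 1 - (K - 2) / 2) ((K - 2) / 2 - 1) P f) ≤
        2 ^ ((K - 2) / 2) / P * (T₀ / (K : ℝ) ^ (κ + 1)) := by
      have h1 : ((Js : ℝ) + 2) * (2 ^ ((K - 2) / 2) / (P : ℝ) * ∑ f ∈ ((((PP N Js).filter (fun p => ¬ p ∣ P)).powerset.image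
        (fun T => ∏ p ∈ T, p)).filter
          (fun f => f ≤ (2 ^ 2 ^ Js) ^ (C * (C * (κ + 1))))), wk κ f / f *
            GG b y (((b : ℤ) ^ 2 - 1) * (D * (b : ℤ) ^ T)) (K - 1 - (K - 2) / 2) ((K - 2) / 2 - 1) P f) ≤
          K * (2 ^ ((K - 2) / 2) / (P : ℝ) * ((2 * K) ^ κ * (A₀ * (K * (12 * b * (1 / (K : ℝ) ^ E) + 6 * (1 / (K : ℝ) ^ E)))))) := by
        have h2 : ∑ t ∈ Icc 1 (2 ^ (C * (C * (κ + 1)) * 2 ^ Js)), wk κ t / t ≤ (2 * K) ^ κ := by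
          refine (wk_sum κ _).trans ?_
          exact pow_le_pow_left₀ (hs_nonneg _) hHSK κ
        have h3 : (0 : ℝ) ≤ ∑ t ∈ Icc 1 (2 ^ (C * (C * (κ + 1)) * 2 ^ Js)), wk κ t / t :=
          sum_nonneg fun t _ => div_nonneg (wk_nonneg κ t) (Nat.cast_nonneg _)
        have h4 : (((((K - 2) / 2 - 1 : ℕ)) : ℝ)) * (12 * b * y ^ C₀ + 6 * (5 / 6) ^ (2 * Ny + 1)) ≤
            K * (12 * b * (1 / (K : ℝ) ^ E) + 6 * (1 / (K : ℝ) ^ E)) := by gcongr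
        have h5 : (0 : ℝ) ≤ (((((K - 2) / 2 - 1 : ℕ)) : ℝ)) * (12 * b * y ^ C₀ + 6 * (5 / 6) ^ (2 * Ny + 1)) := by
          positivity
        apply mul_le_mul hJsK _ _ hK0.le
        · apply mul_le_mul_of_nonneg_left _ (by positivity)
          refine htot.trans ?_
          apply mul_le_mul h2 _ _ (by positivity)
          · exact mul_le_mul_of_nonneg_left h4 hA₀
          · exact mul_nonneg hA₀ h5
        · apply mul_nonneg (by positivity)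
          exact sum_nonneg fun f _ => mul_nonneg (div_nonneg (wk_nonneg κ f) (Nat.cast_nonneg _))
            (GG_nonneg _ _ hy0.le _ _ _ _ _)
      refine h1.trans ?_
      have h6 : K * (2 ^ ((K - 2) / 2) / (P : ℝ) * ((2 * K) ^ κ * (A₀ * (K * (12 * b * (1 / (K : ℝ) ^ E) + 6 * (1 / (K : ℝ) ^ E)))))) =
          2 ^ ((K - 2) / 2) / P * (T₁ / (K : ℝ) ^ (κ + 1)) := by
        rw [hT₁, hE, mul_pow]
        field_simp
        ring
      rw [h6]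
      gcongr
      linarith
    rw [hset] at hmain
    refine le_trans (le_of_eq ?_) (hmain.trans (add_le_add le_rfl hEr))
    congr!

end Pool.Agent.Run7.h620.PD
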