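import Pool.Agent.Run7.h620.PD.Break

set_option autoImplicit false

/-! Sums of the decay factors over all moduli. -/

namespace Pool.Agent.Run7.h620.PD

open Finset

/-- sum of the decay factors over the frequencies `m / (P f)`, `f ∤ m` -/
noncomputable def GG (b : ℕ) (y : ℝ) (U : ℤ) (j V P f : ℕ) : ℝ :=
  ∑ m ∈ (range (P * f)).filter (fun m => ¬ f ∣ m), y ^ (bet b ((U : ℝ) * ((m : ℝ) / ((P * f : ℕ) : ℝ))) j V)

lemma GG_nonneg (b : ℕ) (y : ℝ) (hy : 0 ≤ y) (U : ℤ) (j V P f : ℕ) : 0 ≤ GG b y U j V P f :=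
  sum_nonneg fun _ _ => by positivity

/-- the sum over the `m` prime to `f` -/
noncomputable def Gs (b : ℕ) (y : ℝ) (U : ℤ) (j V P f : ℕ) : ℝ :=
  ∑ m ∈ (range (P * f)).filter (fun m => m.Coprime f), y ^ (bet b ((U : ℝ) * ((m : ℝ) / ((P * f : ℕ) : ℝ))) j V)

lemma Gs_nonneg (b : ℕ) (y : ℝ) (hy : 0 ≤ y) (U : ℤ) (j V P f : ℕ) : 0 ≤ Gs b y U j V P f :=
  sum_nonneg fun _ _ => by positivity

lemma GG_le (b : ℕ) (y : ℝ) (hy : 0 ≤ y) (U : ℤ) (j V P f : ℕ) (hP : 0 < P) (hf : 0 < f) :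
    GG b y U j V P f ≤ ∑ d ∈ f.divisors.filter (fun d => 1 < d), Gs b y U j V P d := by
  classical
  have hPr : (0 : ℝ) < P := by exact_mod_cast hP
  have hfr : (0 : ℝ) < f := by exact_mod_cast hf
  set B : Finset (Σ _ : ℕ, ℕ) := (f.divisors.filter (fun d => 1 < d)).sigma
    (fun d => (range (P * d)).filter (fun m => m.Coprime d)) with hB
  set F : (Σ _ : ℕ, ℕ) → ℝ := fun p => y ^ (bet b ((U : ℝ) * ((p.2 : ℝ) / ((P * p.1 : ℕ) : ℝ))) j V) with hF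
  set φ : ℕ → (Σ _ : ℕ, ℕ) := fun m => ⟨f / m.gcd f, m / m.gcd f⟩ with hφ
  have hgp : ∀ m : ℕ, 0 < m.gcd f := fun m => Nat.gcd_pos_of_pos_right _ hf
  have h1 : ∑ d ∈ f.divisors.filter (fun d => 1 < d), Gs b y U j V P d = ∑ p ∈ B, F p := by
    rw [hB, sum_sigma]
    rfl
  have hmap : ∀ m ∈ (range (P * f)).filter (fun m => ¬ f ∣ m), φ m ∈ B := by
    intro m hm
    rw [mem_filter, mem_range] at hm
    obtain ⟨hm1, hm2⟩ := hm
    have hg := hgp m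
    obtain ⟨d, hd⟩ := Nat.gcd_dvd_right m f
    obtain ⟨m₁, hm₁⟩ := Nat.gcd_dvd_left m f
    have e1 : f / m.gcd f = d := Nat.div_eq_of_eq_mul_right hg hd
    have e2 : m / m.gcd f = m₁ := Nat.div_eq_of_eq_mul_right hg hm₁
    have hcop : (m / m.gcd f).Coprime (f / m.gcd f) := Nat.coprime_div_gcd_div_gcd hg
    rw [hB, mem_sigma, mem_filter, mem_filter, Nat.mem_divisors, mem_range]
    simp only [hφ]
    rw [e1, e2] at hcop ⊢
    refine ⟨⟨⟨⟨m.gcd f, by rw [mul_comm]; exact hd⟩, hf.ne'⟩, ?_⟩, ?_, hcop⟩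
    · by_contra hcon
      have hd1 : d = 1 := by
        have : d ≠ 0 := by
          rintro rfl
          rw [mul_zero] at hd
          omega
        omega
      apply hm2
      rw [hd1, mul_one] at hd
      exact ⟨m₁, by rw [← hd] at hm₁; exact hm₁⟩
    · have : m.gcd f * m₁ < m.gcd f * (P * d) := by
        calc m.gcd f * m₁ = m := hm₁.symm
          _ < P * f := hm1
          _ = P * (m.gcd f * d) := by rw [← hd]
          _ = m.gcd f * (P * d) := by ring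
      exact Nat.lt_of_mul_lt_mul_left this
  have hval : ∀ m ∈ (range (P * f)).filter (fun m => ¬ f ∣ m),
      y ^ (bet b ((U : ℝ) * ((m : ℝ) / ((P * f : ℕ) : ℝ))) j V) = F (φ m) := by
    intro m _
    simp only [hF, hφ]
    have hg := hgp m
    have hgr : (0 : ℝ) < (m.gcd f : ℕ) := by exact_mod_cast hg
    obtain ⟨d, hd⟩ := Nat.gcd_dvd_right m f
    obtain ⟨m₁, hm₁⟩ := Nat.gcd_dvd_left m f
    have e1 : f / m.gcd f = d := Nat.div_eq_of_eq_mul_right hg hd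
    have e2 : m / m.gcd f = m₁ := Nat.div_eq_of_eq_mul_right hg hm₁
    rw [e1, e2]
    have hdr : (d : ℝ) ≠ 0 := by
      intro h
      have : d = 0 := by exact_mod_cast h
      rw [this, mul_zero] at hd
      omega
    have h2 : ((m : ℝ) / ((P * f : ℕ) : ℝ)) = (m₁ : ℝ) / ((P * d : ℕ) : ℝ) := by
      have h3 : (m : ℝ) = (m.gcd f : ℕ) * m₁ := by exact_mod_cast hm₁
      have h4 : (f : ℝ) = (m.gcd f : ℕ) * d := by exact_mod_cast hd
      push_cast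
      rw [div_eq_div_iff (by positivity) (by positivity)]
      rw [show (m : ℝ) * (P * d) = ((m.gcd f : ℕ) * m₁) * (P * d) by rw [← h3],
        show (m₁ : ℝ) * (P * f) = m₁ * (P * ((m.gcd f : ℕ) * d)) by rw [← h4]]
      ring
    rw [h2]
  have hinj : ∀ a ∈ (range (P * f)).filter (fun m => ¬ f ∣ m), ∀ c ∈ (range (P * f)).filter (fun m => ¬ f ∣ m),
      φ a = φ c → a = c := by
    intro a _ c _ h
    simp only [hφ, Sigma.mk.injEq, heq_eq_eq] at h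
    obtain ⟨h3, h4⟩ := h
    have e1 : a.gcd f = c.gcd f := by
      have e2 := Nat.div_mul_cancel (Nat.gcd_dvd_right a f)
      have e3 := Nat.div_mul_cancel (Nat.gcd_dvd_right c f)
      have e4 : 0 < f / c.gcd f := Nat.div_pos (Nat.gcd_le_right _ hf) (hgp c)
      rw [h3] at e2
      exact Nat.eq_of_mul_eq_mul_left e4 (e2.trans e3.symm)
    have e5 := Nat.div_mul_cancel (Nat.gcd_dvd_left a f)
    have e6 := Nat.div_mul_cancel (Nat.gcd_dvd_left c f)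
    rw [← e5, ← e6, h4, e1]
  rw [h1]
  unfold GG
  rw [sum_congr rfl hval, ← sum_image (f := F) (fun a ha c hc h => hinj a ha c hc h)]
  refine sum_le_sum_of_subset_of_nonneg ?_ fun p _ _ => by simp only [hF]; positivity
  intro p hp
  rw [mem_image] at hp
  obtain ⟨m, hm, rfl⟩ := hp
  exact hmap m hm

/-- the separation of the points -/
lemma sep_aux (b W P d d' m m' M : ℕ) (U N : ℤ) (j : ℕ) (hb : 1 ≤ b)
    (hP : 0 < P) (hd : 0 < d) (hd' : 0 < d') (hM : P * (d * d') < M) (hW : M ≤ b ^ W)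
    (hne : (b : ℤ) ^ j * U * (m * d' - m' * d) ≠ N * (P * (d * d'))) :
    1 / (b : ℝ) ^ W < |(b : ℝ) ^ j * ((U : ℝ) * ((m : ℝ) / ((P * d : ℕ) : ℝ)) -
      (U : ℝ) * ((m' : ℝ) / ((P * d' : ℕ) : ℝ))) - N| := by
  have hPr : (0 : ℝ) < P := by exact_mod_cast hP
  have hdr : (0 : ℝ) < d := by exact_mod_cast hd
  have hdr' : (0 : ℝ) < d' := by exact_mod_cast hd'
  have h1 : (b : ℝ) ^ j * ((U : ℝ) * ((m : ℝ) / ((P * d : ℕ) : ℝ)) -
      (U : ℝ) * ((m' : ℝ) / ((P * d' : ℕ) : ℝ))) - N =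
      (((b : ℤ) ^ j * U * (m * d' - m' * d) - N * (P * (d * d')) : ℤ) : ℝ) / (P * (d * d')) := by
    push_cast
    field_simp
  rw [h1, abs_div, abs_of_pos (by positivity : (0 : ℝ) < P * (d * d'))]
  have h2 : (1 : ℝ) ≤ |(((b : ℤ) ^ j * U * (m * d' - m' * d) - N * (P * (d * d')) : ℤ) : ℝ)| := by
    have := Int.one_le_abs (sub_ne_zero.2 hne)
    exact_mod_cast this
  have h3 : (P : ℝ) * (d * d') < (b : ℝ) ^ W := by
    have : P * (d * d') < b ^ W := lt_of_lt_of_le hM hW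
    exact_mod_cast this
  calc 1 / (b : ℝ) ^ W < 1 / ((P : ℝ) * (d * d')) := one_div_lt_one_div_of_lt (by positivity) h3
    _ ≤ _ := div_le_div_of_nonneg_right h2 (by positivity)

/-- moduli of one size -/
lemma S_bound (b : ℕ) (hb : 1 ≤ b) (y : ℝ) (hy0 : 0 ≤ y) (hy1 : y ≤ 1) (U : ℤ) (j V P W C M : ℕ)
    (hC : 1 ≤ C) (hV : W * C ≤ V) (hP : 0 < P) (𝒟 : Finset ℕ) (hM : P * (M * M) ≤ b ^ W)
    (h𝒟 : ∀ d ∈ 𝒟, 1 < d ∧ d < M ∧ IsCoprime ((P * d : ℕ) : ℤ) ((b : ℤ) * U)) :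
    ∑ d ∈ 𝒟, Gs b y U j V P d ≤ C * ((1 + 2 * b * y ^ C) ^ W - 1) := by
  classical
  set s : Finset (Σ _ : ℕ, ℕ) := 𝒟.sigma (fun d => (range (P * d)).filter (fun m => m.Coprime d)) with hs
  have h1 : ∑ d ∈ 𝒟, Gs b y U j V P d =
      ∑ p ∈ s, y ^ (bet b ((U : ℝ) * ((p.2 : ℝ) / ((P * p.1 : ℕ) : ℝ))) j V) := by
    rw [hs, sum_sigma]
    rfl
  rw [h1]
  have hmem : ∀ p ∈ s, 0 < p.1 ∧ 1 < p.1 ∧ p.1 < M ∧ IsCoprime ((P * p.1 : ℕ) : ℤ) ((b : ℤ) * U) ∧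
      p.2 < P * p.1 ∧ p.2.Coprime p.1 := by
    intro p hp
    rw [hs, mem_sigma, mem_filter, mem_range] at hp
    obtain ⟨h2, h3, h4⟩ := h𝒟 p.1 hp.1
    exact ⟨by omega, h2, h3, h4, hp.2.1, hp.2.2⟩
  have hpow : ∀ i : ℕ, ∀ z : ℤ, IsCoprime z ((b : ℤ) * U) → IsCoprime z ((b : ℤ) ^ i * U) := by
    intro i z hz
    exact IsCoprime.mul_right (IsCoprime.pow_right (IsCoprime.of_mul_right_left hz))
      (IsCoprime.of_mul_right_right hz)
  refine multi_sum b hb y hy0 hy1 j W C V hC hV s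
    (fun p => (U : ℝ) * ((p.2 : ℝ) / ((P * p.1 : ℕ) : ℝ))) ?_ ?_
  · intro p hp p' hp' hne i N
    obtain ⟨a1, a2, a3, a4, a5, a6⟩ := hmem p hp
    obtain ⟨b1, b2, b3, b4, b5, b6⟩ := hmem p' hp'
    refine sep_aux b W P p.1 p'.1 p.2 p'.2 (P * (M * M)) U N i hb hP a1 b1 ?_ hM ?_
    · exact Nat.mul_lt_mul_of_pos_left (Nat.mul_lt_mul_of_lt_of_lt a3 b3) hP
    · intro heq
      apply hne
      have c1 : ((P * p.1 * p'.1 : ℕ) : ℤ) ∣ (b : ℤ) ^ i * U * (p.2 * p'.1 - p'.2 * p.1) := by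
        rw [heq]
        push_cast
        exact ⟨N, by ring⟩
      have c2 : IsCoprime ((P * p.1 * p'.1 : ℕ) : ℤ) ((b : ℤ) ^ i * U) := by
        push_cast
        refine IsCoprime.mul_left ?_ ?_
        · have := hpow i _ a4
          push_cast at this
          exact this
        · have := hpow i _ b4
          push_cast at this
          exact IsCoprime.of_mul_left_right this
      have c3 : ((P * p.1 * p'.1 : ℕ) : ℤ) ∣ ((p.2 : ℤ) * p'.1 - p'.2 * p.1) := c2.dvd_of_dvd_mul_left c1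
      have c4 : (p.1 : ℤ) ∣ (p.2 : ℤ) * p'.1 := by
        have e1 : (p.1 : ℤ) ∣ ((p.2 : ℤ) * p'.1 - p'.2 * p.1) := by
          refine dvd_trans ?_ c3
          push_cast
          exact ⟨P * p'.1, by ring⟩
        have e2 : (p.2 : ℤ) * p'.1 = ((p.2 : ℤ) * p'.1 - p'.2 * p.1) + p'.2 * p.1 := by ring
        rw [e2]
        exact dvd_add e1 (dvd_mul_left _ _)
      have c5 : (p'.1 : ℤ) ∣ (p'.2 : ℤ) * p.1 := by
        have e1 : (p'.1 : ℤ) ∣ ((p.2 : ℤ) * p'.1 - p'.2 * p.1) := by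
          refine dvd_trans ?_ c3
          push_cast
          exact ⟨P * p.1, by ring⟩
        have e2 : (p'.2 : ℤ) * p.1 = (p.2 : ℤ) * p'.1 - ((p.2 : ℤ) * p'.1 - p'.2 * p.1) := by ring
        rw [e2]
        exact dvd_sub (dvd_mul_left _ _) e1
      have c6 : p.1 ∣ p'.1 := by
        have e1 : p.1 ∣ p.2 * p'.1 := by exact_mod_cast c4
        exact (Nat.Coprime.dvd_mul_left a6.symm).1 e1
      have c7 : p'.1 ∣ p.1 := by
        have e1 : p'.1 ∣ p'.2 * p.1 := by exact_mod_cast c5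
        exact (Nat.Coprime.dvd_mul_left b6.symm).1 e1
      have c8 : p.1 = p'.1 := Nat.dvd_antisymm c6 c7
      have c9 : ((P * p.1 : ℕ) : ℤ) ∣ ((p.2 : ℤ) - p'.2) := by
        rw [← c8] at c3
        have e1 : ((p.2 : ℤ) * p.1 - p'.2 * p.1) = ((p.2 : ℤ) - p'.2) * p.1 := by ring
        rw [e1] at c3
        have e2 : ((P * p.1 * p.1 : ℕ) : ℤ) = ((P * p.1 : ℕ) : ℤ) * (p.1 : ℤ) := by push_cast; ring
        rw [e2] at c3
        exact Int.dvd_of_mul_dvd_mul_right (by exact_mod_cast a1.ne') c3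
      have c10 : p.2 = p'.2 := by
        rw [← c8] at b5
        have e1 : p.2 ≡ p'.2 [MOD (P * p.1)] := by
          rw [Nat.modEq_iff_dvd]
          rw [← neg_sub]
          exact (dvd_neg).2 c9
        exact Nat.ModEq.eq_of_lt_of_lt e1 a5 b5
      exact Sigma.ext c8 (heq_of_eq c10)
  · intro p hp i N
    obtain ⟨a1, a2, a3, a4, a5, a6⟩ := hmem p hp
    have h2 := sep_aux b W P p.1 1 p.2 0 (P * (M * M)) U N i hb hP a1 one_pos ?_ hM ?_
    · simpa using h2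
    · exact Nat.mul_lt_mul_of_pos_left (Nat.mul_lt_mul_of_lt_of_lt a3 (by omega)) hP
    · intro heq
      have c1 : ((P * p.1 : ℕ) : ℤ) ∣ (b : ℤ) ^ i * U * (p.2 : ℤ) := by
        have e1 : (b : ℤ) ^ i * U * (p.2 : ℤ) = N * (P * p.1) := by
          have := heq
          push_cast at this
          linear_combination this
        rw [e1]
        push_cast
        exact ⟨N, by ring⟩
      have c3 : ((P * p.1 : ℕ) : ℤ) ∣ (p.2 : ℤ) := (hpow i _ a4).dvd_of_dvd_mul_left c1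
      have c4 : p.1 ∣ p.2 := by
        have e1 : P * p.1 ∣ p.2 := by exact_mod_cast c3
        exact (dvd_mul_left _ _).trans e1
      have c5 : p.1 = 1 := by
        have := Nat.Coprime.eq_one_of_dvd a6.symm c4
        exact this
      omega

/-- the moduli `P` alone -/
lemma GG_one (b : ℕ) (hb : 1 ≤ b) (y : ℝ) (hy0 : 0 ≤ y) (hy1 : y ≤ 1) (U : ℤ) (j V P W C : ℕ)
    (hC : 1 ≤ C) (hV : W * C ≤ V) (hP : 0 < P) (hM : P < b ^ W)
    (hcop : IsCoprime (P : ℤ) ((b : ℤ) * U)) :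
    GG b y U j V 1 P ≤ C * ((1 + 2 * b * y ^ C) ^ W - 1) := by
  classical
  unfold GG
  have hpow : ∀ i : ℕ, IsCoprime (P : ℤ) ((b : ℤ) ^ i * U) := by
    intro i
    exact IsCoprime.mul_right (IsCoprime.pow_right (IsCoprime.of_mul_right_left hcop))
      (IsCoprime.of_mul_right_right hcop)
  have hPr : (0 : ℝ) < P := by exact_mod_cast hP
  have key : ∀ (i m m' : ℕ) (N : ℤ), (b : ℤ) ^ i * U * (m - m') ≠ N * P →
      1 / (b : ℝ) ^ W < |(b : ℝ) ^ i * ((U : ℝ) * ((m : ℝ) / ((1 * P : ℕ) : ℝ)) -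
        (U : ℝ) * ((m' : ℝ) / ((1 * P : ℕ) : ℝ))) - N| := by
    intro i m m' N hne
    have h1 : (b : ℝ) ^ i * ((U : ℝ) * ((m : ℝ) / ((1 * P : ℕ) : ℝ)) -
        (U : ℝ) * ((m' : ℝ) / ((1 * P : ℕ) : ℝ))) - N =
        (((b : ℤ) ^ i * U * (m - m') - N * P : ℤ) : ℝ) / P := by
      push_cast
      field_simp
    rw [h1, abs_div, abs_of_pos hPr]
    have h2 : (1 : ℝ) ≤ |(((b : ℤ) ^ i * U * (m - m') - N * P : ℤ) : ℝ)| := by
      have := Int.one_le_abs (sub_ne_zero.2 hne)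
      exact_mod_cast this
    have h3 : (P : ℝ) < (b : ℝ) ^ W := by exact_mod_cast hM
    calc 1 / (b : ℝ) ^ W < 1 / (P : ℝ) := one_div_lt_one_div_of_lt (by positivity) h3
      _ ≤ _ := div_le_div_of_nonneg_right h2 hPr.le
  refine multi_sum b hb y hy0 hy1 j W C V hC hV _
    (fun m : ℕ => (U : ℝ) * ((m : ℝ) / ((1 * P : ℕ) : ℝ))) ?_ ?_
  · intro m hm m' hm' hne i N
    rw [mem_filter, mem_range, one_mul] at hm hm'
    refine key i m m' N ?_
    intro heq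
    apply hne
    have c1 : (P : ℤ) ∣ (b : ℤ) ^ i * U * ((m : ℤ) - m') := by rw [heq]; exact dvd_mul_left _ _
    have c2 : (P : ℤ) ∣ ((m : ℤ) - m') := (hpow i).dvd_of_dvd_mul_left c1
    have e1 : m ≡ m' [MOD P] := by
      rw [Nat.modEq_iff_dvd, ← neg_sub]
      exact (dvd_neg).2 c2
    exact Nat.ModEq.eq_of_lt_of_lt e1 hm.1 hm'.1
  · intro m hm i N
    rw [mem_filter, mem_range, one_mul] at hm
    have h2 := key i m 0 N ?_
    · simpa using h2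
    · intro heq
      have c1 : (P : ℤ) ∣ (b : ℤ) ^ i * U * ((m : ℤ) - (0 : ℕ)) := by rw [heq]; exact dvd_mul_left _ _
      have c2 : (P : ℤ) ∣ ((m : ℤ) - (0 : ℕ)) := (hpow i).dvd_of_dvd_mul_left c1
      apply hm.2
      have c3 : (P : ℤ) ∣ (m : ℤ) := by simpa using c2
      exact_mod_cast c3

/-- all moduli -/
lemma sum_GG (b : ℕ) (y : ℝ) (hy0 : 0 ≤ y) (U : ℤ) (j V P X : ℕ) (hP : 0 < P)
    (w : ℕ → ℝ) (hw0 : ∀ n, 0 ≤ w n) (hwm : ∀ a c, w (a * c) ≤ w a * w c)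
    (E 𝒟 : Finset ℕ) (hE : ∀ f ∈ E, 0 < f ∧ f ≤ X) (h𝒟 : ∀ f ∈ E, ∀ d, d ∣ f → 1 < d → d ∈ 𝒟)
    (h𝒟1 : ∀ d ∈ 𝒟, 1 < d) :
    ∑ f ∈ E, w f / f * GG b y U j V P f ≤
      (∑ t ∈ Icc 1 X, w t / t) * ∑ d ∈ 𝒟, w d / d * Gs b y U j V P d := by
  classical
  have h1 : ∀ f ∈ E, w f / f * GG b y U j V P f ≤
      ∑ d ∈ 𝒟, if d ∣ f then w f / f * Gs b y U j V P d else 0 := by
    intro f hf
    obtain ⟨hf0, hfX⟩ := hE f hf
    have h2 : GG b y U j V P f ≤ ∑ d ∈ 𝒟.filter (fun d => d ∣ f), Gs b y U j V P d := by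
      refine (GG_le b y hy0 U j V P f hP hf0).trans ?_
      refine sum_le_sum_of_subset_of_nonneg ?_ fun d _ _ => Gs_nonneg b y hy0 U j V P d
      intro d hd
      rw [mem_filter, Nat.mem_divisors] at hd
      rw [mem_filter]
      exact ⟨h𝒟 f hf d hd.1.1 hd.2, hd.1.1⟩
    calc w f / f * GG b y U j V P f ≤ w f / f * ∑ d ∈ 𝒟.filter (fun d => d ∣ f), Gs b y U j V P d :=
          mul_le_mul_of_nonneg_left h2 (div_nonneg (hw0 _) (Nat.cast_nonneg _))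
      _ = ∑ d ∈ 𝒟, if d ∣ f then w f / f * Gs b y U j V P d else 0 := by
          rw [mul_sum, sum_filter]
  refine (sum_le_sum h1).trans ?_
  rw [sum_comm, mul_sum]
  refine sum_le_sum fun d hd => ?_
  have hd1 := h𝒟1 d hd
  have hdr : (0 : ℝ) < d := by exact_mod_cast (by omega : 0 < d)
  have hG := Gs_nonneg b y hy0 U j V P d
  have h3 : ∑ f ∈ E, (if d ∣ f then w f / f * Gs b y U j V P d else 0) =
      (∑ f ∈ E.filter (fun f => d ∣ f), w f / f) * Gs b y U j V P d := by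
    rw [← sum_filter, sum_mul]
  rw [h3]
  have h4 : ∑ f ∈ E.filter (fun f => d ∣ f), w f / f ≤ (w d / d) * ∑ t ∈ Icc 1 X, w t / t := by
    have h5 : ∀ f ∈ E.filter (fun f => d ∣ f), w f / f ≤ (w d / d) * (w (f / d) / ((f / d : ℕ) : ℝ)) := by
      intro f hf
      rw [mem_filter] at hf
      obtain ⟨hf1, t, rfl⟩ := hf
      have hdt : 0 < d * t := (hE _ hf1).1
      have ht : 0 < t := Nat.pos_of_mul_pos_left hdt
      have htr : (0 : ℝ) < t := by exact_mod_cast ht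
      rw [Nat.mul_div_cancel_left t (by omega)]
      push_cast
      rw [div_mul_div_comm]
      exact div_le_div_of_nonneg_right (hwm d t) (by positivity)
    refine (sum_le_sum h5).trans ?_
    rw [← mul_sum]
    apply mul_le_mul_of_nonneg_left _ (div_nonneg (hw0 _) hdr.le)
    have hinj : ∀ a ∈ E.filter (fun f => d ∣ f), ∀ c ∈ E.filter (fun f => d ∣ f), a / d = c / d → a = c := by
      intro a ha c hc h
      rw [mem_filter] at ha hc
      rw [← Nat.div_mul_cancel ha.2, ← Nat.div_mul_cancel hc.2, h]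
    rw [← sum_image (f := fun t : ℕ => w t / (t : ℝ)) (fun a ha c hc h => hinj a ha c hc h)]
    refine sum_le_sum_of_subset_of_nonneg ?_ fun t _ _ => div_nonneg (hw0 _) (Nat.cast_nonneg _)
    intro t ht
    rw [mem_image] at ht
    obtain ⟨f, hf, rfl⟩ := ht
    rw [mem_filter] at hf
    obtain ⟨hf0, hfX⟩ := hE f hf.1
    rw [mem_Icc]
    refine ⟨Nat.div_pos (Nat.le_of_dvd hf0 hf.2) (by omega), (Nat.div_le_self _ _).trans hfX⟩
  calc (∑ f ∈ E.filter (fun f => d ∣ f), w f / f) * Gs b y U j V P d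
      ≤ ((w d / d) * ∑ t ∈ Icc 1 X, w t / t) * Gs b y U j V P d := mul_le_mul_of_nonneg_right h4 hG
    _ = _ := by ring

/-- dyadic decomposition -/
lemma dyadic (b : ℕ) (y : ℝ) (hy0 : 0 ≤ y) (U : ℤ) (j V P J : ℕ)
    (w : ℕ → ℝ) (A₀ : ℝ) (hA₀ : 0 ≤ A₀) (hw : ∀ d, 1 < d → w d ≤ A₀ * (4 / 3) ^ (Nat.log 2 d))
    (𝒟 : Finset ℕ) (h𝒟 : ∀ d ∈ 𝒟, 1 < d ∧ d < 2 ^ J) (S : ℕ → ℝ)
    (hS : ∀ k < J, ∑ d ∈ 𝒟.filter (fun d => Nat.log 2 d = k), Gs b y U j V P d ≤ S k) :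
    ∑ d ∈ 𝒟, w d / d * Gs b y U j V P d ≤ A₀ * ∑ k ∈ range J, (2 / 3) ^ k * S k := by
  classical
  have hmap : ∀ d ∈ 𝒟, Nat.log 2 d ∈ range J := by
    intro d hd
    obtain ⟨h1, h2⟩ := h𝒟 d hd
    rw [mem_range]
    exact Nat.log_lt_of_lt_pow (by omega) h2
  rw [← sum_fiberwise_of_maps_to hmap, mul_sum]
  refine sum_le_sum fun k hk => ?_
  rw [mem_range] at hk
  have h1 : ∀ d ∈ 𝒟.filter (fun d => Nat.log 2 d = k), w d / d * Gs b y U j V P d ≤
      (A₀ * (2 / 3) ^ k) * Gs b y U j V P d := by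
    intro d hd
    rw [mem_filter] at hd
    obtain ⟨hd1, hd2⟩ := hd
    obtain ⟨h3, h4⟩ := h𝒟 d hd1
    apply mul_le_mul_of_nonneg_right _ (Gs_nonneg b y hy0 U j V P d)
    have hdr : (0 : ℝ) < d := by exact_mod_cast (by omega : 0 < d)
    rw [div_le_iff₀ hdr]
    have h5 : (2 : ℝ) ^ k ≤ d := by
      have : 2 ^ Nat.log 2 d ≤ d := Nat.pow_log_le_self 2 (by omega)
      rw [hd2] at this
      exact_mod_cast this
    have h6 := hw d h3
    rw [hd2] at h6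
    calc w d ≤ A₀ * (4 / 3) ^ k := h6
      _ = A₀ * (2 / 3) ^ k * 2 ^ k := by rw [mul_assoc, ← mul_pow]; norm_num
      _ ≤ A₀ * (2 / 3) ^ k * d := by gcongr
  calc ∑ d ∈ 𝒟.filter (fun d => Nat.log 2 d = k), w d / d * Gs b y U j V P d
      ≤ ∑ d ∈ 𝒟.filter (fun d => Nat.log 2 d = k), (A₀ * (2 / 3) ^ k) * Gs b y U j V P d := sum_le_sum h1
    _ = (A₀ * (2 / 3) ^ k) * ∑ d ∈ 𝒟.filter (fun d => Nat.log 2 d = k), Gs b y U j V P d := by rw [mul_sum]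
    _ ≤ (A₀ * (2 / 3) ^ k) * S k := by gcongr; exact hS k hk
    _ = A₀ * ((2 / 3) ^ k * S k) := by ring

end Pool.Agent.Run7.h620.PD
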