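import Pool.Agent.Run7.h620.PD.Four
import Pool.Agent.Run7.h620.PD.Sum

set_option autoImplicit false

/-! Palindromes with two digits in residue classes. -/

namespace Pool.Agent.Run7.h620.PD

open Finset
open Pool.Agent.H469R2.NK (e norm_e e_add e_zero)
open Pool.Agent.TH915.PW (e_int sum_char)

/-- number of the members in a residue class -/
noncomputable def cnt {ι : Type*} (s : Finset ι) (v : ι → ℤ) (q : ℕ) (r : ℤ) : ℝ :=
  ((s.filter (fun i => (q : ℤ) ∣ v i - r)).card : ℝ)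

lemma cnt_nonneg {ι : Type*} (s : Finset ι) (v : ι → ℤ) (q : ℕ) (r : ℤ) : 0 ≤ cnt s v q r :=
  Nat.cast_nonneg _

lemma char_sum (q : ℕ) (hq : 0 < q) (m : ℤ) :
    ∑ h ∈ range q, e (m * ((h : ℝ) / q)) = if (q : ℤ) ∣ m then (q : ℂ) else 0 := by
  have hqr : (q : ℝ) ≠ 0 := by exact_mod_cast hq.ne'
  split_ifs with hm
  · obtain ⟨t, rfl⟩ := hm
    have : ∀ h ∈ range q, e (((q : ℤ) * t : ℤ) * ((h : ℝ) / q)) = 1 := by
      intro h _
      have e1 : (((q : ℤ) * t : ℤ) : ℝ) * ((h : ℝ) / q) = ((t * h : ℤ) : ℝ) := by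
        push_cast
        field_simp
      rw [e1]
      exact e_int _
    rw [sum_congr rfl this]
    simp
  · exact sum_char q hq m hm

/-- the terms of the expansion -/
noncomputable def term {ι : Type*} (s : Finset ι) (v : ι → ℤ) (r : ℤ) (x : ℝ) : ℂ :=
  e (-(r : ℝ) * x) * ∑ i ∈ s, e (x * v i)

lemma norm_term {ι : Type*} (s : Finset ι) (v : ι → ℤ) (r : ℤ) (x : ℝ) :
    ‖term s v r x‖ = ‖∑ i ∈ s, e (x * v i)‖ := by
  unfold term
  rw [norm_mul, norm_e, one_mul]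

lemma cnt_exp {ι : Type*} (s : Finset ι) (v : ι → ℤ) (q : ℕ) (hq : 0 < q) (r : ℤ) :
    ((q : ℝ) * cnt s v q r : ℝ) = ∑ h ∈ range q, term s v r ((h : ℝ) / q) := by
  have h1 : ∀ h ∈ range q, term s v r ((h : ℝ) / q) = ∑ i ∈ s, e (((v i - r : ℤ) : ℝ) * ((h : ℝ) / q)) := by
    intro h _
    unfold term
    rw [mul_sum]
    refine sum_congr rfl fun i _ => ?_
    rw [← e_add]
    congr 1
    push_cast
    ring
  rw [sum_congr rfl h1, sum_comm, sum_congr rfl (fun i _ => char_sum q hq (v i - r)), ← sum_filter,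
    sum_const, nsmul_eq_mul]
  unfold cnt
  push_cast
  ring

lemma cnt_diff {ι : Type*} (s : Finset ι) (v : ι → ℤ) (q f : ℕ) (hq : 0 < q) (hf : 0 < f) (r : ℤ) :
    |cnt s v (q * f) r - cnt s v q r / f| ≤ (1 / ((q * f : ℕ) : ℝ)) *
      ∑ h ∈ (range (q * f)).filter (fun h => ¬ f ∣ h), ‖∑ i ∈ s, e ((h : ℝ) / ((q * f : ℕ) : ℝ) * v i)‖ := by
  have hqf : 0 < q * f := Nat.mul_pos hq hf
  have hqfr : (0 : ℝ) < ((q * f : ℕ) : ℝ) := by exact_mod_cast hqf
  have hfr : (0 : ℝ) < f := by exact_mod_cast hf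
  have hqr : (0 : ℝ) < q := by exact_mod_cast hq
  have h1 := cnt_exp s v (q * f) hqf r
  have h2 := cnt_exp s v q hq r
  have h3 : ∑ h ∈ (range (q * f)).filter (fun h => f ∣ h), term s v r ((h : ℝ) / ((q * f : ℕ) : ℝ)) =
      ∑ h ∈ range q, term s v r ((h : ℝ) / q) := by
    have hI : (range (q * f)).filter (fun h => f ∣ h) = (range q).image (fun t => f * t) := by
      ext i
      rw [mem_filter, mem_image, mem_range]
      constructor
      · rintro ⟨hi, t, rfl⟩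
        refine ⟨t, ?_, rfl⟩
        rw [mem_range]
        rw [mul_comm q f] at hi
        exact Nat.lt_of_mul_lt_mul_left hi
      · rintro ⟨t, ht, rfl⟩
        rw [mem_range] at ht
        refine ⟨?_, dvd_mul_right _ _⟩
        rw [mul_comm q f]
        exact Nat.mul_lt_mul_of_pos_left ht hf
    rw [hI, sum_image (fun a _ b _ h => Nat.eq_of_mul_eq_mul_left hf h)]
    refine sum_congr rfl fun t _ => ?_
    congr 1
    push_cast
    field_simp
  have h4 : (((q * f : ℕ) : ℝ) * (cnt s v (q * f) r - cnt s v q r / f) : ℝ) =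
      ∑ h ∈ (range (q * f)).filter (fun h => ¬ f ∣ h), term s v r ((h : ℝ) / ((q * f : ℕ) : ℝ)) := by
    have h5 : (((q * f : ℕ) : ℝ) * (cnt s v (q * f) r - cnt s v q r / f) : ℝ) =
        ((q * f : ℕ) : ℝ) * cnt s v (q * f) r - (q : ℝ) * cnt s v q r := by
      push_cast
      field_simp
    rw [h5, Complex.ofReal_sub, h1, h2, ← h3, ← sum_filter_add_sum_filter_not (range (q * f)) (fun h => f ∣ h)]
    ring
  have h6 : ((q * f : ℕ) : ℝ) * |cnt s v (q * f) r - cnt s v q r / f| ≤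
      ∑ h ∈ (range (q * f)).filter (fun h => ¬ f ∣ h), ‖∑ i ∈ s, e ((h : ℝ) / ((q * f : ℕ) : ℝ) * v i)‖ := by
    have h7 : ((q * f : ℕ) : ℝ) * |cnt s v (q * f) r - cnt s v q r / f| =
        ‖((((q * f : ℕ) : ℝ) * (cnt s v (q * f) r - cnt s v q r / f) : ℝ) : ℂ)‖ := by
      rw [Complex.norm_real, Real.norm_eq_abs, abs_mul, abs_of_pos hqfr]
    rw [h7, h4]
    refine (norm_sum_le _ _).trans (le_of_eq ?_)
    exact sum_congr rfl fun h _ => norm_term s v r _
  rw [one_div, inv_mul_eq_div, le_div_iff₀ hqfr]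
  linarith

lemma sum_range_periodic (n R : ℕ) (F : ℕ → ℝ) (hF : ∀ h, F (h + n) = F h) :
    ∑ h ∈ range (R * n), F h = R * ∑ h ∈ range n, F h := by
  have h1 : ∀ k t, F (k * n + t) = F t := by
    intro k
    induction k with
    | zero => intro t; rw [zero_mul, zero_add]
    | succ k ih =>
      intro t
      have : (k + 1) * n + t = k * n + t + n := by ring
      rw [this, hF, ih]
  induction R with
  | zero => simp
  | succ R ih =>
    rw [add_mul, one_mul, sum_range_add, ih, sum_congr rfl (fun t _ => h1 R t)]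
    push_cast
    ring

lemma cnt_pal (b K H R P f : ℕ) (n₀ D r : ℤ) (hb : 1 ≤ b) (hR : 1 ≤ R) (hH : 1 ≤ H) (hK : H + 1 ≤ K)
    (hP : 0 < P) (hf : 0 < f) :
    |cnt (Icc 1 H).powerset (vv b K n₀ D) (R * P * f) r - cnt (Icc 1 H).powerset (vv b K n₀ D) (R * P) r / f| ≤
      2 ^ H / ((P * f : ℕ) : ℝ) * GG b (yy b R) (((b : ℤ) ^ 2 - 1) * D) (K - 1 - H) (H - 1) P f := by
  have hRr : (0 : ℝ) < R := by exact_mod_cast hR
  have hPr : (0 : ℝ) < P := by exact_mod_cast hP
  have hfr : (0 : ℝ) < f := by exact_mod_cast hf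
  have hy := yy_pos b R hb hR
  refine (cnt_diff (Icc 1 H).powerset (vv b K n₀ D) (R * P) f (Nat.mul_pos hR hP) hf r).trans ?_
  set U : ℤ := ((b : ℤ) ^ 2 - 1) * D with hU
  set F : ℕ → ℝ := fun h => if f ∣ h then 0 else
    (yy b R) ^ (bet b ((U : ℝ) * ((h : ℝ) / ((P * f : ℕ) : ℝ))) (K - 1 - H) (H - 1)) with hF
  have hper : ∀ h, F (h + P * f) = F h := by
    intro h
    simp only [hF]
    have e1 : f ∣ h + P * f ↔ f ∣ h := (Nat.dvd_add_left (dvd_mul_left f P))
    have e2 : (U : ℝ) * (((h + P * f : ℕ) : ℝ) / ((P * f : ℕ) : ℝ)) =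
        (U : ℝ) * ((h : ℝ) / ((P * f : ℕ) : ℝ)) + (U : ℤ) := by
      push_cast
      field_simp
    rw [e2, bet_add_int]
    simp only [e1]
  have h1 : ∀ h ∈ (range (R * P * f)).filter (fun h => ¬ f ∣ h),
      ‖∑ S ∈ (Icc 1 H).powerset, e ((h : ℝ) / ((R * P * f : ℕ) : ℝ) * (vv b K n₀ D S : ℝ))‖ ≤ 2 ^ H * F h := by
    intro h hh
    rw [mem_filter] at hh
    have h2 := four_le b K H R n₀ D hb hR hH hK ((h : ℝ) / ((R * P * f : ℕ) : ℝ))
    refine h2.trans (le_of_eq ?_)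
    simp only [hF, if_neg hh.2]
    congr 3
    rw [hU]
    push_cast
    field_simp
  have h2 : ∑ h ∈ (range (R * P * f)).filter (fun h => ¬ f ∣ h), (2 : ℝ) ^ H * F h =
      R * (2 ^ H * GG b (yy b R) U (K - 1 - H) (H - 1) P f) := by
    rw [← mul_sum]
    have e1 : ∑ h ∈ (range (R * P * f)).filter (fun h => ¬ f ∣ h), F h = ∑ h ∈ range (R * (P * f)), F h := by
      rw [sum_filter, mul_assoc]
      refine sum_congr rfl fun h _ => ?_
      simp only [hF]
      split_ifs <;> simp_all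
    have e2 : GG b (yy b R) U (K - 1 - H) (H - 1) P f = ∑ h ∈ range (P * f), F h := by
      unfold GG
      rw [sum_filter]
      refine sum_congr rfl fun h _ => ?_
      simp only [hF]
      split_ifs <;> simp_all
    rw [e1, sum_range_periodic (P * f) R F hper, e2]
    ring
  calc (1 / ((R * P * f : ℕ) : ℝ)) * ∑ h ∈ (range (R * P * f)).filter (fun h => ¬ f ∣ h),
        ‖∑ S ∈ (Icc 1 H).powerset, e ((h : ℝ) / ((R * P * f : ℕ) : ℝ) * (vv b K n₀ D S : ℝ))‖
      ≤ (1 / ((R * P * f : ℕ) : ℝ)) * ∑ h ∈ (range (R * P * f)).filter (fun h => ¬ f ∣ h), 2 ^ H * F h := by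
        apply mul_le_mul_of_nonneg_left (sum_le_sum h1) (by positivity)
    _ = (1 / ((R * P * f : ℕ) : ℝ)) * (R * (2 ^ H * GG b (yy b R) U (K - 1 - H) (H - 1) P f)) := by rw [h2]
    _ = _ := by
        push_cast
        field_simp

end Pool.Agent.Run7.h620.PD
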