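import Pool.Agent.Run7.h620.PD.Cl

set_option autoImplicit false

/-! Palindromic primes with two digits in residue classes to large moduli, from above. -/

namespace Pool.Agent.Run7.h620.PD

open Finset Polynomial Filter

open Classical in
/-- primes in residue classes to large moduli, from above -/
theorem class_up (b : ℕ) (hb : 2 ≤ b) (e f : ℕ) (hef : f ≠ e) :
    ∃ C : ℝ, 0 < C ∧ ∃ η : ℝ, 0 < η ∧ ∀ᶠ K : ℕ in atTop, ∀ (q : ℕ) (a : ℤ), 0 < q →
      (q : ℝ) ≤ Real.exp (η * K / Real.log K) →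
      IsCoprime (q : ℤ) ((b : ℤ) * (((b : ℤ) ^ 2 - 1) * ((f : ℤ) - e))) →
      ∀ P : Finset ℕ, (∀ n ∈ P, IsPal b e f K n ∧ (q : ℤ) ∣ (n : ℤ) - a ∧ n.Prime) →
        (P.card : ℝ) ≤ C * (2 : ℝ) ^ ((K : ℝ) / 2) / (Nat.totient q * K) := by
  have hD : ((f : ℤ) - e) ≠ 0 := by omega
  obtain ⟨N, hN3, hN2, hcore⟩ := core3 b hb ((f : ℤ) - e) hD 1 le_rfl
  obtain ⟨c₂, hc₂, hWup⟩ := Wq_up N hN3
  obtain ⟨T, hT, η, hη, M₁, hM₁, hev⟩ := hcore N le_rfl 1 one_pos (by
    intro p hp hp1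
    have := Nat.le_of_dvd one_pos hp1
    have := hp.two_le
    omega)
  refine ⟨8 * (6 * c₂ * M₁ + T), by positivity, η, hη, ?_⟩
  have hcast := tendsto_natCast_atTop_atTop (R := ℝ)
  filter_upwards [hev, hcast.eventually_ge_atTop T, eventually_ge_atTop 12] with K hK hKT hK12 q a hq0 hqle hqcop P hP
  have hK0 : (0 : ℝ) < K := by
    have : 0 < K := by omega
    exact_mod_cast this
  have hqr : (0 : ℝ) < q := by exact_mod_cast hq0
  obtain ⟨J, hNJ, hKJ, hJK, hKJ2, hmain⟩ := hK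
  set H := (K - 2) / 2 with hH
  have hs1 : 1 ≤ sing q := one_le_sing q
  set W : ℝ := ∏ p ∈ PP N J, (1 - ((Zq q p).card : ℝ) / (p : ℝ)) with hW
  have hW0 : 0 ≤ W := by
    rw [hW]
    apply Finset.prod_nonneg
    intro p hp
    obtain ⟨hp1, hp2, hp3⟩ := (mem_PP N J p).1 hp
    have hp0 : (0 : ℝ) < p := by exact_mod_cast hp1.pos
    have h3 : (Zq q p).card ≤ p := (Zq_le q p).trans hp1.pos
    have h4 : ((Zq q p).card : ℝ) / p ≤ 1 := by
      rw [div_le_one hp0]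
      exact_mod_cast h3
    linarith
  have hWle : W ≤ c₂ * sing q * (2 * M₁) / K := by
    refine (hWup J q hNJ hq0).trans ?_
    rw [div_le_div_iff₀ (by positivity) hK0]
    have h4 : (K : ℝ) ≤ 2 * M₁ * 2 ^ J := by
      have h5 : (K : ℝ) ≤ M₁ * (2 ^ J * 2) := by
        rw [← pow_succ]
        exact_mod_cast hKJ2.le
      linarith
    calc c₂ * sing q * K ≤ c₂ * sing q * (2 * M₁ * 2 ^ J) := by gcongr
      _ = _ := by ring
  set GT : Finset ℕ → Finset (Finset ℕ) := fun T₀ => (((Icc 1 H).powerset.filter (fun S =>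
    ((1 * q : ℕ) : ℤ) ∣ vv b K (cT b K e f T₀) ((f : ℤ) - e) S - a)).filter
    (fun S => ∀ p ∈ PP N J, ¬ ∃ z ∈ Zq q p, (p : ℤ) ∣ vv b K (cT b K e f T₀) ((f : ℤ) - e) S - z)) with hGT
  have h1 : ∀ T₀ ∈ (Mid K).powerset, ((GT T₀).card : ℝ) ≤ 2 ^ H * (sing q / q) * (6 * c₂ * M₁ + T) / K := by
    intro T₀ hT₀
    rw [mem_powerset] at hT₀
    obtain ⟨g1, g2⟩ := hmain q (cT b K e f T₀) (Zq q) hq0 hqle (Nat.coprime_one_right q) hqcop
      (fun p hp _ => ⟨Zq_sub q p hp, Zq_le q p⟩) (by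
        intro p _ _ hpq
        unfold Zq
        rw [if_pos hpq]) (by
        intro S hS
        rw [mem_powerset] at hS
        rw [vv_cT b K e f T₀ S hT₀ hS]
        exact cT_nonneg b K e f _ (union_sub K T₀ S hT₀ hS)) a
    set A : ℝ := cnt (Icc 1 H).powerset (vv b K (cT b K e f T₀) ((f : ℤ) - e)) (1 * q) a with hA
    have hA1 : cnt (Icc 1 H).powerset (vv b K (cT b K e f T₀) ((f : ℤ) - e)) 1 a = 2 ^ H := by
      unfold cnt
      rw [filter_true_of_mem (fun S _ => by simp), card_powerset, Nat.card_Icc]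
      push_cast
      congr 1
    rw [hA1] at g1
    have hTK : T / K ≤ 1 := by
      rw [div_le_one hK0]
      exact hKT
    have hA2 : A ≤ 2 * (2 ^ H / q) := by
      have h2 := (abs_le.1 g1).2
      have h3 : (2 : ℝ) ^ H / q * (T / K) ≤ 2 ^ H / q * 1 := by gcongr
      linarith
    have hA0 : 0 ≤ A := cnt_nonneg _ _ _ _
    have h2 := (abs_le.1 g2).2
    have h3 : A * W ≤ 2 * (2 ^ H / q) * (c₂ * sing q * (2 * M₁) / K) := by
      apply mul_le_mul hA2 hWle hW0 (by positivity)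
    have h4 : (2 : ℝ) ^ H / q * (T / (K : ℝ) ^ (1 + 1)) ≤ 2 ^ H * (sing q / q) * T / K := by
      have hK1 : (1 : ℝ) ≤ K := by
        have : 1 ≤ K := by omega
        exact_mod_cast this
      have hKK : (K : ℝ) ^ 1 ≤ (K : ℝ) ^ (1 + 1) := pow_le_pow_right₀ hK1 (by norm_num)
      calc (2 : ℝ) ^ H / q * (T / (K : ℝ) ^ (1 + 1)) ≤ 2 ^ H / q * (T / (K : ℝ) ^ 1) := by
            apply mul_le_mul_of_nonneg_left _ (by positivity)
            exact div_le_div_of_nonneg_left hT (by positivity) hKK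
        _ = 2 ^ H * (1 / q) * T / K := by rw [pow_one]; ring
        _ ≤ _ := by gcongr
    have h5 : ((GT T₀).card : ℝ) - A * W ≤ 1 / 2 * (A * W) + 2 ^ H / q * (T / (K : ℝ) ^ (1 + 1)) := by
      refine le_trans (le_of_eq ?_) h2
      rw [hGT]
    have h6 : 2 ^ H * (sing q / q) * (6 * c₂ * M₁ + T) / K =
        3 / 2 * (2 * (2 ^ H / q) * (c₂ * sing q * (2 * M₁) / K)) + 2 ^ H * (sing q / q) * T / K := by ring
    rw [h6]
    linarith
  have h2 : P ⊆ (Mid K).powerset.biUnion (fun T₀ => (GT T₀).image (fun S => (vv b K (cT b K e f T₀) ((f : ℤ) - e) S).toNat)) := by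
    intro n hn
    obtain ⟨⟨g1, g2, g3⟩, g4, g5⟩ := hP n hn
    obtain ⟨T₀, hT₀, S, hS, hnS⟩ := exists_S b K e f n g1 g2 g3
    rw [mem_biUnion]
    refine ⟨T₀, hT₀, ?_⟩
    rw [mem_image]
    refine ⟨S, ?_, ?_⟩
    · rw [hGT, mem_filter, mem_filter]
      rw [one_mul, ← hnS]
      refine ⟨⟨hS, g4⟩, ?_⟩
      rintro p hp ⟨z, hz, hpz⟩
      obtain ⟨hp1, hp2, hp3⟩ := (mem_PP N J p).1 hp
      have hz0 : z = 0 := by
        unfold Zq at hz
        split_ifs at hz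
        · simp at hz
        · exact mem_singleton.1 hz
      rw [hz0, Nat.cast_zero, sub_zero] at hpz
      have h5 : p = n := (Nat.prime_dvd_prime_iff_eq hp1 g5).1 (by exact_mod_cast hpz)
      have h7 : b ^ (K - 1) ≤ n := by
        have := Nat.base_pow_length_digits_le b n (by omega) g5.ne_zero
        rw [g1] at this
        have h4 : b ^ K = b * b ^ (K - 1) := by rw [← pow_succ']; congr 1; omega
        rw [h4] at this
        exact Nat.le_of_mul_le_mul_left this (by omega)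
      have h8 : 2 ^ ((K - 1) * 3) ≤ 2 ^ K := by
        calc 2 ^ ((K - 1) * 3) = (2 ^ (K - 1)) ^ 3 := by rw [pow_mul]
          _ ≤ (b ^ (K - 1)) ^ 3 := Nat.pow_le_pow_left (Nat.pow_le_pow_left hb _) _
          _ ≤ p ^ 3 := by rw [h5]; exact Nat.pow_le_pow_left h7 _
          _ ≤ (2 ^ 2 ^ J) ^ 3 := Nat.pow_le_pow_left hp3 _
          _ ≤ (2 ^ 2 ^ J) ^ M₁ := Nat.pow_le_pow_right (Nat.pow_pos (by norm_num)) hM₁
          _ = 2 ^ (M₁ * 2 ^ J) := by rw [← pow_mul, mul_comm]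
          _ ≤ 2 ^ K := Nat.pow_le_pow_right (by norm_num) hJK
      have h9 := (Nat.pow_le_pow_iff_right (by norm_num : 1 < 2)).1 h8
      omega
    · rw [← hnS]
      rfl
  have h3 : (P.card : ℝ) ≤ ∑ T₀ ∈ (Mid K).powerset, ((GT T₀).card : ℝ) := by
    have h4 : P.card ≤ ∑ T₀ ∈ (Mid K).powerset, (GT T₀).card := by
      refine (card_le_card h2).trans (card_biUnion_le.trans ?_)
      exact sum_le_sum fun T₀ _ => card_image_le
    exact_mod_cast h4
  have h5 : (((Mid K).powerset.card : ℕ) : ℝ) ≤ 8 := by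
    rw [card_powerset]
    have : 2 ^ (Mid K).card ≤ 2 ^ 3 := Nat.pow_le_pow_right (by norm_num) (Mid_card K (by omega))
    exact_mod_cast this
  have h6 : (2 : ℝ) ^ H ≤ (2 : ℝ) ^ ((K : ℝ) / 2) := by
    rw [← Real.rpow_natCast]
    apply Real.rpow_le_rpow_of_exponent_le (by norm_num)
    have : 2 * H ≤ K := by omega
    have : (2 * H : ℝ) ≤ K := by exact_mod_cast this
    linarith
  have htot := (sing_tot q).1
  have htot0 : (0 : ℝ) < Nat.totient q := by exact_mod_cast Nat.totient_pos.2 hq0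
  have h7 : sing q / q ≤ 1 / (Nat.totient q : ℝ) := by
    rw [div_le_div_iff₀ hqr htot0]
    linarith
  calc (P.card : ℝ) ≤ ∑ T₀ ∈ (Mid K).powerset, ((GT T₀).card : ℝ) := h3
    _ ≤ ∑ _T₀ ∈ (Mid K).powerset, (2 ^ H * (sing q / q) * (6 * c₂ * M₁ + T) / K) := sum_le_sum h1
    _ = ((Mid K).powerset.card : ℝ) * (2 ^ H * (sing q / q) * (6 * c₂ * M₁ + T) / K) := by rw [sum_const, nsmul_eq_mul]
    _ ≤ 8 * ((2 : ℝ) ^ ((K : ℝ) / 2) * (1 / (Nat.totient q : ℝ)) * (6 * c₂ * M₁ + T) / K) := by gcongr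
    _ = _ := by
      field_simp

end Pool.Agent.Run7.h620.PD
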