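import Pool.Agent.Run7.h620.PD.Lev
import Pool.Agent.Run7.h620.PD.Pal2

set_option autoImplicit false

/-! All palindromes with two digits: exact decomposition into product families. -/

namespace Pool.Agent.Run7.h620.PD

open Finset Filter

/-- the admissible choices for the places which are not moved freely -/
def TT (K e f : ℕ) : Finset (Finset ℕ) :=
  (Mid K).powerset.filter (fun T₀ => (∀ j ∈ T₀, K - 1 - j ∈ T₀) ∧ (if K - 1 ∈ T₀ then f else e) ≠ 0)

/-- the number with digit `f` at the places in `T` and `e` at the others -/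
def nT (b K e f : ℕ) (T : Finset ℕ) : ℕ := Nat.ofDigits b ((List.range K).map (fun j => if j ∈ T then f else e))

lemma nT_eq (b K e f : ℕ) (T : Finset ℕ) (hT : T ⊆ range K) : ((nT b K e f T : ℕ) : ℤ) = cT b K e f T := by
  unfold nT
  rw [ofDigits_map, cT_eq b K e f T hT]
  push_cast
  refine sum_congr rfl fun j _ => ?_
  split_ifs <;> rfl

lemma digits_nT (b K e f : ℕ) (hb : 2 ≤ b) (he : e < b) (hf : f < b) (hK : 1 ≤ K) (T : Finset ℕ)
    (hlead : (if K - 1 ∈ T then f else e) ≠ 0) :
    Nat.digits b (nT b K e f T) = (List.range K).map (fun j => if j ∈ T then f else e) := by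
  unfold nT
  apply Nat.digits_ofDigits b (by omega)
  · intro l hl
    rw [List.mem_map] at hl
    obtain ⟨j, _, rfl⟩ := hl
    split_ifs <;> assumption
  · intro h
    rw [List.getLast_eq_getElem]
    simpa using hlead

/-- the union of the fixed and the free places -/
def UT (K : ℕ) (T₀ S : Finset ℕ) : Finset ℕ := T₀ ∪ (S ∪ S.image (fun i => K - 1 - i))

lemma UT_mid (K : ℕ) (T₀ S : Finset ℕ) (hT₀ : T₀ ⊆ Mid K) (hS : S ⊆ Icc 1 ((K - 2) / 2)) (j : ℕ) (hj : j ∈ Mid K) :
    j ∈ UT K T₀ S ↔ j ∈ T₀ := by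
  unfold UT
  rw [mem_union, mem_union, mem_image]
  unfold Mid at hj
  rw [mem_filter, mem_range] at hj
  constructor
  · rintro (h | h | ⟨i, hi, hij⟩)
    · exact h
    · have := mem_Icc.1 (hS h)
      omega
    · have := mem_Icc.1 (hS hi)
      omega
  · exact fun h => Or.inl h

lemma UT_low (K : ℕ) (T₀ S : Finset ℕ) (hT₀ : T₀ ⊆ Mid K) (hS : S ⊆ Icc 1 ((K - 2) / 2)) (j : ℕ)
    (hj : j ∈ Icc 1 ((K - 2) / 2)) : j ∈ UT K T₀ S ↔ j ∈ S := by
  unfold UT
  rw [mem_union, mem_union, mem_image]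
  rw [mem_Icc] at hj
  constructor
  · rintro (h | h | ⟨i, hi, hij⟩)
    · have h2 := hT₀ h
      unfold Mid at h2
      rw [mem_filter, mem_range] at h2
      omega
    · exact h
    · have := mem_Icc.1 (hS hi)
      omega
  · exact fun h => Or.inr (Or.inl h)

lemma nT_inj (b K e f : ℕ) (hb : 2 ≤ b) (he : e < b) (hf : f < b) (hef : f ≠ e) (hK : 1 ≤ K) (T T' : Finset ℕ)
    (hT : T ⊆ range K) (hlead : (if K - 1 ∈ T then f else e) ≠ 0) (hT' : T' ⊆ range K)
    (hlead' : (if K - 1 ∈ T' then f else e) ≠ 0) (h : nT b K e f T = nT b K e f T') : T = T' := by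
  have h1 := digits_nT b K e f hb he hf hK T hlead
  have h2 := digits_nT b K e f hb he hf hK T' hlead'
  rw [h, h2] at h1
  have h3 : ∀ j < K, (j ∈ T ↔ j ∈ T') := by
    intro j hj
    have h4 : ((List.range K).map (fun j => if j ∈ T' then f else e))[j]'(by simpa using hj) =
        ((List.range K).map (fun j => if j ∈ T then f else e))[j]'(by simpa using hj) := by
      simp only [h1]
    simp only [List.getElem_map, List.getElem_range] at h4
    by_cases h5 : j ∈ T <;> by_cases h6 : j ∈ T'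
    · tauto
    · rw [if_neg h6, if_pos h5] at h4
      exact absurd h4.symm hef
    · rw [if_pos h6, if_neg h5] at h4
      exact absurd h4 hef
    · tauto
  ext j
  constructor
  · intro hj
    exact (h3 j (mem_range.1 (hT hj))).1 hj
  · intro hj
    exact (h3 j (mem_range.1 (hT' hj))).2 hj

lemma isPal_nT (b K e f : ℕ) (hb : 2 ≤ b) (he : e < b) (hf : f < b) (hK : 1 ≤ K) (T : Finset ℕ)
    (hlead : (if K - 1 ∈ T then f else e) ≠ 0) (hsym : ∀ j < K, (j ∈ T ↔ K - 1 - j ∈ T)) :
    IsPal b e f K (nT b K e f T) := by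
  have h1 := digits_nT b K e f hb he hf hK T hlead
  unfold IsPal
  rw [h1]
  refine ⟨by simp, ?_, ?_⟩
  · apply List.ext_getElem
    · simp
    · intro j h2 h3
      rw [List.getElem_reverse]
      simp only [List.getElem_map, List.getElem_range, List.length_map, List.length_range]
      have h4 : j < K := by simpa using h3
      have h5 := hsym j h4
      by_cases h6 : j ∈ T
      · rw [if_pos h6, if_pos (h5.1 h6)]
      · rw [if_neg h6, if_neg (fun h => h6 (h5.2 h))]
  · intro d hd
    rw [List.mem_map] at hd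
    obtain ⟨j, _, rfl⟩ := hd
    split_ifs
    · exact Or.inr rfl
    · exact Or.inl rfl

lemma UT_sym (K : ℕ) (T₀ S : Finset ℕ) (hT₀ : T₀ ⊆ Mid K) (hS : S ⊆ Icc 1 ((K - 2) / 2))
    (hs : ∀ j ∈ T₀, K - 1 - j ∈ T₀) (j : ℕ) (hj : j < K) : j ∈ UT K T₀ S ↔ K - 1 - j ∈ UT K T₀ S := by
  have key : ∀ i < K, i ∈ UT K T₀ S → K - 1 - i ∈ UT K T₀ S := by
    intro i hi h
    unfold UT at h ⊢
    rw [mem_union, mem_union, mem_image] at h ⊢
    rcases h with h | h | ⟨x, hx, hxi⟩
    · exact Or.inl (hs i h)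
    · exact Or.inr (Or.inr ⟨i, h, rfl⟩)
    · have := mem_Icc.1 (hS hx)
      refine Or.inr (Or.inl ?_)
      have : K - 1 - i = x := by omega
      rw [this]
      exact hx
  constructor
  · exact key j hj
  · intro h
    have := key (K - 1 - j) (by omega) h
    have h2 : K - 1 - (K - 1 - j) = j := by omega
    rwa [h2] at this

lemma exists_TS (b K e f n : ℕ) (hK : 4 ≤ K) (hn : IsPal b e f K n) :
    ∃ T₀ ∈ TT K e f, ∃ S ∈ (Icc 1 ((K - 2) / 2)).powerset, n = nT b K e f (UT K T₀ S) := by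
  classical
  obtain ⟨h1, h2, h3⟩ := hn
  set dg : ℕ → ℕ := fun j => (Nat.digits b n).getD j 0 with hdg
  have hlist : Nat.digits b n = (List.range K).map dg := by
    apply List.ext_getElem
    · simp [h1]
    · intro j hj hj'
      rw [List.getElem_map, List.getElem_range]
      simp only [hdg]
      rw [List.getD_eq_getElem _ _ hj]
  have hdge : ∀ j < K, dg j = e ∨ dg j = f := by
    intro j hj
    apply h3
    simp only [hdg]
    rw [List.getD_eq_getElem _ _ (by omega)]
    exact List.getElem_mem _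
  have hsym : ∀ j < K, dg (K - 1 - j) = dg j := by
    intro j hj
    simp only [hdg]
    rw [List.getD_eq_getElem _ _ (by omega), List.getD_eq_getElem _ _ (by omega)]
    have h4 : (Nat.digits b n)[j]'(by omega) = ((Nat.digits b n).reverse)[j]'(by rw [List.length_reverse]; omega) := by
      simp only [h2]
    rw [h4, List.getElem_reverse]
    congr 1
    omega
  have hlead : dg (K - 1) ≠ 0 := by
    have hne : Nat.digits b n ≠ [] := by
      intro h0
      rw [h0, List.length_nil] at h1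
      omega
    have hn0 : n ≠ 0 := by
      rintro rfl
      exact hne (Nat.digits_zero b)
    have h5 := Nat.getLast_digit_ne_zero b hn0
    rw [List.getLast_eq_getElem] at h5
    simp only [hdg]
    rw [List.getD_eq_getElem _ _ (by omega)]
    simp only [h1] at h5
    exact h5
  set T : Finset ℕ := (range K).filter (fun j => dg j = f) with hT
  have hTT : UT K ((Mid K).filter (fun j => dg j = f)) ((Icc 1 ((K - 2) / 2)).filter (fun j => dg j = f)) = T := by
    unfold UT
    ext j
    rw [mem_union, mem_union, mem_image, mem_filter, mem_filter, mem_Icc, hT, mem_filter, mem_range]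
    constructor
    · rintro (⟨h4, h5⟩ | ⟨h4, h5⟩ | ⟨i, hi, hij⟩)
      · unfold Mid at h4
        rw [mem_filter, mem_range] at h4
        exact ⟨h4.1, h5⟩
      · exact ⟨by omega, h5⟩
      · rw [mem_filter, mem_Icc] at hi
        rw [← hij]
        refine ⟨by omega, ?_⟩
        rw [hsym i (by omega)]
        exact hi.2
    · rintro ⟨h4, h5⟩
      by_cases h6 : 1 ≤ j ∧ j ≤ (K - 2) / 2
      · exact Or.inr (Or.inl ⟨h6, h5⟩)
      · by_cases h7 : 1 ≤ K - 1 - j ∧ K - 1 - j ≤ (K - 2) / 2
        · refine Or.inr (Or.inr ⟨K - 1 - j, ?_, by omega⟩)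
          rw [mem_filter, mem_Icc]
          refine ⟨h7, ?_⟩
          rw [hsym j h4]
          exact h5
        · left
          refine ⟨?_, h5⟩
          unfold Mid
          rw [mem_filter, mem_range]
          exact ⟨h4, h6, h7⟩
  refine ⟨(Mid K).filter (fun j => dg j = f), ?_, (Icc 1 ((K - 2) / 2)).filter (fun j => dg j = f),
    by rw [mem_powerset]; exact filter_subset _ _, ?_⟩
  · unfold TT
    rw [mem_filter, mem_powerset]
    refine ⟨filter_subset _ _, ?_, ?_⟩
    · intro j hj
      rw [mem_filter] at hj ⊢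
      obtain ⟨h4, h5⟩ := hj
      unfold Mid at h4 ⊢
      rw [mem_filter, mem_range] at h4 ⊢
      refine ⟨by omega, ?_⟩
      rw [hsym j h4.1]
      exact h5
    · have hmem : K - 1 ∈ Mid K := by
        unfold Mid
        rw [mem_filter, mem_range]
        omega
      by_cases h4 : dg (K - 1) = f
      · rw [if_pos (by rw [mem_filter]; exact ⟨hmem, h4⟩), ← h4]
        exact hlead
      · rw [if_neg (by rw [mem_filter]; exact fun h => h4 h.2)]
        rcases hdge (K - 1) (by omega) with h5 | h5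
        · rw [← h5]
          exact hlead
        · exact absurd h5 h4
  · rw [hTT]
    have h4 : (List.range K).map (fun j => if j ∈ T then f else e) = Nat.digits b n := by
      rw [hlist]
      apply List.map_congr_left
      intro j hj
      rw [List.mem_range] at hj
      by_cases h5 : dg j = f
      · rw [if_pos (by rw [hT, mem_filter, mem_range]; exact ⟨hj, h5⟩), h5]
      · rw [if_neg (by rw [hT, mem_filter]; exact fun h => h5 h.2)]
        rcases hdge j hj with h6 | h6
        · exact h6.symm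
        · exact absurd h6 h5
    unfold nT
    rw [h4, Nat.ofDigits_digits]

open Classical in
/-- exact decomposition -/
theorem decomp (b K e f : ℕ) (hb : 2 ≤ b) (he : e < b) (hf : f < b) (hef : f ≠ e) (hK : 4 ≤ K) (q : ℕ) (a : ℤ) :
    (((Finset.range (b ^ K)).filter (fun n : ℕ => IsPal b e f K n ∧ (q : ℤ) ∣ (n : ℤ) - a)).card : ℝ) =
      ∑ T₀ ∈ TT K e f, cnt (Icc 1 ((K - 2) / 2)).powerset (vv b K (cT b K e f T₀) ((f : ℤ) - e)) q a := by
  unfold cnt
  rw [← Nat.cast_sum, ← card_sigma]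
  congr 1
  symm
  have hprop : ∀ T₀ ∈ TT K e f, T₀ ⊆ Mid K ∧ (∀ j ∈ T₀, K - 1 - j ∈ T₀) ∧ (if K - 1 ∈ T₀ then f else e) ≠ 0 := by
    intro T₀ h
    unfold TT at h
    rw [mem_filter, mem_powerset] at h
    exact h
  have hmemK : K - 1 ∈ Mid K := by
    unfold Mid
    rw [mem_filter, mem_range]
    omega
  have hsub : ∀ T₀ ∈ TT K e f, ∀ S ⊆ Icc 1 ((K - 2) / 2), UT K T₀ S ⊆ range K := fun T₀ h S hS =>
    union_sub K T₀ S (hprop T₀ h).1 hS
  have hlead : ∀ T₀ ∈ TT K e f, ∀ S ⊆ Icc 1 ((K - 2) / 2), (if K - 1 ∈ UT K T₀ S then f else e) ≠ 0 := by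
    intro T₀ h S hS
    have h2 := (hprop T₀ h).2.2
    have h3 := UT_mid K T₀ S (hprop T₀ h).1 hS (K - 1) hmemK
    by_cases h4 : K - 1 ∈ T₀
    · rw [if_pos h4] at h2
      rw [if_pos (h3.2 h4)]
      exact h2
    · rw [if_neg h4] at h2
      rw [if_neg (fun h => h4 (h3.1 h))]
      exact h2
  have hval : ∀ T₀ ∈ TT K e f, ∀ S ⊆ Icc 1 ((K - 2) / 2),
      vv b K (cT b K e f T₀) ((f : ℤ) - e) S = ((nT b K e f (UT K T₀ S) : ℕ) : ℤ) := by
    intro T₀ h S hS
    rw [nT_eq b K e f _ (hsub T₀ h S hS), vv_cT b K e f T₀ S (hprop T₀ h).1 hS]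
    rfl
  apply card_bij (fun x _ => nT b K e f (UT K x.1 x.2))
  · rintro ⟨T₀, S⟩ hx
    rw [mem_sigma, mem_filter, mem_powerset] at hx
    obtain ⟨hx1, hx2, hx3⟩ := hx
    simp only at hx1 hx2 hx3
    rw [hval T₀ hx1 S hx2] at hx3
    have h4 := isPal_nT b K e f hb he hf (by omega) (UT K T₀ S) (hlead T₀ hx1 S hx2)
      (UT_sym K T₀ S (hprop T₀ hx1).1 hx2 (hprop T₀ hx1).2.1)
    rw [mem_filter, mem_range]
    refine ⟨?_, h4, hx3⟩
    have := Nat.lt_base_pow_length_digits (b := b) (m := nT b K e f (UT K T₀ S)) (by omega)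
    rwa [h4.1] at this
  · rintro ⟨T₀, S⟩ hx ⟨T₀', S'⟩ hx' h
    rw [mem_sigma, mem_filter, mem_powerset] at hx hx'
    obtain ⟨hx1, hx2, hx3⟩ := hx
    obtain ⟨hx1', hx2', hx3'⟩ := hx'
    simp only at hx1 hx2 hx1' hx2' h
    have h1 := nT_inj b K e f hb he hf hef (by omega) _ _ (hsub T₀ hx1 S hx2) (hlead T₀ hx1 S hx2)
      (hsub T₀' hx1' S' hx2') (hlead T₀' hx1' S' hx2') h
    have h2 : T₀ = T₀' := by
      ext j
      constructor
      · intro hj
        have hm := (hprop T₀ hx1).1 hj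
        have := (UT_mid K T₀ S (hprop T₀ hx1).1 hx2 j hm).2 hj
        rw [h1] at this
        exact (UT_mid K T₀' S' (hprop T₀' hx1').1 hx2' j hm).1 this
      · intro hj
        have hm := (hprop T₀' hx1').1 hj
        have := (UT_mid K T₀' S' (hprop T₀' hx1').1 hx2' j hm).2 hj
        rw [← h1] at this
        exact (UT_mid K T₀ S (hprop T₀ hx1).1 hx2 j hm).1 this
    have h3 : S = S' := by
      ext j
      constructor
      · intro hj
        have := (UT_low K T₀ S (hprop T₀ hx1).1 hx2 j (hx2 hj)).2 hj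
        rw [h1] at this
        exact (UT_low K T₀' S' (hprop T₀' hx1').1 hx2' j (hx2 hj)).1 this
      · intro hj
        have := (UT_low K T₀' S' (hprop T₀' hx1').1 hx2' j (hx2' hj)).2 hj
        rw [← h1] at this
        exact (UT_low K T₀ S (hprop T₀ hx1).1 hx2 j (hx2' hj)).1 this
    subst h2
    subst h3
    rfl
  · intro n hn
    rw [mem_filter, mem_range] at hn
    obtain ⟨hn1, hn2, hn3⟩ := hn
    obtain ⟨T₀, hT₀, S, hS, hnS⟩ := exists_TS b K e f n hK hn2
    rw [mem_powerset] at hS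
    refine ⟨⟨T₀, S⟩, ?_, hnS.symm⟩
    rw [mem_sigma, mem_filter, mem_powerset]
    refine ⟨hT₀, hS, ?_⟩
    simp only
    rw [hval T₀ hT₀ S hS, ← hnS]
    exact hn3

end Pool.Agent.Run7.h620.PD
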