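import Pool.Agent.Run7.h620.PD.Main
import Pool.Agent.Run7.h620.PD.Digits

set_option autoImplicit false

/-! Two-digit palindromes far from every prime. -/

namespace Pool.Agent.Run7.h620.PD

open Finset Filter

/-- the scales of `n` and of `z` -/
lemma scale (b : ℕ) (hb : 2 ≤ b) (η : ℝ) (hη : 0 < η) (hη1 : η ≤ 1 / 60) : ∀ᶠ K : ℕ in atTop, ∀ n : ℕ,
    b ^ (K - 1) ≤ n → n < b ^ K →
    Real.log n * Real.log (Real.log n) * Real.log (Real.log (Real.log (Real.log n))) /
      (Real.log (Real.log (Real.log n))) ^ 2 ≤ 8 * Real.log b / η * Gz (η * K / Real.log K) := by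
  have hbr : (2 : ℝ) ≤ b := by exact_mod_cast hb
  have hlb : 0 < Real.log b := Real.log_pos (by linarith)
  have hl2 := Real.log_two_gt_d9
  have hlb2 : Real.log 2 ≤ Real.log b := Real.log_le_log (by norm_num) hbr
  have hc := tendsto_natCast_atTop_atTop (R := ℝ)
  have hl := Real.tendsto_log_atTop.comp hc
  have hzt := z_tendsto η hη
  have t1 := Real.tendsto_log_atTop
  have t2 := t1.comp t1
  have t3 := t1.comp t2
  filter_upwards [eventually_ge_atTop 10, hl.eventually_ge_atTop 1,
    hc.eventually (ev_logpow ((Real.log b + 1) / η ^ 2) 2), hzt.eventually_ge_atTop 1,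
    hzt.eventually (t1.eventually_ge_atTop 2), hzt.eventually (t2.eventually_ge_atTop 2),
    hzt.eventually (t3.eventually_ge_atTop 1)] with K k1 k2 k3 k4 k5 k6 k7
  intro n hn1 hn2
  simp only [Function.comp] at k2 k5 k6 k7
  set z : ℝ := η * K / Real.log K with hz
  set u : ℝ := Real.log z with hu
  set v : ℝ := Real.log u with hv
  have hKr : (10 : ℝ) ≤ K := by exact_mod_cast k1
  have hlK : 0 < Real.log K := by linarith
  have hz0 : 0 < z := by linarith
  have hzK : z ≤ η * K := by
    rw [hz, div_le_iff₀ hlK]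
    have : η * K * 1 ≤ η * K * Real.log K := by
      apply mul_le_mul_of_nonneg_left k2 (by positivity)
    linarith
  -- X ≤ z ^ 2
  have hz2 : (Real.log b + 1) * K ≤ z ^ 2 := by
    rw [hz, div_pow, le_div_iff₀ (by positivity), mul_pow]
    rw [div_mul_eq_mul_div, div_le_iff₀ (by positivity)] at k3
    calc (Real.log b + 1) * K * Real.log K ^ 2 = ((Real.log b + 1) * Real.log K ^ 2) * K := by ring
      _ ≤ (K * η ^ 2) * K := by gcongr
      _ = η ^ 2 * K ^ 2 := by ring
  have hX : K * Real.log b ≤ z ^ 2 := by nlinarith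
  have hK2 : (K : ℝ) ≤ z ^ 2 := by nlinarith
  have hlKu : Real.log K ≤ 2 * u := by
    calc Real.log K ≤ Real.log (z ^ 2) := Real.log_le_log (by linarith) hK2
      _ = 2 * u := by rw [Real.log_pow, ← hu]; norm_num
  -- the size of n
  have hb1 : 1 ≤ b ^ (K - 1) := Nat.one_le_pow _ _ (by omega)
  have hnr0 : (0 : ℝ) < n := by exact_mod_cast (by omega : 0 < n)
  have hln1 : z ≤ Real.log n := by
    have h1 : ((b ^ (K - 1) : ℕ) : ℝ) ≤ n := by exact_mod_cast hn1
    have h2 : Real.log ((b ^ (K - 1) : ℕ) : ℝ) = ((K - 1 : ℕ) : ℝ) * Real.log b := by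
      push_cast
      rw [Real.log_pow]
    have h3 : ((K - 1 : ℕ) : ℝ) = K - 1 := by
      rw [Nat.cast_sub (by omega)]
      norm_num
    calc z ≤ η * K := hzK
      _ ≤ (1 / 60) * K := by gcongr
      _ ≤ (K - 1) * Real.log b := by nlinarith
      _ = Real.log ((b ^ (K - 1) : ℕ) : ℝ) := by rw [h2, h3]
      _ ≤ Real.log n := Real.log_le_log (by exact_mod_cast hb1) h1
  have hln2 : Real.log n ≤ K * Real.log b := by
    have h1 : (n : ℝ) ≤ (b : ℝ) ^ K := by exact_mod_cast hn2.le
    calc Real.log n ≤ Real.log ((b : ℝ) ^ K) := Real.log_le_log hnr0 h1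
      _ = K * Real.log b := by rw [Real.log_pow]
  have hln0 : 0 < Real.log n := by linarith
  have hlln1 : u ≤ Real.log (Real.log n) := Real.log_le_log hz0 hln1
  have hlln2 : Real.log (Real.log n) ≤ 2 * u := by
    calc Real.log (Real.log n) ≤ Real.log (z ^ 2) := Real.log_le_log hln0 (hln2.trans hX)
      _ = 2 * u := by rw [Real.log_pow, ← hu]; norm_num
  have hu0 : 0 < u := by linarith
  have hlln0 : 0 < Real.log (Real.log n) := by linarith
  have hl3n1 : v ≤ Real.log (Real.log (Real.log n)) := Real.log_le_log hu0 hlln1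
  have hl3n2 : Real.log (Real.log (Real.log n)) ≤ 2 * v := by
    calc Real.log (Real.log (Real.log n)) ≤ Real.log (u ^ 2) := Real.log_le_log hlln0 (by nlinarith)
      _ = 2 * v := by rw [Real.log_pow, ← hv]; norm_num
  have hv0 : 0 < v := by linarith
  have hl3n0 : 0 < Real.log (Real.log (Real.log n)) := by linarith
  have hl4n2 : Real.log (Real.log (Real.log (Real.log n))) ≤ 2 * Real.log v := by
    calc Real.log (Real.log (Real.log (Real.log n))) ≤ Real.log (v ^ 2) := Real.log_le_log hl3n0 (by nlinarith)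
      _ = 2 * Real.log v := by rw [Real.log_pow]; norm_num
  have hl4n0 : 0 ≤ Real.log (Real.log (Real.log (Real.log n))) := Real.log_nonneg (by linarith)
  calc Real.log n * Real.log (Real.log n) * Real.log (Real.log (Real.log (Real.log n))) /
      (Real.log (Real.log (Real.log n))) ^ 2 ≤ (K * Real.log b) * (2 * u) * (2 * Real.log v) / v ^ 2 := by
        gcongr
    _ = (Real.log b / η) * (z * Real.log K) * (2 * u) * (2 * Real.log v) / v ^ 2 := by
        rw [hz]
        field_simp
    _ ≤ (Real.log b / η) * (z * (2 * u)) * (2 * u) * (2 * Real.log v) / v ^ 2 := by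
        gcongr
    _ = 8 * Real.log b / η * Gz z := by
        unfold Gz
        rw [← hu, ← hv]
        ring

lemma gz_le (c : ℝ) (hc : 0 < c) (η : ℝ) (hη : 0 < η) (hη1 : η ≤ 1 / 60) : ∀ᶠ K : ℕ in atTop,
    c * Gz (η * K / Real.log K) + (2 : ℝ) ^ (K / 2) < (2 : ℝ) ^ (K - 1) := by
  have hcast := tendsto_natCast_atTop_atTop (R := ℝ)
  have hl := Real.tendsto_log_atTop.comp hcast
  have hpow : ∀ᶠ K : ℕ in atTop, (K : ℝ) ^ 3 ≤ 2 ^ (K / 3) := by
    have h1 : Tendsto (fun n : ℕ => (n : ℝ) ^ 3 / (2 : ℝ) ^ n) atTop (nhds 0) :=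
      tendsto_pow_const_div_const_pow_of_one_lt 3 (by norm_num)
    have h2 : Tendsto (fun K : ℕ => K / 3) atTop atTop := Nat.tendsto_div_const_atTop (by norm_num)
    have h3 := (h1.comp h2).eventually (gt_mem_nhds (show (0 : ℝ) < 1 / 64 by norm_num))
    filter_upwards [h3, eventually_ge_atTop 9] with K h3 h4
    simp only [Function.comp] at h3
    rw [div_lt_iff₀ (by positivity)] at h3
    have h5 : (K : ℝ) ≤ 4 * ((K / 3 : ℕ) : ℝ) := by
      have : K ≤ 4 * (K / 3) := by omega
      exact_mod_cast this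
    calc (K : ℝ) ^ 3 ≤ (4 * ((K / 3 : ℕ) : ℝ)) ^ 3 := by gcongr
      _ = 64 * ((K / 3 : ℕ) : ℝ) ^ 3 := by ring
      _ ≤ 2 ^ (K / 3) := by linarith
  filter_upwards [hpow, eventually_ge_atTop 12, hl.eventually_ge_atTop 1,
    (z_tendsto η hη).eventually (ev_L c hc)] with K h1 h2 h3 h4
  simp only [Function.comp] at h3
  set z : ℝ := η * K / Real.log K with hz
  obtain ⟨l1, l2, l3, l4, l5, l6⟩ := h4
  have hKr : (12 : ℝ) ≤ K := by exact_mod_cast h2
  have hlK : 0 < Real.log K := by linarith
  have hzK : z ≤ K := by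
    rw [hz, div_le_iff₀ hlK]
    calc η * K ≤ 1 * K := by
          apply mul_le_mul_of_nonneg_right _ (by linarith)
          linarith
      _ = K * 1 := by ring
      _ ≤ K * Real.log K := by
          apply mul_le_mul_of_nonneg_left h3 (by linarith)
  have hlz : Real.log z ≤ K := by
    have := Real.log_le_sub_one_of_pos (show 0 < z by linarith)
    linarith
  have h5 : c * Gz z ≤ (K : ℝ) ^ 3 := by
    calc c * Gz z ≤ z * (Real.log z) ^ 2 := l2
      _ ≤ K * (K : ℝ) ^ 2 := by
          have : 0 ≤ Real.log z := by linarith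
          gcongr
      _ = (K : ℝ) ^ 3 := by ring
  have h6 : (2 : ℝ) ^ (K / 3) ≤ 2 ^ (K - 3) := pow_le_pow_right₀ (by norm_num) (by omega)
  have h7 : (2 : ℝ) ^ (K / 2) ≤ 2 ^ (K - 3) := pow_le_pow_right₀ (by norm_num) (by omega)
  have h8 : (2 : ℝ) ^ (K - 1) = 4 * 2 ^ (K - 3) := by
    have : K - 1 = (K - 3) + 2 := by omega
    rw [this, pow_add]
    norm_num
    ring
  have h9 : (0 : ℝ) < 2 ^ (K - 3) := by positivity
  linarith

open Classical in
/-- two-digit palindromes far from every prime -/
theorem palindromes : ∀ b : ℕ, 2 ≤ b → ∀ e f : ℕ, e < b → f < b → e ≠ 0 → f ≠ e →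
    ∃ c : ℝ, 0 < c ∧ ∀ᶠ K : ℕ in atTop,
      (2 : ℝ) ^ ((K : ℝ) / 2 - K / Real.log K) ≤
        (((Finset.range (b ^ K)).filter (fun n : ℕ =>
          (Nat.digits b n).length = K ∧ (Nat.digits b n).reverse = Nat.digits b n ∧
          (∀ d ∈ Nat.digits b n, d = e ∨ d = f) ∧
          ∀ p : ℕ, p.Prime → c * (Real.log n * Real.log (Real.log n) *
            Real.log (Real.log (Real.log (Real.log n))) / (Real.log (Real.log (Real.log n))) ^ 2) <
              |(p : ℝ) - n|)).card : ℝ) := by
  intro b hb e f he hf he0 hef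
  have hbr : (2 : ℝ) ≤ b := by exact_mod_cast hb
  have hlb : 0 < Real.log b := Real.log_pos (by linarith)
  have hD : ((f : ℤ) - e) ≠ 0 := by omega
  obtain ⟨η, c, hη, hη1, hc, hcore⟩ := core b hb ((f : ℤ) - e) hD
  refine ⟨c / (8 * Real.log b / η), by positivity, ?_⟩
  filter_upwards [hcore, scale b hb η hη hη1, gz_le c hc η hη hη1, eventually_ge_atTop 12] with K h1 h2 h3 h4
  have hHK : 2 * ((K - 2) / 2) + 2 ≤ K := by omega
  obtain ⟨G, hG1, hG2, hG3⟩ := h1 ((e : ℤ) * ∑ j ∈ range K, (b : ℤ) ^ j) (by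
    intro S hS
    rw [← nn_eq b K e f ((K - 2) / 2) hHK S (mem_powerset.1 hS)]
    exact Int.natCast_nonneg _)
  refine hG2.trans ?_
  have hle : G.card ≤ ((Finset.range (b ^ K)).filter (fun n : ℕ =>
          (Nat.digits b n).length = K ∧ (Nat.digits b n).reverse = Nat.digits b n ∧
          (∀ d ∈ Nat.digits b n, d = e ∨ d = f) ∧
          ∀ p : ℕ, p.Prime → c / (8 * Real.log b / η) * (Real.log n * Real.log (Real.log n) *
            Real.log (Real.log (Real.log (Real.log n))) / (Real.log (Real.log (Real.log n))) ^ 2) <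
              |(p : ℝ) - n|)).card := by
    apply card_le_card_of_injOn (fun S => nn b K e f S)
    · intro S hS
      have hS' : S ⊆ Icc 1 ((K - 2) / 2) := mem_powerset.1 (hG1 hS)
      have hd := digits_nn b K e f hb he hf he0 ((K - 2) / 2) hHK S hS'
      have hlt : nn b K e f S < b ^ K := by
        have := Nat.lt_base_pow_length_digits (b := b) (m := nn b K e f S) (by omega)
        rw [hd, dl_length] at this
        exact this
      have hn0 : nn b K e f S ≠ 0 := by
        intro h0
        rw [h0, Nat.digits_zero] at hd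
        have := dl_length K e f S
        rw [← hd, List.length_nil] at this
        omega
      have hge : b ^ (K - 1) ≤ nn b K e f S := by
        have := Nat.base_pow_length_digits_le b (nn b K e f S) (by omega) hn0
        rw [hd, dl_length] at this
        have h5 : b ^ K = b * b ^ (K - 1) := by
          rw [← pow_succ']
          congr 1
          omega
        rw [h5] at this
        exact Nat.le_of_mul_le_mul_left this (by omega)
      rw [mem_coe, mem_filter, mem_range]
      refine ⟨hlt, ?_, ?_, ?_, ?_⟩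
      · rw [hd, dl_length]
      · rw [hd, dl_reverse]
      · rw [hd]
        exact dl_mem K e f S
      · intro p hp
        by_contra hcon
        push Not at hcon
        have h5 := h2 (nn b K e f S) hge hlt
        have h6 : c / (8 * Real.log b / η) * (Real.log (nn b K e f S) * Real.log (Real.log (nn b K e f S)) *
            Real.log (Real.log (Real.log (Real.log (nn b K e f S)))) / (Real.log (Real.log (Real.log (nn b K e f S)))) ^ 2) ≤
            c * Gz (η * K / Real.log K) := by
          calc _ ≤ c / (8 * Real.log b / η) * (8 * Real.log b / η * Gz (η * K / Real.log K)) := by gcongr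
            _ = _ := by field_simp
        have h7 : |(((p : ℤ) - (nn b K e f S : ℕ) : ℤ) : ℝ)| ≤ c * Gz (η * K / Real.log K) := by
          push_cast
          exact hcon.trans h6
        obtain ⟨q, hq1, hq2, hq3⟩ := hG3 S hS _ h7
        rw [← nn_eq b K e f ((K - 2) / 2) hHK S hS'] at hq3
        have h8 : (((nn b K e f S : ℕ) : ℤ) + ((p : ℤ) - (nn b K e f S : ℕ))) = p := by ring
        rw [h8] at hq3
        have h9 : q = p := (Nat.prime_dvd_prime_iff_eq hq1 hp).1 (by exact_mod_cast hq3)
        rw [h9] at hq2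
        have h10 : (p : ℝ) ≤ 2 ^ (K / 2) := by exact_mod_cast hq2
        have h11 : (2 : ℝ) ^ (K - 1) ≤ nn b K e f S := by
          have : 2 ^ (K - 1) ≤ nn b K e f S := (Nat.pow_le_pow_left hb _).trans hge
          exact_mod_cast this
        have h12 := (abs_le.1 (hcon.trans h6)).1
        linarith
    · intro S hS S' hS' h
      exact nn_inj b K e f hb he hf he0 hef ((K - 2) / 2) hHK S S' (mem_powerset.1 (hG1 hS))
        (mem_powerset.1 (hG1 hS')) h
  exact_mod_cast hle

end Pool.Agent.Run7.h620.PD
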