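import Pool.Agent.Run7.h620.PD.Poly
import Pool.Agent.Run7.h620.PD.Alm
import Pool.Agent.Run7.h620.PD.Spl

set_option autoImplicit false

/-! Level of distribution of the palindromes with two digits. -/

namespace Pool.Agent.Run7.h620.PD

open Finset Filter

lemma ev_exp (A c : ℝ) (hc : 0 < c) : ∀ᶠ K : ℕ in atTop, A * (K : ℝ) ^ 4 ≤ Real.exp (c * Real.sqrt K) := by
  have h1 : Tendsto (fun x : ℝ => x ^ 9 * Real.exp (-c * x)) atTop (nhds 0) := by
    have := tendsto_rpow_mul_exp_neg_mul_atTop_nhds_zero 9 c hc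
    refine this.congr' ?_
    filter_upwards [eventually_ge_atTop 0] with x hx
    congr 1
    norm_cast
  have hs : Tendsto (fun K : ℕ => Real.sqrt K) atTop atTop := Real.tendsto_sqrt_atTop.comp tendsto_natCast_atTop_atTop
  filter_upwards [(h1.comp hs).eventually_le_const (show (0 : ℝ) < 1 by norm_num), hs.eventually_ge_atTop (max A 1),
    eventually_ge_atTop 1] with K h2 h3 h4
  rw [max_le_iff] at h3
  simp only [Function.comp] at h2
  have h5 : Real.exp (-c * Real.sqrt K) = (Real.exp (c * Real.sqrt K))⁻¹ := by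
    rw [← Real.exp_neg]
    congr 1
    ring
  rw [h5, ← div_eq_mul_inv, div_le_one (Real.exp_pos _)] at h2
  refine le_trans ?_ h2
  have h6 : (K : ℝ) ^ 4 = Real.sqrt K ^ 8 := by
    have : Real.sqrt K ^ 2 = K := Real.sq_sqrt (Nat.cast_nonneg K)
    calc (K : ℝ) ^ 4 = (Real.sqrt K ^ 2) ^ 4 := by rw [this]
      _ = _ := by ring
  rw [h6]
  calc A * Real.sqrt K ^ 8 ≤ Real.sqrt K * Real.sqrt K ^ 8 := by gcongr; exact h3.1
    _ = _ := by ring

/-- level of distribution for the product families -/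
theorem level_fam (b : ℕ) (hb : 2 ≤ b) (D : ℤ) (hD : D ≠ 0) :
    ∃ M : ℕ, 1 ≤ M ∧ ∃ c : ℝ, 0 < c ∧ ∀ᶠ K : ℕ in atTop, ∀ (n₀ : ℤ) (a : ℕ → ℤ),
      ∑ q ∈ (Icc 1 (2 ^ (K / M))).filter (fun q : ℕ => IsCoprime (q : ℤ) ((b : ℤ) * (((b : ℤ) ^ 2 - 1) * D))),
        |cnt (Icc 1 ((K - 2) / 2)).powerset (vv b K n₀ D) q (a q) - 2 ^ ((K - 2) / 2) / q| ≤
      2 ^ ((K - 2) / 2) * Real.exp (-(c * Real.sqrt K)) := by
  set y : ℝ := yy b 1 with hy
  have hy0 : 0 < y := yy_pos b 1 (by omega) le_rfl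
  have hy1 : y < 1 := yy_lt b 1 (by omega) le_rfl
  have hly : Real.log y < 0 := Real.log_neg hy0 hy1
  have hbr : (2 : ℝ) ≤ b := by exact_mod_cast hb
  obtain ⟨n₁, hn₁⟩ := exists_pow_lt_of_lt_one (show (0 : ℝ) < 1 / (50 * b) by positivity) hy1
  obtain ⟨C₁, hC₁⟩ : ∃ C₁ : ℕ, C₁ = n₁ + 1 := ⟨_, rfl⟩
  have hy3 : 2 * b * y ^ C₁ * 5 ≤ 1 / 5 := by
    have h1 : y ^ C₁ ≤ 1 / (50 * b) := by
      rw [hC₁, pow_succ]
      calc y ^ n₁ * y ≤ y ^ n₁ * 1 := mul_le_mul_of_nonneg_left hy1.le (pow_pos hy0 n₁).le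
        _ ≤ 1 / (50 * b) := by rw [mul_one]; exact hn₁.le
    calc 2 * b * y ^ C₁ * 5 ≤ 2 * b * (1 / (50 * b)) * 5 := by gcongr
      _ = 1 / 5 := by field_simp; norm_num
  have h65 : 0 < Real.log (6 / 5) := Real.log_pos (by norm_num)
  set c₀ : ℝ := min (-Real.log y / 80) (Real.log (6 / 5) / 2) with hc₀
  have hc₀0 : 0 < c₀ := by
    rw [hc₀]
    apply lt_min
    · linarith
    · linarith
  refine ⟨40 * C₁, by omega, c₀ / 2, by positivity, ?_⟩
  filter_upwards [ev_exp (12 * b + 20) (c₀ / 2) (by positivity), eventually_ge_atTop (40 * C₁ + 6400)] with K hexp hKbig n₀ a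
  obtain ⟨H, hH⟩ : ∃ H : ℕ, H = (K - 2) / 2 := ⟨_, rfl⟩
  obtain ⟨w, hw⟩ : ∃ w : ℕ, w = Nat.sqrt K := ⟨_, rfl⟩
  obtain ⟨C₀, hC₀⟩ : ∃ C₀ : ℕ, C₀ = (H - 1) / (5 * w) := ⟨_, rfl⟩
  have hw80 : 80 ≤ w := by
    rw [hw, Nat.le_sqrt]
    omega
  have hwK : w * w ≤ K := by rw [hw]; exact Nat.sqrt_le K
  have hKw : K < (w + 1) * (w + 1) := by rw [hw]; exact Nat.lt_succ_sqrt K
  have hH4 : K ≤ 4 * (H - 1) := by omega
  have hC₀1 : w ≤ 40 * C₀ := by
    have h1 : H - 1 < (C₀ + 1) * (5 * w) := by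
      rw [hC₀]
      have h2 := Nat.div_add_mod (H - 1) (5 * w)
      have h3 := Nat.mod_lt (H - 1) (show 0 < 5 * w by omega)
      calc H - 1 = 5 * w * ((H - 1) / (5 * w)) + (H - 1) % (5 * w) := h2.symm
        _ < 5 * w * ((H - 1) / (5 * w)) + 5 * w := by omega
        _ = _ := by ring
    by_contra hcon
    push Not at hcon
    have h4 : w * w < 20 * ((C₀ + 1) * w) := by nlinarith
    have h5 : w < 20 * (C₀ + 1) := by
      by_contra h6
      push Not at h6
      have : 20 * ((C₀ + 1) * w) ≤ w * w := by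
        calc 20 * ((C₀ + 1) * w) = 20 * (C₀ + 1) * w := by ring
          _ ≤ w * w := Nat.mul_le_mul_right _ h6
      omega
    omega
  have hsq1 : (w : ℝ) ≤ Real.sqrt K := by
    apply Real.le_sqrt_of_sq_le
    have : (w : ℝ) * w ≤ K := by exact_mod_cast hwK
    rw [sq]
    exact this
  have hsq2 : Real.sqrt K / 2 ≤ w := by
    have h1 : Real.sqrt K < w + 1 := by
      rw [Real.sqrt_lt' (by positivity)]
      have : (K : ℝ) < (w + 1) * (w + 1) := by exact_mod_cast hKw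
      rw [sq]
      exact this
    have : (80 : ℝ) ≤ w := by exact_mod_cast hw80
    linarith
  have hsq0 : 0 ≤ Real.sqrt K := Real.sqrt_nonneg _
  have hyC : y ^ C₀ ≤ Real.exp (-(c₀ * Real.sqrt K)) := by
    calc y ^ C₀ = Real.exp (C₀ * Real.log y) := by rw [Real.exp_nat_mul, Real.exp_log hy0]
      _ ≤ _ := by
          apply Real.exp_le_exp.2
          have h1 : (w : ℝ) ≤ 40 * C₀ := by exact_mod_cast hC₀1
          have h2 : Real.sqrt K / 80 ≤ C₀ := by linarith
          have h3 : c₀ ≤ -Real.log y / 80 := min_le_left _ _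
          calc (C₀ : ℝ) * Real.log y ≤ (Real.sqrt K / 80) * Real.log y := mul_le_mul_of_nonpos_right h2 hly.le
            _ = -((-Real.log y / 80) * Real.sqrt K) := by ring
            _ ≤ -(c₀ * Real.sqrt K) := by
                apply neg_le_neg
                exact mul_le_mul_of_nonneg_right h3 hsq0
  have hyw : ((5 : ℝ) / 6) ^ w ≤ Real.exp (-(c₀ * Real.sqrt K)) := by
    calc ((5 : ℝ) / 6) ^ w = Real.exp (w * Real.log (5 / 6)) := by rw [Real.exp_nat_mul, Real.exp_log (by norm_num)]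
      _ ≤ _ := by
          apply Real.exp_le_exp.2
          have h5 : Real.log (5 / 6) = -Real.log (6 / 5) := by
            rw [← Real.log_inv]
            norm_num
          have h3 : c₀ ≤ Real.log (6 / 5) / 2 := min_le_right _ _
          rw [h5]
          calc (w : ℝ) * -Real.log (6 / 5) = -(Real.log (6 / 5) * w) := by ring
            _ ≤ -(Real.log (6 / 5) * (Real.sqrt K / 2)) := by
                apply neg_le_neg
                exact mul_le_mul_of_nonneg_left hsq2 h65.le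
            _ = -((Real.log (6 / 5) / 2) * Real.sqrt K) := by ring
            _ ≤ _ := by
                apply neg_le_neg
                exact mul_le_mul_of_nonneg_right h3 hsq0
  have hKr : (1 : ℝ) ≤ K := by
    have : 1 ≤ K := by omega
    exact_mod_cast this
  have hK4 : (0 : ℝ) < (12 * b + 20) * (K : ℝ) ^ 4 := by positivity
  have hexp2 : Real.exp (-(c₀ * Real.sqrt K)) * ((12 * b + 20) * (K : ℝ) ^ 4) ≤ Real.exp (-(c₀ / 2 * Real.sqrt K)) := by
    calc Real.exp (-(c₀ * Real.sqrt K)) * ((12 * b + 20) * (K : ℝ) ^ 4)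
        ≤ Real.exp (-(c₀ * Real.sqrt K)) * Real.exp (c₀ / 2 * Real.sqrt K) :=
          mul_le_mul_of_nonneg_left hexp (Real.exp_pos _).le
      _ = _ := by
          rw [← Real.exp_add]
          congr 1
          ring
  have hE0 := Real.exp_pos (-(c₀ * Real.sqrt K))
  have hE1 : Real.exp (-(c₀ / 2 * Real.sqrt K)) ≤ 1 := by
    rw [← Real.exp_zero]
    apply Real.exp_le_exp.2
    have : 0 ≤ c₀ / 2 * Real.sqrt K := by positivity
    linarith
  have hwK' : (w : ℝ) ≤ K := by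
    have h1 : w ≤ w * w := Nat.le_mul_of_pos_left w (by omega)
    exact_mod_cast h1.trans hwK
  have hy2 : 2 * b * y ^ C₀ * (5 * (w : ℝ)) ≤ 1 := by
    calc 2 * b * y ^ C₀ * (5 * (w : ℝ)) ≤ 2 * b * Real.exp (-(c₀ * Real.sqrt K)) * (5 * K) := by gcongr
      _ = Real.exp (-(c₀ * Real.sqrt K)) * (10 * b * K) := by ring
      _ ≤ Real.exp (-(c₀ * Real.sqrt K)) * ((12 * b + 20) * (K : ℝ) ^ 4) := by
          apply mul_le_mul_of_nonneg_left _ hE0.le
          apply mul_le_mul _ _ (by positivity) (by positivity)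
          · linarith
          · calc (K : ℝ) = (K : ℝ) ^ 1 := (pow_one _).symm
              _ ≤ (K : ℝ) ^ 4 := pow_le_pow_right₀ hKr (by norm_num)
      _ ≤ 1 := hexp2.trans hE1
  have hJ : C₁ * (5 * (K / (40 * C₁) + 1)) ≤ H - 1 := by
    have h1 : 40 * C₁ * (K / (40 * C₁)) ≤ K := Nat.mul_div_le K (40 * C₁)
    have h2 : C₁ * (5 * (K / (40 * C₁) + 1)) * 8 = 40 * C₁ * (K / (40 * C₁)) + 40 * C₁ := by ring
    omega
  obtain ⟨U, hU⟩ : ∃ U : ℤ, U = ((b : ℤ) ^ 2 - 1) * D := ⟨_, rfl⟩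
  have htot := total b hb y hy0 hy1.le U (K - 1 - H) (H - 1) 1 w (K / (40 * C₁) + 1) C₀ C₁ (2 ^ (K / (40 * C₁)))
    (by omega) (by omega) (by omega) (by rw [hC₀]; exact Nat.div_mul_le_self _ _) hJ (by exact_mod_cast hy2) hy3
    one_pos (Nat.one_lt_pow (by omega) (by omega)) (by apply Nat.pow_lt_pow_right <;> omega)
    (fun _ => 1) (fun _ => zero_le_one) (fun _ _ => by norm_num) 1 zero_le_one
    (fun d _ => by
      rw [one_mul]
      exact one_le_pow₀ (by norm_num))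
    ((Icc 1 (2 ^ (K / (40 * C₁)))).filter (fun q : ℕ => IsCoprime (q : ℤ) ((b : ℤ) * U)))
    (by
      intro q hq
      rw [mem_filter, mem_Icc] at hq
      exact ⟨by omega, hq.1.2, hq.2⟩) (by push_cast; exact isCoprime_one_left)
  rw [← hU, ← hH]
  have hX : hs (2 ^ (K / (40 * C₁))) ≤ 1 + K := by
    refine (hs_le _).trans ?_
    have : (((K / (40 * C₁) : ℕ)) : ℝ) ≤ K := by exact_mod_cast Nat.div_le_self K _
    linarith
  have hcnt1 : ∀ r : ℤ, cnt (Icc 1 H).powerset (vv b K n₀ D) (1 * 1) r = 2 ^ H := by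
    intro r
    unfold cnt
    rw [filter_true_of_mem (fun S _ => by simp), card_powerset, Nat.card_Icc]
    push_cast
    congr 1
  calc ∑ q ∈ (Icc 1 (2 ^ (K / (40 * C₁)))).filter (fun q : ℕ => IsCoprime (q : ℤ) ((b : ℤ) * U)),
        |cnt (Icc 1 H).powerset (vv b K n₀ D) q (a q) - 2 ^ H / q|
      ≤ ∑ q ∈ (Icc 1 (2 ^ (K / (40 * C₁)))).filter (fun q : ℕ => IsCoprime (q : ℤ) ((b : ℤ) * U)),
        2 ^ H * (1 / (q : ℝ) * GG b y U (K - 1 - H) (H - 1) 1 q) := by
        refine sum_le_sum fun q hq => ?_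
        rw [mem_filter, mem_Icc] at hq
        have h1 := cnt_pal b K H 1 1 q n₀ D (a q) (by omega) le_rfl (by omega) (by omega) one_pos (by omega)
        rw [hcnt1] at h1
        simp only [one_mul] at h1
        refine h1.trans (le_of_eq ?_)
        rw [hU, hy]
        ring
    _ = 2 ^ H * ∑ q ∈ (Icc 1 (2 ^ (K / (40 * C₁)))).filter (fun q : ℕ => IsCoprime (q : ℤ) ((b : ℤ) * U)),
        (1 / (q : ℝ) * GG b y U (K - 1 - H) (H - 1) 1 q) := by rw [mul_sum]
    _ ≤ 2 ^ H * (hs (2 ^ (K / (40 * C₁))) * (1 * (((H - 1 : ℕ) : ℝ) * (12 * b * y ^ C₀ + 6 * (5 / 6) ^ w)))) := by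
        apply mul_le_mul_of_nonneg_left _ (by positivity)
        exact htot
    _ ≤ 2 ^ H * ((1 + K) * (1 * (K * (12 * b * Real.exp (-(c₀ * Real.sqrt K)) + 6 * Real.exp (-(c₀ * Real.sqrt K)))))) := by
        have hHK : ((H - 1 : ℕ) : ℝ) ≤ K := by
          have : H - 1 ≤ K := by omega
          exact_mod_cast this
        have := hs_nonneg (2 ^ (K / (40 * C₁)))
        gcongr
    _ = 2 ^ H * (Real.exp (-(c₀ * Real.sqrt K)) * ((12 * b + 6) * ((1 + K) * K))) := by ring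
    _ ≤ 2 ^ H * (Real.exp (-(c₀ * Real.sqrt K)) * ((12 * b + 20) * (K : ℝ) ^ 4)) := by
        apply mul_le_mul_of_nonneg_left _ (by positivity)
        apply mul_le_mul_of_nonneg_left _ hE0.le
        apply mul_le_mul _ _ (by positivity) (by positivity)
        · linarith
        · have h2K : (2 : ℝ) ≤ K := by
            have : 2 ≤ K := by omega
            exact_mod_cast this
          calc (1 + (K : ℝ)) * K ≤ (K * K) * K := by
                gcongr
                nlinarith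
            _ = (K : ℝ) ^ 3 := by ring
            _ ≤ (K : ℝ) ^ 4 := pow_le_pow_right₀ hKr (by norm_num)
    _ ≤ 2 ^ H * Real.exp (-(c₀ / 2 * Real.sqrt K)) := mul_le_mul_of_nonneg_left hexp2 (by positivity)

end Pool.Agent.Run7.h620.PD
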