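import Pool.Agent.Run7.h620.PD.Two

set_option autoImplicit false

/-! Systems of linear forms, pairwise not proportional, at palindromes with two digits. -/

namespace Pool.Agent.Run7.h620.PD

open Finset Polynomial Filter

open Classical in
theorem lin_two (b : ℕ) (hb : 2 ≤ b) (e f : ℕ) (he : e < b) (hf : f < b) (he0 : e ≠ 0) (hef : f ≠ e)
    (k : ℕ) (hk : 1 ≤ k) (a c : ℕ → ℤ) (ha : ∀ i < k, a i ≠ 0)
    (hac : ∀ i < k, ∀ j < k, i ≠ j → a i * c j ≠ a j * c i) :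
    (∃ c₁ : ℝ, 0 < c₁ ∧ ∃ r : ℕ, ∀ᶠ K : ℕ in atTop, c₁ * (2 : ℝ) ^ ((K : ℝ) / 2) / (K : ℝ) ^ k ≤
      (((Finset.range (b ^ K)).filter (fun n : ℕ => IsPal b e f K n ∧
        ∀ i < k, a i * n + c i ≠ 0 ∧ (a i * n + c i).natAbs.primeFactorsList.length ≤ r)).card : ℝ)) ∧
    (∃ C₁ : ℝ, 0 < C₁ ∧ ∀ᶠ K : ℕ in atTop,
      (((Finset.range (b ^ K)).filter (fun n : ℕ => IsPal b e f K n ∧
        ∀ i < k, (a i * n + c i).natAbs.Prime)).card : ℝ) ≤ C₁ * (2 : ℝ) ^ ((K : ℝ) / 2) / (K : ℝ) ^ k) := by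
  have hdeg : ∀ i < k, (C (a i) * X + C (c i)).natDegree = 1 := fun i hi => natDegree_linear (ha i hi)
  obtain ⟨⟨c', hc', r, h1⟩, ⟨C', hC', h2⟩⟩ := two_sided b hb e f he hf he0 hef k
    (fun i => C (a i) * X + C (c i)) (fun i hi => (hdeg i hi).ge) hk k
    (by
      rw [natDegree_prod _ _ (fun i hi => by
        intro h0
        have h3 := hdeg i (mem_range.1 hi)
        rw [h0, natDegree_zero] at h3
        omega)]
      rw [sum_congr rfl (fun i hi => hdeg i (mem_range.1 hi))]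
      simp)
    (MertF_lin k a c ha hac)
  have hev : ∀ (n i : ℕ), (C (a i) * X + C (c i)).eval (n : ℤ) = a i * n + c i := by
    intro n i
    rw [eval_add, eval_mul, eval_C, eval_X, eval_C]
  simp only [hev, ArithmeticFunction.cardFactors_apply] at h1 h2
  exact ⟨⟨c', hc', r, h1⟩, ⟨C', hC', h2⟩⟩

end Pool.Agent.Run7.h620.PD
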