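import Pool.Agent.Run7.h620.PD.Par

set_option autoImplicit false

/-! The construction for all large numbers of digits. -/

namespace Pool.Agent.Run7.h620.PD

open Finset Filter

theorem core (b : ℕ) (hb : 2 ≤ b) (D : ℤ) (hD : D ≠ 0) : ∃ η c : ℝ, 0 < η ∧ η ≤ 1 / 60 ∧ 0 < c ∧
    ∀ᶠ K : ℕ in atTop, ∀ n₀ : ℤ, (∀ S ∈ (Icc 1 ((K - 2) / 2)).powerset, 0 ≤ vv b K n₀ D S) →
      ∃ G ⊆ (Icc 1 ((K - 2) / 2)).powerset, (2 : ℝ) ^ ((K : ℝ) / 2 - K / Real.log K) ≤ G.card ∧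
        ∀ S ∈ G, ∀ t : ℤ, |(t : ℝ)| ≤ c * Gz (η * K / Real.log K) →
          ∃ p : ℕ, p.Prime ∧ p ≤ 2 ^ (K / 2) ∧ (p : ℤ) ∣ vv b K n₀ D S + t := by
  classical
  obtain ⟨C, hC, hcore⟩ := core_param
  obtain ⟨C₃, hC₃, hsurv⟩ := surv'
  obtain ⟨CM, hCM, hmert⟩ := mert
  obtain ⟨R, hR⟩ : ∃ R : ℕ, R = b * (((b : ℤ) ^ 2 - 1) * D).natAbs := ⟨_, rfl⟩
  have hbr : (2 : ℝ) ≤ b := by exact_mod_cast hb
  have hU0 : ((b : ℤ) ^ 2 - 1) * D ≠ 0 := by
    apply mul_ne_zero _ hD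
    have : (2 : ℤ) ≤ b := by exact_mod_cast hb
    nlinarith
  have hR1 : 1 ≤ R := by
    rw [hR]
    have := Int.natAbs_pos.2 hU0
    exact Nat.mul_pos (by omega) this
  have hRr : (1 : ℝ) ≤ R := by exact_mod_cast hR1
  set y : ℝ := yy b R with hy
  have hy0 : 0 < y := yy_pos b R (by omega) hR1
  have hy1 : y < 1 := yy_lt b R (by omega) hR1
  have hly : Real.log y < 0 := Real.log_neg hy0 hy1
  set q : ℝ := 10 / (-Real.log y) with hq
  have hq0 : 0 < q := by rw [hq]; apply div_pos (by norm_num); linarith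
  set η : ℝ := 1 / (60 * (q + 1)) with hη
  have hη0 : 0 < η := by rw [hη]; positivity
  obtain ⟨n₁, hn₁⟩ := exists_pow_lt_of_lt_one (show (0 : ℝ) < 1 / (50 * b) by positivity) hy1
  obtain ⟨C₁, hC₁⟩ : ∃ C₁ : ℕ, C₁ = n₁ + 1 := ⟨_, rfl⟩
  have hy3 : 2 * b * y ^ C₁ * 5 ≤ 1 / 5 := by
    have h1 : y ^ C₁ ≤ 1 / (50 * b) := by
      rw [hC₁, pow_succ]
      calc y ^ n₁ * y ≤ y ^ n₁ * 1 := mul_le_mul_of_nonneg_left hy1.le (pow_pos hy0 n₁).le
        _ ≤ 1 / (50 * b) := by rw [mul_one]; exact hn₁.le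
    calc 2 * b * y ^ C₁ * 5 ≤ 2 * b * (1 / (50 * b)) * 5 := by gcongr
      _ = 1 / 5 := by field_simp; norm_num
  obtain ⟨M, hM⟩ : ∃ M : ℕ, M = 80 * C₁ * C ^ 2 := ⟨_, rfl⟩
  have hM2C : 2 * C ^ 2 ≤ M := by
    rw [hM]
    exact Nat.mul_le_mul_right _ (by omega)
  have hCC : 1 ≤ C ^ 2 := Nat.one_le_pow _ _ hC
  have hM2 : 2 ≤ M := by omega
  have hM1 : 1 ≤ M := by omega
  have hMr : (1 : ℝ) ≤ M := by exact_mod_cast hM1
  set c₃ : ℝ := 1 / (8 * C₃ * η * CM * M) with hc₃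
  have hc₃0 : 0 < c₃ := by rw [hc₃]; positivity
  refine ⟨η, c₃ / 4, hη0, by
    rw [hη]
    apply one_div_le_one_div_of_le (by norm_num)
    linarith, by positivity, ?_⟩
  obtain ⟨B, hB⟩ : ∃ B : ℝ, B = 100 + 40 * C₁ + 8 * b * R + 2 * C + 4 * R + 16 * C₃ * c₃ * η * R * (12 * b + 6) := ⟨_, rfl⟩
  filter_upwards [par y hy0 hy1 q η hq hη M hM1 B, (z_tendsto η hη0).eventually (hsurv c₃ hc₃0),
    (z_tendsto η hη0).eventually (ev_L c₃ hc₃0)] with K hK ⟨bb, hbb⟩ hL n₀ hpos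
  obtain ⟨k1, k2, k3, k4, k5, k6, k7, k8, k9⟩ := hK
  obtain ⟨l1, l2, l3, l4, l5, l6⟩ := hL
  set z : ℝ := η * K / Real.log K with hz
  set Ny : ℕ := ⌊z⌋₊ with hNy
  set Js : ℕ := Nat.log 2 (K / M) with hJs
  set C₀ : ℕ := ⌈q * Real.log K⌉₊ with hC₀
  set L : ℕ := ⌊c₃ * Gz z⌋₊ with hLL
  have e1 : (0 : ℝ) ≤ 40 * C₁ := by positivity
  have e2 : (0 : ℝ) ≤ 8 * b * R := by positivity
  have e3 : (0 : ℝ) ≤ 2 * C := by positivity
  have e4 : (0 : ℝ) ≤ 4 * R := by positivity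
  have e5 : (0 : ℝ) ≤ 16 * C₃ * c₃ * η * R * (12 * b + 6) := by positivity
  have hKr : (100 : ℝ) ≤ K := by linarith
  have hK100 : 100 ≤ K := by exact_mod_cast hKr
  have hK0 : (0 : ℝ) < K := by linarith
  have hlK : 100 ≤ Real.log K := by linarith
  have hlK0 : 0 < Real.log K := by linarith
  have hNyz : (Ny : ℝ) ≤ z := Nat.floor_le (by linarith)
  have hNyz' : z < Ny + 1 := Nat.lt_floor_add_one z
  have hzK : z ≤ η * K := by
    rw [hz, div_le_iff₀ hlK0]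
    have : η * K * 1 ≤ η * K * Real.log K := by
      apply mul_le_mul_of_nonneg_left _ (by positivity)
      linarith
    linarith
  -- the integer conditions
  have hH1 : 1 ≤ (K - 2) / 2 := by omega
  have hHK : (K - 2) / 2 + 1 ≤ K := by omega
  have hNy2 : 2 * C ≤ Ny := by
    have : (2 * C : ℝ) < Ny + 1 := by linarith
    have : 2 * C < Ny + 1 := by exact_mod_cast this
    omega
  have hNyR : R ≤ Ny := by
    have : (R : ℝ) < Ny + 1 := by linarith
    have : R < Ny + 1 := by exact_mod_cast this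
    omega
  have hNy3 : 3 ≤ Ny := by
    have : (3 : ℝ) < Ny + 1 := by linarith
    have : 3 < Ny + 1 := by exact_mod_cast this
    omega
  have hC₀1 : 1 ≤ C₀ := by
    rw [hC₀]
    exact Nat.one_le_ceil_iff.2 (by positivity)
  have hV1 : C₁ * (5 * (2 * C ^ 2 * 2 ^ Js + 1)) ≤ (K - 2) / 2 - 1 := by
    have h1 : 80 * C₁ * C ^ 2 * 2 ^ Js ≤ K := by rw [← hM]; exact k8
    have h2 : 40 * C₁ ≤ K := by
      have : (40 * C₁ : ℝ) ≤ K := by linarith
      exact_mod_cast this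
    have h3 : 8 * (C₁ * (5 * (2 * C ^ 2 * 2 ^ Js + 1))) = 80 * C₁ * C ^ 2 * 2 ^ Js + 40 * C₁ := by ring
    omega
  have hNyK : Ny ≤ K := by
    have h1 : η ≤ 1 := by
      rw [hη, div_le_one (by positivity)]
      linarith
    have : (Ny : ℝ) ≤ K := by
      calc (Ny : ℝ) ≤ η * K := hNyz.trans hzK
        _ ≤ 1 * K := by gcongr
        _ = K := one_mul _
    exact_mod_cast this
  have hNJ : Ny ≤ 2 ^ 2 ^ Js := hNyK.trans k9
  have hHr : (((K - 2) / 2 : ℕ) : ℝ) ≤ K := by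
    have : (K - 2) / 2 ≤ K := by omega
    exact_mod_cast this
  have hHr' : ((((K - 2) / 2 - 1 : ℕ)) : ℝ) ≤ K := by
    have : (K - 2) / 2 - 1 ≤ K := by omega
    exact_mod_cast this
  have hy2 : 2 * b * y ^ C₀ * (5 * ((2 * Ny + 1 : ℕ) : ℝ)) ≤ 1 := by
    have h1 : (5 * ((2 * Ny + 1 : ℕ) : ℝ)) ≤ K := by
      have h2 : 5 * (2 * Ny + 1) ≤ K := by
        have h3 : 1 * (5 * (2 * Ny + 1)) ≤ C₀ * (5 * (2 * Ny + 1)) := Nat.mul_le_mul_right _ hC₀1
        omega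
      exact_mod_cast h2
    calc 2 * b * y ^ C₀ * (5 * ((2 * Ny + 1 : ℕ) : ℝ)) ≤ 2 * b * (1 / (K : ℝ) ^ 10) * K := by gcongr
      _ = 2 * b / (K : ℝ) ^ 9 := by field_simp
      _ ≤ 1 := by
          rw [div_le_one (by positivity)]
          have h4 : 2 * (b : ℝ) ≤ K := by
            have h5 : 8 * (b : ℝ) * 1 ≤ 8 * b * R := mul_le_mul_of_nonneg_left hRr (by positivity)
            linarith
          calc 2 * (b : ℝ) ≤ K := h4
            _ = (K : ℝ) ^ 1 := (pow_one _).symm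
            _ ≤ (K : ℝ) ^ 9 := pow_le_pow_right₀ (by linarith) (by norm_num)
  have hy4 : 4 * b * y ^ C₀ * (((K - 2) / 2 : ℕ) : ℝ) ≤ 1 / (2 * R) := by
    calc 4 * b * y ^ C₀ * (((K - 2) / 2 : ℕ) : ℝ) ≤ 4 * b * (1 / (K : ℝ) ^ 10) * K := by gcongr
      _ = 4 * b / (K : ℝ) ^ 9 := by field_simp
      _ ≤ 1 / (2 * R) := by
          rw [div_le_div_iff₀ (by positivity) (by positivity)]
          calc 4 * (b : ℝ) * (2 * R) = 8 * b * R := by ring
            _ ≤ K := by linarith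
            _ = 1 * (K : ℝ) ^ 1 := by rw [pow_one, one_mul]
            _ ≤ 1 * (K : ℝ) ^ 9 := by
                apply mul_le_mul_of_nonneg_left _ (by norm_num)
                exact pow_le_pow_right₀ (by linarith) (by norm_num)
  have k7r : (K : ℝ) < M * (2 ^ Js * 2) := by
    rw [← pow_succ]
    exact_mod_cast k7
  have hT1 : C₃ * c₃ * z * Q1 Ny Js ≤ 1 / 4 := by
    have h1 := hmert Ny Js hNy3 hNJ
    have h2 : Real.log Ny ≤ Real.log K := Real.log_le_log (by exact_mod_cast (by omega : 0 < Ny)) (by exact_mod_cast hNyK)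
    have h3 : Q1 Ny Js ≤ CM * Real.log K * (2 * M) / K := by
      refine h1.trans ?_
      rw [div_le_div_iff₀ (by positivity) hK0]
      calc CM * Real.log Ny * K ≤ CM * Real.log K * (M * (2 ^ Js * 2)) := by gcongr
        _ = _ := by ring
    calc C₃ * c₃ * z * Q1 Ny Js ≤ C₃ * c₃ * z * (CM * Real.log K * (2 * M) / K) := by gcongr
      _ = 1 / 4 := by
          rw [hz, hc₃]
          field_simp
          norm_num
  have hJsK : (Js : ℝ) + 2 ≤ K := by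
    have h1 : Js < 2 ^ Js := Nat.lt_two_pow_self
    have h2 : 2 * 2 ^ Js ≤ K := by
      refine le_trans ?_ k8
      exact Nat.mul_le_mul_right _ hM2
    have : Js + 2 ≤ K := by omega
    exact_mod_cast this
  have hHSK : HS C Js ≤ 2 * K := by
    have h1 := HS_le C Js
    have h2 : (2 * C ^ 2 * 2 ^ Js : ℕ) ≤ K := by
      refine le_trans ?_ k8
      exact Nat.mul_le_mul_right _ hM2C
    have h3 : (2 : ℝ) * C ^ 2 * 2 ^ Js ≤ K := by exact_mod_cast h2
    linarith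
  have hT2 : C₃ * c₃ * z * Q2 b R Ny Js C C₀ ((K - 2) / 2 - 1) ≤ 1 / 4 := by
    have h1 : Q2 b R Ny Js C C₀ ((K - 2) / 2 - 1) ≤ 2 * R * (K * ((2 * K) * (1 * (K *
        (12 * b * (1 / (K : ℝ) ^ 10) + 6 * (1 / (K : ℝ) ^ 10)))))) := by
      unfold Q2
      have h0 := HS_nonneg C Js
      rw [← hy]
      gcongr
    calc C₃ * c₃ * z * Q2 b R Ny Js C C₀ ((K - 2) / 2 - 1) ≤ C₃ * c₃ * (η * K) * (2 * R * (K * ((2 * K) * (1 * (K *
        (12 * b * (1 / (K : ℝ) ^ 10) + 6 * (1 / (K : ℝ) ^ 10))))))) := by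
          have := Q2_nonneg b R Ny Js C C₀ ((K - 2) / 2 - 1) (by omega) hR1
          gcongr
      _ = (16 * C₃ * c₃ * η * R * (12 * b + 6)) / (4 * (K : ℝ) ^ 6) := by
          field_simp
          ring
      _ ≤ 1 / 4 := by
          rw [div_le_iff₀ (by positivity)]
          have h2 : (K : ℝ) ^ 1 ≤ (K : ℝ) ^ 6 := pow_le_pow_right₀ (by linarith) (by norm_num)
          rw [pow_one] at h2
          linarith
  obtain ⟨h', hh1, hh2, G, hG1, hG2, hG3⟩ := hcore b K ((K - 2) / 2) R Ny Js C₀ C₁ L n₀ D bb (C₃ * c₃ * z) hb hD hR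
    hH1 hHK hNy2 hNyR hC₀1 (by omega) k6 hV1 hy2 hy3 hy4 hbb hT1 hT2 hNJ hpos
  refine ⟨G, hG1, ?_, ?_⟩
  · refine le_trans ?_ hG2
    rw [le_div_iff₀ (by positivity)]
    have h1 : (4 * R : ℝ) ≤ 2 ^ (4 * R) := by
      have : 4 * R < 2 ^ (4 * R) := Nat.lt_two_pow_self
      exact_mod_cast this.le
    have h2 : (4 : ℝ) ^ Ny = 2 ^ (2 * Ny) := by rw [pow_mul]; norm_num
    calc (2 : ℝ) ^ ((K : ℝ) / 2 - K / Real.log K) * (4 * R * 4 ^ Ny) ≤
          (2 : ℝ) ^ ((K : ℝ) / 2 - K / Real.log K) * (2 ^ (4 * R) * 2 ^ (2 * Ny)) := by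
          rw [h2]
          gcongr
      _ = (2 : ℝ) ^ ((K : ℝ) / 2 - K / Real.log K + ((4 * R + 2 * Ny : ℕ) : ℝ)) := by
          rw [Real.rpow_add (by norm_num), Real.rpow_natCast, pow_add]
      _ ≤ (2 : ℝ) ^ ((((K - 2) / 2 : ℕ)) : ℝ) := by
          apply Real.rpow_le_rpow_of_exponent_le (by norm_num)
          have h3 : (K : ℝ) - 3 ≤ 2 * (((K - 2) / 2 : ℕ) : ℝ) := by
            have : K ≤ 2 * ((K - 2) / 2) + 3 := by omega
            have : (K : ℝ) ≤ 2 * (((K - 2) / 2 : ℕ) : ℝ) + 3 := by exact_mod_cast this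
            linarith
          have h4 : 3 * z ≤ K / Real.log K := by
            have h5 : z = η * (K / Real.log K) := by rw [hz]; ring
            have h6 : η ≤ 1 / 60 := by
              rw [hη]
              apply one_div_le_one_div_of_le (by norm_num)
              linarith
            have h7 : 0 < K / Real.log K := by positivity
            have h8 := mul_le_mul_of_nonneg_right h6 h7.le
            rw [h5]
            linarith
          push_cast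
          linarith
      _ = (2 : ℝ) ^ ((K - 2) / 2) := Real.rpow_natCast _ _
  · intro S hS t ht
    have h1 : (L : ℝ) ≥ c₃ * Gz z - 1 := by
      have := Nat.lt_floor_add_one (c₃ * Gz z)
      linarith
    have h2 : (L : ℝ) ≤ 2 * ((L / 2 : ℕ) : ℝ) + 1 := by
      have : L ≤ 2 * (L / 2) + 1 := by omega
      exact_mod_cast this
    have h3 : |(t : ℝ)| + R + 1 ≤ ((L / 2 : ℕ) : ℝ) := by
      have h5 : 4 * R + 12 ≤ c₃ * Gz z := by linarith
      linarith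
    have h4 : |t| + R + 1 ≤ ((L / 2 : ℕ) : ℤ) := by
      generalize L / 2 = L2 at h3
      exact_mod_cast h3
    have h5 := abs_le.1 (le_refl |t|)
    obtain ⟨p, hp1, hp2, hp3⟩ := hG3 S hS (t + h').toNat (by
      rw [mem_Icc]
      omega)
    refine ⟨p, hp1, ?_, ?_⟩
    · refine hp2.trans (Nat.pow_le_pow_right (by norm_num) ?_)
      have h2 : 2 * 2 ^ Js ≤ K := by
        refine le_trans ?_ k8
        exact Nat.mul_le_mul_right _ hM2
      omega
    · have h6 : (((t + h').toNat : ℕ) : ℤ) - h' = t := by omega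
      rw [h6] at hp3
      exact hp3

end Pool.Agent.Run7.h620.PD
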