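import Pool.Agent.Run7.h620.PD.Uni

set_option autoImplicit false

/-! All polynomials of a given degree and bounded leading coefficient at palindromes with two digits. -/

namespace Pool.Agent.Run7.h620.PD

open Finset Polynomial Filter

lemma pow_dvd_cancel2 (p : ℕ) (hp : p.Prime) (s t : ℤ) (m n : ℕ) (h : ((p ^ (n + m) : ℕ) : ℤ) ∣ s * t)
    (hs : ¬ ((p ^ m : ℕ) : ℤ) ∣ s) : ((p ^ n : ℕ) : ℤ) ∣ t := by
  have hpp := Nat.prime_iff_prime_int.1 hp
  have hs0 : s ≠ 0 := by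
    rintro rfl
    exact hs (dvd_zero _)
  have hfin : FiniteMultiplicity (p : ℤ) s := by
    rw [Int.finiteMultiplicity_iff]
    exact ⟨by rw [Int.natAbs_natCast]; exact hp.one_lt.ne', hs0⟩
  obtain ⟨c, hc1, hc2⟩ := hfin.exists_eq_pow_mul_and_not_dvd
  set v := multiplicity (p : ℤ) s with hv
  have hvm : v < m := by
    by_contra hcon
    push Not at hcon
    apply hs
    rw [hc1]
    push_cast
    exact (pow_dvd_pow (p : ℤ) hcon).trans (dvd_mul_right _ _)
  have hp0 : (p : ℤ) ≠ 0 := by exact_mod_cast hp.ne_zero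
  push_cast at h ⊢
  rw [hc1, show n + m = v + (n + (m - v)) by omega, pow_add, mul_assoc] at h
  have h3 := (mul_dvd_mul_iff_left (pow_ne_zero v hp0)).1 h
  have h4 := hpp.pow_dvd_of_dvd_mul_left _ hc2 h3
  exact (pow_dvd_pow (p : ℤ) (Nat.le_add_right n (m - v))).trans h4

/-- the solutions of `F ≡ 0` modulo a high power of `p` lie in few classes -/
lemma cls (p : ℕ) (hp : p.Prime) (m A : ℕ) : ∀ (d : ℕ) (F : ℤ[X]), F.natDegree = d → F ≠ 0 →
    F.leadingCoeff.natAbs ≤ A → ∃ R : Finset ℤ, R.card ≤ d ∧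
      ∀ x : ℤ, ((p ^ (A + d * m) : ℕ) : ℤ) ∣ F.eval x → ∃ r ∈ R, ((p ^ m : ℕ) : ℤ) ∣ x - r := by
  classical
  intro d
  induction d with
  | zero =>
    intro F hF hF0 hA
    refine ⟨∅, by simp, fun x hx => ?_⟩
    exfalso
    rw [zero_mul, add_zero] at hx
    have h1 := eq_C_of_natDegree_eq_zero hF
    rw [h1, eval_C] at hx
    have h2 : F.leadingCoeff = F.coeff 0 := by rw [leadingCoeff, hF]
    rw [← h2] at hx
    have h3 := Nat.le_of_dvd (Int.natAbs_pos.2 (leadingCoeff_ne_zero.2 hF0)) (Int.natCast_dvd.1 hx)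
    have h4 : A < p ^ A := Nat.lt_pow_self hp.one_lt
    omega
  | succ d ih =>
    intro F hF hF0 hA
    by_cases hex : ∃ x₀ : ℤ, ((p ^ (A + (d + 1) * m) : ℕ) : ℤ) ∣ F.eval x₀
    · obtain ⟨x₀, hx₀⟩ := hex
      set G := F /ₘ (X - C x₀) with hG
      have hdeg : F.degree ≠ 0 := by
        intro h0
        have := natDegree_eq_zero_iff_degree_le_zero.2 h0.le
        omega
      have hGd : G.natDegree = d := by
        rw [hG, natDegree_divByMonic F (monic_X_sub_C x₀), natDegree_X_sub_C, hF]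
        rfl
      have hGl : G.leadingCoeff = F.leadingCoeff := leadingCoeff_divByMonic_X_sub_C F hdeg x₀
      have hG0 : G ≠ 0 := by
        rw [← leadingCoeff_ne_zero, hGl]
        exact leadingCoeff_ne_zero.2 hF0
      obtain ⟨R, hR1, hR2⟩ := ih G hGd hG0 (by rw [hGl]; exact hA)
      refine ⟨insert x₀ R, (card_insert_le _ _).trans (by omega), fun x hx => ?_⟩
      by_cases h1 : ((p ^ m : ℕ) : ℤ) ∣ x - x₀
      · exact ⟨x₀, mem_insert_self _ _, h1⟩
      · have h2 : F.eval x = F.eval x₀ + (x - x₀) * G.eval x := by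
          have h3 := modByMonic_add_div F (X - C x₀)
          rw [modByMonic_X_sub_C_eq_C_eval] at h3
          have h4 := congrArg (fun P => eval x P) h3
          simp only [eval_add, eval_mul, eval_sub, eval_X, eval_C] at h4
          exact h4.symm
        have h3 : ((p ^ ((A + d * m) + m) : ℕ) : ℤ) ∣ (x - x₀) * G.eval x := by
          have h4 := dvd_sub hx hx₀
          rw [h2, add_sub_cancel_left] at h4
          have h5 : A + (d + 1) * m = (A + d * m) + m := by ring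
          rwa [h5] at h4
        obtain ⟨r, hr1, hr2⟩ := hR2 x (pow_dvd_cancel2 p hp _ _ m (A + d * m) h3 h1)
        exact ⟨r, mem_insert_of_mem hr1, hr2⟩
    · refine ⟨∅, by simp, fun x hx => ?_⟩
      exact absurd ⟨x, hx⟩ hex

/-- all polynomials of degree `d` with bounded leading coefficient -/
theorem poly_uniform (b : ℕ) (hb : 2 ≤ b) (e f : ℕ) (he : e < b) (hf : f < b) (he0 : e ≠ 0) (hef : f ≠ e)
    (d : ℕ) (hd : 1 ≤ d) (A L : ℕ) (hL : 1 ≤ L) :
    ∃ c : ℝ, 0 < c ∧ ∃ r : ℕ, ∀ᶠ K : ℕ in atTop,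
      ∀ F : ℤ[X], F.natDegree = d → F.leadingCoeff.natAbs ≤ A → (∀ i, (F.coeff i).natAbs ≤ b ^ (L * K)) →
      ∃ P : Finset ℕ, c * (2 : ℝ) ^ ((K : ℝ) / 2) / (K : ℝ) ^ d ≤ P.card ∧
        ∀ n ∈ P, n < b ^ K ∧ IsPal b e f K n ∧ F.eval (n : ℤ) ≠ 0 ∧
          ArithmeticFunction.cardFactors (F.eval (n : ℤ)).natAbs ≤ r := by
  classical
  have hD : ((f : ℤ) - e) ≠ 0 := by omega
  obtain ⟨N₀, hN₀, hN₀', h⟩ := pal_low b hb e f he hf he0 hef d d hd le_rfl
  obtain ⟨c₁, hc₁, hml⟩ := mert_low d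
  obtain ⟨N, hN⟩ : ∃ N : ℕ, N = N₀ + A := ⟨_, rfl⟩
  obtain ⟨M, m, hM0, hMp, hMm, hgood⟩ := good_class2 b hb ((f : ℤ) - e) hD N d
  obtain ⟨c, hc, M', hM', hev⟩ := h N (by omega) M hM0 hMp c₁ hc₁
  refine ⟨c, hc, N * (A + d * m) + (b * (L + d + 2)) * M', ?_⟩
  filter_upwards [hev, hgood, eventually_ge_atTop (d + 12)] with K hK hgK hKA F hFd hFA hFc
  have hF0 : F ≠ 0 := by
    rintro rfl
    rw [natDegree_zero] at hFd
    omega
  have hlc0 : F.leadingCoeff ≠ 0 := leadingCoeff_ne_zero.2 hF0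
  have hcl : ∀ p : ℕ, ∃ R : Finset ℤ, R.card ≤ d ∧ (p.Prime → ∀ x : ℤ, ((p ^ (A + d * m) : ℕ) : ℤ) ∣ F.eval x →
      ∃ r ∈ R, ((p ^ m : ℕ) : ℤ) ∣ x - r) := by
    intro p
    by_cases hp : p.Prime
    · obtain ⟨R, h1, h2⟩ := cls p hp m A d F hFd hF0 hFA
      exact ⟨R, h1, fun _ => h2⟩
    · exact ⟨∅, by simp, fun h => absurd h hp⟩
  choose R hR1 hR2 using hcl
  obtain ⟨s₀, hs₀, hs₀'⟩ := hgK (n0 b K e) R hR1
  have hlcp : ∀ p : ℕ, p.Prime → N < p → ¬ (p : ℤ) ∣ F.leadingCoeff := by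
    intro p hp hpN hdvd
    have h1 := Nat.le_of_dvd (Int.natAbs_pos.2 hlc0) (Int.natCast_dvd.1 hdvd)
    omega
  obtain ⟨P, hP1, hP2⟩ := hK 1 (Zr F) le_rfl
    (fun p hp hpN => ⟨filter_subset _ _, by rw [← hFd]; exact Zr_card F p hp (hlcp p hp hpN)⟩) (by
    intro J hJ _
    rw [mul_one]
    refine (hml N J (by omega) (by omega) hJ).trans ?_
    apply Finset.prod_le_prod
    · intro p hp
      rw [mem_PP] at hp
      have hp0 : (0 : ℝ) < p := by exact_mod_cast hp.1.pos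
      have h1 : d ≤ p := by omega
      have h2 : (d : ℝ) / p ≤ 1 := by
        rw [div_le_one hp0]
        exact_mod_cast h1
      linarith
    · intro p hp
      rw [mem_PP] at hp
      have hp0 : (0 : ℝ) < p := by exact_mod_cast hp.1.pos
      have h1 := Zr_card F p hp.1 (hlcp p hp.1 hp.2.1)
      rw [hFd] at h1
      have h2 : ((Zr F p).card : ℝ) ≤ d := by exact_mod_cast h1
      have h3 : ((Zr F p).card : ℝ) / p ≤ d / p := by gcongr
      linarith) s₀ hs₀
  rw [mul_one] at hP1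
  refine ⟨P, hP1, fun n hn => ?_⟩
  obtain ⟨h1, h2, h3, h4, h5⟩ := hP2 n hn
  have h6 : ∀ p : ℕ, p.Prime → p ≤ N → ¬ p ^ (A + d * m) ∣ (F.eval (n : ℤ)).natAbs := by
    intro p hp hpN hdvd
    obtain ⟨r, hr1, hr2⟩ := hR2 p hp n (Int.natCast_dvd.2 hdvd)
    apply hs₀' p hp hpN r hr1
    have g4 : ((p ^ m : ℕ) : ℤ) ∣ (n : ℤ) - s₀ := by
      refine dvd_trans ?_ h4
      exact_mod_cast hMm p hp hpN
    have g5 := dvd_sub hr2 g4
    have g6 : (n : ℤ) - r - (n - s₀) = s₀ - r := by ring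
    rwa [g6] at g5
  have h8 : F.eval (n : ℤ) ≠ 0 := by
    intro h0
    apply h6 2 Nat.prime_two (by omega)
    rw [h0]
    simp
  have h7 : ∀ p : ℕ, p.Prime → N < p → p ^ M' ≤ 2 ^ K → ¬ p ∣ (F.eval (n : ℤ)).natAbs := by
    intro p hp hpN hpK hdvd
    exact h5 p hp hpN hpK (Zr_of_dvd _ p hp.pos _ (Int.natCast_dvd.2 hdvd))
  refine ⟨h1, h3, h8, ?_⟩
  apply omega_bound _ N (A + d * m) M' K (b * (L + d + 2)) (Int.natAbs_ne_zero.2 h8) h6 h7 (by omega)
  have h10 := eval_bound F (n : ℤ) (by exact_mod_cast h2)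
  have h11 : (F.eval (n : ℤ)).natAbs ≤ (d + 1) * b ^ (L * K) * n ^ d := by
    zify
    refine h10.trans ?_
    rw [hFd]
    apply mul_le_mul_of_nonneg_right _ (by positivity)
    calc ∑ i ∈ range (d + 1), |F.coeff i| ≤ ∑ _i ∈ range (d + 1), (b : ℤ) ^ (L * K) := by
          refine sum_le_sum fun i _ => ?_
          rw [← Int.natCast_natAbs]
          exact_mod_cast hFc i
      _ = ((d : ℤ) + 1) * (b : ℤ) ^ (L * K) := by
          rw [sum_const, card_range, nsmul_eq_mul]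
          push_cast
          ring
  calc (F.eval (n : ℤ)).natAbs ≤ (d + 1) * b ^ (L * K) * n ^ d := h11
    _ ≤ b ^ K * b ^ (L * K) * (b ^ K) ^ d := by
        apply Nat.mul_le_mul
        · apply Nat.mul_le_mul_right
          calc d + 1 ≤ K := by omega
            _ ≤ 2 ^ K := (Nat.lt_two_pow_self).le
            _ ≤ b ^ K := Nat.pow_le_pow_left hb K
        · exact Nat.pow_le_pow_left h1.le _
    _ = b ^ (K * (L + d + 1)) := by
        rw [← pow_mul, ← pow_add, ← pow_add]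
        congr 1
        ring
    _ ≤ b ^ (K * (L + d + 2)) := Nat.pow_le_pow_right (by omega) (Nat.mul_le_mul_left K (by omega))
    _ ≤ (2 ^ b) ^ (K * (L + d + 2)) := Nat.pow_le_pow_left (Nat.lt_two_pow_self).le _
    _ = 2 ^ (K * (b * (L + d + 2))) := by
        rw [← pow_mul]
        congr 1
        ring

end Pool.Agent.Run7.h620.PD
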