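import Pool.Agent.Run7.h620.PD.Uni

set_option autoImplicit false

/-! Pairs `n`, `a n + c` at palindromes with two digits, uniformly in `c`, with the singular series. -/

namespace Pool.Agent.Run7.h620.PD

open Finset Polynomial Filter
open Pool.Agent.H474R2.PG (rho Sg PR)

/-- `∏ (1 + 1 / p)` over the primes dividing `c` -/
noncomputable def sing (c : ℤ) : ℝ := ∏ p ∈ c.natAbs.primeFactors, (1 + 1 / (p : ℝ))

lemma one_le_sing (c : ℤ) : 1 ≤ sing c := by
  unfold sing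
  calc (1 : ℝ) = ∏ _p ∈ c.natAbs.primeFactors, (1 : ℝ) := by rw [Finset.prod_const_one]
    _ ≤ _ := by
        apply Finset.prod_le_prod
        · intro _ _
          norm_num
        · intro p _
          have : (0 : ℝ) ≤ 1 / p := by positivity
          linarith

/-- sieve products from below, explicit in the constant -/
lemma W_low2 (κ k : ℕ) : ∃ c₀ : ℝ, 0 < c₀ ∧ ∀ (C : ℝ) (ρ : ℕ → ℕ) (Ny Js : ℕ), 2 * κ ≤ Ny →
    (∀ p ∈ PP Ny Js, ρ p ≤ κ) →
    ∑ p ∈ PP Ny Js, (ρ p : ℝ) / p ≤ k * Real.log (Real.log ((2 ^ 2 ^ Js : ℕ) : ℝ)) + C →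
    c₀ * Real.exp (-C) / (2 ^ Js) ^ k ≤ ∏ p ∈ PP Ny Js, (1 - (ρ p : ℝ) / (p : ℝ)) := by
  have hl2 : 0 < Real.log 2 := Real.log_pos (by norm_num)
  set S₂ : ℝ := ∑' n : ℕ, 1 / (n : ℝ) ^ 2 with hS₂
  have hsum : Summable (fun n : ℕ => 1 / (n : ℝ) ^ 2) := Real.summable_one_div_nat_pow.2 (by norm_num)
  refine ⟨Real.exp (- 2 * κ ^ 2 * S₂), Real.exp_pos _, ?_⟩
  intro C ρ Ny Js hκN hρ hC
  have hlz : Real.log ((2 ^ 2 ^ Js : ℕ) : ℝ) = 2 ^ Js * Real.log 2 := by
    push_cast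
    rw [Real.log_pow]
    push_cast
    ring
  have hlz0 : 0 < Real.log ((2 ^ 2 ^ Js : ℕ) : ℝ) := by rw [hlz]; positivity
  have hlz1 : Real.log ((2 ^ 2 ^ Js : ℕ) : ℝ) ≤ 2 ^ Js := by
    rw [hlz]
    have : (0 : ℝ) < 2 ^ Js := by positivity
    have hl21 : Real.log 2 ≤ 1 := by have := Real.log_two_lt_d9; linarith
    nlinarith
  have h4 : ∑ p ∈ PP Ny Js, (1 : ℝ) / (p : ℝ) ^ 2 ≤ S₂ := hsum.sum_le_tsum _ (fun _ _ => by positivity)
  have h5 : Real.exp (∑ p ∈ PP Ny Js, (-((ρ p : ℝ) / p) - 2 * ((ρ p : ℝ) / p) ^ 2)) ≤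
      ∏ p ∈ PP Ny Js, (1 - (ρ p : ℝ) / (p : ℝ)) := by
    rw [Real.exp_sum]
    apply Finset.prod_le_prod
    · intro _ _
      exact (Real.exp_pos _).le
    · intro p hp
      have h := hρ p hp
      rw [mem_PP] at hp
      have hp0 : (0 : ℝ) < p := by exact_mod_cast hp.1.pos
      apply log_one_sub
      · positivity
      · rw [div_le_iff₀ hp0]
        have : 2 * ρ p ≤ p := by omega
        have : (2 * ρ p : ℝ) ≤ p := by exact_mod_cast this
        linarith
  refine le_trans ?_ h5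
  have h8 : ∑ p ∈ PP Ny Js, 2 * ((ρ p : ℝ) / p) ^ 2 ≤ 2 * κ ^ 2 * S₂ := by
    calc ∑ p ∈ PP Ny Js, 2 * ((ρ p : ℝ) / p) ^ 2 ≤ ∑ p ∈ PP Ny Js, 2 * κ ^ 2 * (1 / (p : ℝ) ^ 2) := by
          refine sum_le_sum fun p hp => ?_
          have h : (ρ p : ℝ) ≤ κ := by exact_mod_cast hρ p hp
          rw [div_pow, mul_assoc, mul_one_div]
          gcongr
      _ = 2 * κ ^ 2 * ∑ p ∈ PP Ny Js, (1 : ℝ) / (p : ℝ) ^ 2 := by rw [mul_sum]
      _ ≤ _ := by gcongr
  have h6 : - 2 * κ ^ 2 * S₂ + -C - k * Real.log (Real.log ((2 ^ 2 ^ Js : ℕ) : ℝ)) ≤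
      ∑ p ∈ PP Ny Js, (-((ρ p : ℝ) / p) - 2 * ((ρ p : ℝ) / p) ^ 2) := by
    rw [sum_sub_distrib, sum_neg_distrib]
    linarith
  calc Real.exp (- 2 * κ ^ 2 * S₂) * Real.exp (-C) / (2 ^ Js) ^ k ≤
        Real.exp (- 2 * κ ^ 2 * S₂) * Real.exp (-C) / (Real.log ((2 ^ 2 ^ Js : ℕ) : ℝ)) ^ k := by
        gcongr
    _ = Real.exp (- 2 * κ ^ 2 * S₂ + -C - k * Real.log (Real.log ((2 ^ 2 ^ Js : ℕ) : ℝ))) := by
        rw [Real.exp_sub, Real.exp_add, Real.exp_nat_mul, Real.exp_log hlz0]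
    _ ≤ _ := Real.exp_le_exp.2 h6

/-- sieve products from above, explicit in the constant -/
lemma W_up2 (k : ℕ) : ∃ c₂ : ℝ, 0 < c₂ ∧ ∀ (C : ℝ) (ρ : ℕ → ℕ) (Ny Js : ℕ),
    (∀ p ∈ PP Ny Js, ρ p ≤ p) →
    k * Real.log (Real.log ((2 ^ 2 ^ Js : ℕ) : ℝ)) - C ≤ ∑ p ∈ PP Ny Js, (ρ p : ℝ) / p →
    ∏ p ∈ PP Ny Js, (1 - (ρ p : ℝ) / (p : ℝ)) ≤ c₂ * Real.exp C / (2 ^ Js) ^ k := by
  have hl2 : 0 < Real.log 2 := Real.log_pos (by norm_num)
  refine ⟨1 / Real.log 2 ^ k, by positivity, ?_⟩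
  intro C ρ Ny Js hρ hC
  have hlz : Real.log ((2 ^ 2 ^ Js : ℕ) : ℝ) = 2 ^ Js * Real.log 2 := by
    push_cast
    rw [Real.log_pow]
    push_cast
    ring
  have hlz0 : 0 < Real.log ((2 ^ 2 ^ Js : ℕ) : ℝ) := by rw [hlz]; positivity
  have h5 : ∏ p ∈ PP Ny Js, (1 - (ρ p : ℝ) / (p : ℝ)) ≤ Real.exp (∑ p ∈ PP Ny Js, (-((ρ p : ℝ) / p))) := by
    rw [Real.exp_sum]
    apply Finset.prod_le_prod
    · intro p hp
      have h := hρ p hp
      rw [mem_PP] at hp
      have hp0 : (0 : ℝ) < p := by exact_mod_cast hp.1.pos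
      have : (ρ p : ℝ) / p ≤ 1 := by
        rw [div_le_one hp0]
        exact_mod_cast h
      linarith
    · intro p _
      have := Real.add_one_le_exp (-((ρ p : ℝ) / p))
      linarith
  refine h5.trans ?_
  calc Real.exp (∑ p ∈ PP Ny Js, (-((ρ p : ℝ) / p))) ≤
        Real.exp (C - k * Real.log (Real.log ((2 ^ 2 ^ Js : ℕ) : ℝ))) := by
        apply Real.exp_le_exp.2
        rw [sum_neg_distrib]
        linarith
    _ = Real.exp C / (Real.log ((2 ^ 2 ^ Js : ℕ) : ℝ)) ^ k := by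
        rw [Real.exp_sub, Real.exp_nat_mul, Real.exp_log hlz0]
    _ = _ := by
        rw [hlz, mul_pow]
        field_simp

/-- Mertens on `PP` -/
lemma mert_PP (Ny : ℕ) (h3 : 3 ≤ Ny) : ∃ C : ℝ, 0 ≤ C ∧ ∀ Js : ℕ, Ny ≤ 2 ^ 2 ^ Js →
    |∑ p ∈ PP Ny Js, (1 : ℝ) / p - Real.log (Real.log ((2 ^ 2 ^ Js : ℕ) : ℝ))| ≤ C := by
  obtain ⟨C, hC, h⟩ := MertF_X
  refine ⟨C + Ny, by positivity, fun Js hNJ => ?_⟩
  have h4 := h ((2 ^ 2 ^ Js : ℕ) : ℝ) (by
      have : 3 ≤ 2 ^ 2 ^ Js := h3.trans hNJ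
      exact_mod_cast this)
  rw [Nat.cast_one, one_mul] at h4
  obtain ⟨h5, h6⟩ := PP_PR Ny Js hNJ
  have hone : ∀ p : ℕ, p.Prime → ((Zr X p).card : ℝ) = 1 := by
    intro p hp1
    have h2 : Zr X p = {0} := by
      ext a
      unfold Zr
      rw [mem_filter, mem_range, mem_singleton, eval_X]
      constructor
      · rintro ⟨h3, h4⟩
        have h5 : p ∣ a := by exact_mod_cast h4
        exact Nat.eq_zero_of_dvd_of_lt h5 h3
      · rintro rfl
        exact ⟨hp1.pos, by simp⟩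
    rw [h2, card_singleton, Nat.cast_one]
  have h7 : Sg (rho X) ((2 ^ 2 ^ Js : ℕ) : ℝ) = ∑ p ∈ (Icc 1 Ny).filter Nat.Prime, (1 : ℝ) / p +
      ∑ p ∈ PP Ny Js, (1 : ℝ) / p := by
    unfold Sg
    rw [h5, sum_union h6]
    congr 1
    · refine sum_congr rfl fun p hp => ?_
      rw [rho_eq, hone p (mem_filter.1 hp).2]
    · refine sum_congr rfl fun p hp => ?_
      rw [rho_eq, hone p ((mem_PP _ _ _).1 hp).1]
  have h8 : ∑ p ∈ (Icc 1 Ny).filter Nat.Prime, (1 : ℝ) / p ≤ Ny := by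
    calc ∑ p ∈ (Icc 1 Ny).filter Nat.Prime, (1 : ℝ) / p ≤ ∑ _p ∈ (Icc 1 Ny).filter Nat.Prime, (1 : ℝ) := by
          refine sum_le_sum fun p hp => ?_
          have hp0 : (0 : ℝ) < p := by exact_mod_cast (mem_filter.1 hp).2.pos
          rw [div_le_one hp0]
          exact_mod_cast (mem_filter.1 hp).2.one_lt.le
      _ = (((Icc 1 Ny).filter Nat.Prime).card : ℝ) := by rw [sum_const, nsmul_eq_mul, mul_one]
      _ ≤ ((Icc 1 Ny).card : ℝ) := by exact_mod_cast card_filter_le _ _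
      _ = Ny := by rw [Nat.card_Icc, Nat.add_sub_cancel]
  have h9 : (0 : ℝ) ≤ ∑ p ∈ (Icc 1 Ny).filter Nat.Prime, (1 : ℝ) / p := sum_nonneg fun _ _ => by positivity
  rw [abs_le] at h4 ⊢
  constructor <;> linarith

/-- the forms `x` and `a x + c` -/
def fa (a : ℤ) (i : ℕ) : ℤ := if i = 0 then 1 else a
def fc (c : ℤ) (i : ℕ) : ℤ := if i = 0 then 0 else c

lemma Zr_pair (a c : ℤ) (ha : a ≠ 0) (p : ℕ) (hp : p.Prime) (hpa : ¬ (p : ℤ) ∣ a) :
    (Zr (∏ i ∈ range 2, (C (fa a i) * X + C (fc c i))) p).card = if (p : ℤ) ∣ c then 1 else 2 := by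
  have hpp := Nat.prime_iff_prime_int.1 hp
  have hev : ∀ x : ℤ, (∏ i ∈ range 2, (C (fa a i) * X + C (fc c i))).eval x = x * (a * x + c) := by
    intro x
    rw [eval_prod, prod_range_succ, prod_range_one]
    simp [fa, fc]
  split_ifs with hpc
  · have h1 : Zr (∏ i ∈ range 2, (C (fa a i) * X + C (fc c i))) p = {0} := by
      ext x
      unfold Zr
      rw [mem_filter, mem_range, mem_singleton, hev]
      constructor
      · rintro ⟨h1, h2⟩
        have h3 : (p : ℤ) ∣ x := by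
          rcases hpp.dvd_or_dvd h2 with h3 | h3
          · exact h3
          · have h4 : (p : ℤ) ∣ a * x := by
              have := dvd_sub h3 hpc
              rwa [add_sub_cancel_right] at this
            exact (hpp.dvd_or_dvd h4).resolve_left hpa
        exact Nat.eq_zero_of_dvd_of_lt (by exact_mod_cast h3) h1
      · rintro rfl
        exact ⟨hp.pos, by simp⟩
    rw [h1, card_singleton]
  · apply le_antisymm
    · apply Zr_prod_card 2 (fa a) (fc c)
      · intro i hi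
        unfold fa
        split_ifs
        · norm_num
        · exact ha
      · exact hp
      · intro i hi
        unfold fa
        split_ifs
        · intro h
          exact hpp.not_dvd_one h
        · exact hpa
    · have h1 : IsCoprime a (p : ℤ) := by
        rw [isCoprime_comm]
        exact (Prime.coprime_iff_not_dvd hpp).2 hpa
      obtain ⟨u, v, huv⟩ := h1
      set z : ℕ := ((-(u * c)) % p).toNat with hz
      have h2 := Int.emod_nonneg (-(u * c)) (b := (p : ℤ)) (by have := hp.pos; omega)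
      have h3 := Int.emod_lt_of_pos (-(u * c)) (b := (p : ℤ)) (by have := hp.pos; omega)
      have hzp : z < p := by omega
      have hz2 : (p : ℤ) ∣ a * z + c := by
        rw [hz, Int.toNat_of_nonneg h2]
        have h4 : (p : ℤ) ∣ -(u * c) - (-(u * c)) % p := Int.dvd_self_sub_emod
        have h5 : a * ((-(u * c)) % p) + c = c * (v * p) - a * (-(u * c) - (-(u * c)) % p) := by
          linear_combination (-c) * huv
        rw [h5]
        exact dvd_sub (dvd_mul_of_dvd_right (dvd_mul_left _ _) _) (dvd_mul_of_dvd_right h4 _)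
      have hz0 : z ≠ 0 := by
        intro h0
        apply hpc
        rw [h0] at hz2
        simpa using hz2
      have h4 : ({0, z} : Finset ℕ) ⊆ Zr (∏ i ∈ range 2, (C (fa a i) * X + C (fc c i))) p := by
        intro x hx
        rw [mem_insert, mem_singleton] at hx
        unfold Zr
        rw [mem_filter, mem_range, hev]
        rcases hx with rfl | rfl
        · exact ⟨hp.pos, by simp⟩
        · exact ⟨hzp, dvd_mul_of_dvd_right hz2 _⟩
      have h5 := card_le_card h4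
      rwa [card_pair (Ne.symm hz0)] at h5

/-- the part of `∑ 1 / p` over the sieving primes dividing `c` -/
noncomputable def TJ (c : ℤ) (N J : ℕ) : ℝ := ∑ p ∈ (PP N J).filter (fun p : ℕ => (p : ℤ) ∣ c), (1 : ℝ) / p

lemma sum_pair (a c : ℤ) (ha : a ≠ 0) (N J : ℕ) (haN : a.natAbs ≤ N) :
    ∑ p ∈ PP N J, ((Zr (∏ i ∈ range 2, (C (fa a i) * X + C (fc c i))) p).card : ℝ) / p =
      2 * ∑ p ∈ PP N J, (1 : ℝ) / p - TJ c N J := by
  unfold TJ
  rw [sum_filter, mul_sum, ← sum_sub_distrib]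
  refine sum_congr rfl fun p hp => ?_
  rw [mem_PP] at hp
  rw [Zr_pair a c ha p hp.1 (by
    intro hdvd
    have h1 := Nat.le_of_dvd (Int.natAbs_pos.2 ha) (Int.natCast_dvd.1 hdvd)
    omega)]
  split_ifs
  · push_cast
    ring
  · push_cast
    ring

lemma TJ_up (c : ℤ) (hc : c ≠ 0) : ∃ S : ℝ, S = Real.exp (∑' n : ℕ, 1 / (n : ℝ) ^ 2) ∧
    ∀ N J : ℕ, Real.exp (TJ c N J) ≤ S * sing c := by
  refine ⟨_, rfl, fun N J => ?_⟩
  have hsum : Summable (fun n : ℕ => 1 / (n : ℝ) ^ 2) := Real.summable_one_div_nat_pow.2 (by norm_num)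
  have h1 : TJ c N J ≤ ∑ p ∈ c.natAbs.primeFactors, (1 : ℝ) / p := by
    unfold TJ
    apply sum_le_sum_of_subset_of_nonneg
    · intro p hp
      rw [mem_filter, mem_PP] at hp
      rw [Nat.mem_primeFactors]
      exact ⟨hp.1.1, Int.natCast_dvd.1 hp.2, Int.natAbs_ne_zero.2 hc⟩
    · intro _ _ _
      positivity
  have h2 : ∀ x : ℝ, 0 ≤ x → x ≤ 1 → Real.exp x ≤ Real.exp (x ^ 2) * (1 + x) := by
    intro x hx0 hx1
    have h3 := Real.abs_exp_sub_one_sub_id_le (x := x) (by rw [abs_of_nonneg hx0]; exact hx1)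
    have h4 := (abs_le.1 h3).2
    have h5 := Real.add_one_le_exp (x ^ 2)
    nlinarith [mul_nonneg hx0 (sq_nonneg x)]
  calc Real.exp (TJ c N J) ≤ Real.exp (∑ p ∈ c.natAbs.primeFactors, (1 : ℝ) / p) := Real.exp_le_exp.2 h1
    _ = ∏ p ∈ c.natAbs.primeFactors, Real.exp (1 / (p : ℝ)) := Real.exp_sum _ _
    _ ≤ ∏ p ∈ c.natAbs.primeFactors, (Real.exp ((1 / (p : ℝ)) ^ 2) * (1 + 1 / (p : ℝ))) := by
        apply Finset.prod_le_prod
        · intro _ _
          exact (Real.exp_pos _).le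
        · intro p hp
          have hp1 := (Nat.mem_primeFactors.1 hp).1
          have hp0 : (0 : ℝ) < p := by exact_mod_cast hp1.pos
          apply h2 _ (by positivity)
          rw [div_le_one hp0]
          exact_mod_cast hp1.one_lt.le
    _ = Real.exp (∑ p ∈ c.natAbs.primeFactors, (1 / (p : ℝ)) ^ 2) * sing c := by
        rw [Finset.prod_mul_distrib, Real.exp_sum]
        rfl
    _ ≤ _ := by
        apply mul_le_mul_of_nonneg_right _ (by linarith [one_le_sing c])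
        apply Real.exp_le_exp.2
        have : ∑ p ∈ c.natAbs.primeFactors, (1 / (p : ℝ)) ^ 2 = ∑ p ∈ c.natAbs.primeFactors, 1 / (p : ℝ) ^ 2 := by
          refine sum_congr rfl fun p _ => ?_
          rw [div_pow, one_pow]
        rw [this]
        exact hsum.sum_le_tsum _ (fun _ _ => by positivity)

lemma TJ_low (c : ℤ) (hc : c ≠ 0) (N J K Q : ℕ) (hK : 1 ≤ K) (hKJ : K ≤ 2 ^ 2 ^ J) (hcQ : c.natAbs ≤ 2 ^ (Q * K)) :
    Real.exp (-(N + Q : ℝ)) * sing c ≤ Real.exp (TJ c N J) := by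
  have hc0 : c.natAbs ≠ 0 := Int.natAbs_ne_zero.2 hc
  have hKr : (0 : ℝ) < K := by exact_mod_cast hK
  have h1 : ∑ p ∈ c.natAbs.primeFactors, (1 : ℝ) / p ≤ TJ c N J + N + Q := by
    have hsplit : c.natAbs.primeFactors ⊆ ((PP N J).filter (fun p : ℕ => (p : ℤ) ∣ c)) ∪
        ((Icc 1 N).filter Nat.Prime ∪ c.natAbs.primeFactors.filter (fun p => K ≤ p)) := by
      intro p hp
      have hp' := Nat.mem_primeFactors.1 hp
      rw [mem_union, mem_union, mem_filter, mem_filter, mem_filter, mem_PP, mem_Icc]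
      by_cases h2 : p ≤ N
      · exact Or.inr (Or.inl ⟨⟨hp'.1.one_lt.le, h2⟩, hp'.1⟩)
      · by_cases h3 : p ≤ 2 ^ 2 ^ J
        · exact Or.inl ⟨⟨hp'.1, by omega, h3⟩, Int.natCast_dvd.2 hp'.2.1⟩
        · exact Or.inr (Or.inr ⟨hp, by omega⟩)
    have hA : ∑ p ∈ (Icc 1 N).filter Nat.Prime, (1 : ℝ) / p ≤ N := by
      calc ∑ p ∈ (Icc 1 N).filter Nat.Prime, (1 : ℝ) / p ≤ ∑ _p ∈ (Icc 1 N).filter Nat.Prime, (1 : ℝ) := by
            refine sum_le_sum fun p hp => ?_
            have hp0 : (0 : ℝ) < p := by exact_mod_cast (mem_filter.1 hp).2.pos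
            rw [div_le_one hp0]
            exact_mod_cast (mem_filter.1 hp).2.one_lt.le
        _ = (((Icc 1 N).filter Nat.Prime).card : ℝ) := by rw [sum_const, nsmul_eq_mul, mul_one]
        _ ≤ ((Icc 1 N).card : ℝ) := by exact_mod_cast card_filter_le _ _
        _ = N := by rw [Nat.card_Icc, Nat.add_sub_cancel]
    have hB : ∑ p ∈ c.natAbs.primeFactors.filter (fun p => K ≤ p), (1 : ℝ) / p ≤ Q := by
      calc ∑ p ∈ c.natAbs.primeFactors.filter (fun p => K ≤ p), (1 : ℝ) / p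
          ≤ ∑ _p ∈ c.natAbs.primeFactors.filter (fun p => K ≤ p), (1 : ℝ) / K := by
            refine sum_le_sum fun p hp => ?_
            have : (K : ℝ) ≤ p := by exact_mod_cast (mem_filter.1 hp).2
            gcongr
        _ = ((c.natAbs.primeFactors.filter (fun p => K ≤ p)).card : ℝ) * (1 / K) := by
            rw [sum_const, nsmul_eq_mul]
        _ ≤ (Q * K : ℝ) * (1 / K) := by
            have h2 : c.natAbs.primeFactors.card ≤ Q * K := by
              have h3 : 2 ^ c.natAbs.primeFactors.card ≤ 2 ^ (Q * K) := by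
                calc 2 ^ c.natAbs.primeFactors.card = ∏ _p ∈ c.natAbs.primeFactors, 2 := by rw [prod_const]
                  _ ≤ ∏ p ∈ c.natAbs.primeFactors, p := Finset.prod_le_prod' fun p hp =>
                      (Nat.mem_primeFactors.1 hp).1.two_le
                  _ ≤ c.natAbs := Nat.le_of_dvd (Nat.pos_of_ne_zero hc0) (Nat.prod_primeFactors_dvd _)
                  _ ≤ _ := hcQ
              exact (Nat.pow_le_pow_iff_right (by norm_num)).1 h3
            have h4 : ((c.natAbs.primeFactors.filter (fun p => K ≤ p)).card : ℝ) ≤ Q * K := by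
              have h5 := (card_filter_le c.natAbs.primeFactors (fun p => K ≤ p)).trans h2
              exact_mod_cast h5
            gcongr
        _ = Q := by field_simp
    calc ∑ p ∈ c.natAbs.primeFactors, (1 : ℝ) / p ≤ ∑ p ∈ ((PP N J).filter (fun p : ℕ => (p : ℤ) ∣ c)) ∪
        ((Icc 1 N).filter Nat.Prime ∪ c.natAbs.primeFactors.filter (fun p => K ≤ p)), (1 : ℝ) / p :=
          sum_le_sum_of_subset_of_nonneg hsplit fun _ _ _ => by positivity
      _ ≤ ∑ p ∈ (PP N J).filter (fun p : ℕ => (p : ℤ) ∣ c), (1 : ℝ) / p +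
          (∑ p ∈ (Icc 1 N).filter Nat.Prime, (1 : ℝ) / p +
            ∑ p ∈ c.natAbs.primeFactors.filter (fun p => K ≤ p), (1 : ℝ) / p) := by
          have g1 : ∀ s t : Finset ℕ, ∑ p ∈ s ∪ t, (1 : ℝ) / p ≤ ∑ p ∈ s, (1 : ℝ) / p + ∑ p ∈ t, (1 : ℝ) / p := by
            intro s t
            rw [← sum_union_inter]
            have : (0 : ℝ) ≤ ∑ p ∈ s ∩ t, (1 : ℝ) / p := sum_nonneg fun _ _ => by positivity
            linarith
          refine (g1 _ _).trans ?_
          have := g1 ((Icc 1 N).filter Nat.Prime) (c.natAbs.primeFactors.filter (fun p => K ≤ p))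
          linarith
      _ ≤ TJ c N J + (N + Q) := by
          unfold TJ
          linarith
      _ = _ := by ring
  have h2 : sing c ≤ Real.exp (∑ p ∈ c.natAbs.primeFactors, (1 : ℝ) / p) := by
    unfold sing
    rw [Real.exp_sum]
    apply Finset.prod_le_prod
    · intro p _
      positivity
    · intro p _
      have := Real.add_one_le_exp (1 / (p : ℝ))
      linarith
  calc Real.exp (-(N + Q : ℝ)) * sing c ≤ Real.exp (-(N + Q : ℝ)) * Real.exp (∑ p ∈ c.natAbs.primeFactors, (1 : ℝ) / p) := by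
        gcongr
    _ = Real.exp (-(N + Q : ℝ) + ∑ p ∈ c.natAbs.primeFactors, (1 : ℝ) / p) := (Real.exp_add _ _).symm
    _ ≤ _ := by
        apply Real.exp_le_exp.2
        linarith

end Pool.Agent.Run7.h620.PD
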