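import Pool.Agent.Run7.h620.PD.Pair

set_option autoImplicit false

/-! Pairs `n`, `a n + c` at palindromes with two digits: both bounds with the singular series. -/

namespace Pool.Agent.Run7.h620.PD

open Finset Polynomial Filter

lemma fa_ne (a : ℤ) (ha : a ≠ 0) (i : ℕ) : fa a i ≠ 0 := by
  unfold fa
  split_ifs
  · norm_num
  · exact ha

lemma ev6 : ∀ᶠ K : ℕ in atTop, 5 * (K : ℝ) ^ 2 * (2 : ℝ) ^ ((K : ℝ) / 3) ≤ (2 : ℝ) ^ ((K : ℝ) / 2) := by
  have hr : (1 : ℝ) < (2 : ℝ) ^ (1 / 6 : ℝ) := Real.one_lt_rpow (by norm_num) (by norm_num)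
  have h := tendsto_pow_const_div_const_pow_of_one_lt 2 hr
  filter_upwards [h.eventually_le_const (show (0 : ℝ) < 1 / 5 by norm_num)] with K hK
  have h1 : ((2 : ℝ) ^ (1 / 6 : ℝ)) ^ K = (2 : ℝ) ^ ((K : ℝ) / 6) := by
    rw [← Real.rpow_natCast, ← Real.rpow_mul (by norm_num)]
    congr 1
    ring
  rw [h1, div_le_iff₀ (by positivity)] at hK
  have h2 : (2 : ℝ) ^ ((K : ℝ) / 2) = (2 : ℝ) ^ ((K : ℝ) / 6) * (2 : ℝ) ^ ((K : ℝ) / 3) := by
    rw [← Real.rpow_add (by norm_num)]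
    congr 1
    ring
  rw [h2]
  apply mul_le_mul_of_nonneg_right _ (by positivity)
  linarith

open Classical in
/-- pairs of almost primes, from below, with the singular series -/
theorem pair_low (b : ℕ) (hb : 2 ≤ b) (e f : ℕ) (he : e < b) (hf : f < b) (he0 : e ≠ 0) (hef : f ≠ e)
    (a : ℤ) (ha : a ≠ 0) (L : ℕ) (hL : 1 ≤ L) : ∃ c₁ : ℝ, 0 < c₁ ∧ ∃ r : ℕ, ∀ᶠ K : ℕ in atTop,
      ∀ c : ℤ, c ≠ 0 → c.natAbs ≤ b ^ (L * K) → c₁ * sing c * (2 : ℝ) ^ ((K : ℝ) / 2) / (K : ℝ) ^ 2 ≤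
        (((Finset.range (b ^ K)).filter (fun n : ℕ => IsPal b e f K n ∧ ArithmeticFunction.cardFactors n ≤ r ∧
          a * n + c ≠ 0 ∧ ArithmeticFunction.cardFactors (a * n + c).natAbs ≤ r)).card : ℝ) := by
  obtain ⟨N₀, hN₀, h⟩ := lin_core b hb e f he hf he0 hef 2 (by norm_num) (fa a) (fun i _ => fa_ne a ha i) L hL
  obtain ⟨N, hN⟩ : ∃ N : ℕ, N = N₀ + a.natAbs + 4 := ⟨_, rfl⟩
  obtain ⟨c₀, hc₀, hlow⟩ := W_low2 2 2
  obtain ⟨CN, hCN, hm⟩ := mert_PP N (by omega)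
  obtain ⟨Q, hQ⟩ : ∃ Q : ℕ, Q = b * L := ⟨_, rfl⟩
  obtain ⟨c, hc, r, hev⟩ := h N (by omega) (c₀ * Real.exp (-(2 * CN)) * Real.exp (-(N + Q : ℝ))) (by positivity)
  refine ⟨c, hc, r, ?_⟩
  filter_upwards [hev, eventually_ge_atTop 1] with K hK hK1 x hx0 hxb
  obtain ⟨P, hP1, hP2⟩ := hK (sing x) (fc x) (one_le_sing x) (by
    intro i hi
    unfold fc
    split_ifs
    · simp
    · exact hxb) (by
    intro J hJ hKJ
    have h1 := (abs_le.1 (hm J hJ)).2
    have h2 := hlow (2 * CN - TJ x N J) (fun p => (Zr (∏ i ∈ range 2, (C (fa a i) * X + C (fc x i))) p).card) N J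
      (by omega) (by
        intro p hp
        rw [mem_PP] at hp
        rw [Zr_pair a x ha p hp.1 (by
          intro hdvd
          have h1 := Nat.le_of_dvd (Int.natAbs_pos.2 ha) (Int.natCast_dvd.1 hdvd)
          omega)]
        split_ifs <;> omega) (by
        rw [sum_pair a x ha N J (by omega)]
        push_cast
        push_cast at h1
        linarith)
    refine le_trans ?_ h2
    have h3 := TJ_low x hx0 N J K Q hK1 hKJ (by
      calc x.natAbs ≤ b ^ (L * K) := hxb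
        _ ≤ (2 ^ b) ^ (L * K) := Nat.pow_le_pow_left (Nat.lt_two_pow_self).le _
        _ = 2 ^ (Q * K) := by rw [← pow_mul, hQ, mul_assoc])
    have h4 : Real.exp (-(2 * CN - TJ x N J)) = Real.exp (-(2 * CN)) * Real.exp (TJ x N J) := by
      rw [← Real.exp_add]
      congr 1
      ring
    rw [h4]
    calc c₀ * Real.exp (-(2 * CN)) * Real.exp (-(N + Q : ℝ)) * sing x / (2 ^ J) ^ 2 =
          c₀ * (Real.exp (-(2 * CN)) * (Real.exp (-(N + Q : ℝ)) * sing x)) / (2 ^ J) ^ 2 := by ring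
      _ ≤ c₀ * (Real.exp (-(2 * CN)) * Real.exp (TJ x N J)) / (2 ^ J) ^ 2 := by gcongr)
  refine hP1.trans ?_
  have hle : P.card ≤ ((Finset.range (b ^ K)).filter (fun n : ℕ => IsPal b e f K n ∧ ArithmeticFunction.cardFactors n ≤ r ∧
          a * n + x ≠ 0 ∧ ArithmeticFunction.cardFactors (a * n + x).natAbs ≤ r)).card := by
    apply card_le_card
    intro n hn
    obtain ⟨h1, h2, h3⟩ := hP2 n hn
    have h4 := h3 0 (by norm_num)
    have h5 := h3 1 (by norm_num)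
    simp only [fa, fc, if_true, one_mul, add_zero, Int.natAbs_natCast] at h4
    simp only [fa, fc, one_ne_zero, if_false] at h5
    rw [mem_filter, mem_range]
    exact ⟨h1, h2, h4.2, h5.1, h5.2⟩
  exact_mod_cast hle

open Classical in
/-- pairs of primes, from above, with the singular series -/
theorem pair_up (b : ℕ) (hb : 2 ≤ b) (e f : ℕ) (hef : f ≠ e)
    (a : ℤ) (ha : a ≠ 0) : ∃ C₁ : ℝ, 0 < C₁ ∧ ∀ᶠ K : ℕ in atTop,
      ∀ c : ℤ, c ≠ 0 →
        (((Finset.range (b ^ K)).filter (fun n : ℕ => IsPal b e f K n ∧ n.Prime ∧ (a * n + c).natAbs.Prime)).card : ℝ) ≤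
          C₁ * sing c * (2 : ℝ) ^ ((K : ℝ) / 2) / (K : ℝ) ^ 2 := by
  obtain ⟨N₀, hN₀, h⟩ := pal_up b hb e f hef 2 2 (by norm_num) le_rfl
  obtain ⟨N, hN⟩ : ∃ N : ℕ, N = N₀ + a.natAbs + 4 := ⟨_, rfl⟩
  obtain ⟨c₀, hc₀, hup⟩ := W_up2 2
  obtain ⟨CN, hCN, hm⟩ := mert_PP N (by omega)
  obtain ⟨S, hS⟩ : ∃ S : ℝ, S = Real.exp (∑' n : ℕ, 1 / (n : ℝ) ^ 2) := ⟨_, rfl⟩
  have hS0 : 0 < S := by rw [hS]; exact Real.exp_pos _
  obtain ⟨c, hc, M', hM', hev⟩ := h N (by omega) (c₀ * Real.exp (2 * CN) * S) (by positivity)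
  refine ⟨c + 1, by positivity, ?_⟩
  filter_upwards [hev, ev6, eventually_ge_atTop 10] with K hK h6 hK10 x hx0
  have hKr : (0 : ℝ) < K := by
    have : 0 < K := by omega
    exact_mod_cast this
  set F : ℤ[X] := ∏ i ∈ range 2, (C (fa a i) * X + C (fc x i)) with hF
  have hFe : ∀ y : ℤ, F.eval y = y * (a * y + x) := by
    intro y
    rw [hF, eval_prod, prod_range_succ, prod_range_one]
    simp [fa, fc]
  set Q := (Finset.range (b ^ K)).filter (fun n : ℕ => IsPal b e f K n ∧ n.Prime ∧ (a * n + x).natAbs.Prime) with hQ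
  set E := (Finset.range (b ^ K)).filter (fun n : ℕ => (a * n + x).natAbs ^ 3 ≤ 2 ^ K) with hE
  have h1 := hK (sing x) (Zr F) (one_le_sing x) (by
    intro p hp hpN
    refine ⟨filter_subset _ _, ?_⟩
    rw [hF, Zr_pair a x ha p hp (by
          intro hdvd
          have h1 := Nat.le_of_dvd (Int.natAbs_pos.2 ha) (Int.natCast_dvd.1 hdvd)
          omega)]
    split_ifs <;> omega) (by
    intro J hJ _
    have h1 := (abs_le.1 (hm J hJ)).1
    have h2 := hup (2 * CN + TJ x N J) (fun p => (Zr F p).card) N J (fun p _ => Zr_card_le F p) (by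
        rw [hF, sum_pair a x ha N J (by omega)]
        push_cast
        push_cast at h1
        linarith)
    refine h2.trans ?_
    obtain ⟨S', hS', h3⟩ := TJ_up x hx0
    rw [← hS] at hS'
    rw [hS'] at h3
    have h4 : Real.exp (2 * CN + TJ x N J) ≤ Real.exp (2 * CN) * (S * sing x) := by
      rw [Real.exp_add]
      apply mul_le_mul_of_nonneg_left (h3 N J) (Real.exp_pos _).le
    calc c₀ * Real.exp (2 * CN + TJ x N J) / (2 ^ J) ^ 2 ≤ c₀ * (Real.exp (2 * CN) * (S * sing x)) / (2 ^ J) ^ 2 := by gcongr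
      _ = _ := by ring) (Q \ E) (by
    intro n hn
    rw [Finset.mem_sdiff, hQ, hE, mem_filter, mem_filter, mem_range, not_and] at hn
    obtain ⟨⟨hn1, hn2, hn3, hn4⟩, hn5⟩ := hn
    have hn6 := hn5 hn1
    push Not at hn6
    refine ⟨hn2, fun p hp hpN hpK hz => ?_⟩
    have h2 := Zr_dvd F p _ hz
    rw [hFe] at h2
    have h3 : p ^ 3 ≤ 2 ^ K := (Nat.pow_le_pow_right hp.pos hM').trans hpK
    rcases (Nat.prime_iff_prime_int.1 hp).dvd_or_dvd h2 with h4 | h4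
    · have h5 : p = n := (Nat.prime_dvd_prime_iff_eq hp hn3).1 (by exact_mod_cast h4)
      have h7 : b ^ (K - 1) ≤ n := by
        have := Nat.base_pow_length_digits_le b n (by omega) hn3.ne_zero
        rw [hn2.1] at this
        have h4 : b ^ K = b * b ^ (K - 1) := by rw [← pow_succ']; congr 1; omega
        rw [h4] at this
        exact Nat.le_of_mul_le_mul_left this (by omega)
      have h8 : 2 ^ ((K - 1) * 3) ≤ 2 ^ K := by
        calc 2 ^ ((K - 1) * 3) = (2 ^ (K - 1)) ^ 3 := by rw [pow_mul]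
          _ ≤ (b ^ (K - 1)) ^ 3 := Nat.pow_le_pow_left (Nat.pow_le_pow_left hb _) _
          _ ≤ p ^ 3 := by rw [h5]; exact Nat.pow_le_pow_left h7 _
          _ ≤ 2 ^ K := h3
      have h9 := (Nat.pow_le_pow_iff_right (by norm_num : 1 < 2)).1 h8
      omega
    · have h5 : p = (a * n + x).natAbs := (Nat.prime_dvd_prime_iff_eq hp hn4).1 (Int.natCast_dvd.1 h4)
      rw [← h5] at hn6
      omega)
  have h2 : (E.card : ℝ) ≤ 5 * (2 : ℝ) ^ ((K : ℝ) / 3) := by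
    have h3 : E.card ≤ (Icc (-((2 : ℤ) ^ (K / 3 + 1))) ((2 : ℤ) ^ (K / 3 + 1))).card := by
      apply card_le_card_of_injOn (fun n : ℕ => a * (n : ℤ) + x)
      · intro n hn
        rw [mem_coe, hE, mem_filter] at hn
        have g1 : (a * n + x).natAbs ≤ 2 ^ (K / 3 + 1) := by
          by_contra hcon
          push Not at hcon
          have g2 : (2 ^ (K / 3 + 1)) ^ 3 < (a * n + x).natAbs ^ 3 := Nat.pow_lt_pow_left hcon (by norm_num)
          have g3 : 2 ^ K ≤ (2 ^ (K / 3 + 1)) ^ 3 := by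
            rw [← pow_mul]
            exact Nat.pow_le_pow_right (by norm_num) (by omega)
          omega
        have g2 : (((a * n + x).natAbs : ℕ) : ℤ) ≤ 2 ^ (K / 3 + 1) := by exact_mod_cast g1
        rw [Int.natCast_natAbs] at g2
        rw [mem_coe, mem_Icc]
        exact abs_le.1 g2
      · intro n _ n' _ hnn
        simp only at hnn
        have g1 : a * (n : ℤ) = a * n' := by linarith
        exact_mod_cast mul_left_cancel₀ ha g1
    have h4 : (Icc (-((2 : ℤ) ^ (K / 3 + 1))) ((2 : ℤ) ^ (K / 3 + 1))).card = 4 * 2 ^ (K / 3) + 1 := by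
      rw [Int.card_Icc]
      have : (2 : ℤ) ^ (K / 3 + 1) + 1 - -((2 : ℤ) ^ (K / 3 + 1)) = ((4 * 2 ^ (K / 3) + 1 : ℕ) : ℤ) := by
        push_cast
        rw [pow_succ]
        ring
      rw [this, Int.toNat_natCast]
    rw [h4] at h3
    have h5 : (2 : ℝ) ^ (K / 3) ≤ (2 : ℝ) ^ ((K : ℝ) / 3) := by
      rw [← Real.rpow_natCast]
      apply Real.rpow_le_rpow_of_exponent_le (by norm_num)
      exact Nat.cast_div_le
    have h6 : (1 : ℝ) ≤ (2 : ℝ) ^ ((K : ℝ) / 3) := Real.one_le_rpow (by norm_num) (by positivity)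
    have h7 : (E.card : ℝ) ≤ 4 * 2 ^ (K / 3) + 1 := by exact_mod_cast h3
    linarith
  have h3 : (Q.card : ℝ) ≤ (Q \ E).card + E.card := by
    have : Q.card ≤ (Q \ E).card + E.card := card_le_card_sdiff_add_card
    exact_mod_cast this
  have h4 : 5 * (2 : ℝ) ^ ((K : ℝ) / 3) ≤ sing x * (2 : ℝ) ^ ((K : ℝ) / 2) / (K : ℝ) ^ 2 := by
    rw [le_div_iff₀ (by positivity)]
    have h5 := one_le_sing x
    calc 5 * (2 : ℝ) ^ ((K : ℝ) / 3) * (K : ℝ) ^ 2 = 5 * (K : ℝ) ^ 2 * (2 : ℝ) ^ ((K : ℝ) / 3) := by ring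
      _ ≤ (2 : ℝ) ^ ((K : ℝ) / 2) := h6
      _ = 1 * (2 : ℝ) ^ ((K : ℝ) / 2) := (one_mul _).symm
      _ ≤ _ := by gcongr
  have h5 : (c + 1) * sing x * (2 : ℝ) ^ ((K : ℝ) / 2) / (K : ℝ) ^ 2 =
      c * sing x * (2 : ℝ) ^ ((K : ℝ) / 2) / (K : ℝ) ^ 2 + sing x * (2 : ℝ) ^ ((K : ℝ) / 2) / (K : ℝ) ^ 2 := by ring
  rw [h5]
  linarith

end Pool.Agent.Run7.h620.PD
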