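import Pool.Agent.Run7.h620.PD.Asy

set_option autoImplicit false

/-! The parameters as functions of the number of digits. -/

namespace Pool.Agent.Run7.h620.PD

open Finset Filter

lemma z_tendsto (η : ℝ) (hη : 0 < η) : Tendsto (fun K : ℕ => η * K / Real.log K) atTop atTop := by
  rw [tendsto_atTop]
  intro B
  have h1 := (tendsto_natCast_atTop_atTop (R := ℝ)).eventually (ev_logpow (|B| / η) 1)
  have h2 := (Real.tendsto_log_atTop.comp (tendsto_natCast_atTop_atTop (R := ℝ))).eventually_ge_atTop 1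
  filter_upwards [h1, h2] with K h1 h2
  simp only [Function.comp] at h2
  rw [le_div_iff₀ (by linarith)]
  rw [pow_one] at h1
  calc B * Real.log K ≤ |B| * Real.log K := by
        apply mul_le_mul_of_nonneg_right (le_abs_self B) (by linarith)
    _ = η * (|B| / η * Real.log K) := by field_simp
    _ ≤ η * K := by gcongr

theorem par (y : ℝ) (hy0 : 0 < y) (hy1 : y < 1) (q η : ℝ) (hq : q = 10 / (-Real.log y))
    (hη : η = 1 / (60 * (q + 1))) (M : ℕ) (hM : 1 ≤ M) (B : ℝ) : ∀ᶠ K : ℕ in atTop,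
    B ≤ K ∧ B ≤ η * K / Real.log K ∧ B ≤ Real.log K ∧ y ^ ⌈q * Real.log K⌉₊ ≤ 1 / (K : ℝ) ^ 10 ∧
    ((5 : ℝ) / 6) ^ (2 * ⌊η * K / Real.log K⌋₊ + 1) ≤ 1 / (K : ℝ) ^ 10 ∧
    ⌈q * Real.log K⌉₊ * (5 * (2 * ⌊η * K / Real.log K⌋₊ + 1)) ≤ (K - 2) / 2 - 1 ∧
    K < M * 2 ^ (Nat.log 2 (K / M) + 1) ∧ M * 2 ^ (Nat.log 2 (K / M)) ≤ K ∧
    K ≤ 2 ^ 2 ^ (Nat.log 2 (K / M)) := by
  have hly : Real.log y < 0 := Real.log_neg hy0 hy1
  have hq0 : 0 < q := by rw [hq]; apply div_pos (by norm_num); linarith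
  have hη0 : 0 < η := by rw [hη]; positivity
  have hc := tendsto_natCast_atTop_atTop (R := ℝ)
  have hl := Real.tendsto_log_atTop.comp hc
  have h65 : 0 < Real.log (6 / 5) := Real.log_pos (by norm_num)
  have hl2 : 0 < Real.log 2 := Real.log_pos (by norm_num)
  have hMr : (1 : ℝ) ≤ M := by exact_mod_cast hM
  filter_upwards [hc.eventually_ge_atTop B, (z_tendsto η hη0).eventually_ge_atTop (max B 1),
    hl.eventually_ge_atTop (max B 1), hc.eventually (ev_logpow (10 / (η * Real.log (6 / 5))) 2),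
    hc.eventually (ev_logpow (2 * M / Real.log 2) 1), eventually_ge_atTop (M + 20)] with K k1 k2 k3 k4 k5 k6
  simp only [Function.comp] at k3
  rw [max_le_iff] at k2 k3
  set z : ℝ := η * K / Real.log K with hz
  have hK0 : 0 < K := by omega
  have hKr : (0 : ℝ) < K := by exact_mod_cast hK0
  have hlK : 0 < Real.log K := by linarith [k3.2]
  have hKM : 1 ≤ K / M := by rw [Nat.le_div_iff_mul_le (by omega)]; omega
  have g1 : K < M * 2 ^ (Nat.log 2 (K / M) + 1) := by
    have := Nat.lt_pow_succ_log_self (b := 2) (by norm_num) (K / M)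
    rw [Nat.div_lt_iff_lt_mul (by omega)] at this
    rw [mul_comm]
    exact this
  have g2 : M * 2 ^ (Nat.log 2 (K / M)) ≤ K := by
    have h1 := Nat.pow_log_le_self 2 (x := K / M) (by omega)
    calc M * 2 ^ (Nat.log 2 (K / M)) ≤ M * (K / M) := Nat.mul_le_mul_left _ h1
      _ ≤ K := Nat.mul_div_le K M
  refine ⟨k1, k2.1, k3.1, ?_, ?_, ?_, g1, g2, ?_⟩
  · have h1 : q * Real.log K ≤ (⌈q * Real.log K⌉₊ : ℝ) := Nat.le_ceil _
    calc y ^ ⌈q * Real.log K⌉₊ = Real.exp (Real.log y * (⌈q * Real.log K⌉₊ : ℝ)) := by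
          rw [mul_comm (Real.log y), Real.exp_nat_mul, Real.exp_log hy0]
      _ ≤ Real.exp (Real.log y * (q * Real.log K)) := by
          apply Real.exp_le_exp.2
          exact mul_le_mul_of_nonpos_left h1 hly.le
      _ = Real.exp (-(((10 : ℕ) : ℝ) * Real.log K)) := by
          congr 1
          have hne : Real.log y ≠ 0 := hly.ne
          have h5 : Real.log y * q = -10 := by
            rw [hq, div_neg, mul_neg, mul_div_assoc', mul_div_cancel_left₀ _ hne]
          rw [← mul_assoc, h5]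
          push_cast
          ring
      _ = 1 / (K : ℝ) ^ 10 := by
          rw [Real.exp_neg, Real.exp_nat_mul, Real.exp_log hKr, one_div]
  · have h1 : z < (⌊z⌋₊ : ℝ) + 1 := Nat.lt_floor_add_one z
    have h2 : z ≤ ((2 * ⌊z⌋₊ + 1 : ℕ) : ℝ) := by push_cast; linarith [k2.2]
    have h3 : (10 : ℝ) * Real.log K ≤ Real.log (6 / 5) * z := by
      rw [hz, mul_div_assoc', le_div_iff₀ hlK]
      have h4 : 10 / (η * Real.log (6 / 5)) * Real.log K ^ 2 ≤ K := k4
      rw [div_mul_eq_mul_div, div_le_iff₀ (by positivity)] at h4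
      nlinarith
    calc ((5 : ℝ) / 6) ^ (2 * ⌊z⌋₊ + 1) = Real.exp (((2 * ⌊z⌋₊ + 1 : ℕ) : ℝ) * Real.log (5 / 6)) := by
          rw [Real.exp_nat_mul, Real.exp_log (by norm_num)]
      _ ≤ Real.exp (-(((10 : ℕ) : ℝ) * Real.log K)) := by
          apply Real.exp_le_exp.2
          have h5 : Real.log (5 / 6) = -Real.log (6 / 5) := by
            rw [← Real.log_inv]
            norm_num
          rw [h5]
          push_cast at h2 ⊢
          have h6 := mul_le_mul_of_nonneg_left h2 h65.le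
          linarith
      _ = 1 / (K : ℝ) ^ 10 := by
          rw [Real.exp_neg, Real.exp_nat_mul, Real.exp_log hKr, one_div]
  · have h1 : (⌈q * Real.log K⌉₊ : ℝ) ≤ (q + 1) * Real.log K := by
      have h2 := Nat.ceil_lt_add_one (a := q * Real.log K) (by positivity)
      linarith [k3.2]
    have h2 : ((5 * (2 * ⌊z⌋₊ + 1) : ℕ) : ℝ) ≤ 15 * z := by
      have h3 := Nat.floor_le (a := z) (by linarith [k2.2])
      push_cast
      linarith [k2.2]
    have h3 : ((⌈q * Real.log K⌉₊ * (5 * (2 * ⌊z⌋₊ + 1)) : ℕ) : ℝ) ≤ K / 4 := by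
      push_cast at h2 ⊢
      calc (⌈q * Real.log K⌉₊ : ℝ) * (5 * (2 * (⌊z⌋₊ : ℝ) + 1)) ≤ ((q + 1) * Real.log K) * (15 * z) := by
            apply mul_le_mul h1 h2 (by positivity) (by positivity)
        _ = K / 4 := by
            rw [hz, hη]
            field_simp
            ring
    have h4 : 4 * (⌈q * Real.log K⌉₊ * (5 * (2 * ⌊z⌋₊ + 1))) ≤ K := by
      have : ((4 * (⌈q * Real.log K⌉₊ * (5 * (2 * ⌊z⌋₊ + 1))) : ℕ) : ℝ) ≤ K := by
        rw [Nat.cast_mul]
        push_cast at h3 ⊢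
        linarith
      exact_mod_cast this
    omega
  · rw [pow_one] at k5
    have g1r : (K : ℝ) < M * (2 ^ (Nat.log 2 (K / M)) * 2) := by
      rw [← pow_succ]
      exact_mod_cast g1
    have h1 : Real.log K ≤ 2 ^ (Nat.log 2 (K / M)) * Real.log 2 := by
      rw [div_mul_eq_mul_div, div_le_iff₀ hl2] at k5
      have h2 : 2 * M * Real.log K ≤ 2 * M * (2 ^ (Nat.log 2 (K / M)) * Real.log 2) := by
        calc 2 * M * Real.log K ≤ K * Real.log 2 := k5
          _ ≤ (M * (2 ^ (Nat.log 2 (K / M)) * 2)) * Real.log 2 := by gcongr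
          _ = _ := by ring
      exact le_of_mul_le_mul_left h2 (by positivity)
    have h3 : (K : ℝ) ≤ 2 ^ 2 ^ (Nat.log 2 (K / M)) := by
      calc (K : ℝ) = Real.exp (Real.log K) := (Real.exp_log hKr).symm
        _ ≤ Real.exp (((2 ^ (Nat.log 2 (K / M)) : ℕ) : ℝ) * Real.log 2) := by
            apply Real.exp_le_exp.2
            push_cast
            exact h1
        _ = _ := by rw [Real.exp_nat_mul, Real.exp_log (by norm_num)]
    exact_mod_cast h3

end Pool.Agent.Run7.h620.PD
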