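import Pool.Agent.Run7.h620.PD.Poly

set_option autoImplicit false

/-! The weights `κ ^ ω(n)`. -/

namespace Pool.Agent.Run7.h620.PD

open Finset

lemma wk_nonneg (κ n : ℕ) : 0 ≤ wk κ n := by unfold wk; positivity

lemma wk_mul (κ : ℕ) (hκ : 1 ≤ κ) (a c : ℕ) : wk κ (a * c) ≤ wk κ a * wk κ c := by
  have hκr : (1 : ℝ) ≤ κ := by exact_mod_cast hκ
  unfold wk
  rw [← pow_add]
  apply pow_le_pow_right₀ hκr
  by_cases ha : a = 0
  · simp [ha]
  by_cases hc : c = 0
  · simp [hc]
  rw [Nat.primeFactors_mul ha hc]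
  exact card_union_le _ _

lemma wk_log (κ : ℕ) (hκ : 1 ≤ κ) : ∃ A₀ : ℝ, 0 ≤ A₀ ∧ ∀ d : ℕ, 1 < d → wk κ d ≤ A₀ * (4 / 3) ^ (Nat.log 2 d) := by
  have hκr : (1 : ℝ) ≤ κ := by exact_mod_cast hκ
  obtain ⟨m, hm⟩ := pow_unbounded_of_one_lt (κ : ℝ) (show (1 : ℝ) < 4 / 3 by norm_num)
  refine ⟨(κ : ℝ) ^ (2 ^ m), by positivity, ?_⟩
  intro d hd
  have hsplit := card_filter_add_card_filter_not (s := d.primeFactors) (fun p => p < 2 ^ m)
  have h1 : (d.primeFactors.filter (fun p => p < 2 ^ m)).card ≤ 2 ^ m := by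
    calc _ ≤ (range (2 ^ m)).card := card_le_card (by
          intro p hp
          rw [mem_filter] at hp
          exact mem_range.2 hp.2)
      _ = 2 ^ m := card_range _
  set B := d.primeFactors.filter (fun p => ¬ p < 2 ^ m) with hB
  have h2 : 2 ^ (m * B.card) ≤ d := by
    calc 2 ^ (m * B.card) = (2 ^ m) ^ B.card := by rw [pow_mul]
      _ = ∏ _p ∈ B, 2 ^ m := by rw [prod_const]
      _ ≤ ∏ p ∈ B, p := by
          apply Finset.prod_le_prod
          · intro _ _; positivity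
          · intro p hp
            rw [hB, mem_filter] at hp
            omega
      _ ≤ ∏ p ∈ d.primeFactors, p := by
          apply Finset.prod_le_prod_of_subset_of_one_le'
          · exact filter_subset _ _
          · intro p hp _
            exact (Nat.prime_of_mem_primeFactors hp).one_lt.le
      _ ≤ d := Nat.le_of_dvd (by omega) (Nat.prod_primeFactors_dvd d)
  have h3 : m * B.card ≤ Nat.log 2 d := by
    apply Nat.le_log_of_pow_le (by norm_num) h2
  unfold wk
  calc (κ : ℝ) ^ d.primeFactors.card ≤ (κ : ℝ) ^ (2 ^ m + B.card) := by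
        apply pow_le_pow_right₀ hκr
        omega
    _ = (κ : ℝ) ^ (2 ^ m) * (κ : ℝ) ^ B.card := pow_add _ _ _
    _ ≤ (κ : ℝ) ^ (2 ^ m) * ((4 / 3 : ℝ) ^ m) ^ B.card := by gcongr
    _ = (κ : ℝ) ^ (2 ^ m) * (4 / 3 : ℝ) ^ (m * B.card) := by rw [pow_mul]
    _ ≤ (κ : ℝ) ^ (2 ^ m) * (4 / 3 : ℝ) ^ (Nat.log 2 d) := by
        apply mul_le_mul_of_nonneg_left _ (by positivity)
        exact pow_le_pow_right₀ (by norm_num) h3

lemma wk_succ (κ t : ℕ) (ht : 1 ≤ t) : wk (κ + 1) t ≤ ∑ d ∈ t.divisors, wk κ d := by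
  unfold wk
  have h1 : ((κ + 1 : ℕ) : ℝ) ^ t.primeFactors.card = ∑ Q ∈ t.primeFactors.powerset, (κ : ℝ) ^ Q.card := by
    have h2 := Finset.prod_add_one (f := fun _ : ℕ => (κ : ℝ)) t.primeFactors
    simp only [prod_const] at h2
    push_cast
    exact h2
  rw [h1]
  have h3 : ∀ Q ∈ t.primeFactors.powerset, (κ : ℝ) ^ Q.card = (κ : ℝ) ^ (∏ p ∈ Q, p).primeFactors.card := by
    intro Q hQ
    rw [Nat.primeFactors_prod (fun p hp => Nat.prime_of_mem_primeFactors (mem_powerset.1 hQ hp))]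
  rw [sum_congr rfl h3]
  have hinj : ∀ Q ∈ t.primeFactors.powerset, ∀ Q' ∈ t.primeFactors.powerset, ∏ p ∈ Q, p = ∏ p ∈ Q', p → Q = Q' := by
    intro Q hQ Q' hQ' h
    rw [← Nat.primeFactors_prod (fun p hp => Nat.prime_of_mem_primeFactors (mem_powerset.1 hQ hp)),
      ← Nat.primeFactors_prod (fun p hp => Nat.prime_of_mem_primeFactors (mem_powerset.1 hQ' hp)), h]
  rw [← sum_image (f := fun n : ℕ => (κ : ℝ) ^ n.primeFactors.card) (g := fun Q : Finset ℕ => ∏ p ∈ Q, p)
    (fun a ha c hc h => hinj a ha c hc h)]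
  apply sum_le_sum_of_subset_of_nonneg
  · intro n hn
    rw [mem_image] at hn
    obtain ⟨Q, hQ, rfl⟩ := hn
    rw [Nat.mem_divisors]
    refine ⟨?_, by omega⟩
    exact (Finset.prod_dvd_prod_of_subset _ _ _ (mem_powerset.1 hQ)).trans (Nat.prod_primeFactors_dvd t)
  · intro _ _ _
    positivity

/-- the harmonic sum with the weight -/
theorem wk_sum (κ X : ℕ) : ∑ t ∈ Icc 1 X, wk κ t / t ≤ (∑ t ∈ Icc 1 X, (1 : ℝ) / t) ^ κ := by
  induction κ with
  | zero =>
    rw [pow_zero]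
    by_cases hX : 1 ≤ X
    · have h1 : ∑ t ∈ Icc 1 X, wk 0 t / t = ∑ t ∈ Icc 1 X, if t = 1 then (1 : ℝ) else 0 := by
        refine sum_congr rfl fun t ht => ?_
        rw [mem_Icc] at ht
        unfold wk
        by_cases h2 : t = 1
        · simp [h2]
        · rw [if_neg h2]
          have h3 : t.primeFactors.card ≠ 0 := by
            rw [Ne, card_eq_zero, Nat.primeFactors_eq_empty]
            omega
          simp [h3]
      rw [h1, sum_ite_eq' (Icc 1 X) 1 (fun _ => (1 : ℝ))]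
      split_ifs <;> norm_num
    · have : Icc 1 X = ∅ := by
        rw [Icc_eq_empty]
        exact hX
      rw [this]
      simp
  | succ κ ih =>
    have h1 : ∀ t ∈ Icc 1 X, wk (κ + 1) t / t ≤ ∑ d ∈ Icc 1 X, if d ∣ t then wk κ d / t else 0 := by
      intro t ht
      rw [mem_Icc] at ht
      have htr : (0 : ℝ) < t := by exact_mod_cast ht.1
      calc wk (κ + 1) t / t ≤ (∑ d ∈ t.divisors, wk κ d) / t := by
            apply div_le_div_of_nonneg_right (wk_succ κ t ht.1) htr.le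
        _ = ∑ d ∈ t.divisors, wk κ d / t := by rw [sum_div]
        _ ≤ ∑ d ∈ (Icc 1 X).filter (fun d => d ∣ t), wk κ d / t := by
            apply sum_le_sum_of_subset_of_nonneg
            · intro d hd
              rw [Nat.mem_divisors] at hd
              rw [mem_filter, mem_Icc]
              exact ⟨⟨Nat.pos_of_dvd_of_pos hd.1 ht.1, (Nat.le_of_dvd ht.1 hd.1).trans ht.2⟩, hd.1⟩
            · intro d _ _
              exact div_nonneg (wk_nonneg _ _) htr.le
        _ = _ := by rw [sum_filter]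
    refine (sum_le_sum h1).trans ?_
    rw [sum_comm, pow_succ]
    refine le_trans ?_ (mul_le_mul_of_nonneg_right ih (sum_nonneg fun _ _ => by positivity))
    rw [sum_mul]
    refine sum_le_sum fun d hd => ?_
    rw [mem_Icc] at hd
    have hdr : (0 : ℝ) < d := by exact_mod_cast hd.1
    rw [← sum_filter]
    have h5 : ∀ f ∈ (Icc 1 X).filter (fun f => d ∣ f), wk κ d / f = (wk κ d / d) * (1 / ((f / d : ℕ) : ℝ)) := by
      intro f hf
      rw [mem_filter, mem_Icc] at hf
      obtain ⟨hf1, t, rfl⟩ := hf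
      rw [Nat.mul_div_cancel_left t (by omega)]
      push_cast
      rw [div_mul_div_comm, mul_one]
    rw [sum_congr rfl h5, ← mul_sum]
    apply mul_le_mul_of_nonneg_left _ (div_nonneg (wk_nonneg _ _) hdr.le)
    have hinj : ∀ a ∈ (Icc 1 X).filter (fun f => d ∣ f), ∀ c ∈ (Icc 1 X).filter (fun f => d ∣ f),
        a / d = c / d → a = c := by
      intro a ha c hc h
      rw [mem_filter] at ha hc
      rw [← Nat.div_mul_cancel ha.2, ← Nat.div_mul_cancel hc.2, h]
    rw [← sum_image (f := fun t : ℕ => (1 : ℝ) / (t : ℝ)) (fun a ha c hc h => hinj a ha c hc h)]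
    refine sum_le_sum_of_subset_of_nonneg ?_ fun t _ _ => by positivity
    intro t ht
    rw [mem_image] at ht
    obtain ⟨f, hf, rfl⟩ := ht
    rw [mem_filter, mem_Icc] at hf
    rw [mem_Icc]
    exact ⟨Nat.div_pos (Nat.le_of_dvd hf.1.1 hf.2) (by omega), (Nat.div_le_self _ _).trans hf.1.2⟩

end Pool.Agent.Run7.h620.PD
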