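import Pool.Agent.Run7.h620.PD.Par
import Pool.Agent.Run7.h620.PD.Wk

set_option autoImplicit false

/-! The parameters with a general exponent; the sieve product from below. -/

namespace Pool.Agent.Run7.h620.PD

open Finset Filter

theorem par2 (E : ℕ) (y : ℝ) (hy0 : 0 < y) (hy1 : y < 1) (q η : ℝ) (hE : 1 ≤ E) (hq : q = E / (-Real.log y))
    (hη : η = 1 / (60 * (q + 1))) (M : ℕ) (hM : 1 ≤ M) (B : ℝ) : ∀ᶠ K : ℕ in atTop,
    B ≤ K ∧ B ≤ η * K / Real.log K ∧ B ≤ Real.log K ∧ y ^ ⌈q * Real.log K⌉₊ ≤ 1 / (K : ℝ) ^ E ∧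
    ((5 : ℝ) / 6) ^ (2 * ⌊η * K / Real.log K⌋₊ + 1) ≤ 1 / (K : ℝ) ^ E ∧
    ⌈q * Real.log K⌉₊ * (5 * (2 * ⌊η * K / Real.log K⌋₊ + 1)) ≤ (K - 2) / 2 - 1 ∧
    K < M * 2 ^ (Nat.log 2 (K / M) + 1) ∧ M * 2 ^ (Nat.log 2 (K / M)) ≤ K ∧
    K ≤ 2 ^ 2 ^ (Nat.log 2 (K / M)) := by
  have hly : Real.log y < 0 := Real.log_neg hy0 hy1
  have hq0 : 0 < q := by rw [hq]; apply div_pos (by exact_mod_cast hE); linarith
  have hη0 : 0 < η := by rw [hη]; positivity
  have hc := tendsto_natCast_atTop_atTop (R := ℝ)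
  have hl := Real.tendsto_log_atTop.comp hc
  have h65 : 0 < Real.log (6 / 5) := Real.log_pos (by norm_num)
  have hl2 : 0 < Real.log 2 := Real.log_pos (by norm_num)
  have hMr : (1 : ℝ) ≤ M := by exact_mod_cast hM
  filter_upwards [hc.eventually_ge_atTop B, (z_tendsto η hη0).eventually_ge_atTop (max B 1),
    hl.eventually_ge_atTop (max B 1), hc.eventually (ev_logpow (E / (η * Real.log (6 / 5))) 2),
    hc.eventually (ev_logpow (2 * M / Real.log 2) 1), eventually_ge_atTop (M + 20)] with K k1 k2 k3 k4 k5 k6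
  simp only [Function.comp] at k3
  rw [max_le_iff] at k2 k3
  set z : ℝ := η * K / Real.log K with hz
  have hK0 : 0 < K := by omega
  have hKr : (0 : ℝ) < K := by exact_mod_cast hK0
  have hlK : 0 < Real.log K := by linarith [k3.2]
  have hKM : 1 ≤ K / M := by rw [Nat.le_div_iff_mul_le (by omega)]; omega
  have g1 : K < M * 2 ^ (Nat.log 2 (K / M) + 1) := by
    have := Nat.lt_pow_succ_log_self (b := 2) (by norm_num) (K / M)
    rw [Nat.div_lt_iff_lt_mul (by omega)] at this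
    rw [mul_comm]
    exact this
  have g2 : M * 2 ^ (Nat.log 2 (K / M)) ≤ K := by
    have h1 := Nat.pow_log_le_self 2 (x := K / M) (by omega)
    calc M * 2 ^ (Nat.log 2 (K / M)) ≤ M * (K / M) := Nat.mul_le_mul_left _ h1
      _ ≤ K := Nat.mul_div_le K M
  refine ⟨k1, k2.1, k3.1, ?_, ?_, ?_, g1, g2, ?_⟩
  · have h1 : q * Real.log K ≤ (⌈q * Real.log K⌉₊ : ℝ) := Nat.le_ceil _
    calc y ^ ⌈q * Real.log K⌉₊ = Real.exp (Real.log y * (⌈q * Real.log K⌉₊ : ℝ)) := by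
          rw [mul_comm (Real.log y), Real.exp_nat_mul, Real.exp_log hy0]
      _ ≤ Real.exp (Real.log y * (q * Real.log K)) := by
          apply Real.exp_le_exp.2
          exact mul_le_mul_of_nonpos_left h1 hly.le
      _ = Real.exp (-(((E : ℕ) : ℝ) * Real.log K)) := by
          congr 1
          have hne : Real.log y ≠ 0 := hly.ne
          have h5 : Real.log y * q = -E := by
            rw [hq, div_neg, mul_neg, mul_div_assoc', mul_div_cancel_left₀ _ hne]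
          rw [← mul_assoc, h5]
          push_cast
          ring
      _ = 1 / (K : ℝ) ^ E := by
          rw [Real.exp_neg, Real.exp_nat_mul, Real.exp_log hKr, one_div]
  · have h1 : z < (⌊z⌋₊ : ℝ) + 1 := Nat.lt_floor_add_one z
    have h2 : z ≤ ((2 * ⌊z⌋₊ + 1 : ℕ) : ℝ) := by push_cast; linarith [k2.2]
    have h3 : (E : ℝ) * Real.log K ≤ Real.log (6 / 5) * z := by
      rw [hz, mul_div_assoc', le_div_iff₀ hlK]
      have h4 : E / (η * Real.log (6 / 5)) * Real.log K ^ 2 ≤ K := k4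
      rw [div_mul_eq_mul_div, div_le_iff₀ (by positivity)] at h4
      nlinarith
    calc ((5 : ℝ) / 6) ^ (2 * ⌊z⌋₊ + 1) = Real.exp (((2 * ⌊z⌋₊ + 1 : ℕ) : ℝ) * Real.log (5 / 6)) := by
          rw [Real.exp_nat_mul, Real.exp_log (by norm_num)]
      _ ≤ Real.exp (-(((E : ℕ) : ℝ) * Real.log K)) := by
          apply Real.exp_le_exp.2
          have h5 : Real.log (5 / 6) = -Real.log (6 / 5) := by
            rw [← Real.log_inv]
            norm_num
          rw [h5]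
          push_cast at h2 ⊢
          have h6 := mul_le_mul_of_nonneg_left h2 h65.le
          linarith
      _ = 1 / (K : ℝ) ^ E := by
          rw [Real.exp_neg, Real.exp_nat_mul, Real.exp_log hKr, one_div]
  · have h1 : (⌈q * Real.log K⌉₊ : ℝ) ≤ (q + 1) * Real.log K := by
      have h2 := Nat.ceil_lt_add_one (a := q * Real.log K) (by positivity)
      linarith [k3.2]
    have h2 : ((5 * (2 * ⌊z⌋₊ + 1) : ℕ) : ℝ) ≤ 15 * z := by
      have h3 := Nat.floor_le (a := z) (by linarith [k2.2])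
      push_cast
      linarith [k2.2]
    have h3 : ((⌈q * Real.log K⌉₊ * (5 * (2 * ⌊z⌋₊ + 1)) : ℕ) : ℝ) ≤ K / 4 := by
      push_cast at h2 ⊢
      calc (⌈q * Real.log K⌉₊ : ℝ) * (5 * (2 * (⌊z⌋₊ : ℝ) + 1)) ≤ ((q + 1) * Real.log K) * (15 * z) := by
            apply mul_le_mul h1 h2 (by positivity) (by positivity)
        _ = K / 4 := by
            rw [hz, hη]
            field_simp
            ring
    have h4 : 4 * (⌈q * Real.log K⌉₊ * (5 * (2 * ⌊z⌋₊ + 1))) ≤ K := by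
      have : ((4 * (⌈q * Real.log K⌉₊ * (5 * (2 * ⌊z⌋₊ + 1))) : ℕ) : ℝ) ≤ K := by
        rw [Nat.cast_mul]
        push_cast at h3 ⊢
        linarith
      exact_mod_cast this
    omega
  · rw [pow_one] at k5
    have g1r : (K : ℝ) < M * (2 ^ (Nat.log 2 (K / M)) * 2) := by
      rw [← pow_succ]
      exact_mod_cast g1
    have h1 : Real.log K ≤ 2 ^ (Nat.log 2 (K / M)) * Real.log 2 := by
      rw [div_mul_eq_mul_div, div_le_iff₀ hl2] at k5
      have h2 : 2 * M * Real.log K ≤ 2 * M * (2 ^ (Nat.log 2 (K / M)) * Real.log 2) := by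
        calc 2 * M * Real.log K ≤ K * Real.log 2 := k5
          _ ≤ (M * (2 ^ (Nat.log 2 (K / M)) * 2)) * Real.log 2 := by gcongr
          _ = _ := by ring
      exact le_of_mul_le_mul_left h2 (by positivity)
    have h3 : (K : ℝ) ≤ 2 ^ 2 ^ (Nat.log 2 (K / M)) := by
      calc (K : ℝ) = Real.exp (Real.log K) := (Real.exp_log hKr).symm
        _ ≤ Real.exp (((2 ^ (Nat.log 2 (K / M)) : ℕ) : ℝ) * Real.log 2) := by
            apply Real.exp_le_exp.2
            push_cast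
            exact h1
        _ = _ := by rw [Real.exp_nat_mul, Real.exp_log (by norm_num)]
    exact_mod_cast h3

lemma log_one_sub (x : ℝ) (h0 : 0 ≤ x) (h1 : x ≤ 1 / 2) : Real.exp (-x - 2 * x ^ 2) ≤ 1 - x := by
  have h2 := Real.abs_log_sub_add_sum_range_le (x := x) (by rw [abs_of_nonneg h0]; linarith) 1
  rw [sum_range_one, abs_of_nonneg h0] at h2
  norm_num at h2
  have h3 : x ^ 2 / (1 - x) ≤ 2 * x ^ 2 := by
    rw [div_le_iff₀ (by linarith)]
    nlinarith [sq_nonneg x]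
  have h4 := (abs_le.1 (h2.trans h3)).1
  calc Real.exp (-x - 2 * x ^ 2) ≤ Real.exp (Real.log (1 - x)) := by
        apply Real.exp_le_exp.2
        linarith
    _ = 1 - x := Real.exp_log (by linarith)

theorem mert_low (κ : ℕ) : ∃ c₁ : ℝ, 0 < c₁ ∧ ∀ Ny Js : ℕ, 3 ≤ Ny → 2 * κ ≤ Ny → Ny ≤ 2 ^ 2 ^ Js →
    c₁ / (2 ^ Js) ^ κ ≤ ∏ p ∈ PP Ny Js, (1 - (κ : ℝ) / (p : ℝ)) := by
  obtain ⟨C, hC⟩ := Pool.Agent.Helper256.KM.mertens_inv
  have hl2 : 0 < Real.log 2 := Real.log_pos (by norm_num)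
  have hl21 : Real.log 2 ≤ 1 := by have := Real.log_two_lt_d9; linarith
  set S₂ : ℝ := ∑' n : ℕ, 1 / (n : ℝ) ^ 2 with hS₂
  have hsum : Summable (fun n : ℕ => 1 / (n : ℝ) ^ 2) := Real.summable_one_div_nat_pow.2 (by norm_num)
  refine ⟨Real.exp (-(κ * C) - 2 * κ ^ 2 * S₂), Real.exp_pos _, ?_⟩
  intro Ny Js hN hκN hNJ
  have h2 := (abs_le.1 (hC (2 ^ 2 ^ Js) (hN.trans hNJ))).2
  have hlz : Real.log ((2 ^ 2 ^ Js : ℕ) : ℝ) = 2 ^ Js * Real.log 2 := by
    push_cast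
    rw [Real.log_pow]
    push_cast
    ring
  have hlz0 : 0 < Real.log ((2 ^ 2 ^ Js : ℕ) : ℝ) := by rw [hlz]; positivity
  have hlz1 : Real.log ((2 ^ 2 ^ Js : ℕ) : ℝ) ≤ 2 ^ Js := by
    rw [hlz]
    have : (0 : ℝ) < 2 ^ Js := by positivity
    nlinarith
  have h3 : ∑ p ∈ PP Ny Js, (1 : ℝ) / p ≤ ∑ p ∈ (Icc 1 (2 ^ 2 ^ Js)).filter Nat.Prime, (1 : ℝ) / p := by
    apply sum_le_sum_of_subset_of_nonneg
    · intro p hp
      rw [mem_PP] at hp
      rw [mem_filter, mem_Icc]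
      exact ⟨⟨hp.1.one_lt.le, hp.2.2⟩, hp.1⟩
    · intro _ _ _
      positivity
  have h4 : ∑ p ∈ PP Ny Js, (1 : ℝ) / (p : ℝ) ^ 2 ≤ S₂ := hsum.sum_le_tsum _ (fun _ _ => by positivity)
  have h5 : Real.exp (∑ p ∈ PP Ny Js, (-((κ : ℝ) / p) - 2 * ((κ : ℝ) / p) ^ 2)) ≤ ∏ p ∈ PP Ny Js, (1 - (κ : ℝ) / (p : ℝ)) := by
    rw [Real.exp_sum]
    apply Finset.prod_le_prod
    · intro _ _
      exact (Real.exp_pos _).le
    · intro p hp
      rw [mem_PP] at hp
      have hp0 : (0 : ℝ) < p := by exact_mod_cast hp.1.pos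
      apply log_one_sub
      · positivity
      · rw [div_le_iff₀ hp0]
        have : 2 * κ ≤ p := by omega
        have : (2 * κ : ℝ) ≤ p := by exact_mod_cast this
        linarith
  refine le_trans ?_ h5
  have h6 : ∑ p ∈ PP Ny Js, (-((κ : ℝ) / p) - 2 * ((κ : ℝ) / p) ^ 2) =
      -(κ * ∑ p ∈ PP Ny Js, (1 : ℝ) / p) - 2 * κ ^ 2 * ∑ p ∈ PP Ny Js, (1 : ℝ) / (p : ℝ) ^ 2 := by
    rw [mul_sum, mul_sum, ← sum_neg_distrib, ← sum_sub_distrib]
    refine sum_congr rfl fun p _ => ?_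
    rw [div_pow]
    ring
  rw [h6]
  have hκ0 : (0 : ℝ) ≤ κ := Nat.cast_nonneg _
  have h7 : (κ : ℝ) * ∑ p ∈ PP Ny Js, (1 : ℝ) / p ≤ κ * (Real.log (Real.log ((2 ^ 2 ^ Js : ℕ) : ℝ)) + C) := by
    apply mul_le_mul_of_nonneg_left _ hκ0
    linarith
  have h8 : 2 * (κ : ℝ) ^ 2 * ∑ p ∈ PP Ny Js, (1 : ℝ) / (p : ℝ) ^ 2 ≤ 2 * κ ^ 2 * S₂ := by
    apply mul_le_mul_of_nonneg_left h4
    positivity
  calc Real.exp (-(κ * C) - 2 * κ ^ 2 * S₂) / (2 ^ Js) ^ κ ≤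
        Real.exp (-(κ * C) - 2 * κ ^ 2 * S₂) / (Real.log ((2 ^ 2 ^ Js : ℕ) : ℝ)) ^ κ := by
        gcongr
    _ = Real.exp (-(κ * C) - 2 * κ ^ 2 * S₂ - κ * Real.log (Real.log ((2 ^ 2 ^ Js : ℕ) : ℝ))) := by
        rw [Real.exp_sub (-(κ * C) - 2 * κ ^ 2 * S₂), Real.exp_nat_mul, Real.exp_log hlz0]
    _ ≤ _ := by
        apply Real.exp_le_exp.2
        linarith

end Pool.Agent.Run7.h620.PD
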