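import Pool.Agent.Run7.h620.PD.Sv

set_option autoImplicit false

/-! The sieve for palindromes with two digits, several classes for every prime. -/

namespace Pool.Agent.Run7.h620.PD

open Finset

open Classical in
/-- splitting into residue classes -/
lemma classes {ι : Type*} (𝒮 : Finset ι) (v : ι → ℤ) (Z : ℕ → Finset ℕ) (T : Finset ℕ)
    (hT : ∀ p ∈ T, p.Prime) (hZ : ∀ p ∈ T, Z p ⊆ range p) :
    ∀ m : ℕ, 0 < m → (∀ p ∈ T, ¬ p ∣ m) → ∀ s : ℤ, ∃ L : Multiset ℤ, L.card = ∏ p ∈ T, (Z p).card ∧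
      (∀ s' ∈ L, (m : ℤ) ∣ s' - s) ∧
      ((𝒮.filter (fun i => (m : ℤ) ∣ v i - s ∧ ∀ p ∈ T, ∃ z ∈ Z p, (p : ℤ) ∣ v i - z)).card : ℝ) =
        (L.map (fun s' => cnt 𝒮 v (m * ∏ p ∈ T, p) s')).sum := by
  induction T using Finset.induction_on with
  | empty =>
    intro m hm _ s
    refine ⟨{s}, by simp, by simp, ?_⟩
    simp only [notMem_empty, false_implies, implies_true, and_true, prod_empty, mul_one,
      Multiset.map_singleton, Multiset.sum_singleton]
    unfold cnt
    congr!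
  | insert p T hp ih =>
    intro m hm hmT s
    have hpp : p.Prime := hT p (mem_insert_self p T)
    have hcop : IsCoprime (m : ℤ) (p : ℤ) := by
      rw [Nat.isCoprime_iff_coprime]
      exact ((Nat.Prime.coprime_iff_not_dvd hpp).2 (hmT p (mem_insert_self p T))).symm
    have hstep : ∀ z : ℕ, ∃ L : Multiset ℤ, L.card = ∏ p ∈ T, (Z p).card ∧
        (∀ s' ∈ L, (m : ℤ) ∣ s' - s) ∧
        ((𝒮.filter (fun i => ((m : ℤ) ∣ v i - s ∧ (p : ℤ) ∣ v i - z) ∧ ∀ q ∈ T, ∃ z ∈ Z q, (q : ℤ) ∣ v i - z)).card : ℝ) =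
          (L.map (fun s' => cnt 𝒮 v (m * ∏ p ∈ insert p T, p) s')).sum := by
      intro z
      obtain ⟨t, ht⟩ := crt_int m p hcop s z
      obtain ⟨L, h1, h2, h3⟩ := ih (fun q hq => hT q (mem_insert_of_mem hq)) (fun q hq => hZ q (mem_insert_of_mem hq))
        (m * p) (Nat.mul_pos hm hpp.pos) (by
          intro q hq hqd
          have hqq := hT q (mem_insert_of_mem hq)
          rcases (Nat.Prime.dvd_mul hqq).1 hqd with h4 | h4
          · exact hmT q (mem_insert_of_mem hq) h4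
          · have := (Nat.prime_dvd_prime_iff_eq hqq hpp).1 h4
            rw [this] at hq
            exact hp hq) t
      refine ⟨L, h1, ?_, ?_⟩
      · intro s' hs'
        have h4 := h2 s' hs'
        exact ((ht s').2 h4).1
      · rw [prod_insert hp, ← mul_assoc, ← h3]
        congr 2
        apply filter_congr
        intro i _
        rw [ht]
    choose L hL1 hL2 hL3 using hstep
    refine ⟨(Z p).val.bind L, ?_, ?_, ?_⟩
    · rw [Multiset.card_bind, prod_insert hp]
      have h4 : Multiset.map (Multiset.card ∘ L) (Z p).val =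
          Multiset.map (fun _ => ∏ x ∈ T, (Z x).card) (Z p).val := Multiset.map_congr rfl (fun z _ => hL1 z)
      rw [h4]
      simp
    · intro s' hs'
      rw [Multiset.mem_bind] at hs'
      obtain ⟨z, _, hz⟩ := hs'
      exact hL2 z s' hz
    · rw [Multiset.map_bind, Multiset.sum_bind]
      have h5 : (𝒮.filter (fun i => (m : ℤ) ∣ v i - s ∧ ∀ q ∈ insert p T, ∃ z ∈ Z q, (q : ℤ) ∣ v i - z)) =
          (Z p).biUnion (fun z => 𝒮.filter (fun i => ((m : ℤ) ∣ v i - s ∧ (p : ℤ) ∣ v i - z) ∧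
            ∀ q ∈ T, ∃ z ∈ Z q, (q : ℤ) ∣ v i - z)) := by
        ext i
        rw [mem_filter, mem_biUnion]
        constructor
        · rintro ⟨h6, h7, h8⟩
          obtain ⟨z, hz, hz'⟩ := h8 p (mem_insert_self p T)
          refine ⟨z, hz, mem_filter.2 ⟨h6, ⟨h7, hz'⟩, fun q hq => h8 q (mem_insert_of_mem hq)⟩⟩
        · rintro ⟨z, hz, h6⟩
          rw [mem_filter] at h6
          refine ⟨h6.1, h6.2.1.1, ?_⟩
          intro q hq
          rcases mem_insert.1 hq with rfl | hq'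
          · exact ⟨z, hz, h6.2.1.2⟩
          · exact h6.2.2 q hq'
      rw [h5, card_biUnion, Nat.cast_sum]
      · rw [← Finset.sum_eq_multiset_sum]
        exact sum_congr rfl fun z _ => hL3 z
      · intro z hz z' hz' hzz
        rw [Function.onFun, disjoint_left]
        intro i hi hi'
        rw [mem_filter] at hi hi'
        have h6 := hi.2.1.2
        have h7 := hi'.2.1.2
        have h8 : (p : ℤ) ∣ (z' : ℤ) - z := by
          have := dvd_sub h6 h7
          have h9 : v i - (z : ℤ) - (v i - (z' : ℤ)) = (z' : ℤ) - z := by ring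
          rwa [h9] at this
        have h9 := mem_range.1 (hZ p (mem_insert_self p T) hz)
        have h10 := mem_range.1 (hZ p (mem_insert_self p T) hz')
        apply hzz
        obtain ⟨k, hk⟩ := h8
        have h11 : k = 0 := by
          by_contra hk0
          rcases lt_or_gt_of_ne hk0 with h12 | h12
          · have : (p : ℤ) * k ≤ p * (-1) := mul_le_mul_of_nonneg_left (by omega) (by omega)
            omega
          · have : (p : ℤ) * 1 ≤ p * k := mul_le_mul_of_nonneg_left (by omega) (by omega)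
            omega
        rw [h11] at hk
        omega

lemma multiset_close (L : Multiset ℤ) (g : ℤ → ℝ) (a e : ℝ) (h : ∀ s ∈ L, |g s - a| ≤ e) :
    |(L.map g).sum - L.card * a| ≤ L.card * e := by
  induction L using Multiset.induction_on with
  | empty => simp
  | cons s L ih =>
    have h1 := ih (fun t ht => h t (Multiset.mem_cons_of_mem ht))
    have h2 := h s (Multiset.mem_cons_self s L)
    rw [Multiset.map_cons, Multiset.sum_cons, Multiset.card_cons]
    push_cast
    have h3 : g s + (L.map g).sum - ((L.card : ℝ) + 1) * a = (g s - a) + ((L.map g).sum - L.card * a) := by ring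
    rw [h3]
    calc _ ≤ |g s - a| + |(L.map g).sum - L.card * a| := abs_add_le _ _
      _ ≤ e + L.card * e := add_le_add h2 h1
      _ = _ := by ring

lemma cnt_shift {ι : Type*} (s : Finset ι) (v : ι → ℤ) (q : ℕ) (r r' : ℤ) (h : (q : ℤ) ∣ r' - r) :
    cnt s v q r' = cnt s v q r := by
  unfold cnt
  congr 2
  apply filter_congr
  intro S _
  constructor
  · intro h5
    have : v S - r = (v S - r') + (r' - r) := by ring
    rw [this]
    exact dvd_add h5 h
  · intro h5
    have : v S - r' = (v S - r) - (r' - r) := by ring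
    rw [this]
    exact dvd_sub h5 h

/-- the weight of a modulus -/
noncomputable def wk (κ : ℕ) (n : ℕ) : ℝ := (κ : ℝ) ^ n.primeFactors.card

open Classical in
/-- the sieve in a residue class, at most `κ` classes for every prime -/
theorem sieve_gen : ∃ C : ℕ, 1 ≤ C ∧ ∀ (κ b K H R P J z0 : ℕ) (n₀ D : ℤ) (PP : Finset ℕ) (Z : ℕ → Finset ℕ),
    2 ≤ b → 1 ≤ R → 1 ≤ H → H + 1 ≤ K → 0 < P → C * (κ + 1) ≤ z0 →
    (∀ p ∈ PP, p.Prime ∧ z0 < p ∧ p ≤ 2 ^ 2 ^ J) → (∀ p ∈ PP, ¬ p ∣ R * P) →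
    (∀ p ∈ PP, Z p ⊆ range p ∧ (Z p).card ≤ κ) →
    (∀ S ∈ (Icc 1 H).powerset, 0 ≤ vv b K n₀ D S) → ∀ s₀ : ℤ,
    |((((Icc 1 H).powerset.filter (fun S => ((R * P : ℕ) : ℤ) ∣ vv b K n₀ D S - s₀)).filter
      (fun S => ∀ p ∈ PP, ¬ ∃ z ∈ Z p, (p : ℤ) ∣ vv b K n₀ D S - z)).card : ℝ) -
      cnt (Icc 1 H).powerset (vv b K n₀ D) (R * P) s₀ * ∏ p ∈ PP, (1 - (Z p).card / (p : ℝ))| ≤
      1 / 2 * (cnt (Icc 1 H).powerset (vv b K n₀ D) (R * P) s₀ * ∏ p ∈ PP, (1 - (Z p).card / (p : ℝ))) +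
      ((J : ℝ) + 2) * (2 ^ H / P * ∑ f ∈ (PP.powerset.image (fun T => ∏ p ∈ T, p)).filter
        (fun f => f ≤ (2 ^ 2 ^ J) ^ (C * (C * (κ + 1)))),
        wk κ f / f * GG b (yy b R) (((b : ℤ) ^ 2 - 1) * D) (K - 1 - H) (H - 1) P f) := by
  obtain ⟨C, hC, hfund⟩ := fund
  refine ⟨C, hC, ?_⟩
  intro κ b K H R P J z0 n₀ D PP Z hb hR hH hK hP hz0 hPP hPPR hZ hpos s₀
  have hPr : (0 : ℝ) < P := by exact_mod_cast hP
  set 𝒜 : Finset (Finset ℕ) := (Icc 1 H).powerset.filter (fun S => ((R * P : ℕ) : ℤ) ∣ vv b K n₀ D S - s₀) with h𝒜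
  set A : ℝ := cnt (Icc 1 H).powerset (vv b K n₀ D) (R * P) s₀ with hA
  set G : ℕ → ℝ := fun f => GG b (yy b R) (((b : ℤ) ^ 2 - 1) * D) (K - 1 - H) (H - 1) P f with hG
  have hG0 : ∀ f, 0 ≤ G f := fun f => GG_nonneg _ _ (yy_pos b R (by omega) hR).le _ _ _ _ _
  set err : Finset ℕ → ℝ := fun T => 2 ^ H / P * (wk κ (∏ p ∈ T, p) / ((∏ p ∈ T, p : ℕ) : ℝ) * G (∏ p ∈ T, p)) with herr
  have hA0 : 0 ≤ A := cnt_nonneg _ _ _ _
  have hmain := hfund κ (C * (κ + 1)) J z0 PP (fun p => (Z p).card / (p : ℝ)) le_rfl hz0 hPP (by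
    intro p hp
    have h2 := (hPP p hp).1.two_le
    have h3 : (2 : ℝ) ≤ p := by exact_mod_cast h2
    refine ⟨by positivity, ?_⟩
    have h4 : ((Z p).card : ℝ) ≤ κ := by exact_mod_cast (hZ p hp).2
    gcongr
    · linarith
    · linarith) (Finset ℕ) 𝒜 (fun S => (vv b K n₀ D S).toNat)
    (fun p m => ∃ z ∈ Z p, (p : ℤ) ∣ (m : ℤ) - z) A err hA0 (by
      intro T hT _
      have hTp : ∀ p ∈ T, p.Prime := fun p hp => (hPP p (hT hp)).1
      set f : ℕ := ∏ p ∈ T, p with hf
      have hf0 : 0 < f := prod_pos fun p hp => (hTp p hp).pos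
      have hfr : (0 : ℝ) < f := by exact_mod_cast hf0
      obtain ⟨L, hL1, hL2, hL3⟩ := classes (Icc 1 H).powerset (vv b K n₀ D) Z T hTp
        (fun p hp => (hZ p (hT hp)).1) (R * P) (Nat.mul_pos hR hP) (fun p hp => hPPR p (hT hp)) s₀
      rw [← hf] at hL3
      have h1 : ((𝒜.filter (fun S => ∀ p ∈ T, ∃ z ∈ Z p, (p : ℤ) ∣ (((vv b K n₀ D S).toNat : ℕ) : ℤ) - z)).card : ℝ) =
          (L.map (fun s' => cnt (Icc 1 H).powerset (vv b K n₀ D) (R * P * f) s')).sum := by
        rw [← hL3]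
        congr 2
        ext S
        rw [mem_filter, h𝒜, mem_filter, mem_filter]
        constructor
        · rintro ⟨⟨h2, h3⟩, h4⟩
          rw [Int.toNat_of_nonneg (hpos S h2)] at h4
          exact ⟨h2, h3, h4⟩
        · rintro ⟨h2, h3, h4⟩
          rw [Int.toNat_of_nonneg (hpos S h2)]
          exact ⟨⟨h2, h3⟩, h4⟩
      have h2 := multiset_close L (fun s' => cnt (Icc 1 H).powerset (vv b K n₀ D) (R * P * f) s') (A / f)
        (2 ^ H / ((P * f : ℕ) : ℝ) * G f) (by
          intro s' hs'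
          have h3 := cnt_pal b K H R P f n₀ D s' (by omega) hR hH hK hP hf0
          rw [cnt_shift _ _ (R * P) s₀ s' (hL2 s' hs')] at h3
          exact h3)
      have h4 : A * ∏ p ∈ T, ((Z p).card / (p : ℝ)) = L.card * (A / f) := by
        rw [hL1, hf, prod_div_distrib]
        push_cast
        ring
      have h5 : (L.card : ℝ) * (2 ^ H / ((P * f : ℕ) : ℝ) * G f) ≤ err T := by
        simp only [herr]
        rw [← hf]
        have h6 : (L.card : ℝ) ≤ wk κ f := by
          unfold wk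
          rw [hL1, hf, Nat.primeFactors_prod hTp]
          push_cast
          calc ∏ p ∈ T, ((Z p).card : ℝ) ≤ ∏ _p ∈ T, (κ : ℝ) := by
                apply Finset.prod_le_prod
                · intro p _
                  positivity
                · intro p hp
                  exact_mod_cast (hZ p (hT hp)).2
            _ = (κ : ℝ) ^ T.card := by rw [prod_const]
        have h7 : (2 : ℝ) ^ H / P * (wk κ f / f * G f) = wk κ f * (2 ^ H / ((P * f : ℕ) : ℝ) * G f) := by
          push_cast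
          field_simp
        rw [h7]
        apply mul_le_mul_of_nonneg_right h6
        have := hG0 f
        positivity
      rw [h4]
      have h8 := h2.trans h5
      rw [← h1] at h8
      refine le_trans (le_of_eq ?_) h8
      congr!)
  have h10 : ∑ T ∈ PP.powerset.filter (fun T : Finset ℕ => ∏ p ∈ T, p ≤ (2 ^ 2 ^ J) ^ (C * (C * (κ + 1)))), err T =
      2 ^ H / P * ∑ f ∈ (PP.powerset.image (fun T => ∏ p ∈ T, p)).filter
        (fun f => f ≤ (2 ^ 2 ^ J) ^ (C * (C * (κ + 1)))), wk κ f / f * G f := by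
    have hinj : ∀ T ∈ PP.powerset, ∀ T' ∈ PP.powerset, ∏ p ∈ T, p = ∏ p ∈ T', p → T = T' := by
      intro T hT T' hT' h
      rw [mem_powerset] at hT hT'
      rw [← Nat.primeFactors_prod (fun p hp => (hPP p (hT hp)).1),
        ← Nat.primeFactors_prod (fun p hp => (hPP p (hT' hp)).1), h]
    rw [mul_sum, filter_image, sum_image]
    · intro T hT T' hT' h
      rw [coe_filter] at hT hT'
      exact hinj T hT.1 T' hT'.1 h
  rw [h10] at hmain
  have hb2 : (1 / 2 : ℝ) ^ (C * (κ + 1)) ≤ 1 / 2 := by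
    calc (1 / 2 : ℝ) ^ (C * (κ + 1)) ≤ (1 / 2 : ℝ) ^ 1 := by
          apply pow_le_pow_of_le_one (by norm_num) (by norm_num)
          exact Nat.mul_pos hC (by omega)
      _ = 1 / 2 := by norm_num
  have hprod0 : 0 ≤ ∏ p ∈ PP, (1 - (Z p).card / (p : ℝ)) := by
    apply prod_nonneg
    intro p hp
    have h2 : (2 : ℝ) ≤ p := by exact_mod_cast (hPP p hp).1.two_le
    have h3 : (Z p).card ≤ p := by
      have := card_le_card (hZ p hp).1
      rwa [card_range] at this
    have h4 : ((Z p).card : ℝ) ≤ p := by exact_mod_cast h3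
    have : (Z p).card / (p : ℝ) ≤ 1 := by rw [div_le_one (by linarith)]; exact h4
    linarith
  have h12 : 0 ≤ A * ∏ p ∈ PP, (1 - (Z p).card / (p : ℝ)) := mul_nonneg hA0 hprod0
  have h14 := mul_le_mul_of_nonneg_right hb2 h12
  refine le_trans (le_of_eq ?_) (hmain.trans (add_le_add h14 le_rfl))
  have h15 : (𝒜.filter (fun S => ∀ p ∈ PP, ¬ ∃ z ∈ Z p, (p : ℤ) ∣ vv b K n₀ D S - z)) =
      (𝒜.filter (fun S => ∀ p ∈ PP, ¬ ∃ z ∈ Z p, (p : ℤ) ∣ (((vv b K n₀ D S).toNat : ℕ) : ℤ) - z)) := by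
    apply filter_congr
    intro S hS
    rw [h𝒜, mem_filter] at hS
    rw [Int.toNat_of_nonneg (hpos S hS.1)]
  rw [h15]
  congr!

end Pool.Agent.Run7.h620.PD
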