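import Pool.Agent.Run7.h620.PD.Count

set_option autoImplicit false

/-! Residue classes of small values of a polynomial modulo prime powers. -/

namespace Pool.Agent.Run7.h620.PD

open Finset Polynomial

lemma pow_dvd_aux (p : ℕ) (hp : p.Prime) (m V : ℕ) (u g : ℤ) (h1 : (p : ℤ) ^ V ∣ u * g) (h2 : ¬ (p : ℤ) ^ m ∣ u) :
    (p : ℤ) ^ V ∣ (p : ℤ) ^ m * g := by
  have hu : u ≠ 0 := by
    rintro rfl
    exact h2 (dvd_zero _)
  have hpi : Prime (p : ℤ) := Nat.prime_iff_prime_int.1 hp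
  have hfin : FiniteMultiplicity (p : ℤ) u := by
    rw [Int.finiteMultiplicity_iff]
    refine ⟨?_, hu⟩
    rw [Int.natAbs_natCast]
    exact hp.one_lt.ne'
  obtain ⟨c, hc1, hc2⟩ := hfin.exists_eq_pow_mul_and_not_dvd
  set v := multiplicity (p : ℤ) u with hv
  have hvm : v < m := by
    by_contra hcon
    push Not at hcon
    apply h2
    rw [hc1]
    exact (pow_dvd_pow _ hcon).mul_right _
  rw [hc1, mul_assoc, mul_left_comm] at h1
  have h3 : (p : ℤ) ^ V ∣ (p : ℤ) ^ v * g := by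
    have hcop : IsCoprime ((p : ℤ) ^ V) c := by
      apply IsCoprime.pow_left
      exact (Prime.coprime_iff_not_dvd hpi).2 hc2
    exact hcop.dvd_of_dvd_mul_left h1
  refine h3.trans ?_
  exact mul_dvd_mul (pow_dvd_pow _ hvm.le) dvd_rfl

theorem root_classes (p : ℕ) (hp : p.Prime) (m V : ℕ) : ∀ (d : ℕ) (F : ℤ[X]), F.natDegree = d → F ≠ 0 →
    ∀ X : Finset ℤ, X.card = d + 1 → (∀ x ∈ X, ∀ x' ∈ X, x ≠ x' → ¬ (p : ℤ) ^ m ∣ x - x') →
    (∀ x ∈ X, (p : ℤ) ^ V ∣ F.eval x) → (p : ℤ) ^ V ∣ F.leadingCoeff * (p : ℤ) ^ (m * d) := by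
  intro d
  induction d with
  | zero =>
    intro F hF hF0 X hX _ h
    rw [zero_add, card_eq_one] at hX
    obtain ⟨x, rfl⟩ := hX
    have h1 := h x (mem_singleton_self x)
    have h2 := eq_C_of_natDegree_eq_zero hF
    rw [h2, eval_C] at h1
    rw [mul_zero, pow_zero, mul_one, leadingCoeff, hF]
    exact h1
  | succ d ih =>
    intro F hF hF0 X hX hsep h
    have hne : X.Nonempty := card_pos.1 (by omega)
    obtain ⟨x₁, hx₁⟩ := hne
    have hdeg : F.degree ≠ 0 := by
      intro h0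
      have := natDegree_eq_zero_iff_degree_le_zero.2 (le_of_eq h0)
      omega
    set G := F /ₘ (Polynomial.X - C x₁) with hG
    have hGdeg : G.natDegree = d := by
      rw [hG, natDegree_divByMonic _ (monic_X_sub_C x₁), hF, natDegree_X_sub_C]
      rfl
    have hGlc : G.leadingCoeff = F.leadingCoeff := leadingCoeff_divByMonic_X_sub_C F hdeg x₁
    have hG0 : G ≠ 0 := by
      intro h0
      rw [h0, leadingCoeff_zero] at hGlc
      exact hF0 (leadingCoeff_eq_zero.1 hGlc.symm)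
    have heval : ∀ x : ℤ, F.eval x = F.eval x₁ + (x - x₁) * G.eval x := by
      intro x
      have h1 := congrArg (eval x) (modByMonic_add_div F (Polynomial.X - C x₁))
      rw [modByMonic_X_sub_C_eq_C_eval, eval_add, eval_mul, eval_C, eval_sub, eval_X, eval_C] at h1
      exact h1.symm
    have hpm : ((p : ℤ) ^ m) ≠ 0 := pow_ne_zero _ (by exact_mod_cast hp.ne_zero)
    have hFlc := ih (C ((p : ℤ) ^ m) * G) (by rw [natDegree_C_mul hpm]; exact hGdeg)
      (mul_ne_zero (by rw [Ne, C_eq_zero]; exact hpm) hG0) (X.erase x₁) (by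
        rw [card_erase_of_mem hx₁, hX]
        rfl) (fun x hx x' hx' hxx => hsep x (mem_of_mem_erase hx) x' (mem_of_mem_erase hx') hxx) (by
        intro x hx
        rw [eval_mul, eval_C]
        have h1 : (p : ℤ) ^ V ∣ (x - x₁) * G.eval x := by
          have h2 := dvd_sub (h x (mem_of_mem_erase hx)) (h x₁ hx₁)
          rw [heval x] at h2
          have h3 : eval x₁ F + (x - x₁) * eval x G - eval x₁ F = (x - x₁) * G.eval x := by ring
          rwa [h3] at h2
        exact pow_dvd_aux p hp m V _ _ h1 (hsep x (mem_of_mem_erase hx) x₁ hx₁ (ne_of_mem_erase hx)))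
    rw [leadingCoeff_mul, leadingCoeff_C, hGlc] at hFlc
    have h5 : (p : ℤ) ^ m * F.leadingCoeff * (p : ℤ) ^ (m * d) = F.leadingCoeff * (p : ℤ) ^ (m * (d + 1)) := by
      rw [mul_add, mul_one, pow_add]
      ring
    rwa [h5] at hFlc

/-- few classes -/
theorem few_classes (p : ℕ) (hp : p.Prime) (m : ℕ) (F : ℤ[X]) (hF : F ≠ 0) :
    ∃ V₀ : ℕ, ∀ V : ℕ, V₀ ≤ V → ∀ X : Finset ℤ, (∀ x ∈ X, ∀ x' ∈ X, x ≠ x' → ¬ (p : ℤ) ^ m ∣ x - x') →
      (∀ x ∈ X, (p : ℤ) ^ V ∣ F.eval x) → X.card ≤ F.natDegree := by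
  set a : ℤ := F.leadingCoeff * (p : ℤ) ^ (m * F.natDegree) with ha
  have ha0 : a ≠ 0 := mul_ne_zero (leadingCoeff_ne_zero.2 hF) (pow_ne_zero _ (by exact_mod_cast hp.ne_zero))
  refine ⟨a.natAbs + 1, ?_⟩
  intro V hV X hsep h
  by_contra hcon
  push Not at hcon
  obtain ⟨X', hX', hcard⟩ := exists_subset_card_eq (s := X) (n := F.natDegree + 1) (by omega)
  have h1 := root_classes p hp m V F.natDegree F rfl hF X' hcard
    (fun x hx x' hx' => hsep x (hX' hx) x' (hX' hx')) (fun x hx => h x (hX' hx))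
  rw [← ha] at h1
  have h2 : ((p ^ V : ℕ) : ℤ) ∣ a := by exact_mod_cast h1
  have h3 := Nat.le_of_dvd (Int.natAbs_pos.2 ha0) (Int.natCast_dvd.1 h2)
  have h4 : V < p ^ V := Nat.lt_pow_self hp.one_lt
  omega

open Classical in
/-- the number of the indices with a value divisible by a high power -/
theorem bad_count (p : ℕ) (hp : p.Prime) (m : ℕ) (F : ℤ[X]) (hF : F ≠ 0) :
    ∃ V₀ : ℕ, ∀ V : ℕ, V₀ ≤ V → ∀ {ι : Type} (s : Finset ι) (v : ι → ℤ) (B : ℝ), 0 ≤ B →
      (∀ r : ℤ, cnt s v (p ^ m) r ≤ B) →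
      ((s.filter (fun i => ((p ^ V : ℕ) : ℤ) ∣ F.eval (v i))).card : ℝ) ≤ F.natDegree * B := by
  obtain ⟨V₀, hV₀⟩ := few_classes p hp m F hF
  refine ⟨V₀, ?_⟩
  intro V hV ι s v B hB hcnt
  set bad := s.filter (fun i => ((p ^ V : ℕ) : ℤ) ∣ F.eval (v i)) with hbad
  set res : ι → ℤ := fun i => v i % ((p ^ m : ℕ) : ℤ) with hres
  have h1 : bad.card = ∑ r ∈ bad.image res, (bad.filter (fun i => res i = r)).card :=
    card_eq_sum_card_image res bad
  have h2 : ∀ r ∈ bad.image res, ((bad.filter (fun i => res i = r)).card : ℝ) ≤ B := by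
    intro r _
    refine le_trans ?_ (hcnt r)
    unfold cnt
    have h3 : bad.filter (fun i => res i = r) ⊆ s.filter (fun i => ((p ^ m : ℕ) : ℤ) ∣ v i - r) := by
      intro i hi
      rw [mem_filter, hbad, mem_filter] at hi
      rw [mem_filter]
      refine ⟨hi.1.1, ?_⟩
      rw [← hi.2]
      exact Int.dvd_self_sub_emod
    exact_mod_cast card_le_card h3
  have h3 : (bad.image res).card ≤ F.natDegree := by
    have hch : ∀ r ∈ bad.image res, ∃ x : ℤ, x % ((p ^ m : ℕ) : ℤ) = r ∧ ((p ^ V : ℕ) : ℤ) ∣ F.eval x := by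
      intro r hr
      obtain ⟨i, hi, hir⟩ := mem_image.1 hr
      exact ⟨v i, hir, (mem_filter.1 hi).2⟩
    choose! rep hrep1 hrep2 using hch
    have hinj : ∀ r ∈ bad.image res, ∀ r' ∈ bad.image res, rep r = rep r' → r = r' := by
      intro r hr r' hr' h
      rw [← hrep1 r hr, ← hrep1 r' hr', h]
    have h4 : ((bad.image res).image rep).card = (bad.image res).card :=
      card_image_of_injOn (fun r hr r' hr' h => hinj r hr r' hr' h)
    rw [← h4]
    apply hV₀ V hV
    · intro x hx x' hx' hxx hdvd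
      rw [mem_image] at hx hx'
      obtain ⟨r, hr, rfl⟩ := hx
      obtain ⟨r', hr', rfl⟩ := hx'
      apply hxx
      have h5 : r = r' := by
        rw [← hrep1 r hr, ← hrep1 r' hr']
        apply Int.emod_eq_emod_iff_emod_sub_eq_zero.2
        apply Int.emod_eq_zero_of_dvd
        push_cast
        exact hdvd
      rw [h5]
    · intro x hx
      rw [mem_image] at hx
      obtain ⟨r, hr, rfl⟩ := hx
      have h5 := hrep2 r hr
      push_cast at h5
      exact h5
  calc (bad.card : ℝ) = ∑ r ∈ bad.image res, ((bad.filter (fun i => res i = r)).card : ℝ) := by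
        exact_mod_cast h1
    _ ≤ ∑ _r ∈ bad.image res, B := sum_le_sum h2
    _ = (bad.image res).card * B := by rw [sum_const, nsmul_eq_mul]
    _ ≤ F.natDegree * B := by
        apply mul_le_mul_of_nonneg_right _ hB
        exact_mod_cast h3

end Pool.Agent.Run7.h620.PD
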