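import Pool.Agent.Run7.h620.PD.Sum

set_option autoImplicit false

/-! The sum over all moduli: sizes. -/

namespace Pool.Agent.Run7.h620.PD

open Finset

lemma pow_sub_one_le (x : ℝ) (hx : 0 ≤ x) (W : ℕ) (B : ℝ) (hW : (W : ℝ) ≤ B) (h : x * B ≤ 1) :
    (1 + x) ^ W - 1 ≤ 2 * (x * B) := by
  have h1 : (1 + x) ^ W ≤ Real.exp (x * B) := by
    calc (1 + x) ^ W ≤ (Real.exp x) ^ W := by
          apply pow_le_pow_left₀ (by linarith)
          have := Real.add_one_le_exp x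
          linarith
      _ = Real.exp (W * x) := by rw [← Real.exp_nat_mul]
      _ ≤ _ := by
          apply Real.exp_le_exp.2
          nlinarith
  have h0 : 0 ≤ x * B := mul_nonneg hx ((Nat.cast_nonneg W).trans hW)
  have h2 : Real.exp (x * B) ≤ 1 + 2 * (x * B) := by
    have h3 := Real.abs_exp_sub_one_le (x := x * B) (by rw [abs_of_nonneg h0]; exact h)
    rw [abs_of_nonneg h0] at h3
    have := (abs_le.1 h3).2
    linarith
  linarith

lemma exp_fifth : Real.exp (1 / 5) ≤ 5 / 4 := by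
  have h := Real.exp_bound' (x := 1 / 5) (by norm_num) (by norm_num) (n := 3) (by norm_num)
  norm_num [Finset.sum_range_succ, Nat.factorial] at h
  linarith

lemma geo1 (J : ℕ) : ∑ k ∈ range J, ((2 : ℝ) / 3) ^ k ≤ 3 := by
  have h := geom_sum_eq (x := (2 : ℝ) / 3) (by norm_num) J
  rw [h]
  have : (0 : ℝ) ≤ (2 / 3) ^ J := by positivity
  rw [div_le_iff_of_neg (by norm_num)]
  linarith

lemma geo2 (w J : ℕ) : ∑ k ∈ (range J).filter (fun k => w < k), ((5 : ℝ) / 6) ^ k ≤ 6 * (5 / 6) ^ w := by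
  have h1 : (range J).filter (fun k => w < k) ⊆ (range J).image (fun t => w + t) := by
    intro k hk
    rw [mem_filter, mem_range] at hk
    rw [mem_image]
    exact ⟨k - w, by rw [mem_range]; omega, by omega⟩
  calc ∑ k ∈ (range J).filter (fun k => w < k), ((5 : ℝ) / 6) ^ k
      ≤ ∑ k ∈ (range J).image (fun t => w + t), ((5 : ℝ) / 6) ^ k :=
        sum_le_sum_of_subset_of_nonneg h1 fun _ _ _ => by positivity
    _ = ∑ t ∈ range J, ((5 : ℝ) / 6) ^ (w + t) := by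
        rw [sum_image (fun a _ b _ h => by omega)]
    _ = (5 / 6) ^ w * ∑ t ∈ range J, ((5 : ℝ) / 6) ^ t := by
        rw [mul_sum]
        exact sum_congr rfl fun t _ => pow_add _ _ _
    _ ≤ (5 / 6) ^ w * 6 := by
        apply mul_le_mul_of_nonneg_left _ (by positivity)
        have h := geom_sum_eq (x := (5 : ℝ) / 6) (by norm_num) J
        rw [h]
        have : (0 : ℝ) ≤ (5 / 6) ^ J := by positivity
        rw [div_le_iff_of_neg (by norm_num)]
        linarith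
    _ = _ := by ring

/-- the total -/
lemma total (b : ℕ) (hb : 2 ≤ b) (y : ℝ) (hy0 : 0 < y) (hy1 : y ≤ 1) (U : ℤ) (j V P w J C₀ C₁ X : ℕ)
    (hw : 1 ≤ w) (hC₀ : 1 ≤ C₀) (hC₁ : 1 ≤ C₁) (h0 : C₀ * (5 * w) ≤ V) (h1 : C₁ * (5 * J) ≤ V)
    (hy2 : 2 * b * y ^ C₀ * (5 * w) ≤ 1) (hy3 : 2 * b * y ^ C₁ * 5 ≤ 1 / 5) (hP : 0 < P) (hPw : P < b ^ w)
    (hX : X < 2 ^ J)
    (wt : ℕ → ℝ) (hw0 : ∀ n, 0 ≤ wt n) (hwm : ∀ a c, wt (a * c) ≤ wt a * wt c)
    (A₀ : ℝ) (hA₀ : 0 ≤ A₀) (hwA : ∀ d, 1 < d → wt d ≤ A₀ * (4 / 3) ^ (Nat.log 2 d))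
    (E : Finset ℕ) (hE : ∀ f ∈ E, 0 < f ∧ f ≤ X ∧ IsCoprime (f : ℤ) ((b : ℤ) * U))
    (hcop : IsCoprime (P : ℤ) ((b : ℤ) * U)) :
    ∑ f ∈ E, wt f / f * GG b y U j V P f ≤
      (∑ t ∈ Icc 1 X, wt t / t) * (A₀ * (V * (12 * b * y ^ C₀ + 6 * (5 / 6) ^ w))) := by
  classical
  set 𝒟 : Finset ℕ := (Icc 2 X).filter (fun d => IsCoprime (d : ℤ) ((b : ℤ) * U)) with h𝒟
  have hbr : (2 : ℝ) ≤ b := by exact_mod_cast hb
  have hsum := sum_GG b y hy0.le U j V P X hP wt hw0 hwm E 𝒟 (fun f hf => ⟨(hE f hf).1, (hE f hf).2.1⟩)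
    (by
      intro f hf d hd hd1
      obtain ⟨h2, h3, h4⟩ := hE f hf
      rw [h𝒟, mem_filter, mem_Icc]
      refine ⟨⟨hd1, (Nat.le_of_dvd h2 hd).trans h3⟩, ?_⟩
      exact IsCoprime.of_isCoprime_of_dvd_left h4 (by exact_mod_cast hd))
    (by
      intro d hd
      rw [h𝒟, mem_filter, mem_Icc] at hd
      omega)
  refine hsum.trans ?_
  have hH0 : 0 ≤ ∑ t ∈ Icc 1 X, wt t / (t : ℝ) := sum_nonneg fun t _ => div_nonneg (hw0 _) (Nat.cast_nonneg _)
  apply mul_le_mul_of_nonneg_left _ hH0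
  set S : ℕ → ℝ := fun k => if k ≤ w then (V : ℝ) * (4 * b * y ^ C₀) else V * (5 / 4) ^ k with hS
  have hVr : (0 : ℝ) ≤ V := Nat.cast_nonneg _
  have hx0 : (0 : ℝ) < 2 * b * y ^ C₀ := by positivity
  have hx1 : (0 : ℝ) < 2 * b * y ^ C₁ := by positivity
  have hmain : ∀ k < J, ∑ d ∈ 𝒟.filter (fun d => Nat.log 2 d = k), Gs b y U j V P d ≤ S k := by
    intro k hk
    set W : ℕ := w + 2 * (k + 1) with hW
    have hM : P * (2 ^ (k + 1) * 2 ^ (k + 1)) ≤ b ^ W := by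
      have e1 : b ^ W = b ^ w * (b ^ (k + 1) * b ^ (k + 1)) := by rw [hW, pow_add]; ring
      rw [e1]
      have e2 : 2 ^ (k + 1) ≤ b ^ (k + 1) := Nat.pow_le_pow_left hb _
      exact Nat.mul_le_mul hPw.le (Nat.mul_le_mul e2 e2)
    have hmem : ∀ d ∈ 𝒟.filter (fun d => Nat.log 2 d = k),
        1 < d ∧ d < 2 ^ (k + 1) ∧ IsCoprime ((P * d : ℕ) : ℤ) ((b : ℤ) * U) := by
      intro d hd
      rw [mem_filter, h𝒟, mem_filter, mem_Icc] at hd
      obtain ⟨⟨⟨h2, h3⟩, h4⟩, h5⟩ := hd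
      refine ⟨h2, ?_, ?_⟩
      · rw [← h5]
        exact Nat.lt_pow_succ_log_self (by norm_num) d
      · push_cast
        exact IsCoprime.mul_left hcop h4
    simp only [hS]
    split_ifs with hkw
    · have hW5 : W ≤ 5 * w := by omega
      have hV : W * C₀ ≤ V := by
        calc W * C₀ ≤ (5 * w) * C₀ := Nat.mul_le_mul_right _ hW5
          _ = C₀ * (5 * w) := mul_comm _ _
          _ ≤ V := h0
      have h2 := S_bound b (by omega) y hy0.le hy1 U j V P W C₀ (2 ^ (k + 1)) hC₀ hV hP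
        (𝒟.filter (fun d => Nat.log 2 d = k)) hM hmem
      have h3 := pow_sub_one_le (2 * b * y ^ C₀) hx0.le W (5 * w) (by exact_mod_cast hW5) hy2
      have hC0r : (0 : ℝ) ≤ C₀ := Nat.cast_nonneg _
      have h4 : (C₀ : ℝ) * (5 * w) ≤ V := by exact_mod_cast h0
      calc _ ≤ _ := h2
        _ ≤ (C₀ : ℝ) * (2 * (2 * b * y ^ C₀ * (5 * w))) := mul_le_mul_of_nonneg_left h3 hC0r
        _ = (C₀ * (5 * w)) * (4 * b * y ^ C₀) := by ring
        _ ≤ V * (4 * b * y ^ C₀) := mul_le_mul_of_nonneg_right h4 (by positivity)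
    · have hW5 : W ≤ 5 * k := by omega
      have hV : W * C₁ ≤ V := by
        calc W * C₁ ≤ (5 * J) * C₁ := Nat.mul_le_mul_right _ (by omega)
          _ = C₁ * (5 * J) := mul_comm _ _
          _ ≤ V := h1
      have h2 := S_bound b (by omega) y hy0.le hy1 U j V P W C₁ (2 ^ (k + 1)) hC₁ hV hP
        (𝒟.filter (fun d => Nat.log 2 d = k)) hM hmem
      have h3 : (1 + 2 * b * y ^ C₁) ^ W ≤ (5 / 4) ^ k := by
        have e1 : (1 : ℝ) ≤ 1 + 2 * b * y ^ C₁ := by linarith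
        calc (1 + 2 * b * y ^ C₁) ^ W ≤ (1 + 2 * b * y ^ C₁) ^ (5 * k) := pow_le_pow_right₀ e1 hW5
          _ = ((1 + 2 * b * y ^ C₁) ^ 5) ^ k := by rw [← pow_mul]
          _ ≤ (5 / 4) ^ k := by
              apply pow_le_pow_left₀ (by positivity)
              calc (1 + 2 * b * y ^ C₁) ^ 5 ≤ (Real.exp (2 * b * y ^ C₁)) ^ 5 := by
                    apply pow_le_pow_left₀ (by positivity)
                    have := Real.add_one_le_exp (2 * (b : ℝ) * y ^ C₁)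
                    linarith
                _ = Real.exp (2 * b * y ^ C₁ * 5) := by
                    rw [← Real.exp_nat_mul]
                    congr 1
                    push_cast
                    ring
                _ ≤ Real.exp (1 / 5) := Real.exp_le_exp.2 hy3
                _ ≤ 5 / 4 := exp_fifth
      have hC1V : (C₁ : ℝ) ≤ V := by
        have : C₁ ≤ V := by
          have hJ : 1 ≤ 5 * J := by omega
          calc C₁ = C₁ * 1 := (mul_one _).symm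
            _ ≤ C₁ * (5 * J) := Nat.mul_le_mul_left _ hJ
            _ ≤ V := h1
        exact_mod_cast this
      calc _ ≤ _ := h2
        _ ≤ (C₁ : ℝ) * (5 / 4) ^ k := by
            apply mul_le_mul_of_nonneg_left _ (Nat.cast_nonneg _)
            linarith
        _ ≤ V * (5 / 4) ^ k := mul_le_mul_of_nonneg_right hC1V (by positivity)
  have hdy := dyadic b y hy0.le U j V P J wt A₀ hA₀ hwA 𝒟 (by
    intro d hd
    rw [h𝒟, mem_filter, mem_Icc] at hd
    exact ⟨by omega, by omega⟩) S hmain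
  refine hdy.trans ?_
  apply mul_le_mul_of_nonneg_left _ hA₀
  have h5 : ∀ k ∈ range J, ((2 : ℝ) / 3) ^ k * S k ≤
      (2 / 3) ^ k * (V * (4 * b * y ^ C₀)) + (if w < k then (V : ℝ) * (5 / 6) ^ k else 0) := by
    intro k _
    simp only [hS]
    by_cases hkw : k ≤ w
    · rw [if_pos hkw, if_neg (by omega), add_zero]
    · rw [if_neg hkw, if_pos (by omega)]
      have e1 : ((2 : ℝ) / 3) ^ k * (V * (5 / 4) ^ k) = V * (5 / 6) ^ k := by
        rw [mul_left_comm, ← mul_pow]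
        norm_num
      rw [e1]
      have : (0 : ℝ) ≤ (2 / 3) ^ k * (V * (4 * b * y ^ C₀)) := by positivity
      linarith
  calc ∑ k ∈ range J, ((2 : ℝ) / 3) ^ k * S k
      ≤ ∑ k ∈ range J, ((2 / 3) ^ k * (V * (4 * b * y ^ C₀)) + (if w < k then (V : ℝ) * (5 / 6) ^ k else 0)) :=
        sum_le_sum h5
    _ = (∑ k ∈ range J, ((2 : ℝ) / 3) ^ k) * (V * (4 * b * y ^ C₀)) +
        V * ∑ k ∈ (range J).filter (fun k => w < k), ((5 : ℝ) / 6) ^ k := by
        rw [sum_add_distrib, sum_mul, ← sum_filter, mul_sum]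
    _ ≤ 3 * (V * (4 * b * y ^ C₀)) + V * (6 * (5 / 6) ^ w) := by
        gcongr
        · exact geo1 J
        · exact geo2 w J
    _ = _ := by ring

end Pool.Agent.Run7.h620.PD
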