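import Pool.Agent.TH423.SH.FLLP
import Pool.Agent.Run7.h620.PD.Count
import Pool.Agent.Run7.h620.PD.Tot

set_option autoImplicit false

/-! The sieve for palindromes with two digits in a residue class. -/

namespace Pool.Agent.Run7.h620.PD

open Finset

open Classical in
/-- the fundamental lemma for a family of natural numbers -/
theorem fund : ∃ C : ℕ, 1 ≤ C ∧ ∀ (κ b J z0 : ℕ) (P : Finset ℕ) (g : ℕ → ℝ),
  C * (κ + 1) ≤ b → C * (κ + 1) ≤ z0 → (∀ p ∈ P, p.Prime ∧ z0 < p ∧ p ≤ 2 ^ 2 ^ J) →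
  (∀ p ∈ P, 0 ≤ g p ∧ g p ≤ κ / ((p : ℝ) - 1)) →
  ∀ (α : Type) (𝒜 : Finset α) (u : α → ℕ) (hit : ℕ → ℕ → Prop) (A : ℝ) (err : Finset ℕ → ℝ),
    0 ≤ A →
    (∀ T ⊆ P, ∏ p ∈ T, p ≤ (2 ^ 2 ^ J) ^ (C * b) →
      |((𝒜.filter (fun a => ∀ p ∈ T, hit p (u a))).card : ℝ) - A * ∏ p ∈ T, g p| ≤ err T) →
    |((𝒜.filter (fun a => ∀ p ∈ P, ¬ hit p (u a))).card : ℝ) - A * ∏ p ∈ P, (1 - g p)| ≤
      (1 / 2 : ℝ) ^ b * (A * ∏ p ∈ P, (1 - g p)) +
        ((J : ℝ) + 2) *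
          ∑ T ∈ P.powerset.filter (fun T : Finset ℕ => ∏ p ∈ T, p ≤ (2 ^ 2 ^ J) ^ (C * b)),
            err T := by
  obtain ⟨C, hC, h⟩ := Pool.Agent.TH423.SH.fLemC
  refine ⟨C, hC, ?_⟩
  intro κ b J z0 P g hb hz hP hg α 𝒜 u hit A err hA hT
  set w : ℕ → ℝ := fun m => ((𝒜.filter (fun a => u a = m)).card : ℝ) with hw
  have key : ∀ (Q : ℕ → Prop) [DecidablePred Q] [DecidablePred fun a => Q (u a)],
      ∑ m ∈ (𝒜.image u).filter Q, w m = ((𝒜.filter (fun a => Q (u a))).card : ℝ) := by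
    intro Q _ _
    have h1 := card_eq_sum_card_fiberwise (f := u) (s := 𝒜.filter (fun a => Q (u a)))
      (t := (𝒜.image u).filter Q) (by
        intro a ha
        have ha' := mem_filter.1 (mem_coe.1 ha)
        exact mem_coe.2 (mem_filter.2 ⟨mem_image_of_mem u ha'.1, ha'.2⟩))
    rw [h1, Nat.cast_sum]
    refine sum_congr rfl fun m hm => ?_
    rw [mem_filter] at hm
    simp only [hw]
    congr 2
    ext a
    rw [mem_filter, mem_filter, mem_filter]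
    constructor
    · rintro ⟨h2, h3⟩
      exact ⟨⟨h2, by rw [h3]; exact hm.2⟩, h3⟩
    · rintro ⟨⟨h2, _⟩, h3⟩
      exact ⟨h2, h3⟩
  have h2 := h κ b J z0 P g hb hz hP hg (𝒜.image u) w hit A err (fun m _ => Nat.cast_nonneg _) hA (by
    intro T hTP hTl
    have h3 := hT T hTP hTl
    rw [key (fun m => ∀ p ∈ T, hit p m)]
    exact h3)
  rw [key (fun m => ∀ p ∈ P, ¬ hit p m)] at h2
  exact h2

/-- Chinese remainders -/
lemma crt_int (m f : ℕ) (h : IsCoprime (m : ℤ) (f : ℤ)) (a c : ℤ) :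
    ∃ s : ℤ, ∀ x : ℤ, ((m : ℤ) ∣ x - a ∧ (f : ℤ) ∣ x - c) ↔ ((m * f : ℕ) : ℤ) ∣ x - s := by
  obtain ⟨u, w, huw⟩ := h
  refine ⟨a * (w * f) + c * (u * m), fun x => ?_⟩
  constructor
  · rintro ⟨⟨k, hk⟩, ⟨l, hl⟩⟩
    push_cast
    refine IsCoprime.mul_dvd ⟨u, w, huw⟩ ?_ ?_
    · refine ⟨k + (a - c) * u, ?_⟩
      linear_combination hk + (-a) * huw
    · refine ⟨l + (c - a) * w, ?_⟩
      linear_combination hl + (-c) * huw
  · intro hx
    push_cast at hx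
    obtain ⟨t, ht⟩ := hx
    constructor
    · refine ⟨f * t - (a - c) * u, ?_⟩
      linear_combination ht + a * huw
    · refine ⟨m * t - (c - a) * w, ?_⟩
      linear_combination ht + c * huw

lemma prod_dvd_iff (T : Finset ℕ) (hT : ∀ p ∈ T, p.Prime) (x : ℤ) :
    (∀ p ∈ T, (p : ℤ) ∣ x) ↔ ((∏ p ∈ T, p : ℕ) : ℤ) ∣ x := by
  constructor
  · intro h
    rw [Nat.cast_prod]
    refine Finset.prod_dvd_of_coprime ?_ h
    intro p hp q hq hpq
    exact Nat.isCoprime_iff_coprime.2 ((Nat.coprime_primes (hT p hp) (hT q hq)).2 hpq)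
  · intro h p hp
    refine dvd_trans ?_ h
    exact Int.natCast_dvd_natCast.2 (Finset.dvd_prod_of_mem _ hp)

open Classical in
/-- the upper bound sieve in a residue class -/
theorem sieve_up : ∃ C : ℕ, 1 ≤ C ∧ ∀ (b K H R P J z0 : ℕ) (n₀ D : ℤ) (PP : Finset ℕ),
    2 ≤ b → 1 ≤ R → 1 ≤ H → H + 1 ≤ K → 0 < P → 2 * C ≤ z0 →
    (∀ p ∈ PP, p.Prime ∧ z0 < p ∧ p ≤ 2 ^ 2 ^ J) → (∀ p ∈ PP, ¬ p ∣ R * P) →
    (∀ S ∈ (Icc 1 H).powerset, 0 ≤ vv b K n₀ D S) → ∀ s₀ τ : ℤ,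
    ((((Icc 1 H).powerset.filter (fun S => ((R * P : ℕ) : ℤ) ∣ vv b K n₀ D S - s₀)).filter
      (fun S => ∀ p ∈ PP, ¬ (p : ℤ) ∣ vv b K n₀ D S + τ)).card : ℝ) ≤
      2 * (cnt (Icc 1 H).powerset (vv b K n₀ D) (R * P) s₀ * ∏ p ∈ PP, (1 - 1 / (p : ℝ))) +
      ((J : ℝ) + 2) * (2 ^ H / P * ∑ f ∈ (PP.powerset.image (fun T => ∏ p ∈ T, p)).filter
        (fun f => f ≤ (2 ^ 2 ^ J) ^ (C * (2 * C))),
        (1 : ℝ) / f * GG b (yy b R) (((b : ℤ) ^ 2 - 1) * D) (K - 1 - H) (H - 1) P f) := by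
  obtain ⟨C, hC, hfund⟩ := fund
  refine ⟨C, hC, ?_⟩
  intro b K H R P J z0 n₀ D PP hb hR hH hK hP hz0 hPP hPPR hpos s₀ τ
  have hPr : (0 : ℝ) < P := by exact_mod_cast hP
  set 𝒜 : Finset (Finset ℕ) := (Icc 1 H).powerset.filter (fun S => ((R * P : ℕ) : ℤ) ∣ vv b K n₀ D S - s₀) with h𝒜
  set A : ℝ := cnt (Icc 1 H).powerset (vv b K n₀ D) (R * P) s₀ with hA
  set G : ℕ → ℝ := fun f => GG b (yy b R) (((b : ℤ) ^ 2 - 1) * D) (K - 1 - H) (H - 1) P f with hG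
  set err : Finset ℕ → ℝ := fun T => 2 ^ H / P * (1 / ((∏ p ∈ T, p : ℕ) : ℝ) * G (∏ p ∈ T, p)) with herr
  have hA0 : 0 ≤ A := cnt_nonneg _ _ _ _
  have hmain := hfund 1 (2 * C) J z0 PP (fun p => 1 / (p : ℝ)) (by omega) (by omega) hPP (by
    intro p hp
    have h2 := (hPP p hp).1.two_le
    have h3 : (2 : ℝ) ≤ p := by exact_mod_cast h2
    refine ⟨by positivity, ?_⟩
    rw [Nat.cast_one]
    apply one_div_le_one_div_of_le <;> linarith) (Finset ℕ) 𝒜 (fun S => (vv b K n₀ D S).toNat)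
    (fun p m => (p : ℤ) ∣ (m : ℤ) + τ) A err hA0 (by
      intro T hT _
      have hTp : ∀ p ∈ T, p.Prime := fun p hp => (hPP p (hT hp)).1
      set f : ℕ := ∏ p ∈ T, p with hf
      have hf0 : 0 < f := prod_pos fun p hp => (hTp p hp).pos
      have hcop : IsCoprime ((R * P : ℕ) : ℤ) (f : ℤ) := by
        rw [Nat.isCoprime_iff_coprime, hf]
        apply Nat.Coprime.prod_right
        intro p hp
        exact ((Nat.Prime.coprime_iff_not_dvd (hTp p hp)).2 (hPPR p (hT hp))).symm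
      obtain ⟨s, hs⟩ := crt_int (R * P) f hcop s₀ (-τ)
      have h1 : 𝒜.filter (fun S => ∀ p ∈ T, (p : ℤ) ∣ (((vv b K n₀ D S).toNat : ℕ) : ℤ) + τ) =
          (Icc 1 H).powerset.filter (fun S => ((R * P * f : ℕ) : ℤ) ∣ vv b K n₀ D S - s) := by
        ext S
        rw [mem_filter, h𝒜, mem_filter, mem_filter]
        constructor
        · rintro ⟨⟨h2, h3⟩, h4⟩
          refine ⟨h2, (hs _).1 ⟨h3, ?_⟩⟩
          rw [Int.toNat_of_nonneg (hpos S h2)] at h4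
          rw [sub_neg_eq_add, hf]
          exact (prod_dvd_iff T hTp _).1 h4
        · rintro ⟨h2, h3⟩
          obtain ⟨h4, h5⟩ := (hs _).2 h3
          refine ⟨⟨h2, h4⟩, ?_⟩
          rw [Int.toNat_of_nonneg (hpos S h2)]
          rw [sub_neg_eq_add, hf] at h5
          exact (prod_dvd_iff T hTp _).2 h5
      have h2 : cnt (Icc 1 H).powerset (vv b K n₀ D) (R * P) s = A := by
        have h3 : ((R * P : ℕ) : ℤ) ∣ s - s₀ := by
          have h4 := ((hs s).2 (by simp)).1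
          exact h4
        rw [hA]
        unfold cnt
        congr 2
        apply filter_congr
        intro S _
        constructor
        · intro h5
          have : vv b K n₀ D S - s₀ = (vv b K n₀ D S - s) + (s - s₀) := by ring
          rw [this]
          exact dvd_add h5 h3
        · intro h5
          have : vv b K n₀ D S - s = (vv b K n₀ D S - s₀) - (s - s₀) := by ring
          rw [this]
          exact dvd_sub h5 h3
      have h3 := cnt_pal b K H R P f n₀ D s (by omega) hR hH hK hP hf0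
      rw [h2] at h3
      have h4 : A * ∏ p ∈ T, (1 / (p : ℝ)) = A / f := by
        rw [hf, Nat.cast_prod, prod_div_distrib, prod_const_one, mul_one_div]
      have h5 : ((𝒜.filter (fun S => ∀ p ∈ T, (p : ℤ) ∣ (((vv b K n₀ D S).toNat : ℕ) : ℤ) + τ)).card : ℝ) =
          cnt (Icc 1 H).powerset (vv b K n₀ D) (R * P * f) s := by
        rw [h1]
        rfl
      have h6 : err T = 2 ^ H / ((P * f : ℕ) : ℝ) * G f := by
        simp only [herr]
        rw [← hf]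
        have : (f : ℝ) ≠ 0 := by exact_mod_cast hf0.ne'
        push_cast
        field_simp
      rw [h4, h6]
      have h7 := h3
      rw [← h5] at h7
      convert h7)
  have h8 := (abs_le.1 hmain).2
  have hprod0 : 0 ≤ ∏ p ∈ PP, (1 - 1 / (p : ℝ)) := by
    apply prod_nonneg
    intro p hp
    have h2 : (2 : ℝ) ≤ p := by exact_mod_cast (hPP p hp).1.two_le
    have : 1 / (p : ℝ) ≤ 1 := by rw [div_le_one (by linarith)]; linarith
    linarith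
  have h9 : (1 / 2 : ℝ) ^ (2 * C) ≤ 1 := pow_le_one₀ (by norm_num) (by norm_num)
  have h10 : ∑ T ∈ PP.powerset.filter (fun T : Finset ℕ => ∏ p ∈ T, p ≤ (2 ^ 2 ^ J) ^ (C * (2 * C))), err T =
      2 ^ H / P * ∑ f ∈ (PP.powerset.image (fun T => ∏ p ∈ T, p)).filter
        (fun f => f ≤ (2 ^ 2 ^ J) ^ (C * (2 * C))), (1 : ℝ) / f * G f := by
    have hinj : ∀ T ∈ PP.powerset, ∀ T' ∈ PP.powerset, ∏ p ∈ T, p = ∏ p ∈ T', p → T = T' := by
      intro T hT T' hT' h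
      rw [mem_powerset] at hT hT'
      rw [← Nat.primeFactors_prod (fun p hp => (hPP p (hT hp)).1),
        ← Nat.primeFactors_prod (fun p hp => (hPP p (hT' hp)).1), h]
    rw [mul_sum, filter_image, sum_image]
    · intro T hT T' hT' h
      rw [coe_filter] at hT hT'
      exact hinj T hT.1 T' hT'.1 h
  rw [h10] at h8
  have h11 : ((𝒜.filter (fun S => ∀ p ∈ PP, ¬ (p : ℤ) ∣ vv b K n₀ D S + τ)).card : ℝ) =
      ((𝒜.filter (fun S => ∀ p ∈ PP, ¬ (p : ℤ) ∣ (((vv b K n₀ D S).toNat : ℕ) : ℤ) + τ)).card : ℝ) := by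
    congr 2
    apply filter_congr
    intro S hS
    rw [h𝒜, mem_filter] at hS
    rw [Int.toNat_of_nonneg (hpos S hS.1)]
  have h12 : 0 ≤ A * ∏ p ∈ PP, (1 - 1 / (p : ℝ)) := mul_nonneg hA0 hprod0
  have h13 : ((𝒜.filter (fun S => ∀ p ∈ PP, ¬ (p : ℤ) ∣ vv b K n₀ D S + τ)).card : ℝ) ≤
      2 * (A * ∏ p ∈ PP, (1 - 1 / (p : ℝ))) + ((J : ℝ) + 2) * (2 ^ H / P * ∑ f ∈ (PP.powerset.image (fun T => ∏ p ∈ T, p)).filter
        (fun f => f ≤ (2 ^ 2 ^ J) ^ (C * (2 * C))), (1 : ℝ) / f * G f) := by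
    rw [h11]
    have h14 : (1 / 2 : ℝ) ^ (2 * C) * (A * ∏ p ∈ PP, (1 - 1 / (p : ℝ))) ≤ 1 * (A * ∏ p ∈ PP, (1 - 1 / (p : ℝ))) :=
      mul_le_mul_of_nonneg_right h9 h12
    have h15 : ((𝒜.filter (fun S => ∀ p ∈ PP, ¬ (p : ℤ) ∣ (((vv b K n₀ D S).toNat : ℕ) : ℤ) + τ)).card : ℝ) ≤
      (1 / 2 : ℝ) ^ (2 * C) * (A * ∏ p ∈ PP, (1 - 1 / (p : ℝ))) + ((J : ℝ) + 2) * (2 ^ H / P * ∑ f ∈ (PP.powerset.image (fun T => ∏ p ∈ T, p)).filter
        (fun f => f ≤ (2 ^ 2 ^ J) ^ (C * (2 * C))), (1 : ℝ) / f * G f) + A * ∏ p ∈ PP, (1 - 1 / (p : ℝ)) := by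
      have h16 := h8
      rw [sub_le_iff_le_add] at h16
      refine le_trans (le_of_eq ?_) h16
      congr!
    linarith
  refine le_trans (le_of_eq ?_) h13
  congr!

end Pool.Agent.Run7.h620.PD
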