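import Pool.Agent.Run7.h620.PD.Pal2

set_option autoImplicit false

/-! Systems of polynomials at palindromes with two digits: almost primes from below, primes from above. -/

namespace Pool.Agent.Run7.h620.PD

open Finset Polynomial Filter
open Pool.Agent.H474R2.PG (rho Sg PR)

lemma MertF_X : MertF X 1 := MertF_irr X irreducible_X (by rw [natDegree_X]; norm_num)

/-- `k` roots modulo almost all primes -/
lemma MertF_of_card (F : ℤ[X]) (k : ℕ) (d : ℕ) (hd : d ≠ 0)
    (h : ∀ p : ℕ, p.Prime → ¬ p ∣ d → (Zr F p).card = k) : MertF F k := by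
  obtain ⟨C, hC, hX⟩ := MertF_X
  refine ⟨k * C + (k + 1) * d, by positivity, fun w hw => ?_⟩
  have h1 := hX w hw
  have hX1 : Sg (rho X) w = ∑ p ∈ PR w, (1 : ℝ) / p := by
    unfold Sg
    refine sum_congr rfl fun p hp => ?_
    have hp1 : p.Prime := (mem_filter.1 hp).2
    have h2 : Zr X p = {0} := by
      ext a
      unfold Zr
      rw [mem_filter, mem_range, mem_singleton, eval_X]
      constructor
      · rintro ⟨h3, h4⟩
        have h5 : p ∣ a := by exact_mod_cast h4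
        exact Nat.eq_zero_of_dvd_of_lt h5 h3
      · rintro rfl
        exact ⟨hp1.pos, by simp⟩
    rw [rho_eq, h2, card_singleton, Nat.cast_one]
  have h3 : |Sg (rho F) w - k * Sg (rho X) w| ≤ (k + 1) * d := by
    rw [hX1]
    unfold Sg
    rw [mul_sum, ← sum_sub_distrib]
    refine (abs_sum_le_sum_abs _ _).trans ?_
    have h4 : ∀ p ∈ PR w, |(rho F p : ℝ) / p - k * (1 / (p : ℝ))| ≤
        if p ∣ d then ((k : ℝ) + 1) else 0 := by
      intro p hp
      have hp1 : p.Prime := (mem_filter.1 hp).2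
      have hp0 : (0 : ℝ) < p := by exact_mod_cast hp1.pos
      split_ifs with hpd
      · have g1 : (rho F p : ℝ) / p ≤ 1 := by
          rw [div_le_one hp0, rho_eq]
          exact_mod_cast Zr_card_le F p
        have g2 : (1 : ℝ) / p ≤ 1 := by
          rw [div_le_one hp0]
          exact_mod_cast hp1.one_lt.le
        have g3 : (0 : ℝ) ≤ 1 / p := by positivity
        have g4 : (0 : ℝ) ≤ (rho F p : ℝ) / p := by positivity
        have g5 : (k : ℝ) * (1 / p) ≤ k := by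
          calc (k : ℝ) * (1 / p) ≤ k * 1 := by gcongr
            _ = k := mul_one _
        have g6 : (0 : ℝ) ≤ (k : ℝ) * (1 / p) := by positivity
        rw [abs_le]
        constructor <;> linarith
      · rw [rho_eq, h p hp1 hpd, mul_one_div, sub_self, abs_zero]
    refine (sum_le_sum h4).trans ?_
    rw [← sum_filter, sum_const, nsmul_eq_mul]
    have h8 : (PR w).filter (fun p => p ∣ d) ⊆ Icc 1 d := by
      intro p hp
      rw [mem_filter] at hp
      have hp1 : p.Prime := (mem_filter.1 hp.1).2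
      rw [mem_Icc]
      exact ⟨hp1.one_lt.le, Nat.le_of_dvd (Nat.pos_of_ne_zero hd) hp.2⟩
    have h9 := card_le_card h8
    rw [Nat.card_Icc, Nat.add_sub_cancel] at h9
    have h10 : ((((PR w).filter (fun p => p ∣ d)).card : ℕ) : ℝ) ≤ d := by exact_mod_cast h9
    calc ((((PR w).filter (fun p => p ∣ d)).card : ℕ) : ℝ) * ((k : ℝ) + 1) ≤ d * (k + 1) := by gcongr
      _ = _ := mul_comm _ _
  have h6 : Sg (rho F) w - (k : ℝ) * Real.log (Real.log w) =
      (Sg (rho F) w - k * Sg (rho X) w) + k * (Sg (rho X) w - Real.log (Real.log w)) := by ring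
  rw [h6]
  refine (abs_add_le _ _).trans ?_
  rw [abs_mul, abs_of_nonneg (Nat.cast_nonneg k : (0 : ℝ) ≤ (k : ℝ))]
  rw [Nat.cast_one, one_mul] at h1
  have h7 : (k : ℝ) * |Sg (rho X) w - Real.log (Real.log w)| ≤ k * C := by gcongr
  linarith

/-- linear forms, pairwise not proportional -/
lemma MertF_lin (k : ℕ) (a c : ℕ → ℤ) (ha : ∀ i < k, a i ≠ 0)
    (hac : ∀ i < k, ∀ j < k, i ≠ j → a i * c j ≠ a j * c i) :
    MertF (∏ i ∈ range k, (C (a i) * X + C (c i))) k := by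
  set d : ℕ := (∏ i ∈ range k, (a i).natAbs) *
    ∏ i ∈ range k, ∏ j ∈ (range k).filter (fun j => i ≠ j), (a i * c j - a j * c i).natAbs with hd
  have hd0 : d ≠ 0 := by
    rw [hd]
    apply mul_ne_zero
    · rw [Finset.prod_ne_zero_iff]
      intro i hi
      exact Int.natAbs_ne_zero.2 (ha i (mem_range.1 hi))
    · rw [Finset.prod_ne_zero_iff]
      intro i hi
      rw [Finset.prod_ne_zero_iff]
      intro j hj
      rw [mem_filter] at hj
      exact Int.natAbs_ne_zero.2 (sub_ne_zero.2 (hac i (mem_range.1 hi) j (mem_range.1 hj.1) hj.2))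
  refine MertF_of_card _ k d hd0 fun p hp hpd => ?_
  have hpa : ∀ i < k, ¬ (p : ℤ) ∣ a i := by
    intro i hi hdvd
    apply hpd
    rw [hd]
    apply Dvd.dvd.mul_right
    exact (Int.natCast_dvd.1 hdvd).trans (Finset.dvd_prod_of_mem (fun i => (a i).natAbs) (mem_range.2 hi))
  have hpac : ∀ i < k, ∀ j < k, i ≠ j → ¬ (p : ℤ) ∣ a i * c j - a j * c i := by
    intro i hi j hj hij hdvd
    apply hpd
    rw [hd]
    apply Dvd.dvd.mul_left
    refine (Int.natCast_dvd.1 hdvd).trans ?_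
    refine dvd_trans ?_ (Finset.dvd_prod_of_mem (fun i => ∏ j ∈ (range k).filter (fun j => i ≠ j),
      (a i * c j - a j * c i).natAbs) (mem_range.2 hi))
    exact Finset.dvd_prod_of_mem (fun j => (a i * c j - a j * c i).natAbs)
      (mem_filter.2 ⟨mem_range.2 hj, hij⟩)
  have hpp := Nat.prime_iff_prime_int.1 hp
  have hroot : ∀ i : ℕ, ∃ z : ℕ, i < k → (z < p ∧ (p : ℤ) ∣ a i * z + c i) := by
    intro i
    by_cases hi : i < k
    · have h1 : IsCoprime (a i) (p : ℤ) := by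
        rw [isCoprime_comm]
        exact (Prime.coprime_iff_not_dvd hpp).2 (hpa i hi)
      obtain ⟨u, v, huv⟩ := h1
      refine ⟨((-(u * c i)) % p).toNat, fun _ => ?_⟩
      have h2 := Int.emod_nonneg (-(u * c i)) (b := (p : ℤ)) (by have := hp.pos; omega)
      have h3 := Int.emod_lt_of_pos (-(u * c i)) (b := (p : ℤ)) (by have := hp.pos; omega)
      refine ⟨by omega, ?_⟩
      rw [Int.toNat_of_nonneg h2]
      have h4 : (p : ℤ) ∣ -(u * c i) - (-(u * c i)) % p := Int.dvd_self_sub_emod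
      have h5 : a i * ((-(u * c i)) % p) + c i = c i * (v * p) - a i * (-(u * c i) - (-(u * c i)) % p) := by
        linear_combination (-(c i)) * huv
      rw [h5]
      exact dvd_sub (dvd_mul_of_dvd_right (dvd_mul_left _ _) _) (dvd_mul_of_dvd_right h4 _)
    · exact ⟨0, fun h => absurd h hi⟩
  choose z hz using hroot
  have hZ : Zr (∏ i ∈ range k, (C (a i) * X + C (c i))) p = (range k).image z := by
    ext x
    unfold Zr
    rw [mem_filter, mem_range, mem_image, eval_prod, Prime.dvd_finsetProd_iff hpp]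
    constructor
    · rintro ⟨h1, i, hi, h2⟩
      refine ⟨i, hi, ?_⟩
      rw [eval_add, eval_mul, eval_C, eval_X, eval_C] at h2
      obtain ⟨h3, h4⟩ := hz i (mem_range.1 hi)
      have h5 : (p : ℤ) ∣ a i * ((z i : ℤ) - x) := by
        have := dvd_sub h4 h2
        have h6 : a i * (z i : ℤ) + c i - (a i * x + c i) = a i * ((z i : ℤ) - x) := by ring
        rwa [h6] at this
      have h6 : (p : ℤ) ∣ (z i : ℤ) - x := (hpp.dvd_or_dvd h5).resolve_left (hpa i (mem_range.1 hi))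
      have h7 : x ≡ z i [MOD p] := (Nat.modEq_iff_dvd).2 h6
      exact (Nat.ModEq.eq_of_lt_of_lt h7 h1 h3).symm
    · rintro ⟨i, hi, rfl⟩
      obtain ⟨h3, h4⟩ := hz i (mem_range.1 hi)
      refine ⟨h3, i, hi, ?_⟩
      rw [eval_add, eval_mul, eval_C, eval_X, eval_C]
      exact h4
  rw [hZ, card_image_of_injOn, card_range]
  intro i hi j hj hij
  by_contra hne
  have hi' := mem_range.1 (mem_coe.1 hi)
  have hj' := mem_range.1 (mem_coe.1 hj)
  apply hpac i hi' j hj' hne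
  have h1 := (hz i hi').2
  have h2 := (hz j hj').2
  rw [← hij] at h2
  have h3 : a i * c j - a j * c i = a i * (a j * (z i : ℤ) + c j) - a j * (a i * (z i : ℤ) + c i) := by ring
  rw [h3]
  exact dvd_sub (dvd_mul_of_dvd_right h2 _) (dvd_mul_of_dvd_right h1 _)

lemma eval_large (F : ℤ[X]) (hF : 1 ≤ F.natDegree) : ∃ S : ℕ, ∀ n : ℕ, S ≤ n → (n : ℤ) - S ≤ |F.eval (n : ℤ)| := by
  obtain ⟨d, hd⟩ : ∃ d, F.natDegree = d + 1 := ⟨F.natDegree - 1, by omega⟩
  have hF0 : F ≠ 0 := by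
    rintro rfl
    rw [natDegree_zero] at hF
    omega
  have hlc : F.coeff (d + 1) ≠ 0 := by
    rw [← hd]
    exact leadingCoeff_ne_zero.2 hF0
  refine ⟨(∑ j ∈ range (d + 1), |F.coeff j|).natAbs + 1, fun n hn => ?_⟩
  set S : ℤ := ∑ j ∈ range (d + 1), |F.coeff j| with hS
  have hS0 : 0 ≤ S := sum_nonneg fun _ _ => abs_nonneg _
  have hSn : (S.natAbs : ℤ) = S := Int.natAbs_of_nonneg hS0
  have hn1 : (1 : ℤ) ≤ n := by omega
  have hSn' : S + 1 ≤ n := by omega
  rw [eval_eq_sum_range, hd, sum_range_succ]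
  have h1 : |∑ j ∈ range (d + 1), F.coeff j * (n : ℤ) ^ j| ≤ S * (n : ℤ) ^ d := by
    rw [hS, sum_mul]
    refine (abs_sum_le_sum_abs _ _).trans (sum_le_sum fun j hj => ?_)
    rw [abs_mul, abs_pow, abs_of_nonneg (by omega : (0 : ℤ) ≤ n)]
    apply mul_le_mul_of_nonneg_left _ (abs_nonneg _)
    exact pow_le_pow_right₀ hn1 (by rw [mem_range] at hj; omega)
  have h2 : (n : ℤ) ^ (d + 1) ≤ |F.coeff (d + 1) * (n : ℤ) ^ (d + 1)| := by
    rw [abs_mul, abs_pow, abs_of_nonneg (by omega : (0 : ℤ) ≤ n)]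
    have h3 : (1 : ℤ) ≤ |F.coeff (d + 1)| := Int.one_le_abs hlc
    have h4 : (0 : ℤ) ≤ (n : ℤ) ^ (d + 1) := by positivity
    nlinarith
  have h3 : |F.coeff (d + 1) * (n : ℤ) ^ (d + 1)| - |∑ j ∈ range (d + 1), F.coeff j * (n : ℤ) ^ j| ≤
      |∑ j ∈ range (d + 1), F.coeff j * (n : ℤ) ^ j + F.coeff (d + 1) * (n : ℤ) ^ (d + 1)| := by
    have := abs_sub_abs_le_abs_sub (F.coeff (d + 1) * (n : ℤ) ^ (d + 1)) (-∑ j ∈ range (d + 1), F.coeff j * (n : ℤ) ^ j)
    rw [abs_neg, sub_neg_eq_add, add_comm (F.coeff (d + 1) * (n : ℤ) ^ (d + 1))] at this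
    exact this
  have h4 : (n : ℤ) - S ≤ (n : ℤ) ^ (d + 1) - S * (n : ℤ) ^ d := by
    have h5 : (1 : ℤ) ≤ (n : ℤ) ^ d := one_le_pow₀ hn1
    have h6 : (n : ℤ) ^ (d + 1) - S * (n : ℤ) ^ d = (n : ℤ) ^ d * (n - S) := by ring
    rw [h6]
    nlinarith
  have h5 : (((S.natAbs + 1 : ℕ)) : ℤ) = S + 1 := by omega
  rw [h5]
  linarith

open Classical in
/-- systems of polynomials at palindromes with two digits -/
theorem two_sided (b : ℕ) (hb : 2 ≤ b) (e f : ℕ) (he : e < b) (hf : f < b) (he0 : e ≠ 0) (hef : f ≠ e)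
    (m : ℕ) (Fs : ℕ → ℤ[X]) (hFs : ∀ i < m, 1 ≤ (Fs i).natDegree) (hm : 1 ≤ m) (k : ℕ)
    (hk : k ≤ (∏ i ∈ range m, Fs i).natDegree) (hM : MertF (∏ i ∈ range m, Fs i) k) :
    (∃ c : ℝ, 0 < c ∧ ∃ r : ℕ, ∀ᶠ K : ℕ in atTop, c * (2 : ℝ) ^ ((K : ℝ) / 2) / (K : ℝ) ^ k ≤
      (((Finset.range (b ^ K)).filter (fun n : ℕ => IsPal b e f K n ∧
        ∀ i < m, (Fs i).eval (n : ℤ) ≠ 0 ∧ ArithmeticFunction.cardFactors ((Fs i).eval (n : ℤ)).natAbs ≤ r)).card : ℝ)) ∧
    (∃ C : ℝ, 0 < C ∧ ∀ᶠ K : ℕ in atTop,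
      (((Finset.range (b ^ K)).filter (fun n : ℕ => IsPal b e f K n ∧
        ∀ i < m, ((Fs i).eval (n : ℤ)).natAbs.Prime)).card : ℝ) ≤ C * (2 : ℝ) ^ ((K : ℝ) / 2) / (K : ℝ) ^ k) := by
  have hFs0 : ∀ i ∈ range m, Fs i ≠ 0 := by
    rintro i hi h0
    have := hFs i (mem_range.1 hi)
    rw [h0, natDegree_zero] at this
    omega
  have hdeg : 1 ≤ (∏ i ∈ range m, Fs i).natDegree := by
    rw [natDegree_prod _ _ hFs0]
    calc 1 ≤ (Fs 0).natDegree := hFs 0 (by omega)
      _ ≤ _ := single_le_sum (f := fun i => (Fs i).natDegree) (fun _ _ => Nat.zero_le _) (mem_range.2 (by omega))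
  constructor
  · obtain ⟨c, hc, r, h⟩ := poly_low b hb e f he hf he0 hef _ hdeg k hk hM
    refine ⟨c, hc, r, ?_⟩
    filter_upwards [h] with K hK
    obtain ⟨P, hP1, hP2⟩ := hK
    refine hP1.trans ?_
    have : P.card ≤ ((Finset.range (b ^ K)).filter (fun n : ℕ => IsPal b e f K n ∧
        ∀ i < m, (Fs i).eval (n : ℤ) ≠ 0 ∧ ArithmeticFunction.cardFactors ((Fs i).eval (n : ℤ)).natAbs ≤ r)).card := by
      apply card_le_card
      intro n hn
      obtain ⟨h1, h2, h3, h4⟩ := hP2 n hn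
      rw [mem_filter, mem_range]
      refine ⟨h1, h2, fun i hi => ?_⟩
      rw [eval_prod] at h3 h4
      have h5 : (Fs i).eval (n : ℤ) ≠ 0 := Finset.prod_ne_zero_iff.1 h3 i (mem_range.2 hi)
      refine ⟨h5, le_trans ?_ h4⟩
      obtain ⟨w, hw⟩ := Finset.dvd_prod_of_mem (fun i => (Fs i).eval (n : ℤ)) (mem_range.2 hi)
      have h6 : (∏ i ∈ range m, (Fs i).eval (n : ℤ)).natAbs = ((Fs i).eval (n : ℤ)).natAbs * w.natAbs := by
        rw [hw, Int.natAbs_mul]
      have h7 : w ≠ 0 := by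
        rintro rfl
        apply h3
        rw [hw, mul_zero]
      rw [h6, ArithmeticFunction.cardFactors_mul (Int.natAbs_ne_zero.2 h5) (Int.natAbs_ne_zero.2 h7)]
      omega
    exact_mod_cast this
  · obtain ⟨c, hc, N, M', hM', h⟩ := poly_up b hb e f hef _ hdeg k hk hM
    have hS : ∀ i : ℕ, ∃ S : ℕ, i < m → ∀ n : ℕ, S ≤ n → (n : ℤ) - S ≤ |(Fs i).eval (n : ℤ)| := by
      intro i
      by_cases hi : i < m
      · obtain ⟨S, hS⟩ := eval_large (Fs i) (hFs i hi)
        exact ⟨S, fun _ => hS⟩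
      · exact ⟨0, fun h => absurd h hi⟩
    choose S hS using hS
    refine ⟨c, hc, ?_⟩
    filter_upwards [h, eventually_ge_atTop (∑ i ∈ range m, S i + 10)] with K hK hKS
    apply hK
    intro n hn
    rw [mem_filter, mem_range] at hn
    obtain ⟨hn1, hn2, hn3⟩ := hn
    refine ⟨hn2, fun p hp hpN hpK hdvd => ?_⟩
    rw [eval_prod, Prime.dvd_finsetProd_iff (Nat.prime_iff_prime_int.1 hp)] at hdvd
    obtain ⟨i, hi, hpi⟩ := hdvd
    have hi' := mem_range.1 hi
    have h1 : p = ((Fs i).eval (n : ℤ)).natAbs :=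
      (Nat.prime_dvd_prime_iff_eq hp (hn3 i hi')).1 (Int.natCast_dvd.1 hpi)
    have hn0 : n ≠ 0 := by
      rintro rfl
      have := hn2.1
      rw [Nat.digits_zero, List.length_nil] at this
      omega
    have h3 : b ^ (K - 1) ≤ n := by
      have := Nat.base_pow_length_digits_le b n (by omega) hn0
      rw [hn2.1] at this
      have h4 : b ^ K = b * b ^ (K - 1) := by rw [← pow_succ']; congr 1; omega
      rw [h4] at this
      exact Nat.le_of_mul_le_mul_left this (by omega)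
    have h4 : 2 ^ (K - 1) ≤ n := (Nat.pow_le_pow_left hb _).trans h3
    have h5 : S i ≤ K - 10 := by
      have := single_le_sum (f := S) (fun _ _ => Nat.zero_le _) hi
      omega
    have h6 : K < 2 ^ K := Nat.lt_two_pow_self
    have h7 : 2 ^ K = 2 * 2 ^ (K - 1) := by rw [← pow_succ']; congr 1; omega
    have h8 : K - 1 < 2 ^ (K - 1) := Nat.lt_two_pow_self
    have h9 := hS i hi' n (by omega)
    rw [← Int.natCast_natAbs, ← h1] at h9
    have h10 : n - S i ≤ p := by omega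
    have h11 : 2 ^ (K - 2) ≤ p := by
      have h12 : 2 ^ (K - 1) = 2 * 2 ^ (K - 2) := by rw [← pow_succ']; congr 1; omega
      have h13 : K - 2 < 2 ^ (K - 2) := Nat.lt_two_pow_self
      omega
    have h12 : 2 ^ ((K - 2) * 2) ≤ 2 ^ K := by
      calc 2 ^ ((K - 2) * 2) = (2 ^ (K - 2)) ^ 2 := by rw [pow_mul]
        _ ≤ p ^ 2 := Nat.pow_le_pow_left h11 _
        _ ≤ p ^ M' := Nat.pow_le_pow_right hp.pos hM'
        _ ≤ 2 ^ K := hpK
    have h13 := (Nat.pow_le_pow_iff_right (by norm_num : 1 < 2)).1 h12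
    omega

end Pool.Agent.Run7.h620.PD
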