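import Pool.Agent.Run7.h620.PD.Two

set_option autoImplicit false

/-! Linear forms with arbitrary constant terms at palindromes with two digits. -/

namespace Pool.Agent.Run7.h620.PD

open Finset Polynomial Filter
open Pool.Agent.H474R2.PG (rho Sg PR)

lemma pow_dvd_cancel (p : ℕ) (hp : p.Prime) (a t : ℤ) (ha : a ≠ 0) (A m : ℕ) (hA : a.natAbs ≤ A)
    (h : ((p ^ (m + A) : ℕ) : ℤ) ∣ a * t) : ((p ^ m : ℕ) : ℤ) ∣ t := by
  have hpp := Nat.prime_iff_prime_int.1 hp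
  have hfin : FiniteMultiplicity (p : ℤ) a := by
    rw [Int.finiteMultiplicity_iff]
    exact ⟨by rw [Int.natAbs_natCast]; exact hp.one_lt.ne', ha⟩
  obtain ⟨c, hc1, hc2⟩ := hfin.exists_eq_pow_mul_and_not_dvd
  set v := multiplicity (p : ℤ) a with hv
  have h1 : p ^ v ≤ A := by
    have h2 : p ^ v ∣ a.natAbs := by
      have : ((p ^ v : ℕ) : ℤ) ∣ a := by
        push_cast
        exact ⟨c, hc1⟩
      exact Int.natCast_dvd.1 this
    exact (Nat.le_of_dvd (Int.natAbs_pos.2 ha) h2).trans hA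
  have h2 : v < A := by
    have h3 : A < p ^ A := Nat.lt_pow_self hp.one_lt
    exact (Nat.pow_lt_pow_iff_right hp.one_lt).1 (lt_of_le_of_lt h1 h3)
  have hp0 : (p : ℤ) ≠ 0 := by exact_mod_cast hp.ne_zero
  push_cast at h ⊢
  rw [hc1, show m + A = v + (m + (A - v)) by omega, pow_add, mul_assoc] at h
  have h3 := (mul_dvd_mul_iff_left (pow_ne_zero v hp0)).1 h
  have h4 := hpp.pow_dvd_of_dvd_mul_left _ hc2 h3
  exact (pow_dvd_pow (p : ℤ) (Nat.le_add_right m (A - v))).trans h4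

lemma Zr_lin_card (a c : ℤ) (ha : a ≠ 0) (p : ℕ) (hp : p.Prime) (h : ¬ (p : ℤ) ∣ a) :
    (Zr (C a * X + C c) p).card ≤ 1 := by
  have h1 := Zr_card (C a * X + C c) p hp (by rw [leadingCoeff_linear ha]; exact h)
  rwa [natDegree_linear ha] at h1

lemma Zr_prod_card (k : ℕ) (a c : ℕ → ℤ) (ha : ∀ i < k, a i ≠ 0) (p : ℕ) (hp : p.Prime)
    (h : ∀ i < k, ¬ (p : ℤ) ∣ a i) : (Zr (∏ i ∈ range k, (C (a i) * X + C (c i))) p).card ≤ k := by
  have h1 : Zr (∏ i ∈ range k, (C (a i) * X + C (c i))) p ⊆ (range k).biUnion (fun i => Zr (C (a i) * X + C (c i)) p) := by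
    intro x hx
    unfold Zr at hx
    rw [mem_filter, eval_prod, Prime.dvd_finsetProd_iff (Nat.prime_iff_prime_int.1 hp)] at hx
    obtain ⟨hx1, i, hi, hx2⟩ := hx
    rw [mem_biUnion]
    exact ⟨i, hi, mem_filter.2 ⟨hx1, hx2⟩⟩
  refine (card_le_card h1).trans (card_biUnion_le.trans ?_)
  calc ∑ i ∈ range k, (Zr (C (a i) * X + C (c i)) p).card ≤ ∑ _i ∈ range k, 1 := by
        refine sum_le_sum fun i hi => ?_
        exact Zr_lin_card _ _ (ha i (mem_range.1 hi)) p hp (h i (mem_range.1 hi))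
    _ = k := by rw [sum_const, card_range, smul_eq_mul, mul_one]

/-- the sieve from below for linear forms with arbitrary constant terms; `Y` is a lower bound for the sieve product -/
theorem lin_core (b : ℕ) (hb : 2 ≤ b) (e f : ℕ) (he : e < b) (hf : f < b) (he0 : e ≠ 0) (hef : f ≠ e)
    (k : ℕ) (hk : 1 ≤ k) (a : ℕ → ℤ) (ha : ∀ i < k, a i ≠ 0) (L : ℕ) (hL : 1 ≤ L) :
    ∃ N₀ : ℕ, 3 ≤ N₀ ∧ ∀ N : ℕ, N₀ ≤ N → ∀ c₁ : ℝ, 0 < c₁ → ∃ c : ℝ, 0 < c ∧ ∃ r : ℕ, ∀ᶠ K : ℕ in atTop,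
      ∀ (Y : ℝ) (cc : ℕ → ℤ), 1 ≤ Y → (∀ i < k, (cc i).natAbs ≤ b ^ (L * K)) →
      (∀ J : ℕ, N ≤ 2 ^ 2 ^ J → K ≤ 2 ^ 2 ^ J → c₁ * Y / (2 ^ J) ^ k ≤
        ∏ p ∈ PP N J, (1 - ((Zr (∏ i ∈ range k, (C (a i) * X + C (cc i))) p).card : ℝ) / (p : ℝ))) →
      ∃ P : Finset ℕ, c * Y * (2 : ℝ) ^ ((K : ℝ) / 2) / (K : ℝ) ^ k ≤ P.card ∧
        ∀ n ∈ P, n < b ^ K ∧ IsPal b e f K n ∧ ∀ i < k, a i * n + cc i ≠ 0 ∧
          ArithmeticFunction.cardFactors (a i * n + cc i).natAbs ≤ r := by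
  classical
  have hD : ((f : ℤ) - e) ≠ 0 := by omega
  obtain ⟨N₀, hN₀, hN₀', h⟩ := pal_low b hb e f he hf he0 hef k k hk le_rfl
  set A : ℕ := ∑ i ∈ range k, (a i).natAbs with hA
  have hAi : ∀ i < k, (a i).natAbs ≤ A := fun i hi =>
    single_le_sum (f := fun i => (a i).natAbs) (fun _ _ => Nat.zero_le _) (mem_range.2 hi)
  refine ⟨N₀ + A, by omega, fun N hN c₁ hc₁ => ?_⟩
  obtain ⟨M, m, hM0, hMp, hMm, hgood⟩ := good_class2 b hb ((f : ℤ) - e) hD N k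
  obtain ⟨c, hc, M', hM', hev⟩ := h N (by omega) M hM0 hMp c₁ hc₁
  refine ⟨c, hc, N * (m + A) + (b * (L + 2)) * M', ?_⟩
  filter_upwards [hev, hgood, eventually_ge_atTop (A + 12)] with K hK hgK hKA Y cc hY hcc hW
  -- the classes to be avoided
  have hx : ∀ (p i : ℕ), ∃ x : ℤ, (∃ x' : ℤ, ((p ^ (m + A) : ℕ) : ℤ) ∣ a i * x' + cc i) →
      ((p ^ (m + A) : ℕ) : ℤ) ∣ a i * x + cc i := by
    intro p i
    by_cases hx : ∃ x' : ℤ, ((p ^ (m + A) : ℕ) : ℤ) ∣ a i * x' + cc i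
    · obtain ⟨x, hx'⟩ := hx
      exact ⟨x, fun _ => hx'⟩
    · exact ⟨0, fun h => absurd h hx⟩
  choose x hx using hx
  obtain ⟨s₀, hs₀, hs₀'⟩ := hgK (n0 b K e) (fun p => (range k).image (x p)) (fun p => by
    calc ((range k).image (x p)).card ≤ (range k).card := card_image_le
      _ = k := card_range k)
  have hpa : ∀ p : ℕ, p.Prime → N < p → ∀ i < k, ¬ (p : ℤ) ∣ a i := by
    intro p hp hpN i hi hdvd
    have h1 := Nat.le_of_dvd (Int.natAbs_pos.2 (ha i hi)) (Int.natCast_dvd.1 hdvd)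
    have := hAi i hi
    omega
  obtain ⟨P, hP1, hP2⟩ := hK Y (Zr (∏ i ∈ range k, (C (a i) * X + C (cc i)))) hY
    (fun p hp hpN => ⟨filter_subset _ _, Zr_prod_card k a cc ha p hp (hpa p hp hpN)⟩) hW s₀ hs₀
  refine ⟨P, hP1, fun n hn => ?_⟩
  obtain ⟨h1, h2, h3, h4, h5⟩ := hP2 n hn
  refine ⟨h1, h3, fun i hi => ?_⟩
  have h6 : ∀ p : ℕ, p.Prime → p ≤ N → ¬ p ^ (m + A) ∣ (a i * n + cc i).natAbs := by
    intro p hp hpN hdvd
    have g0 : ((p ^ (m + A) : ℕ) : ℤ) ∣ a i * n + cc i := Int.natCast_dvd.2 hdvd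
    have g1 := hx p i ⟨n, g0⟩
    have g2 : ((p ^ (m + A) : ℕ) : ℤ) ∣ a i * ((n : ℤ) - x p i) := by
      have := dvd_sub g0 g1
      have g3 : a i * (n : ℤ) + cc i - (a i * x p i + cc i) = a i * ((n : ℤ) - x p i) := by ring
      rwa [g3] at this
    have g3 := pow_dvd_cancel p hp (a i) _ (ha i hi) A m (hAi i hi) g2
    apply hs₀' p hp hpN (x p i) (mem_image_of_mem _ (mem_range.2 hi))
    have g4 : ((p ^ m : ℕ) : ℤ) ∣ (n : ℤ) - s₀ := by
      refine dvd_trans ?_ h4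
      exact_mod_cast hMm p hp hpN
    have g5 := dvd_sub g3 g4
    have g6 : (n : ℤ) - x p i - (n - s₀) = s₀ - x p i := by ring
    rwa [g6] at g5
  have h8 : a i * (n : ℤ) + cc i ≠ 0 := by
    intro h0
    apply h6 2 Nat.prime_two (by omega)
    rw [h0]
    simp
  have h7 : ∀ p : ℕ, p.Prime → N < p → p ^ M' ≤ 2 ^ K → ¬ p ∣ (a i * n + cc i).natAbs := by
    intro p hp hpN hpK hdvd
    apply h5 p hp hpN hpK
    apply Zr_of_dvd _ p hp.pos
    rw [eval_prod]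
    refine (Int.natCast_dvd.2 hdvd).trans ?_
    have := Finset.dvd_prod_of_mem (fun i => (C (a i) * X + C (cc i)).eval (n : ℤ)) (mem_range.2 hi)
    simpa only [eval_add, eval_mul, eval_C, eval_X] using this
  refine ⟨h8, ?_⟩
  apply omega_bound _ N (m + A) M' K (b * (L + 2)) (Int.natAbs_ne_zero.2 h8) h6 h7 (by omega)
  calc (a i * n + cc i).natAbs ≤ (a i * n).natAbs + (cc i).natAbs := Int.natAbs_add_le _ _
    _ = (a i).natAbs * n + (cc i).natAbs := by rw [Int.natAbs_mul, Int.natAbs_natCast]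
    _ ≤ A * b ^ K + b ^ (L * K) := add_le_add (Nat.mul_le_mul (hAi i hi) h1.le) (hcc i hi)
    _ ≤ b ^ K * b ^ (L * K) + b ^ K * b ^ (L * K) := by
        apply add_le_add
        · apply Nat.mul_le_mul
          · calc A ≤ K := by omega
              _ ≤ 2 ^ K := (Nat.lt_two_pow_self).le
              _ ≤ b ^ K := Nat.pow_le_pow_left hb K
          · exact Nat.pow_le_pow_right (by omega) (Nat.le_mul_of_pos_left K hL)
        · exact Nat.le_mul_of_pos_left _ (Nat.pow_pos (by omega))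
    _ = 2 * b ^ (K + L * K) := by rw [pow_add]; ring
    _ ≤ b ^ K * b ^ (K + L * K) := by
        apply Nat.mul_le_mul_right
        calc 2 ≤ b ^ 1 := by rw [pow_one]; exact hb
          _ ≤ b ^ K := Nat.pow_le_pow_right (by omega) (by omega)
    _ = b ^ (K * (L + 2)) := by
        rw [← pow_add]
        congr 1
        ring
    _ ≤ (2 ^ b) ^ (K * (L + 2)) := Nat.pow_le_pow_left (Nat.lt_two_pow_self).le _
    _ = 2 ^ (K * (b * (L + 2))) := by
        rw [← pow_mul]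
        congr 1
        ring

/-- linear forms with arbitrary constant terms, from below -/
theorem lin_uniform (b : ℕ) (hb : 2 ≤ b) (e f : ℕ) (he : e < b) (hf : f < b) (he0 : e ≠ 0) (hef : f ≠ e)
    (k : ℕ) (hk : 1 ≤ k) (a : ℕ → ℤ) (ha : ∀ i < k, a i ≠ 0) (L : ℕ) (hL : 1 ≤ L) :
    ∃ c : ℝ, 0 < c ∧ ∃ r : ℕ, ∀ᶠ K : ℕ in atTop,
      ∀ cc : ℕ → ℤ, (∀ i < k, (cc i).natAbs ≤ b ^ (L * K)) →
      ∃ P : Finset ℕ, c * (2 : ℝ) ^ ((K : ℝ) / 2) / (K : ℝ) ^ k ≤ P.card ∧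
        ∀ n ∈ P, n < b ^ K ∧ IsPal b e f K n ∧ ∀ i < k, a i * n + cc i ≠ 0 ∧
          ArithmeticFunction.cardFactors (a i * n + cc i).natAbs ≤ r := by
  obtain ⟨N₀, hN₀, h⟩ := lin_core b hb e f he hf he0 hef k hk a ha L hL
  obtain ⟨c₁, hc₁, hml⟩ := mert_low k
  set A : ℕ := ∑ i ∈ range k, (a i).natAbs with hA
  have hAi : ∀ i < k, (a i).natAbs ≤ A := fun i hi =>
    single_le_sum (f := fun i => (a i).natAbs) (fun _ _ => Nat.zero_le _) (mem_range.2 hi)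
  obtain ⟨N, hN⟩ : ∃ N : ℕ, N = N₀ + 2 * k + A := ⟨_, rfl⟩
  obtain ⟨c, hc, r, hev⟩ := h N (by omega) c₁ hc₁
  refine ⟨c, hc, r, ?_⟩
  filter_upwards [hev] with K hK cc hcc
  obtain ⟨P, hP1, hP2⟩ := hK 1 cc le_rfl hcc (by
    intro J hJ _
    rw [mul_one]
    refine (hml N J (by omega) (by omega) hJ).trans ?_
    apply Finset.prod_le_prod
    · intro p hp
      rw [mem_PP] at hp
      have hp0 : (0 : ℝ) < p := by exact_mod_cast hp.1.pos
      have h1 : k ≤ p := by omega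
      have h2 : (k : ℝ) / p ≤ 1 := by
        rw [div_le_one hp0]
        exact_mod_cast h1
      linarith
    · intro p hp
      rw [mem_PP] at hp
      have hp0 : (0 : ℝ) < p := by exact_mod_cast hp.1.pos
      have h1 := Zr_prod_card k a cc ha p hp.1 (by
        intro i hi hdvd
        have h1 := Nat.le_of_dvd (Int.natAbs_pos.2 (ha i hi)) (Int.natCast_dvd.1 hdvd)
        have := hAi i hi
        omega)
      have h2 : ((Zr (∏ i ∈ range k, (C (a i) * X + C (cc i))) p).card : ℝ) ≤ k := by exact_mod_cast h1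
      have h3 : ((Zr (∏ i ∈ range k, (C (a i) * X + C (cc i))) p).card : ℝ) / p ≤ k / p := by gcongr
      linarith)
  rw [mul_one] at hP1
  exact ⟨P, hP1, hP2⟩

end Pool.Agent.Run7.h620.PD
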