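import Pool.Agent.Run7.h620.PD.Digits

set_option autoImplicit false

/-! Palindromes with prescribed outer digits: digits and values. -/

namespace Pool.Agent.Run7.h620.PD

open Finset

/-- the list of the digits: outer digits `w`, inner digits `e` or `f` -/
def wl (K e f : ℕ) (w : List ℕ) (S : Finset ℕ) : List ℕ := w ++ dl K e f S ++ w.reverse

/-- the number -/
def wn (b K e f : ℕ) (w : List ℕ) (S : Finset ℕ) : ℕ := Nat.ofDigits b (wl K e f w S)

/-- the constant term -/
noncomputable def wc (b K e : ℕ) (w : List ℕ) : ℤ :=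
  (Nat.ofDigits b w : ℕ) + (b : ℤ) ^ w.length * ((e : ℤ) * ∑ j ∈ range K, (b : ℤ) ^ j) +
    (b : ℤ) ^ (w.length + K) * (Nat.ofDigits b w.reverse : ℕ)

lemma wl_length (K e f : ℕ) (w : List ℕ) (S : Finset ℕ) : (wl K e f w S).length = K + 2 * w.length := by
  unfold wl
  rw [List.length_append, List.length_append, List.length_reverse, dl_length]
  omega

lemma wl_reverse (K e f : ℕ) (w : List ℕ) (S : Finset ℕ) : (wl K e f w S).reverse = wl K e f w S := by
  unfold wl
  rw [List.reverse_append, List.reverse_append, List.reverse_reverse, dl_reverse, List.append_assoc]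

lemma digits_wn (b K e f d : ℕ) (w : List ℕ) (hb : 2 ≤ b) (he : e < b) (hf : f < b) (hd : d < b) (hd0 : d ≠ 0)
    (hw : ∀ x ∈ w, x < b) (S : Finset ℕ) : Nat.digits b (wn b K e f (d :: w) S) = wl K e f (d :: w) S := by
  unfold wn
  have hw' : ∀ x ∈ d :: w, x < b := by
    intro x hx
    rcases List.mem_cons.1 hx with rfl | hx
    · exact hd
    · exact hw x hx
  apply Nat.digits_ofDigits b (by omega)
  · intro l hl
    unfold wl at hl
    rw [List.mem_append, List.mem_append, List.mem_reverse] at hl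
    rcases hl with (hl | hl) | hl
    · exact hw' l hl
    · rcases dl_mem K e f S l hl with rfl | rfl <;> assumption
    · exact hw' l hl
  · intro h
    have h1 : wl K e f (d :: w) S = (d :: w ++ dl K e f S ++ w.reverse) ++ [d] := by
      unfold wl
      rw [List.reverse_cons, List.append_assoc, List.append_assoc, List.append_assoc]
    have h2 : (wl K e f (d :: w) S).getLast h = d := by
      simp only [h1, List.getLast_append_singleton]
    rw [h2]
    exact hd0

lemma wn_eq (b K e f : ℕ) (w : List ℕ) (H : ℕ) (hK : 2 * H + 2 ≤ K) (S : Finset ℕ) (hS : S ⊆ Icc 1 H) :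
    ((wn b K e f w S : ℕ) : ℤ) = vv b K (wc b K e w) (((f : ℤ) - e) * (b : ℤ) ^ w.length) S := by
  have h1 := nn_eq b K e f H hK S hS
  unfold wn wl
  rw [Nat.ofDigits_append, Nat.ofDigits_append, List.length_append, dl_length]
  have h2 : Nat.ofDigits b (dl K e f S) = nn b K e f S := rfl
  rw [h2]
  push_cast
  rw [h1]
  unfold vv wc
  push_cast
  ring

lemma wn_mod (b K e f : ℕ) (w : List ℕ) (S : Finset ℕ) :
    ∃ t : ℕ, wn b K e f w S = Nat.ofDigits b w + b ^ w.length * t := by
  unfold wn wl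
  rw [List.append_assoc, Nat.ofDigits_append]
  exact ⟨_, rfl⟩

lemma dl_inj (K e f : ℕ) (hef : f ≠ e) (H : ℕ)
    (hK : 2 * H + 2 ≤ K) (S S' : Finset ℕ) (hS : S ⊆ Icc 1 H) (hS' : S' ⊆ Icc 1 H)
    (h1 : dl K e f S = dl K e f S') : S = S' := by
  have key : ∀ T T' : Finset ℕ, T ⊆ Icc 1 H → T' ⊆ Icc 1 H → dl K e f T = dl K e f T' → T ⊆ T' := by
    intro T T' hT hT' hTT j hj
    have h2 := mem_Icc.1 (hT hj)
    have h3 : (dl K e f T)[j]'(by rw [dl_length]; omega) = (dl K e f T')[j]'(by rw [dl_length]; omega) := by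
      simp only [hTT]
    rw [dl_get, dl_get] at h3
    unfold dgt at h3
    rw [if_pos (Or.inl hj)] at h3
    by_contra hcon
    rw [if_neg] at h3
    · exact hef h3
    · rintro (h4 | h4)
      · exact hcon h4
      · have := mem_Icc.1 (hT' h4)
        omega
  exact Subset.antisymm (key S S' hS hS' h1) (key S' S hS' hS h1.symm)

lemma wn_inj (b K e f d : ℕ) (w : List ℕ) (hb : 2 ≤ b) (he : e < b) (hf : f < b) (hd : d < b) (hd0 : d ≠ 0)
    (hw : ∀ x ∈ w, x < b) (hef : f ≠ e) (H : ℕ) (hK : 2 * H + 2 ≤ K) (S S' : Finset ℕ) (hS : S ⊆ Icc 1 H)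
    (hS' : S' ⊆ Icc 1 H) (h : wn b K e f (d :: w) S = wn b K e f (d :: w) S') : S = S' := by
  have h1 : wl K e f (d :: w) S = wl K e f (d :: w) S' := by
    rw [← digits_wn b K e f d w hb he hf hd hd0 hw S, h, digits_wn b K e f d w hb he hf hd hd0 hw S']
  unfold wl at h1
  exact dl_inj K e f hef H hK S S' hS hS' (List.append_cancel_left (List.append_cancel_right h1))

end Pool.Agent.Run7.h620.PD
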