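import Pool.Agent.Run7.h620.PD.Cm2
import Pool.Agent.Run7.h620.PD.Wd
import Pool.Agent.Run7.h620.PD.Cl

set_option autoImplicit false

/-! Almost primes among the palindromes with prescribed outer digits and two digits inside. -/

namespace Pool.Agent.Run7.h620.PD

open Finset Polynomial Filter

/-- division by a power of the base modulo `M` -/
lemma cnt_tr (b K T H : ℕ) (n₀ D β : ℤ) (M M' : ℕ) (hMM : M' ∣ M) (hβ : (M' : ℤ) ∣ β * (b : ℤ) ^ T - 1) (s : ℤ) :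
    cnt (Icc 1 H).powerset (vv b K (β * n₀) D) M s ≤
      cnt (Icc 1 H).powerset (vv b K n₀ (D * (b : ℤ) ^ T)) M' ((b : ℤ) ^ T * s) := by
  classical
  unfold cnt
  have : ((Icc 1 H).powerset.filter (fun S => (M : ℤ) ∣ vv b K (β * n₀) D S - s)) ⊆
      ((Icc 1 H).powerset.filter (fun S => (M' : ℤ) ∣ vv b K n₀ (D * (b : ℤ) ^ T) S - (b : ℤ) ^ T * s)) := by
    intro S hS
    rw [mem_filter] at hS ⊢
    refine ⟨hS.1, ?_⟩
    have h1 : (M' : ℤ) ∣ vv b K (β * n₀) D S - s := dvd_trans (by exact_mod_cast hMM) hS.2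
    have h2 : vv b K n₀ (D * (b : ℤ) ^ T) S - (b : ℤ) ^ T * s =
        (b : ℤ) ^ T * (vv b K (β * n₀) D S - s) - n₀ * (β * (b : ℤ) ^ T - 1) := by
      unfold vv
      ring
    rw [h2]
    exact dvd_sub (h1.mul_left _) (hβ.mul_left _)
  exact_mod_cast card_le_card this

/-- `K'` is the number of the inner digits -/
theorem w_low (b : ℕ) (hb : 2 ≤ b) (e f : ℕ) (he : e < b) (hf : f < b) (hef : f ≠ e) (h : ℕ) :
    ∃ c : ℝ, 0 < c ∧ ∃ r K₀ : ℕ, ∀ K' : ℕ, K₀ ≤ K' → ∀ (d : ℕ) (w : List ℕ), d < b → d ≠ 0 → (∀ x ∈ w, x < b) →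
      (∀ p : ℕ, p.Prime → p ∣ b → ¬ p ^ (min h (w.length + 1)) ∣ Nat.ofDigits b (d :: w)) →
      ∃ P : Finset ℕ, c * (2 : ℝ) ^ ((K' : ℝ) / 2) / K' ≤ P.card ∧
        ∀ n ∈ P, n < b ^ (K' + 2 * (w.length + 1)) ∧ (Nat.digits b n).length = K' + 2 * (w.length + 1) ∧
          (Nat.digits b n).reverse = Nat.digits b n ∧
          (∃ v : List ℕ, Nat.digits b n = (d :: w) ++ v ++ (d :: w).reverse ∧ ∀ x ∈ v, x = e ∨ x = f) ∧
          ArithmeticFunction.cardFactors n * K' ≤ r * (K' + 2 * (w.length + 1)) := by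
  classical
  have hD : ((f : ℤ) - e) ≠ 0 := by omega
  obtain ⟨N, hN3, hN2, hcore⟩ := core4 b hb ((f : ℤ) - e) hD 1 le_rfl
  obtain ⟨Mf, m, hMf0, hMfp, hMfm, hgood⟩ := good_class2 b hb ((f : ℤ) - e) hD N 1
  have hMfr : (0 : ℝ) < Mf := by exact_mod_cast hMf0
  obtain ⟨c₁, hc₁, hWlow⟩ := Wq_low N hN3
  set Ps := (Icc 1 N).filter (fun p => p.Prime ∧ ¬ p ∣ b) with hPs
  obtain ⟨g, hg⟩ : ∃ g : ℕ, g = ∏ p ∈ Ps, p ^ m := ⟨_, rfl⟩
  have hPs' : ∀ p ∈ Ps, p.Prime ∧ p ≤ N ∧ ¬ p ∣ b := by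
    intro p hp
    rw [hPs, mem_filter, mem_Icc] at hp
    exact ⟨hp.2.1, hp.1.2, hp.2.2⟩
  have hg0 : 0 < g := by
    rw [hg]
    exact prod_pos fun p hp => Nat.pow_pos (hPs' p hp).1.pos
  have hgN : ∀ p : ℕ, p.Prime → p ∣ g → p ≤ N := by
    intro p hp hpM
    rw [hg, Prime.dvd_finsetProd_iff hp.prime] at hpM
    obtain ⟨q, hq, hpq⟩ := hpM
    have hq' := hPs' q hq
    have := (Nat.prime_dvd_prime_iff_eq hp hq'.1).1 (hp.dvd_of_dvd_pow hpq)
    rw [this]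
    exact hq'.2.1
  have hgdvd : g ∣ Mf := by
    have h1 : ((∏ p ∈ Ps, ((p ^ m : ℕ) : ℤ)) : ℤ) ∣ (Mf : ℤ) := by
      apply Finset.prod_dvd_of_coprime
      · intro p hp p' hp' hpp
        have h1 := hPs' p hp
        have h2 := hPs' p' hp'
        rw [Function.onFun, Nat.isCoprime_iff_coprime]
        exact Nat.Coprime.pow _ _ ((Nat.coprime_primes h1.1 h2.1).2 hpp)
      · intro p hp
        have h1 := hPs' p hp
        exact_mod_cast hMfm p h1.1 h1.2.1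
    rw [← Nat.cast_prod, ← hg] at h1
    exact_mod_cast h1
  have hgb : Nat.Coprime g b := by
    rw [hg]
    apply Nat.Coprime.prod_left
    intro p hp
    apply Nat.Coprime.pow_left
    exact (Nat.Prime.coprime_iff_not_dvd (hPs' p hp).1).2 (hPs' p hp).2.2
  obtain ⟨T₀, hT₀, η₀, hη₀, M₁, hM₁, hev⟩ := hcore N le_rfl g hg0 hgN
  obtain ⟨κ₀, hκ₀⟩ : ∃ κ₀ : ℝ, κ₀ = 1 / (2 * Mf) := ⟨_, rfl⟩
  have hκ₀0 : 0 < κ₀ := by rw [hκ₀]; positivity
  have hcast := tendsto_natCast_atTop_atTop (R := ℝ)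
  obtain ⟨K₀, hK₀⟩ := eventually_atTop.1 (hev.and (hgood.and ((hcast.eventually_ge_atTop (2 * T₀ / κ₀)).and
    ((hcast.eventually_ge_atTop (8 * T₀ / (κ₀ * c₁))).and (eventually_ge_atTop 12)))))
  refine ⟨κ₀ * c₁ / 64, by positivity, N * (max m h) + (b + 1) * (2 * M₁), K₀, ?_⟩
  intro K' hK'K₀ d w hd hd0 hw hdiv
  obtain ⟨T, hT⟩ : ∃ T : ℕ, T = w.length + 1 := ⟨_, rfl⟩
  rw [← hT]
  have hTl : (d :: w).length = T := by rw [List.length_cons, hT]
  obtain ⟨K, hK'⟩ : ∃ K : ℕ, K = K' + 2 * T := ⟨_, rfl⟩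
  rw [← hK']
  obtain ⟨⟨J, hNJ, hKJ, hJK', hKJ2, hmain⟩, hgK, hK2, hK8, hK12⟩ := hK₀ K' hK'K₀
  have hJK : 2 ^ J ≤ K' := by
    calc 2 ^ J ≤ M₁ * 2 ^ J := Nat.le_mul_of_pos_left _ (by omega)
      _ ≤ K' := hJK'
  have hK0 : (0 : ℝ) < K' := by
    have : 0 < K' := by omega
    exact_mod_cast this
  obtain ⟨β, hβ⟩ : ∃ β : ℤ, (g : ℤ) ∣ β * (b : ℤ) ^ T - 1 := by
    have h1 : IsCoprime (g : ℤ) ((b : ℤ) ^ T) := (Nat.isCoprime_iff_coprime.2 hgb).pow_right
    obtain ⟨u, v, huv⟩ := h1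
    exact ⟨v, -u, by linear_combination huv⟩
  obtain ⟨c₀, hc₀⟩ : ∃ c₀ : ℤ, c₀ = wc b K' e (d :: w) := ⟨_, rfl⟩
  obtain ⟨s₀, hs₀, hs₀'⟩ := hgK (β * c₀) (fun _ => {0}) (fun p => by simp)
  have hHK : 2 * ((K' - 2) / 2) + 2 ≤ K' := by omega
  have hnneq : ∀ S ∈ (Icc 1 ((K' - 2) / 2)).powerset, ((wn b K' e f (d :: w) S : ℕ) : ℤ) =
      vv b K' c₀ (((f : ℤ) - e) * (b : ℤ) ^ T) S := by
    intro S hS
    rw [wn_eq b K' e f (d :: w) ((K' - 2) / 2) hHK S (mem_powerset.1 hS), hTl, hc₀]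
  obtain ⟨hc1, hc2⟩ := hmain T 1 c₀ (Zq 1) one_pos (by
    rw [Nat.cast_one]
    apply Real.one_le_exp
    apply div_nonneg (by positivity)
    exact Real.log_natCast_nonneg _) (Nat.coprime_one_left g) (by
      rw [Nat.cast_one]
      exact isCoprime_one_left) (fun p hp _ => ⟨Zq_sub 1 p hp, Zq_le 1 p⟩) (by
      intro p hp _ hpq
      have := Nat.le_of_dvd one_pos hpq
      have := hp.two_le
      omega) (by
      intro S hS
      rw [← hnneq S hS]
      exact Int.natCast_nonneg _) ((b : ℤ) ^ T * s₀)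
  rw [mul_one] at hc1 hc2
  rw [Nat.cast_one, div_one] at hc1 hc2
  set A : ℝ := cnt (Icc 1 ((K' - 2) / 2)).powerset (vv b K' c₀ (((f : ℤ) - e) * (b : ℤ) ^ T)) g ((b : ℤ) ^ T * s₀) with hA
  set W : ℝ := ∏ p ∈ PP N J, (1 - ((Zq 1 p).card : ℝ) / (p : ℝ)) with hW
  set G := (((Icc 1 ((K' - 2) / 2)).powerset.filter (fun S => ((g : ℕ) : ℤ) ∣
    vv b K' c₀ (((f : ℤ) - e) * (b : ℤ) ^ T) S - (b : ℤ) ^ T * s₀)).filter
          (fun S => ∀ p ∈ PP N J, ¬ ∃ z ∈ Zq 1 p, (p : ℤ) ∣ vv b K' c₀ (((f : ℤ) - e) * (b : ℤ) ^ T) S - z)) with hG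
  have hAlow : κ₀ * 2 ^ ((K' - 2) / 2) ≤ A := by
    refine le_trans ?_ (cnt_tr b K' T ((K' - 2) / 2) c₀ ((f : ℤ) - e) β Mf g hgdvd hβ s₀)
    refine le_trans (le_of_eq ?_) hs₀
    rw [hκ₀]
    ring
  have hTK2 : T₀ / K' ≤ κ₀ * c₁ / 8 := by
    rw [div_le_iff₀ hK0]
    rw [div_le_iff₀ (by positivity)] at hK8
    linarith
  have hs1 : 1 ≤ sing 1 := one_le_sing 1
  have hWl : c₁ / K' ≤ W := by
    refine le_trans ?_ (hWlow J K' 1 (by omega) hNJ hKJ one_pos (Nat.one_le_two_pow))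
    have h1 : (2 : ℝ) ^ J ≤ K' := by exact_mod_cast hJK
    have h2 : c₁ * 1 ≤ c₁ * sing 1 := mul_le_mul_of_nonneg_left hs1 hc₁.le
    rw [mul_one] at h2
    have h3 : c₁ / K' ≤ c₁ / 2 ^ J := div_le_div_of_nonneg_left hc₁.le (by positivity) h1
    refine h3.trans ?_
    gcongr
    simpa using h2
  have hGlow : κ₀ * c₁ / 8 * 2 ^ ((K' - 2) / 2) / K' ≤ G.card := by
    have h1 := (abs_le.1 hc2).1
    have h2 : (κ₀ * 2 ^ ((K' - 2) / 2)) * (c₁ / K') ≤ A * W := by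
      apply mul_le_mul hAlow hWl
      · positivity
      · exact le_trans (by positivity) hAlow
    have h3 : (2 : ℝ) ^ ((K' - 2) / 2) * (T₀ / (K' : ℝ) ^ (1 + 1)) ≤
        κ₀ * c₁ / 8 * 2 ^ ((K' - 2) / 2) / K' := by
      calc (2 : ℝ) ^ ((K' - 2) / 2) * (T₀ / (K' : ℝ) ^ (1 + 1)) =
            2 ^ ((K' - 2) / 2) * (T₀ / K') / K' := by
            field_simp
        _ ≤ 2 ^ ((K' - 2) / 2) * (κ₀ * c₁ / 8) / K' := by gcongr
        _ = _ := by ring
    have h4 : (κ₀ * 2 ^ ((K' - 2) / 2)) * (c₁ / K') =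
        8 * (κ₀ * c₁ / 8 * 2 ^ ((K' - 2) / 2) / K') := by ring
    have h5 : ((G.card : ℕ) : ℝ) - A * W ≥ -(1 / 2 * (A * W) + 2 ^ ((K' - 2) / 2) * (T₀ / (K' : ℝ) ^ (1 + 1))) := h1
    have h6 : 0 ≤ κ₀ * c₁ / 8 * 2 ^ ((K' - 2) / 2) / K' := by positivity
    linarith
  refine ⟨G.image (fun S => wn b K' e f (d :: w) S), ?_, ?_⟩
  · rw [card_image_of_injOn]
    · refine le_trans ?_ hGlow
      have h1 : (2 : ℝ) ^ ((K' : ℝ) / 2) ≤ 4 * 2 ^ ((K' - 2) / 2) := by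
        have h2 : (4 : ℝ) * 2 ^ ((K' - 2) / 2) = 2 ^ ((K' - 2) / 2 + 2) := by rw [pow_add]; ring
        rw [h2, ← Real.rpow_natCast]
        apply Real.rpow_le_rpow_of_exponent_le (by norm_num)
        have : K' ≤ 2 * ((K' - 2) / 2 + 2) := by omega
        have : (K' : ℝ) ≤ 2 * (((K' - 2) / 2 + 2 : ℕ) : ℝ) := by exact_mod_cast this
        linarith
      calc κ₀ * c₁ / 64 * (2 : ℝ) ^ ((K' : ℝ) / 2) / K' ≤
            κ₀ * c₁ / 64 * (4 * 2 ^ ((K' - 2) / 2)) / K' := by gcongr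
        _ ≤ κ₀ * c₁ / 64 * (8 * 2 ^ ((K' - 2) / 2)) / K' := by gcongr; norm_num
        _ = _ := by ring
    · intro S hS S' hS' h
      rw [mem_coe, hG, mem_filter, mem_filter, mem_powerset] at hS hS'
      exact wn_inj b K' e f d w hb he hf hd hd0 hw hef ((K' - 2) / 2) hHK S S' hS.1.1 hS'.1.1 h
  · intro n hn
    rw [mem_image] at hn
    obtain ⟨S, hS, rfl⟩ := hn
    rw [hG, mem_filter, mem_filter] at hS
    obtain ⟨⟨hS1, hS2⟩, hS3⟩ := hS
    have hdig := digits_wn b K' e f d w hb he hf hd hd0 hw S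
    have hlen2 : (Nat.digits b (wn b K' e f (d :: w) S)).length = K := by
      rw [hdig, wl_length, hTl, hK']
    have hlt : wn b K' e f (d :: w) S < b ^ K := by
      have := Nat.lt_base_pow_length_digits (b := b) (m := wn b K' e f (d :: w) S) (by omega)
      rwa [hlen2] at this
    rw [← hnneq S hS1] at hS2
    rw [← hnneq S hS1] at hS3
    obtain ⟨t, ht⟩ := wn_mod b K' e f (d :: w) S
    rw [hTl] at ht
    refine ⟨hlt, hlen2, by rw [hdig, wl_reverse], ⟨dl K' e f S, hdig, fun x hx => dl_mem K' e f S x hx⟩, ?_⟩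
    set n := wn b K' e f (d :: w) S with hn
    have hpb : ∀ p : ℕ, p.Prime → p ∣ b → ¬ p ^ h ∣ n := by
      intro p hp hpb hpn
      apply hdiv p hp hpb
      rw [← hT]
      have h1 : p ^ (min h T) ∣ n := (pow_dvd_pow p (min_le_left h T)).trans hpn
      have h2 : p ^ (min h T) ∣ b ^ T * t :=
        ((pow_dvd_pow p (min_le_right h T)).trans (pow_dvd_pow_of_dvd hpb T)).mul_right t
      rw [ht] at h1
      exact (Nat.dvd_add_left h2).1 h1
    have hm1 : 1 ≤ m := by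
      by_contra hcon
      have hm0 : m = 0 := by omega
      apply hs₀' 2 Nat.prime_two (by omega) 0 (mem_singleton_self _)
      rw [hm0]
      simp
    have h6 : ∀ p : ℕ, p.Prime → p ≤ N → ¬ p ^ (max m h) ∣ n := by
      intro p hp hpN hdvd'
      have hdvd : p ^ m ∣ n := (pow_dvd_pow p (le_max_left m h)).trans hdvd'
      by_cases hpd : p ∣ b
      · exact hpb p hp hpd ((pow_dvd_pow p (le_max_right m h)).trans hdvd')
      · have hpQ : p ∈ Ps := by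
          rw [hPs, mem_filter, mem_Icc]
          exact ⟨⟨hp.one_lt.le, hpN⟩, hp, hpd⟩
        apply hs₀' p hp hpN 0 (mem_singleton_self _)
        have h7 : p ^ m ∣ g := by
          rw [hg]
          exact Finset.dvd_prod_of_mem (fun p => p ^ m) hpQ
        have h8 : ((p ^ m : ℕ) : ℤ) ∣ (n : ℤ) - (b : ℤ) ^ T * s₀ := dvd_trans (by exact_mod_cast h7) hS2
        have h9 := dvd_sub (Int.natCast_dvd_natCast.2 hdvd) h8
        rw [sub_sub_cancel] at h9
        rw [sub_zero]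
        have h10 : IsCoprime ((p ^ m : ℕ) : ℤ) ((b : ℤ) ^ T) := by
          have h11 : IsCoprime (p : ℤ) (b : ℤ) := Nat.isCoprime_iff_coprime.2
            ((Nat.Prime.coprime_iff_not_dvd hp).2 hpd)
          push_cast
          exact h11.pow
        exact h10.dvd_of_dvd_mul_left h9
    have hn0 : n ≠ 0 := by
      intro h0
      rw [h0, Nat.digits_zero, List.length_nil] at hlen2
      omega
    obtain ⟨I, hI⟩ : ∃ I : ℕ, I = b * K / K' + 1 := ⟨_, rfl⟩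
    have hK'0 : 0 < K' := by omega
    have hKI : b * K ≤ K' * I := by
      rw [hI]
      exact (Nat.lt_mul_div_succ _ hK'0).le
    have hIK : I * K' ≤ (b + 1) * K := by
      rw [hI, add_mul, one_mul]
      have h7 : b * K / K' * K' ≤ b * K := Nat.div_mul_le_self _ _
      calc b * K / K' * K' + K' ≤ b * K + K := Nat.add_le_add h7 (by omega)
        _ = (b + 1) * K := by ring
    have hom : ArithmeticFunction.cardFactors n ≤ N * (max m h) + I * (2 * M₁) := by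
      apply omega_bound n N (max m h) (2 * M₁) K' I hn0 h6 ?_ (by omega) ?_
      rotate_left
      · calc n ≤ b ^ K := hlt.le
          _ ≤ (2 ^ b) ^ K := Nat.pow_le_pow_left (Nat.lt_two_pow_self).le _
          _ = 2 ^ (b * K) := by rw [← pow_mul]
          _ ≤ 2 ^ (K' * I) := Nat.pow_le_pow_right (by norm_num) hKI
      intro p hp hpN hpK hpn
      have hpp : p ∈ PP N J := by
        rw [mem_PP]
        refine ⟨hp, hpN, ?_⟩
        by_contra hcon
        push Not at hcon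
        have g3 : K' ≤ 2 ^ J * (2 * M₁) := by
          calc K' ≤ M₁ * 2 ^ (J + 1) := hKJ2.le
            _ = 2 ^ J * (2 * M₁) := by rw [pow_succ]; ring
        have g4 : 2 ^ K' ≤ (2 ^ 2 ^ J) ^ (2 * M₁) := by
          rw [← pow_mul]
          exact Nat.pow_le_pow_right (by norm_num) g3
        have g5 : (2 ^ 2 ^ J) ^ (2 * M₁) < p ^ (2 * M₁) := by
          apply Nat.pow_lt_pow_left hcon
          omega
        omega
      apply hS3 p hpp
      refine ⟨0, ?_, ?_⟩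
      · unfold Zq
        rw [if_neg]
        · exact mem_singleton_self _
        · intro h1
          have := Nat.le_of_dvd one_pos h1
          have := hp.two_le
          omega
      · rw [Nat.cast_zero, sub_zero]
        exact_mod_cast hpn
    calc ArithmeticFunction.cardFactors n * K' ≤ (N * (max m h) + I * (2 * M₁)) * K' := Nat.mul_le_mul_right _ hom
      _ = N * (max m h) * K' + (I * K') * (2 * M₁) := by ring
      _ ≤ N * (max m h) * K + ((b + 1) * K) * (2 * M₁) :=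
          Nat.add_le_add (Nat.mul_le_mul_left _ (by omega)) (Nat.mul_le_mul_right _ hIK)
      _ = _ := by ring

end Pool.Agent.Run7.h620.PD
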