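import Pool.Agent.Run7.h620.PD.Spl
import Pool.Agent.Run7.h620.PD.Wd

set_option autoImplicit false

/-! Palindromic lists with two digits; palindromes with prescribed outer digits as members of a few families. -/

namespace Pool.Agent.Run7.h620.PD

open Finset Filter

lemma exists_Sl (b K e f : ℕ) (v : List ℕ) (h1 : v.length = K)
    (h2 : v.reverse = v) (h3 : ∀ d ∈ v, d = e ∨ d = f) :
    ∃ T₀ ∈ (Mid K).powerset, ∃ S ∈ (Icc 1 ((K - 2) / 2)).powerset,
      ((Nat.ofDigits b v : ℕ) : ℤ) = vv b K (cT b K e f T₀) ((f : ℤ) - e) S := by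
  classical
  set dg : ℕ → ℕ := fun j => v.getD j 0 with hdg
  have hlist : v = (List.range K).map dg := by
    apply List.ext_getElem
    · simp [h1]
    · intro j hj hj'
      rw [List.getElem_map, List.getElem_range]
      simp only [hdg]
      rw [List.getD_eq_getElem _ _ hj]
  have hn : Nat.ofDigits b v = ∑ j ∈ range K, dg j * b ^ j := by
    rw [← ofDigits_map, ← hlist]
  have hdge : ∀ j < K, dg j = e ∨ dg j = f := by
    intro j hj
    apply h3
    simp only [hdg]
    rw [List.getD_eq_getElem _ _ (by omega)]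
    exact List.getElem_mem _
  have hsym : ∀ j < K, dg (K - 1 - j) = dg j := by
    intro j hj
    simp only [hdg]
    rw [List.getD_eq_getElem _ _ (by omega), List.getD_eq_getElem _ _ (by omega)]
    have h4 : v[j]'(by omega) = (v.reverse)[j]'(by rw [List.length_reverse]; omega) := by
      simp only [h2]
    rw [h4, List.getElem_reverse]
    congr 1
    omega
  set T : Finset ℕ := (range K).filter (fun j => dg j = f) with hT
  refine ⟨(Mid K).filter (fun j => dg j = f), by rw [mem_powerset]; exact filter_subset _ _,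
    (Icc 1 ((K - 2) / 2)).filter (fun j => dg j = f), by rw [mem_powerset]; exact filter_subset _ _, ?_⟩
  rw [vv_cT b K e f _ _ (filter_subset _ _) (filter_subset _ _)]
  have hTT : (Mid K).filter (fun j => dg j = f) ∪ ((Icc 1 ((K - 2) / 2)).filter (fun j => dg j = f) ∪
      ((Icc 1 ((K - 2) / 2)).filter (fun j => dg j = f)).image (fun i => K - 1 - i)) = T := by
    ext j
    rw [mem_union, mem_union, mem_image, mem_filter, mem_filter, mem_Icc, hT, mem_filter, mem_range]
    constructor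
    · rintro (⟨h4, h5⟩ | ⟨h4, h5⟩ | ⟨i, hi, hij⟩)
      · unfold Mid at h4
        rw [mem_filter, mem_range] at h4
        exact ⟨h4.1, h5⟩
      · exact ⟨by omega, h5⟩
      · rw [mem_filter, mem_Icc] at hi
        rw [← hij]
        refine ⟨by omega, ?_⟩
        rw [hsym i (by omega)]
        exact hi.2
    · rintro ⟨h4, h5⟩
      by_cases h6 : 1 ≤ j ∧ j ≤ (K - 2) / 2
      · exact Or.inr (Or.inl ⟨h6, h5⟩)
      · by_cases h7 : 1 ≤ K - 1 - j ∧ K - 1 - j ≤ (K - 2) / 2
        · refine Or.inr (Or.inr ⟨K - 1 - j, ?_, by omega⟩)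
          rw [mem_filter, mem_Icc]
          refine ⟨h7, ?_⟩
          rw [hsym j h4]
          exact h5
        · left
          refine ⟨?_, h5⟩
          unfold Mid
          rw [mem_filter, mem_range]
          exact ⟨h4, h6, h7⟩
  rw [hTT, cT_eq b K e f T (filter_subset _ _)]
  conv_lhs => rw [hn]
  push_cast
  refine sum_congr rfl fun j hj => ?_
  rw [mem_range] at hj
  congr 1
  by_cases h4 : j ∈ T
  · rw [if_pos h4]
    rw [hT, mem_filter] at h4
    rw [h4.2]
  · rw [if_neg h4]
    rcases hdge j hj with h5 | h5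
    · rw [h5]
    · exfalso
      apply h4
      rw [hT, mem_filter, mem_range]
      exact ⟨hj, h5⟩


/-- the constant term -/
def wT (b K e f : ℕ) (w : List ℕ) (T₀ : Finset ℕ) : ℤ :=
  (Nat.ofDigits b w : ℕ) + (b : ℤ) ^ w.length * cT b K e f T₀ +
    (b : ℤ) ^ (w.length + K) * (Nat.ofDigits b w.reverse : ℕ)

lemma vv_wT (b K e f : ℕ) (w : List ℕ) (T₀ S : Finset ℕ) :
    vv b K (wT b K e f w T₀) (((f : ℤ) - e) * (b : ℤ) ^ w.length) S =
      (Nat.ofDigits b w : ℕ) + (b : ℤ) ^ w.length * vv b K (cT b K e f T₀) ((f : ℤ) - e) S +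
      (b : ℤ) ^ (w.length + K) * (Nat.ofDigits b w.reverse : ℕ) := by
  unfold vv wT
  ring

lemma wT_nonneg (b K e f : ℕ) (w : List ℕ) (T₀ S : Finset ℕ) (hT₀ : T₀ ⊆ Mid K) (hS : S ⊆ Icc 1 ((K - 2) / 2)) :
    0 ≤ vv b K (wT b K e f w T₀) (((f : ℤ) - e) * (b : ℤ) ^ w.length) S := by
  rw [vv_wT, vv_cT b K e f T₀ S hT₀ hS]
  have h1 := cT_nonneg b K e f _ (union_sub K T₀ S hT₀ hS)
  have h2 : (0 : ℤ) ≤ (b : ℤ) ^ w.length := by positivity
  have h3 : (0 : ℤ) ≤ (b : ℤ) ^ (w.length + K) := by positivity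
  have h4 := mul_nonneg h2 h1
  have h5 : (0 : ℤ) ≤ (b : ℤ) ^ (w.length + K) * (Nat.ofDigits b w.reverse : ℕ) := mul_nonneg h3 (Int.natCast_nonneg _)
  have h6 : (0 : ℤ) ≤ ((Nat.ofDigits b w : ℕ) : ℤ) := Int.natCast_nonneg _
  linarith

lemma exists_Sw (b K e f n : ℕ) (w v : List ℕ) (h1 : (Nat.digits b n).length = K + 2 * w.length)
    (h2 : (Nat.digits b n).reverse = Nat.digits b n) (hv : Nat.digits b n = w ++ v ++ w.reverse)
    (h3 : ∀ d ∈ v, d = e ∨ d = f) :
    ∃ T₀ ∈ (Mid K).powerset, ∃ S ∈ (Icc 1 ((K - 2) / 2)).powerset,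
      (n : ℤ) = vv b K (wT b K e f w T₀) (((f : ℤ) - e) * (b : ℤ) ^ w.length) S := by
  have hl : v.length = K := by
    rw [hv, List.length_append, List.length_append, List.length_reverse] at h1
    omega
  have hr : v.reverse = v := by
    rw [hv, List.reverse_append, List.reverse_append, List.reverse_reverse, List.append_assoc] at h2
    exact List.append_cancel_right (List.append_cancel_left h2)
  obtain ⟨T₀, hT₀, S, hS, hvS⟩ := exists_Sl b K e f v hl hr h3
  refine ⟨T₀, hT₀, S, hS, ?_⟩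
  rw [vv_wT, ← hvS]
  have h4 : n = Nat.ofDigits b (w ++ v ++ w.reverse) := by rw [← hv, Nat.ofDigits_digits]
  rw [Nat.ofDigits_append, Nat.ofDigits_append, List.length_append, hl] at h4
  rw [h4]
  push_cast
  ring

end Pool.Agent.Run7.h620.PD
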