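import Pool.Agent.Run7.h620.PD.Ws
import Pool.Agent.Run7.h620.PD.Cm2
import Pool.Agent.Run7.h620.PD.Zq

set_option autoImplicit false

/-! Primes among the palindromes with prescribed outer digits and two digits inside, from above. -/

namespace Pool.Agent.Run7.h620.PD

open Finset Polynomial Filter

open Classical in
/-- `K` is the number of the inner digits -/
theorem w_up (b : ℕ) (hb : 2 ≤ b) (e f : ℕ) (hef : f ≠ e) :
    ∃ C : ℝ, 0 < C ∧ ∃ K₀ : ℕ, ∀ K : ℕ, K₀ ≤ K → ∀ w : List ℕ,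
      ∀ P : Finset ℕ, (∀ n ∈ P, n.Prime ∧ (Nat.digits b n).length = K + 2 * w.length ∧
          (Nat.digits b n).reverse = Nat.digits b n ∧
          ∃ v : List ℕ, Nat.digits b n = w ++ v ++ w.reverse ∧ ∀ x ∈ v, x = e ∨ x = f) →
        (P.card : ℝ) ≤ C * (2 : ℝ) ^ ((K : ℝ) / 2) / K := by
  have hD : ((f : ℤ) - e) ≠ 0 := by omega
  obtain ⟨N, hN3, hN2, hcore⟩ := core4 b hb ((f : ℤ) - e) hD 1 le_rfl
  obtain ⟨c₂, hc₂, hWup⟩ := Wq_up N hN3
  obtain ⟨T, hT, η, hη, M₁, hM₁, hev⟩ := hcore N le_rfl 1 one_pos (by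
    intro p hp hp1
    have := Nat.le_of_dvd one_pos hp1
    have := hp.two_le
    omega)
  have hs1 : 1 ≤ sing 1 := one_le_sing 1
  obtain ⟨s, hs⟩ : ∃ s : ℝ, s = sing 1 := ⟨_, rfl⟩
  rw [← hs] at hs1
  refine ⟨8 * (6 * c₂ * s * M₁ + T), by positivity, ?_⟩
  have hcast := tendsto_natCast_atTop_atTop (R := ℝ)
  obtain ⟨K₀, hK₀⟩ := eventually_atTop.1 (hev.and ((hcast.eventually_ge_atTop T).and (eventually_ge_atTop 12)))
  refine ⟨K₀, ?_⟩
  intro K hKK w P hP
  obtain ⟨⟨J, hNJ, hKJ, hJK, hKJ2, hmain⟩, hKT, hK12⟩ := hK₀ K hKK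
  have hK0 : (0 : ℝ) < K := by
    have : 0 < K := by omega
    exact_mod_cast this
  set H := (K - 2) / 2 with hH
  set W : ℝ := ∏ p ∈ PP N J, (1 - ((Zq 1 p).card : ℝ) / (p : ℝ)) with hW
  have hW0 : 0 ≤ W := by
    rw [hW]
    apply Finset.prod_nonneg
    intro p hp
    obtain ⟨hp1, hp2, hp3⟩ := (mem_PP N J p).1 hp
    have hp0 : (0 : ℝ) < p := by exact_mod_cast hp1.pos
    have h3 : (Zq 1 p).card ≤ p := (Zq_le 1 p).trans hp1.pos
    have h4 : ((Zq 1 p).card : ℝ) / p ≤ 1 := by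
      rw [div_le_one hp0]
      exact_mod_cast h3
    linarith
  have hWle : W ≤ c₂ * s * (2 * M₁) / K := by
    have h0 := hWup J 1 hNJ one_pos
    have h00 : c₂ * sing 1 / 2 ^ J = c₂ * s / 2 ^ J := by rw [hs]
    rw [Nat.cast_one] at h0
    rw [h00] at h0
    refine h0.trans ?_
    rw [div_le_div_iff₀ (by positivity) hK0]
    have h4 : (K : ℝ) ≤ 2 * M₁ * 2 ^ J := by
      have h5 : (K : ℝ) ≤ M₁ * (2 ^ J * 2) := by
        rw [← pow_succ]
        exact_mod_cast hKJ2.le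
      linarith
    calc c₂ * s * K ≤ c₂ * s * (2 * M₁ * 2 ^ J) := by gcongr
      _ = _ := by ring
  set GT : Finset ℕ → Finset (Finset ℕ) := fun T₀ => (((Icc 1 H).powerset.filter (fun S =>
    ((1 * 1 : ℕ) : ℤ) ∣ vv b K (wT b K e f w T₀) (((f : ℤ) - e) * (b : ℤ) ^ w.length) S - 0)).filter
    (fun S => ∀ p ∈ PP N J, ¬ ∃ z ∈ Zq 1 p, (p : ℤ) ∣ vv b K (wT b K e f w T₀) (((f : ℤ) - e) * (b : ℤ) ^ w.length) S - z)) with hGT
  have h1 : ∀ T₀ ∈ (Mid K).powerset, ((GT T₀).card : ℝ) ≤ 2 ^ H * (6 * c₂ * s * M₁ + T) / K := by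
    intro T₀ hT₀
    rw [mem_powerset] at hT₀
    obtain ⟨g1, g2⟩ := hmain w.length 1 (wT b K e f w T₀) (Zq 1) one_pos (by
      rw [Nat.cast_one]
      apply Real.one_le_exp
      apply div_nonneg (by positivity)
      exact Real.log_natCast_nonneg _) (Nat.coprime_one_right 1) (by
        rw [Nat.cast_one]
        exact isCoprime_one_left)
      (fun p hp _ => ⟨Zq_sub 1 p hp, Zq_le 1 p⟩) (by
        intro p hp _ hpq
        have := Nat.le_of_dvd one_pos hpq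
        have := hp.two_le
        omega) (by
        intro S hS
        rw [mem_powerset] at hS
        exact wT_nonneg b K e f w T₀ S hT₀ hS) 0
    set A : ℝ := cnt (Icc 1 H).powerset (vv b K (wT b K e f w T₀) (((f : ℤ) - e) * (b : ℤ) ^ w.length)) (1 * 1) 0 with hA
    have hA1 : A = 2 ^ H := by
      rw [hA]
      unfold cnt
      rw [filter_true_of_mem (fun S _ => by simp), card_powerset, Nat.card_Icc]
      push_cast
      congr 1
    have hA0 : 0 ≤ A := cnt_nonneg _ _ _ _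
    have h2 := (abs_le.1 g2).2
    have h3 : A * W ≤ 2 * 2 ^ H * (c₂ * s * (2 * M₁) / K) := by
      have h33 : A ≤ 2 * 2 ^ H := by
        rw [hA1]
        have : (0 : ℝ) < 2 ^ H := by positivity
        linarith
      exact mul_le_mul h33 hWle hW0 (by positivity)
    have h4 : (2 : ℝ) ^ H / (1 : ℕ) * (T / (K : ℝ) ^ (1 + 1)) ≤ 2 ^ H * T / K := by
      have hK1 : (1 : ℝ) ≤ K := by
        have : 1 ≤ K := by omega
        exact_mod_cast this
      have hKK : (K : ℝ) ^ 1 ≤ (K : ℝ) ^ (1 + 1) := pow_le_pow_right₀ hK1 (by norm_num)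
      calc (2 : ℝ) ^ H / (1 : ℕ) * (T / (K : ℝ) ^ (1 + 1)) ≤ 2 ^ H / (1 : ℕ) * (T / (K : ℝ) ^ 1) := by
            apply mul_le_mul_of_nonneg_left _ (by positivity)
            exact div_le_div_of_nonneg_left hT (by positivity) hKK
        _ = 2 ^ H * T / K := by rw [pow_one, Nat.cast_one, div_one]; ring
    have h5 : ((GT T₀).card : ℝ) - A * W ≤ 1 / 2 * (A * W) + 2 ^ H / (1 : ℕ) * (T / (K : ℝ) ^ (1 + 1)) := by
      refine le_trans (le_of_eq ?_) h2
      rw [hGT]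
    have h6 : 2 ^ H * (6 * c₂ * s * M₁ + T) / K =
        3 / 2 * (2 * 2 ^ H * (c₂ * s * (2 * M₁) / K)) + 2 ^ H * T / K := by ring
    rw [h6]
    linarith
  have h2 : P ⊆ (Mid K).powerset.biUnion (fun T₀ => (GT T₀).image (fun S =>
      (vv b K (wT b K e f w T₀) (((f : ℤ) - e) * (b : ℤ) ^ w.length) S).toNat)) := by
    intro n hn
    obtain ⟨g5, g1, g2, v, g3, g4⟩ := hP n hn
    obtain ⟨T₀, hT₀, S, hS, hnS⟩ := exists_Sw b K e f n w v g1 g2 g3 g4
    rw [mem_biUnion]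
    refine ⟨T₀, hT₀, ?_⟩
    rw [mem_image]
    refine ⟨S, ?_, ?_⟩
    · rw [hGT, mem_filter, mem_filter]
      rw [← hnS]
      refine ⟨⟨hS, by simp⟩, ?_⟩
      rintro p hp ⟨z, hz, hpz⟩
      obtain ⟨hp1, hp2, hp3⟩ := (mem_PP N J p).1 hp
      have hz0 : z = 0 := by
        unfold Zq at hz
        split_ifs at hz
        · simp at hz
        · exact mem_singleton.1 hz
      rw [hz0, Nat.cast_zero, sub_zero] at hpz
      have h5 : p = n := (Nat.prime_dvd_prime_iff_eq hp1 g5).1 (by exact_mod_cast hpz)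
      have h7 : b ^ (K + 2 * w.length - 1) ≤ n := by
        have := Nat.base_pow_length_digits_le b n (by omega) g5.ne_zero
        rw [g1] at this
        have h4 : b ^ (K + 2 * w.length) = b * b ^ (K + 2 * w.length - 1) := by rw [← pow_succ']; congr 1; omega
        rw [h4] at this
        exact Nat.le_of_mul_le_mul_left this (by omega)
      have h7' : b ^ (K - 1) ≤ n := (Nat.pow_le_pow_right (by omega) (by omega)).trans h7
      have h8 : 2 ^ ((K - 1) * 3) ≤ 2 ^ K := by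
        calc 2 ^ ((K - 1) * 3) = (2 ^ (K - 1)) ^ 3 := by rw [pow_mul]
          _ ≤ (b ^ (K - 1)) ^ 3 := Nat.pow_le_pow_left (Nat.pow_le_pow_left hb _) _
          _ ≤ p ^ 3 := by rw [h5]; exact Nat.pow_le_pow_left h7' _
          _ ≤ (2 ^ 2 ^ J) ^ 3 := Nat.pow_le_pow_left hp3 _
          _ ≤ (2 ^ 2 ^ J) ^ M₁ := Nat.pow_le_pow_right (Nat.pow_pos (by norm_num)) hM₁
          _ = 2 ^ (M₁ * 2 ^ J) := by rw [← pow_mul, mul_comm]
          _ ≤ 2 ^ K := Nat.pow_le_pow_right (by norm_num) hJK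
      have h9 := (Nat.pow_le_pow_iff_right (by norm_num : 1 < 2)).1 h8
      omega
    · rw [← hnS]
      rfl
  have h3 : (P.card : ℝ) ≤ ∑ T₀ ∈ (Mid K).powerset, ((GT T₀).card : ℝ) := by
    have h4 : P.card ≤ ∑ T₀ ∈ (Mid K).powerset, (GT T₀).card := by
      refine (card_le_card h2).trans (card_biUnion_le.trans ?_)
      exact sum_le_sum fun T₀ _ => card_image_le
    exact_mod_cast h4
  have h5 : (((Mid K).powerset.card : ℕ) : ℝ) ≤ 8 := by
    rw [card_powerset]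
    have : 2 ^ (Mid K).card ≤ 2 ^ 3 := Nat.pow_le_pow_right (by norm_num) (Mid_card K (by omega))
    exact_mod_cast this
  have h6 : (2 : ℝ) ^ H ≤ (2 : ℝ) ^ ((K : ℝ) / 2) := by
    rw [← Real.rpow_natCast]
    apply Real.rpow_le_rpow_of_exponent_le (by norm_num)
    have : 2 * H ≤ K := by omega
    have : (2 * H : ℝ) ≤ K := by exact_mod_cast this
    linarith
  calc (P.card : ℝ) ≤ ∑ T₀ ∈ (Mid K).powerset, ((GT T₀).card : ℝ) := h3
    _ ≤ ∑ _T₀ ∈ (Mid K).powerset, (2 ^ H * (6 * c₂ * s * M₁ + T) / K) := sum_le_sum h1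
    _ = ((Mid K).powerset.card : ℝ) * (2 ^ H * (6 * c₂ * s * M₁ + T) / K) := by rw [sum_const, nsmul_eq_mul]
    _ ≤ 8 * ((2 : ℝ) ^ ((K : ℝ) / 2) * (6 * c₂ * s * M₁ + T) / K) := by gcongr
    _ = _ := by ring

end Pool.Agent.Run7.h620.PD
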